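import Pool.Agent.Lib.MP_a2d8aa_co.Rg.Basic

/-!
Acyclic colourings with `q` colours give regular representations in dimension `q` (MP_a2d8aa_co).
-/

set_option autoImplicit false

open Matrix

namespace Pool.Agent.Lib.MP_a2d8aa_co.Rg

variable {V : Type*} [Fintype V]

/-- a nonempty set of vertices of a forest contains a vertex with at most one neighbour in it -/
theorem exists_leaf (G : SimpleGraph V) [DecidableEq V] [DecidableRel G.Adj] {S : Set V}
    (hG : (G.induce S).IsAcyclic) (W : Finset V) (hWS : ∀ w ∈ W, w ∈ S) (hne : W.Nonempty) :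
    ∃ u ∈ W, (W.filter (fun v => G.Adj u v)).card ≤ 1 := by
  classical
  by_contra hcon
  push Not at hcon
  have hac : (G.induce (W : Set V)).IsAcyclic := by
    let f : (G.induce (W : Set V)) →g (G.induce S) :=
      { toFun := fun x => ⟨x.1, hWS x.1 x.2⟩
        map_rel' := fun {a b} h => h }
    refine hG.comap f (fun x y hxy => ?_)
    exact Subtype.ext (congrArg (fun z : S => (z : V)) hxy)
  obtain ⟨u, hu⟩ := hne
  let C := (G.induce (W : Set V)).connectedComponentMk ⟨u, hu⟩
  have hT := hac.isTree_connectedComponent C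
  have hmemC : ∀ {x y : (W : Set V)}, x ∈ C.supp → (G.induce (W : Set V)).Adj x y → y ∈ C.supp := by
    intro x y hx hxy
    rw [SimpleGraph.ConnectedComponent.mem_supp_iff] at hx ⊢
    rw [← hx]
    exact (SimpleGraph.ConnectedComponent.connectedComponentMk_eq_of_adj hxy).symm
  have hnb : ∀ x : C, ∃ y z : C, y ≠ z ∧ C.toSimpleGraph.Adj x y ∧ C.toSimpleGraph.Adj x z := by
    rintro ⟨⟨x, hxW⟩, hxC⟩
    have h2 := hcon x hxW
    obtain ⟨y, hy, z, hz, hyz⟩ := Finset.one_lt_card.1 h2
    rw [Finset.mem_filter] at hy hz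
    refine ⟨⟨⟨y, hy.1⟩, hmemC hxC hy.2⟩, ⟨⟨z, hz.1⟩, hmemC hxC hz.2⟩, ?_, hy.2, hz.2⟩
    intro h
    apply hyz
    exact congrArg (fun t : C => ((t.1 : (W : Set V)) : V)) h
  have hu' : (⟨u, hu⟩ : (W : Set V)) ∈ C.supp := rfl
  obtain ⟨y, z, hyz, -, -⟩ := hnb ⟨⟨u, hu⟩, hu'⟩
  have : Nontrivial C := ⟨⟨y, z, hyz⟩⟩
  obtain ⟨x, hx⟩ := hT.exists_vert_degree_one_of_nontrivial
  obtain ⟨y, z, hyz, hy, hz⟩ := hnb x
  have h1 : ({y, z} : Finset C) ⊆ C.toSimpleGraph.neighborFinset x := by
    intro t ht
    rw [Finset.mem_insert, Finset.mem_singleton] at ht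
    rw [SimpleGraph.mem_neighborFinset]
    rcases ht with rfl | rfl
    · exact hy
    · exact hz
  have h2 := Finset.card_le_card h1
  rw [Finset.card_pair hyz, SimpleGraph.card_neighborFinset_eq_degree, hx] at h2
  omega

/-- a proper colouring in which every two colour classes induce a forest gives a regular
representation by the standard basis vectors -/
theorem regX_of_coloring (G : SimpleGraph V) {q : ℕ} (col : V → Fin q)
    (hproper : ∀ u v, G.Adj u v → col u ≠ col v)
    (hforest : ∀ s t, (G.induce {v | col v = s ∨ col v = t}).IsAcyclic) : RegX G q := by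
  classical
  refine ⟨fun v => Pi.single (col v) 1, ⟨fun i j hij => ?_, fun X hX hF hk => ?_⟩, fun v hv => ?_⟩
  · rw [single_dotProduct, Pi.single_eq_of_ne (hproper i j hij), mul_zero]
  · by_contra hcon
    push Not at hcon
    obtain ⟨i0, j0, h0⟩ := hcon
    have hsum : ∀ i t, ∑ j, (if col j = t then X i j else 0) = 0 := by
      intro i t
      have h1 := congrFun (hk i) t
      rw [Finset.sum_apply] at h1
      refine Eq.trans (Finset.sum_congr rfl (fun j _ => ?_)) h1
      rw [Pi.smul_apply, smul_eq_mul]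
      by_cases hj : col j = t
      · rw [if_pos hj, hj, Pi.single_eq_same, mul_one]
      · rw [if_neg hj, Pi.single_eq_of_ne (fun h => hj h.symm), mul_zero]
    let W : Finset V := Finset.univ.filter (fun i => (col i = col i0 ∨ col i = col j0) ∧
      ∃ j, (col j = col i0 ∨ col j = col j0) ∧ X i j ≠ 0)
    have hW : W.Nonempty :=
      ⟨i0, Finset.mem_filter.2 ⟨Finset.mem_univ _, Or.inl rfl, j0, Or.inr rfl, h0⟩⟩
    obtain ⟨u, hu, hcard⟩ := exists_leaf G (hforest (col i0) (col j0)) W (fun w hw => by
      simp only [W, Finset.mem_filter, Finset.mem_univ, true_and] at hw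
      exact hw.1) hW
    have hu' := hu
    simp only [W, Finset.mem_filter, Finset.mem_univ, true_and] at hu'
    obtain ⟨hucol, j, hjcol, hXj⟩ := hu'
    -- a second neighbour of the same colour
    obtain ⟨j', hj'ne, hj'col, hXj'⟩ : ∃ j', j' ≠ j ∧ col j' = col j ∧ X u j' ≠ 0 := by
      by_contra hcon
      push Not at hcon
      have h1 := hsum u (col j)
      rw [Finset.sum_eq_single j] at h1
      · rw [if_pos rfl] at h1
        exact hXj h1
      · intro j' _ hne
        by_cases hc : col j' = col j
        · rw [if_pos hc]; exact hcon j' hne hc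
        · rw [if_neg hc]
      · intro h; exact absurd (Finset.mem_univ j) h
    have hmem : ∀ t, col t = col j → X u t ≠ 0 → t ∈ W.filter (fun v => G.Adj u v) := by
      intro t ht hXt
      rw [Finset.mem_filter]
      refine ⟨?_, hF u t hXt⟩
      simp only [W, Finset.mem_filter, Finset.mem_univ, true_and]
      refine ⟨?_, u, hucol, ?_⟩
      · rw [ht]; exact hjcol
      · rw [hX]; exact hXt
    have h2 : ({j', j} : Finset V) ⊆ W.filter (fun v => G.Adj u v) := by
      intro t ht
      rw [Finset.mem_insert, Finset.mem_singleton] at ht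
      rcases ht with rfl | rfl
      · exact hmem _ hj'col hXj'
      · exact hmem _ rfl hXj
    have h3 := Finset.card_le_card h2
    rw [Finset.card_pair hj'ne] at h3
    omega
  · have := congrFun hv (col v)
    simp at this

end Pool.Agent.Lib.MP_a2d8aa_co.Rg
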