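import Mathlib

/-!
Regular orthogonal representations (MP_a2d8aa_co).

`F` is an orthogonality graph: adjacent vertices get orthogonal vectors.  A representation `c` is
regular if the only symmetric `X` supported on the edges of `F` with `∑ j, X i j • c j = 0` for
all `i` is `X = 0`.
-/

set_option autoImplicit false

open Matrix

namespace Pool.Agent.Lib.MP_a2d8aa_co.Rg

variable {V : Type*} [Fintype V]

/-- regular orthogonal representations -/
structure RegRep (F : SimpleGraph V) {k : ℕ} (c : V → Fin k → ℝ) : Prop where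
  orth : ∀ i j, F.Adj i j → c i ⬝ᵥ c j = 0
  reg : ∀ X : V → V → ℝ, (∀ i j, X i j = X j i) → (∀ i j, X i j ≠ 0 → F.Adj i j) →
    (∀ i, ∑ j, X i j • c j = 0) → ∀ i j, X i j = 0

/-- `F` has a regular representation in dimension `k` -/
def Reg (F : SimpleGraph V) (k : ℕ) : Prop := ∃ c : V → Fin k → ℝ, RegRep F c

/-- `F` has a regular representation in dimension `k` by non-zero vectors -/
def RegX (F : SimpleGraph V) (k : ℕ) : Prop := ∃ c : V → Fin k → ℝ, RegRep F c ∧ ∀ v, c v ≠ 0

theorem RegRep.mono {F F' : SimpleGraph V} {k : ℕ} {c : V → Fin k → ℝ}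
    (h : ∀ i j, F.Adj i j → F'.Adj i j) (hc : RegRep F' c) : RegRep F c :=
  ⟨fun i j hij => hc.orth i j (h i j hij),
    fun X hX hF hk => hc.reg X hX (fun i j hij => h i j (hF i j hij)) hk⟩

theorem Reg.mono {F F' : SimpleGraph V} {k : ℕ} (h : ∀ i j, F.Adj i j → F'.Adj i j)
    (hr : Reg F' k) : Reg F k := by
  obtain ⟨c, hc⟩ := hr
  exact ⟨c, hc.mono h⟩

theorem RegX.mono {F F' : SimpleGraph V} {k : ℕ} (h : ∀ i j, F.Adj i j → F'.Adj i j)
    (hr : RegX F' k) : RegX F k := by
  obtain ⟨c, hc, h0⟩ := hr
  exact ⟨c, hc.mono h, h0⟩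

theorem RegX.reg {F : SimpleGraph V} {k : ℕ} (hr : RegX F k) : Reg F k := by
  obtain ⟨c, hc, -⟩ := hr
  exact ⟨c, hc⟩

/-- the vector with first coordinate `t` and the others `w` -/
def cn {k : ℕ} (t : ℝ) (w : Fin k → ℝ) : Fin (k + 1) → ℝ := vecCons t w

theorem cn_dot {k : ℕ} (t s : ℝ) (w z : Fin k → ℝ) :
    cn t w ⬝ᵥ cn s z = t * s + w ⬝ᵥ z := by
  unfold cn
  rw [cons_dotProduct_cons]

theorem cn_zero {k : ℕ} (t : ℝ) (w : Fin k → ℝ) : cn t w 0 = t := rfl

theorem cn_succ {k : ℕ} (t : ℝ) (w : Fin k → ℝ) (i : Fin k) : cn t w i.succ = w i := rfl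

theorem sum_cn {k : ℕ} (y t : V → ℝ) (w : V → Fin k → ℝ) :
    ∑ j, y j • cn (t j) (w j) = cn (∑ j, y j * t j) (∑ j, y j • w j) := by
  funext i
  refine Fin.cases ?_ (fun i => ?_) i
  · rw [cn_zero, Finset.sum_apply]
    rfl
  · rw [cn_succ, Finset.sum_apply, Finset.sum_apply]
    rfl

theorem cn_eq_zero {k : ℕ} {t : ℝ} {w : Fin k → ℝ} (h : cn t w = 0) : t = 0 ∧ w = 0 := by
  refine ⟨?_, ?_⟩
  · have := congrFun h 0
    rwa [cn_zero] at this
  · funext i
    have := congrFun h i.succ
    rwa [cn_succ] at this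

/-- one more dimension -/
theorem Reg.succ {F : SimpleGraph V} {k : ℕ} (hr : Reg F k) : Reg F (k + 1) := by
  obtain ⟨c, hc⟩ := hr
  refine ⟨fun v => cn 0 (c v), ⟨fun i j hij => ?_, fun X hX hF hk => ?_⟩⟩
  · rw [cn_dot, hc.orth i j hij]; simp
  · refine hc.reg X hX hF (fun i => ?_)
    have h := hk i
    rw [sum_cn] at h
    exact (cn_eq_zero h).2

theorem Reg.of_le {F : SimpleGraph V} {k m : ℕ} (hkm : k ≤ m) (hr : Reg F k) : Reg F m := by
  induction hkm with
  | refl => exact hr
  | step _ ih => exact ih.succ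

/-- deleting a vertex costs one dimension -/
theorem Reg.delete {F F' : SimpleGraph V} {k : ℕ} (x : V)
    (h : ∀ i j, i ≠ x → j ≠ x → F.Adj i j → F'.Adj i j) (hr : Reg F' k) : Reg F (k + 1) := by
  classical
  obtain ⟨c, hc⟩ := hr
  refine ⟨fun v => if v = x then cn 1 0 else cn 0 (c v), ⟨fun i j hij => ?_,
    fun X hX hF hk => ?_⟩⟩
  · by_cases hi : i = x
    · have hj : j ≠ x := fun hj => F.loopless.irrefl x (by rw [hi, hj] at hij; exact hij)
      simp only [hi, if_true, hj, if_false]
      rw [cn_dot]; simp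
    · by_cases hj : j = x
      · simp only [hi, hj, if_true, if_false]
        rw [cn_dot]; simp
      · simp only [hi, hj, if_false]
        rw [cn_dot, hc.orth i j (h i j hi hj hij)]; simp
  · have h1 : ∀ v, (if v = x then cn 1 0 else cn 0 (c v) : Fin (k + 1) → ℝ) =
        cn (if v = x then 1 else 0) (if v = x then 0 else c v) := by
      intro v; split_ifs <;> rfl
    have hx : ∀ i, X i x = 0 := by
      intro i
      have h2 := hk i
      simp only [h1] at h2
      rw [sum_cn] at h2
      have h3 := (cn_eq_zero h2).1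
      simpa using h3
    have hx' : ∀ j, X x j = 0 := fun j => by rw [hX, hx]
    refine hc.reg X hX (fun i j hij => ?_) (fun i => ?_)
    · have hi : i ≠ x := fun hi => hij (by rw [hi, hx'])
      have hj : j ≠ x := fun hj => hij (by rw [hj, hx])
      exact h i j hi hj (hF i j hij)
    · have h2 := hk i
      simp only [h1] at h2
      rw [sum_cn] at h2
      have h3 := (cn_eq_zero h2).2
      rw [← h3]
      refine Finset.sum_congr rfl (fun j _ => ?_)
      by_cases hj : j = x
      · rw [hj, hx]; simp
      · simp [hj]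

/-- adding a vertex whose neighbours (fewer than `k`) are pairwise adjacent -/
theorem RegX.extend {F F' : SimpleGraph V} {k : ℕ} (v : V) (N : Finset V) (hcard : N.card < k)
    (hN : ∀ w, F.Adj v w → w ∈ N)
    (hcl : ∀ i j, F.Adj v i → F.Adj v j → i ≠ j → F'.Adj i j)
    (h : ∀ i j, i ≠ v → j ≠ v → F.Adj i j → F'.Adj i j) (hr : RegX F' k) : RegX F k := by
  classical
  obtain ⟨c, hc, h0⟩ := hr
  obtain ⟨z, hz0, hz⟩ : ∃ z : Fin k → ℝ, z ≠ 0 ∧ ∀ w ∈ N, c w ⬝ᵥ z = 0 := by
    let f : (Fin k → ℝ) →ₗ[ℝ] (N → ℝ) :=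
      LinearMap.pi (fun w => dotProductBilin ℝ ℝ (c w))
    have hker : LinearMap.ker f ≠ ⊥ := by
      apply LinearMap.ker_ne_bot_of_finrank_lt
      simpa using hcard
    obtain ⟨z, hz, hz0⟩ := Submodule.exists_mem_ne_zero_of_ne_bot hker
    refine ⟨z, hz0, fun w hw => ?_⟩
    have := congrFun (LinearMap.mem_ker.1 hz) ⟨w, hw⟩
    simpa [f] using this
  refine ⟨fun w => if w = v then z else c w, ⟨fun i j hij => ?_, fun X hX hF hk => ?_⟩,
    fun w => ?_⟩
  · by_cases hi : i = v
    · have hj : j ≠ v := fun hj => F.loopless.irrefl v (by rw [hi, hj] at hij; exact hij)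
      simp only [hi, hj, if_true, if_false]
      rw [dotProduct_comm]
      exact hz j (hN j (hi ▸ hij))
    · by_cases hj : j = v
      · simp only [hi, hj, if_true, if_false]
        exact hz i (hN i (hj ▸ hij.symm))
      · simp only [hi, hj, if_false]
        exact hc.orth i j (h i j hi hj hij)
  · have hv : ∀ i, X v i = 0 := by
      intro i
      by_contra hi
      have hvi := hF v i hi
      have hiv : i ≠ v := hvi.ne'
      have h1 := congrArg (fun w => c i ⬝ᵥ w) (hk v)
      simp only [dotProduct_zero, dotProduct_sum, dotProduct_smul, smul_eq_mul] at h1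
      rw [Finset.sum_eq_single i] at h1
      · simp only [hiv, if_false, mul_eq_zero, dotProduct_self_eq_zero] at h1
        exact h1.elim hi (h0 i)
      · intro j _ hji
        by_cases hj : X v j = 0
        · rw [hj, zero_mul]
        · have hvj := hF v j hj
          have hjv : j ≠ v := hvj.ne'
          simp only [hjv, if_false]
          rw [hc.orth i j (hcl i j hvi hvj hji.symm), mul_zero]
      · intro hh
        exact absurd (Finset.mem_univ i) hh
    have hv' : ∀ i, X i v = 0 := fun i => by rw [hX, hv]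
    refine hc.reg X hX (fun i j hij => ?_) (fun i => ?_)
    · have hi : i ≠ v := fun hi => hij (by rw [hi, hv])
      have hj : j ≠ v := fun hj => hij (by rw [hj, hv'])
      exact h i j hi hj (hF i j hij)
    · rw [← hk i]
      refine Finset.sum_congr rfl (fun j _ => ?_)
      by_cases hj : j = v
      · rw [hj, hv']; simp
      · simp [hj]
  · by_cases hw : w = v
    · simp only [hw, if_true]; exact hz0
    · simp only [hw, if_false]; exact h0 w

/-- suppressing a vertex `v` of degree two with non-adjacent neighbours `a`, `b` (in the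
complement) costs one dimension -/
theorem Reg.suppress {F F' : SimpleGraph V} {k : ℕ} {v a b : V} (hav : a ≠ v) (hbv : b ≠ v)
    (hab : a ≠ b) (hva : ¬ F.Adj v a) (hvb : ¬ F.Adj v b)
    (h : ∀ i j, i ≠ v → j ≠ v → ¬ (i = a ∧ j = b) → ¬ (i = b ∧ j = a) → F.Adj i j → F'.Adj i j)
    (hr : Reg F' k) : Reg F (k + 1) := by
  classical
  obtain ⟨c, hc⟩ := hr
  set μ : ℝ := c a ⬝ᵥ c b with hμ
  let t : V → ℝ := fun w => if w = v then 1 else if w = a then 1 else if w = b then -μ else 0
  let w : V → Fin k → ℝ := fun w => if w = v then 0 else c w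
  have htv : t v = 1 := by simp [t]
  have hta : t a = 1 := by simp [t, hav]
  have htb : t b = -μ := by simp [t, hbv, hab.symm]
  have ht : ∀ i, i ≠ v → i ≠ a → i ≠ b → t i = 0 := by
    intro i h1 h2 h3; simp [t, h1, h2, h3]
  have hwv : w v = 0 := by simp [w]
  have hw : ∀ i, i ≠ v → w i = c i := by
    intro i h1; simp [w, h1]
  have horth1 : ∀ j, j ≠ v → F.Adj v j → cn (t v) (w v) ⬝ᵥ cn (t j) (w j) = 0 := by
    intro j hj hvj
    have hja : j ≠ a := fun hh => hva (hh ▸ hvj)
    have hjb : j ≠ b := fun hh => hvb (hh ▸ hvj)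
    rw [cn_dot, ht j hj hja hjb, hwv]; simp
  have horthab : cn (t a) (w a) ⬝ᵥ cn (t b) (w b) = 0 := by
    rw [cn_dot, hta, htb, hw a hav, hw b hbv, ← hμ]; ring
  refine ⟨fun i => cn (t i) (w i), ⟨fun i j hij => ?_, fun X hX hF hk => ?_⟩⟩
  · by_cases hi : i = v
    · rw [hi] at hij ⊢
      exact horth1 j hij.ne' hij
    · by_cases hj : j = v
      · rw [hj] at hij ⊢
        rw [dotProduct_comm]
        exact horth1 i hi hij.symm
      · by_cases h1 : i = a ∧ j = b
        · rw [h1.1, h1.2]; exact horthab
        · by_cases h2 : i = b ∧ j = a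
          · rw [h2.1, h2.2, dotProduct_comm]; exact horthab
          · have h3 := hc.orth i j (h i j hi hj h1 h2 hij)
            rw [cn_dot, hw i hi, hw j hj, h3, add_zero]
            have hij' : i ≠ j := hij.ne
            by_cases hia : i = a
            · have hja : j ≠ a := fun hh => hij' (hia.trans hh.symm)
              have hjb : j ≠ b := fun hh => h1 ⟨hia, hh⟩
              rw [ht j hj hja hjb, mul_zero]
            · by_cases hib : i = b
              · have hjb : j ≠ b := fun hh => hij' (hib.trans hh.symm)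
                have hja : j ≠ a := fun hh => h2 ⟨hib, hh⟩
                rw [ht j hj hja hjb, mul_zero]
              · rw [ht i hi hia hib, zero_mul]
  · have hk1 : ∀ i, X i v + X i a - μ * X i b = 0 := by
      intro i
      have h2 := hk i
      rw [sum_cn] at h2
      have h3 := (cn_eq_zero h2).1
      have h4 : ∑ j, X i j * t j = X i v * t v + X i a * t a + X i b * t b := by
        rw [← Finset.sum_subset (Finset.subset_univ ({v, a, b} : Finset V))]
        · rw [Finset.sum_insert, Finset.sum_insert, Finset.sum_singleton]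
          · ring
          · simp [hab]
          · simp [hav.symm, hbv.symm]
        · intro j _ hj
          simp only [Finset.mem_insert, Finset.mem_singleton, not_or] at hj
          rw [ht j hj.1 hj.2.1 hj.2.2, mul_zero]
      rw [h4, htv, hta, htb] at h3
      linarith
    have hbv0 : X b v = 0 := by
      by_contra hh
      exact hvb (hF b v hh).symm
    have hbb0 : X b b = 0 := by
      by_contra hh
      exact F.loopless.irrefl b (hF b b hh)
    have hba0 : X b a = 0 := by
      have := hk1 b
      rw [hbv0, hbb0] at this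
      linarith
    have hab0 : X a b = 0 := by rw [hX, hba0]
    have hk2 : ∀ i, ∑ j, X i j • w j = 0 := by
      intro i
      have h2 := hk i
      rw [sum_cn] at h2
      exact (cn_eq_zero h2).2
    have key := hc.reg (fun i j => if i = v ∨ j = v then 0 else X i j)
      (fun i j => by simp only [hX i j, or_comm])
      (fun i j hij => by
        simp only [ne_eq, ite_eq_left_iff, not_or, not_forall] at hij
        obtain ⟨⟨hi, hj⟩, hne⟩ := hij
        refine h i j hi hj ?_ ?_ (hF i j hne)
        · rintro ⟨rfl, rfl⟩; exact hne hab0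
        · rintro ⟨rfl, rfl⟩; exact hne hba0)
      (fun i => by
        by_cases hi : i = v
        · simp [hi]
        · rw [← hk2 i]
          refine Finset.sum_congr rfl (fun j _ => ?_)
          by_cases hj : j = v
          · simp [hj, hwv]
          · simp [hi, hj, hw j hj])
    have key' : ∀ i j, i ≠ v → j ≠ v → X i j = 0 := by
      intro i j hi hj
      have := key i j
      simpa [hi, hj] using this
    have hv : ∀ i, X i v = 0 := by
      intro i
      by_cases hi : i = v
      · rw [hi]
        by_contra hh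
        exact F.loopless.irrefl v (hF v v hh)
      · have := hk1 i
        rw [key' i a hi hav, key' i b hi hbv] at this
        linarith
    intro i j
    by_cases hi : i = v
    · rw [hi, hX, hv]
    · by_cases hj : j = v
      · rw [hj, hv]
      · exact key' i j hi hj

end Pool.Agent.Lib.MP_a2d8aa_co.Rg
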