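import Mathlib

/-!
Connected vertex sets of a graph, described by cuts (MP_a2d8aa_co).
-/

set_option autoImplicit false

namespace Pool.Agent.Lib.MP_a2d8aa_co.Rg

variable {V : Type*} [DecidableEq V]

/-- there is an edge between `X` and `Y` -/
def Touch (G : SimpleGraph V) (X Y : Finset V) : Prop := ∃ u ∈ X, ∃ w ∈ Y, G.Adj u w

/-- `X` is nonempty and connected in `G`: every proper nonempty part of `X` has an edge to the
rest of `X` -/
def Conn (G : SimpleGraph V) (X : Finset V) : Prop :=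
  X.Nonempty ∧ ∀ A ⊆ X, A.Nonempty → A ≠ X → Touch G A (X \ A)

/-- `C` is a union of components of `U`: no edge leaves `C` inside `U` -/
def Closed (G : SimpleGraph V) (U C : Finset V) : Prop :=
  C ⊆ U ∧ ∀ u ∈ C, ∀ w ∈ U, G.Adj u w → w ∈ C

variable {G : SimpleGraph V} {X Y U C K : Finset V}

theorem Touch.symm (h : Touch G X Y) : Touch G Y X := by
  obtain ⟨u, hu, w, hw, huw⟩ := h
  exact ⟨w, hw, u, hu, huw.symm⟩

theorem Touch.mono {X' Y' : Finset V} (h : Touch G X Y) (hX : X ⊆ X') (hY : Y ⊆ Y') :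
    Touch G X' Y' := by
  obtain ⟨u, hu, w, hw, huw⟩ := h
  exact ⟨u, hX hu, w, hY hw, huw⟩

theorem touch_of_adj {u w : V} (hu : u ∈ X) (hw : w ∈ Y) (h : G.Adj u w) : Touch G X Y :=
  ⟨u, hu, w, hw, h⟩

theorem conn_singleton (G : SimpleGraph V) (x : V) : Conn G {x} := by
  refine ⟨Finset.singleton_nonempty x, fun A hA hne h => ?_⟩
  rcases Finset.subset_singleton_iff.1 hA with h1 | h1
  · rw [h1] at hne; exact absurd hne (by simp)
  · exact absurd h1 h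

/-- a closed part of `U` that meets the connected set `C ⊆ U` contains it -/
theorem Conn.subset_of_closed {D : Finset V} (hC : Conn G C) (hCU : C ⊆ U) (hD : Closed G U D)
    (hmeet : (C ∩ D).Nonempty) : C ⊆ D := by
  by_contra hnot
  have hne : C ∩ D ≠ C := fun h => hnot (Finset.inter_eq_left.1 h)
  obtain ⟨u, hu, w, hw, huw⟩ := hC.2 (C ∩ D) Finset.inter_subset_left hmeet hne
  rw [Finset.mem_inter] at hu
  rw [Finset.mem_sdiff, Finset.mem_inter] at hw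
  exact hw.2 ⟨hw.1, hD.2 u hu.2 w (hCU hw.1) huw⟩

theorem Conn.union (hX : Conn G X) (hY : Conn G Y) (h : Touch G X Y) : Conn G (X ∪ Y) := by
  refine ⟨hX.1.mono Finset.subset_union_left, fun A hA hne hAne => ?_⟩
  by_contra hno
  have hcl : Closed G (X ∪ Y) A := by
    refine ⟨hA, fun u hu w hw huw => ?_⟩
    by_contra hwA
    exact hno ⟨u, hu, w, Finset.mem_sdiff.2 ⟨hw, hwA⟩, huw⟩
  have h1 : (X ∩ A).Nonempty → X ⊆ A :=
    hX.subset_of_closed Finset.subset_union_left hcl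
  have h2 : (Y ∩ A).Nonempty → Y ⊆ A :=
    hY.subset_of_closed Finset.subset_union_right hcl
  obtain ⟨x, hx, y, hy, hxy⟩ := h
  have h3 : X ⊆ A ∧ Y ⊆ A := by
    obtain ⟨z, hz⟩ := hne
    rcases Finset.mem_union.1 (hA hz) with h | h
    · have h4 := h1 ⟨z, Finset.mem_inter.2 ⟨h, hz⟩⟩
      refine ⟨h4, h2 ⟨y, Finset.mem_inter.2 ⟨hy, ?_⟩⟩⟩
      exact hcl.2 x (h4 hx) y (Finset.mem_union_right _ hy) hxy
    · have h4 := h2 ⟨z, Finset.mem_inter.2 ⟨h, hz⟩⟩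
      refine ⟨h1 ⟨x, Finset.mem_inter.2 ⟨hx, ?_⟩⟩, h4⟩
      exact hcl.2 y (h4 hy) x (Finset.mem_union_left _ hx) hxy.symm
  exact hAne (Finset.Subset.antisymm hA (Finset.union_subset h3.1 h3.2))

theorem Conn.union_of_inter (hX : Conn G X) (hY : Conn G Y) (h : (X ∩ Y).Nonempty) :
    Conn G (X ∪ Y) := by
  refine ⟨hX.1.mono Finset.subset_union_left, fun A hA hne hAne => ?_⟩
  by_contra hno
  have hcl : Closed G (X ∪ Y) A := by
    refine ⟨hA, fun u hu w hw huw => ?_⟩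
    by_contra hwA
    exact hno ⟨u, hu, w, Finset.mem_sdiff.2 ⟨hw, hwA⟩, huw⟩
  have h1 : (X ∩ A).Nonempty → X ⊆ A :=
    hX.subset_of_closed Finset.subset_union_left hcl
  have h2 : (Y ∩ A).Nonempty → Y ⊆ A :=
    hY.subset_of_closed Finset.subset_union_right hcl
  obtain ⟨x, hx⟩ := h
  rw [Finset.mem_inter] at hx
  have h3 : X ⊆ A ∧ Y ⊆ A := by
    obtain ⟨z, hz⟩ := hne
    rcases Finset.mem_union.1 (hA hz) with h | h
    · have h4 := h1 ⟨z, Finset.mem_inter.2 ⟨h, hz⟩⟩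
      exact ⟨h4, h2 ⟨x, Finset.mem_inter.2 ⟨hx.2, h4 hx.1⟩⟩⟩
    · have h4 := h2 ⟨z, Finset.mem_inter.2 ⟨h, hz⟩⟩
      exact ⟨h1 ⟨x, Finset.mem_inter.2 ⟨hx.1, h4 hx.2⟩⟩, h4⟩
  exact hAne (Finset.Subset.antisymm hA (Finset.union_subset h3.1 h3.2))

theorem Conn.insert {y : V} (hX : Conn G X) (h : ∃ u ∈ X, G.Adj u y) : Conn G (insert y X) := by
  obtain ⟨u, hu, huy⟩ := h
  have h1 := hX.union (conn_singleton G y) ⟨u, hu, y, Finset.mem_singleton_self y, huy⟩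
  rwa [Finset.union_comm, ← Finset.insert_eq] at h1

theorem conn_pair {x y : V} (h : G.Adj x y) : Conn G {x, y} := by
  have h1 := (conn_singleton G y).insert (y := x) ⟨y, Finset.mem_singleton_self y, h.symm⟩
  exact h1

/-- the component of `x` in `U` -/
theorem exists_comp (G : SimpleGraph V) (U : Finset V) {x : V} (hx : x ∈ U) :
    ∃ C, Conn G C ∧ Closed G U C ∧ x ∈ C := by
  classical
  let P : Finset (Finset V) := U.powerset.filter (fun C => Conn G C ∧ x ∈ C)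
  have hne : P.Nonempty := ⟨{x}, by
    simp only [P, Finset.mem_filter, Finset.mem_powerset, Finset.singleton_subset_iff]
    exact ⟨hx, conn_singleton G x, Finset.mem_singleton_self x⟩⟩
  obtain ⟨C, hC, hmax⟩ := Finset.exists_max_image P Finset.card hne
  simp only [P, Finset.mem_filter, Finset.mem_powerset] at hC hmax
  refine ⟨C, hC.2.1, ⟨hC.1, fun u hu w hw huw => ?_⟩, hC.2.2⟩
  by_contra hwC
  have h1 := hmax (insert w C) ⟨Finset.insert_subset hw hC.1, hC.2.1.insert ⟨u, hu, huw⟩,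
    Finset.mem_insert_of_mem hC.2.2⟩
  rw [Finset.card_insert_of_notMem hwC] at h1
  omega

/-- a nonempty set is connected or it has two different components -/
theorem conn_or_split (G : SimpleGraph V) {U : Finset V} (hU : U.Nonempty) :
    Conn G U ∨ ∃ C D, Conn G C ∧ Conn G D ∧ Closed G U C ∧ Closed G U D ∧ Disjoint C D := by
  obtain ⟨x, hx⟩ := hU
  obtain ⟨C, hC, hCl, hxC⟩ := exists_comp G U hx
  by_cases hCU : C = U
  · left; rwa [hCU] at hC
  · right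
    obtain ⟨y, hyU, hyC⟩ : ∃ y ∈ U, y ∉ C := by
      by_contra hno
      push Not at hno
      exact hCU (Finset.Subset.antisymm hCl.1 hno)
    obtain ⟨D, hD, hDl, hyD⟩ := exists_comp G U hyU
    refine ⟨C, D, hC, hD, hCl, hDl, ?_⟩
    by_contra hdis
    rw [Finset.not_disjoint_iff_nonempty_inter] at hdis
    rw [Finset.inter_comm] at hdis
    exact hyC (hD.subset_of_closed hDl.1 hCl hdis hyD)

/-- if `K` is connected, `y ∈ K` and `C ≠ ∅` is closed in `K - y`, then `C` has a neighbour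
`y` -/
theorem Conn.touch_of_closed_erase {y : V} (hK : Conn G K) (hy : y ∈ K)
    (hC : Closed G (K.erase y) C) (hne : C.Nonempty) : ∃ u ∈ C, G.Adj u y := by
  have hCK : C ⊆ K := hC.1.trans (Finset.erase_subset _ _)
  have hyC : y ∉ C := fun h => (Finset.mem_erase.1 (hC.1 h)).1 rfl
  obtain ⟨u, hu, w, hw, huw⟩ := hK.2 C hCK hne (fun h => hyC (h ▸ hy))
  rw [Finset.mem_sdiff] at hw
  by_cases hwy : w = y
  · exact ⟨u, hu, hwy ▸ huw⟩
  · exact absurd (hC.2 u hu w (Finset.mem_erase.2 ⟨hwy, hw.1⟩) huw) hw.2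

/-- if `K` is connected, `y ∈ K` and `C` is closed in `K - y`, then `K \ C` is connected -/
theorem Conn.sdiff_of_closed_erase {y : V} (hK : Conn G K) (hy : y ∈ K)
    (hC : Closed G (K.erase y) C) : Conn G (K \ C) := by
  have hyC : y ∉ C := fun h => (Finset.mem_erase.1 (hC.1 h)).1 rfl
  have hCK : C ⊆ K := hC.1.trans (Finset.erase_subset _ _)
  refine ⟨⟨y, Finset.mem_sdiff.2 ⟨hy, hyC⟩⟩, fun A hA hne hAne => ?_⟩
  by_contra hno
  -- `B` is the side that misses `y`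
  have key : ∀ B ⊆ K \ C, B.Nonempty → y ∉ B → Touch G B ((K \ C) \ B) := by
    intro B hB hBne hyB
    obtain ⟨u, hu, w, hw, huw⟩ := hK.2 B (hB.trans Finset.sdiff_subset) hBne
      (fun h => hyB (h ▸ hy))
    rw [Finset.mem_sdiff] at hw
    refine ⟨u, hu, w, ?_, huw⟩
    rw [Finset.mem_sdiff, Finset.mem_sdiff]
    refine ⟨⟨hw.1, fun hwC => ?_⟩, hw.2⟩
    have hu2 := Finset.mem_sdiff.1 (hB hu)
    exact hu2.2 (hC.2 w hwC u (Finset.mem_erase.2 ⟨fun h => hyB (h ▸ hu), hu2.1⟩) huw.symm)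
  by_cases hyA : y ∈ A
  · have h1 : ((K \ C) \ A).Nonempty := by
      rw [Finset.sdiff_nonempty]
      exact fun h => hAne (Finset.Subset.antisymm hA h)
    have h2 := key ((K \ C) \ A) Finset.sdiff_subset h1 (fun h => (Finset.mem_sdiff.1 h).2 hyA)
    rw [Finset.sdiff_sdiff_eq_self hA] at h2
    exact hno h2.symm
  · exact hno (key A hA hne hyA)

/-- disjoint connected sets of a connected set `K` grow to a partition of `K` into two
connected sets -/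
theorem Conn.grow {C D : Finset V} (hK : Conn G K) (hC : Conn G C) (hD : Conn G D) (hCK : C ⊆ K)
    (hDK : D ⊆ K) (hCD : Disjoint C D) :
    ∃ C' D', C ⊆ C' ∧ D ⊆ D' ∧ C' ∪ D' = K ∧ Disjoint C' D' ∧ Conn G C' ∧ Conn G D' ∧
      Touch G C' D' := by
  classical
  let P : Finset (Finset V × Finset V) := (K.powerset ×ˢ K.powerset).filter (fun p =>
    C ⊆ p.1 ∧ D ⊆ p.2 ∧ Disjoint p.1 p.2 ∧ Conn G p.1 ∧ Conn G p.2)
  have hne : P.Nonempty := ⟨(C, D), by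
    simp only [P, Finset.mem_filter, Finset.mem_product, Finset.mem_powerset]
    exact ⟨⟨hCK, hDK⟩, subset_rfl, subset_rfl, hCD, hC, hD⟩⟩
  obtain ⟨⟨C', D'⟩, hp, hmax⟩ := Finset.exists_max_image P (fun p => (p.1 ∪ p.2).card) hne
  simp only [P, Finset.mem_filter, Finset.mem_product, Finset.mem_powerset] at hp hmax
  obtain ⟨⟨hC'K, hD'K⟩, hCC', hDD', hdis, hC', hD'⟩ := hp
  have hU : C' ∪ D' = K := by
    by_contra hne2
    obtain ⟨u, hu, w, hw, huw⟩ := hK.2 (C' ∪ D') (Finset.union_subset hC'K hD'K)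
      (hC'.1.mono Finset.subset_union_left) hne2
    rw [Finset.mem_sdiff] at hw
    have hwC : w ∉ C' := fun h => hw.2 (Finset.mem_union_left _ h)
    have hwD : w ∉ D' := fun h => hw.2 (Finset.mem_union_right _ h)
    rcases Finset.mem_union.1 hu with h | h
    · have h1 := hmax (Insert.insert w C', D') ⟨⟨Finset.insert_subset hw.1 hC'K, hD'K⟩,
        hCC'.trans (Finset.subset_insert _ _), hDD',
        Finset.disjoint_insert_left.2 ⟨hwD, hdis⟩, hC'.insert ⟨u, h, huw⟩, hD'⟩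
      simp only [Finset.insert_union] at h1
      rw [Finset.card_insert_of_notMem hw.2] at h1
      omega
    · have h1 := hmax (C', Insert.insert w D') ⟨⟨hC'K, Finset.insert_subset hw.1 hD'K⟩,
        hCC', hDD'.trans (Finset.subset_insert _ _),
        Finset.disjoint_insert_right.2 ⟨hwC, hdis⟩, hC', hD'.insert ⟨u, h, huw⟩⟩
      simp only [Finset.union_insert] at h1
      rw [Finset.card_insert_of_notMem hw.2] at h1
      omega
  refine ⟨C', D', hCC', hDD', hU, hdis, hC', hD', ?_⟩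
  have h1 : C' ≠ K := by
    intro h
    obtain ⟨y, hy⟩ := hD'.1
    have : y ∈ C' := by rw [h, ← hU]; exact Finset.mem_union_right _ hy
    exact (Finset.disjoint_left.1 hdis) this hy
  obtain ⟨u, hu, w, hw, huw⟩ := hK.2 C' hC'K hC'.1 h1
  rw [Finset.mem_sdiff] at hw
  refine ⟨u, hu, w, ?_, huw⟩
  have := hw.1
  rw [← hU, Finset.mem_union] at this
  exact this.resolve_left hw.2

/-- `K₅` is a minor of `G[W]` -/
def K5 (G : SimpleGraph V) (W : Finset V) : Prop :=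
  ∃ X : Fin 5 → Finset V, (∀ i, X i ⊆ W ∧ Conn G (X i)) ∧
    ∀ i j, i < j → Disjoint (X i) (X j) ∧ Touch G (X i) (X j)

theorem K5.mk' {W X₁ X₂ X₃ X₄ X₅ : Finset V}
    (s₁ : X₁ ⊆ W) (s₂ : X₂ ⊆ W) (s₃ : X₃ ⊆ W) (s₄ : X₄ ⊆ W) (s₅ : X₅ ⊆ W)
    (c₁ : Conn G X₁) (c₂ : Conn G X₂) (c₃ : Conn G X₃) (c₄ : Conn G X₄) (c₅ : Conn G X₅)
    (d₁₂ : Disjoint X₁ X₂) (d₁₃ : Disjoint X₁ X₃) (d₁₄ : Disjoint X₁ X₄) (d₁₅ : Disjoint X₁ X₅)
    (d₂₃ : Disjoint X₂ X₃) (d₂₄ : Disjoint X₂ X₄) (d₂₅ : Disjoint X₂ X₅)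
    (d₃₄ : Disjoint X₃ X₄) (d₃₅ : Disjoint X₃ X₅) (d₄₅ : Disjoint X₄ X₅)
    (t₁₂ : Touch G X₁ X₂) (t₁₃ : Touch G X₁ X₃) (t₁₄ : Touch G X₁ X₄) (t₁₅ : Touch G X₁ X₅)
    (t₂₃ : Touch G X₂ X₃) (t₂₄ : Touch G X₂ X₄) (t₂₅ : Touch G X₂ X₅)
    (t₃₄ : Touch G X₃ X₄) (t₃₅ : Touch G X₃ X₅) (t₄₅ : Touch G X₄ X₅) : K5 G W := by
  refine ⟨![X₁, X₂, X₃, X₄, X₅], ?_, ?_⟩
  · intro i
    fin_cases i
    · exact ⟨s₁, c₁⟩
    · exact ⟨s₂, c₂⟩
    · exact ⟨s₃, c₃⟩
    · exact ⟨s₄, c₄⟩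
    · exact ⟨s₅, c₅⟩
  · intro i j hij
    fin_cases i <;> fin_cases j <;>
      first
        | exact absurd hij (by decide)
        | exact ⟨d₁₂, t₁₂⟩ | exact ⟨d₁₃, t₁₃⟩ | exact ⟨d₁₄, t₁₄⟩ | exact ⟨d₁₅, t₁₅⟩
        | exact ⟨d₂₃, t₂₃⟩ | exact ⟨d₂₄, t₂₄⟩ | exact ⟨d₂₅, t₂₅⟩
        | exact ⟨d₃₄, t₃₄⟩ | exact ⟨d₃₅, t₃₅⟩ | exact ⟨d₄₅, t₄₅⟩

/-- no small separations: if all neighbours in `W` of the nonempty set `Z` lie in `Z ∪ S` with
`|S| ≤ 3`, and at least two vertices of `W` lie outside `Z ∪ S`, then `Z = {k}` and `S` is the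
neighbourhood of `k` and independent, of size three -/
def Piece (G : SimpleGraph V) (W : Finset V) : Prop :=
  ∀ Z S : Finset V, Z ⊆ W → S ⊆ W → Disjoint Z S → Z.Nonempty → S.card ≤ 3 →
    (∀ z ∈ Z, ∀ w ∈ W, G.Adj z w → w ∈ Z ∨ w ∈ S) → 2 ≤ (W \ (Z ∪ S)).card →
    S.card = 3 ∧ (∀ s ∈ S, ∀ t ∈ S, ¬ G.Adj s t) ∧ ∃ k, Z = {k} ∧ ∀ s ∈ S, G.Adj k s

end Pool.Agent.Lib.MP_a2d8aa_co.Rg
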