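import Pool.Agent.Lib.MP_a2d8aa_co.Rg.CubDef

/-!
Core, case A, first part (MP_a2d8aa_co).
-/

set_option autoImplicit false

namespace Pool.Agent.Lib.MP_a2d8aa_co.Rg

variable {V : Type*} [DecidableEq V] {G : SimpleGraph V}

private theorem corea1_card {W T : Finset V} {s t : V} (hs : s ∈ W) (ht : t ∈ W) (hst : s ≠ t)
    (hsT : s ∉ T) (htT : t ∉ T) : 2 ≤ (W \ T).card := by
  rw [← Finset.card_pair hst]
  apply Finset.card_le_card
  intro r hr
  simp only [Finset.mem_insert, Finset.mem_singleton] at hr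
  rcases hr with rfl | rfl
  · exact Finset.mem_sdiff.2 ⟨hs, hsT⟩
  · exact Finset.mem_sdiff.2 ⟨ht, htT⟩

/-- the neighbours of a part `C` of `W` outside `C` are among `x, y, z`, and `v`, `t` are two
further vertices -/
private theorem corea1_piece {W C : Finset V} {v x y z t : V} (hP : Piece G W)
    (hCW : C ⊆ W) (hne : C.Nonempty) (hx : x ∈ W) (hy : y ∈ W) (hz : z ∈ W) (ht : t ∈ W)
    (hv : v ∈ W) (hxC : x ∉ C) (hyC : y ∉ C) (hzC : z ∉ C) (htC : t ∉ C) (hvC : v ∉ C)
    (hvt : v ≠ t) (hvx : v ≠ x) (hvy : v ≠ y) (hvz : v ≠ z)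
    (htx : t ≠ x) (hty : t ≠ y) (htz : t ≠ z)
    (hout : ∀ u ∈ C, ∀ r ∈ W, G.Adj u r → r ∈ C ∨ r = x ∨ r = y ∨ r = z) :
    (¬ G.Adj x y ∧ ¬ G.Adj x z ∧ ¬ G.Adj y z) ∧ ∃ k, C = {k} := by
  obtain ⟨-, h2, k, h3, -⟩ := hP C {x, y, z} hCW (by
      intro s hs
      simp only [Finset.mem_insert, Finset.mem_singleton] at hs
      rcases hs with rfl | rfl | rfl
      · exact hx
      · exact hy
      · exact hz) (by
      rw [Finset.disjoint_left]
      intro s h1 h2
      simp only [Finset.mem_insert, Finset.mem_singleton] at h2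
      rcases h2 with rfl | rfl | rfl
      · exact hxC h1
      · exact hyC h1
      · exact hzC h1) hne Finset.card_le_three (by
      intro u hu r hr hur
      simp only [Finset.mem_insert, Finset.mem_singleton]
      exact hout u hu r hr hur)
      (corea1_card hv ht hvt (by
        simp only [Finset.mem_union, Finset.mem_insert, Finset.mem_singleton, not_or]
        exact ⟨hvC, hvx, hvy, hvz⟩) (by
        simp only [Finset.mem_union, Finset.mem_insert, Finset.mem_singleton, not_or]
        exact ⟨htC, htx, hty, htz⟩))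
  exact ⟨⟨h2 x (by simp) y (by simp), h2 x (by simp) z (by simp), h2 y (by simp) z (by simp)⟩,
    k, h3⟩

/-- every component of `M` touches `a, b, c`; it touches `w` or is a single vertex -/
private theorem corea1_key {W C : Finset V} {v a b c w : V} (h : Cub G W v a b c) (hw : w ∈ W)
    (hwv : w ≠ v) (wa : G.Adj w a) (wb : G.Adj w b) (wc : G.Adj w c)
    (hne : C.Nonempty) (hC : Closed G (W \ {a, b, c, v, w}) C) :
    (∃ u ∈ C, G.Adj u a) ∧ (∃ u ∈ C, G.Adj u b) ∧ (∃ u ∈ C, G.Adj u c) ∧
      ((∃ u ∈ C, G.Adj u w) ∨ ∃ k, C = {k}) := by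
  have hva := h.va.ne
  have hvb := h.vb.ne
  have hvc := h.vc.ne
  have hwa := wa.ne
  have hwb := wb.ne
  have hwc := wc.ne
  have hab := h.ab
  have hac := h.ac
  have hbc := h.bc
  have hCW : ∀ u ∈ C, u ∈ W ∧ u ≠ a ∧ u ≠ b ∧ u ≠ c ∧ u ≠ v ∧ u ≠ w := by
    intro u hu
    have h1 := hC.1 hu
    simp only [Finset.mem_sdiff, Finset.mem_insert, Finset.mem_singleton, not_or] at h1
    exact h1
  have hsub : C ⊆ W := fun u hu => (hCW u hu).1
  have haC : a ∉ C := fun hh => (hCW a hh).2.1 rfl
  have hbC : b ∉ C := fun hh => (hCW b hh).2.2.1 rfl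
  have hcC : c ∉ C := fun hh => (hCW c hh).2.2.2.1 rfl
  have hvC : v ∉ C := fun hh => (hCW v hh).2.2.2.2.1 rfl
  have hwC : w ∉ C := fun hh => (hCW w hh).2.2.2.2.2 rfl
  have hout : ∀ u ∈ C, ∀ r ∈ W, G.Adj u r → r ∈ C ∨ r = a ∨ r = b ∨ r = c ∨ r = w := by
    intro u hu r hr hur
    by_contra hno
    simp only [not_or] at hno
    obtain ⟨h1, h2, h3, h4, h5⟩ := hno
    by_cases hrv : r = v
    · subst hrv
      obtain ⟨huW, k1, k2, k3, -⟩ := hCW u hu
      rcases h.only u huW hur.symm with h6 | h6 | h6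
      · exact k1 h6
      · exact k2 h6
      · exact k3 h6
    · apply h1
      apply hC.2 u hu r _ hur
      simp only [Finset.mem_sdiff, Finset.mem_insert, Finset.mem_singleton, not_or]
      exact ⟨hr, h2, h3, h4, hrv, h5⟩
  refine ⟨?_, ?_, ?_, ?_⟩
  · by_contra hno
    have h1 := corea1_piece (v := v) (x := w) (y := b) (z := c) (t := a) h.piece hsub hne hw
      h.hb h.hc h.ha h.hv hwC hbC hcC haC hvC hva hwv.symm hvb hvc hwa.symm hab hac (by
        intro u hu r hr hur
        rcases hout u hu r hr hur with h2 | h2 | h2 | h2 | h2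
        · exact Or.inl h2
        · subst h2; exact absurd ⟨u, hu, hur⟩ hno
        · exact Or.inr (Or.inr (Or.inl h2))
        · exact Or.inr (Or.inr (Or.inr h2))
        · exact Or.inr (Or.inl h2))
    exact h1.1.1 wb
  · by_contra hno
    have h1 := corea1_piece (v := v) (x := w) (y := a) (z := c) (t := b) h.piece hsub hne hw
      h.ha h.hc h.hb h.hv hwC haC hcC hbC hvC hvb hwv.symm hva hvc hwb.symm hab.symm hbc (by
        intro u hu r hr hur
        rcases hout u hu r hr hur with h2 | h2 | h2 | h2 | h2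
        · exact Or.inl h2
        · exact Or.inr (Or.inr (Or.inl h2))
        · subst h2; exact absurd ⟨u, hu, hur⟩ hno
        · exact Or.inr (Or.inr (Or.inr h2))
        · exact Or.inr (Or.inl h2))
    exact h1.1.1 wa
  · by_contra hno
    have h1 := corea1_piece (v := v) (x := w) (y := a) (z := b) (t := c) h.piece hsub hne hw
      h.ha h.hb h.hc h.hv hwC haC hbC hcC hvC hvc hwv.symm hva hvb hwc.symm hac.symm hbc.symm (by
        intro u hu r hr hur
        rcases hout u hu r hr hur with h2 | h2 | h2 | h2 | h2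
        · exact Or.inl h2
        · exact Or.inr (Or.inr (Or.inl h2))
        · exact Or.inr (Or.inr (Or.inr h2))
        · subst h2; exact absurd ⟨u, hu, hur⟩ hno
        · exact Or.inr (Or.inl h2))
    exact h1.1.1 wa
  · by_cases hcw : ∃ u ∈ C, G.Adj u w
    · exact Or.inl hcw
    · right
      have h1 := corea1_piece (v := v) (x := a) (y := b) (z := c) (t := w) h.piece hsub hne h.ha
        h.hb h.hc hw h.hv haC hbC hcC hwC hvC hwv.symm hva hvb hvc hwa hwb hwc (by
          intro u hu r hr hur
          rcases hout u hu r hr hur with h2 | h2 | h2 | h2 | h2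
          · exact Or.inl h2
          · exact Or.inr (Or.inl h2)
          · exact Or.inr (Or.inr (Or.inl h2))
          · exact Or.inr (Or.inr (Or.inr h2))
          · subst h2; exact absurd ⟨u, hu, hur⟩ hcw)
      exact h1.2

theorem coreA1 {W : Finset V} {v a b c w : V} (h : Cub G W v a b c) (hw : w ∈ W) (hwv : w ≠ v)
    (wa : G.Adj w a) (wb : G.Adj w b) (wc : G.Adj w c) :
    K5 G W ∨ (∀ x ∈ W, ∀ y ∈ W, G.Adj x y → x ∈ ({a, b, c} : Finset V) ∨
        y ∈ ({a, b, c} : Finset V)) ∨
      (Conn G (W \ {a, b, c, v, w}) ∧ (∃ m ∈ W \ {a, b, c, v, w}, G.Adj m a) ∧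
        (∃ m ∈ W \ {a, b, c, v, w}, G.Adj m b) ∧ (∃ m ∈ W \ {a, b, c, v, w}, G.Adj m c) ∧
        (∃ m ∈ W \ {a, b, c, v, w}, G.Adj m w)) := by
  have hva := h.va.ne
  have hvb := h.vb.ne
  have hvc := h.vc.ne
  have hwa := wa.ne
  have hwb := wb.ne
  have hwc := wc.ne
  have hab := h.ab
  have hac := h.ac
  have hbc := h.bc
  by_cases hex : ∃ C, Conn G C ∧ Closed G (W \ {a, b, c, v, w}) C ∧ ∃ u ∈ C, G.Adj u w
  · obtain ⟨M₁, hM₁, hcl, u, hu, huw⟩ := hex
    obtain ⟨⟨ua, hua, hua'⟩, ⟨ub, hub, hub'⟩, ⟨uc, huc, huc'⟩, -⟩ :=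
      corea1_key h hw hwv wa wb wc hM₁.1 hcl
    by_cases hall : M₁ = W \ {a, b, c, v, w}
    · right; right
      rw [hall] at hM₁ hu hua hub huc
      exact ⟨hM₁, ⟨ua, hua, hua'⟩, ⟨ub, hub, hub'⟩, ⟨uc, huc, huc'⟩, ⟨u, hu, huw⟩⟩
    · left
      obtain ⟨x, hxM, hxM₁⟩ : ∃ x ∈ W \ {a, b, c, v, w}, x ∉ M₁ := by
        by_contra hno
        push Not at hno
        exact hall (Finset.Subset.antisymm hcl.1 hno)
      obtain ⟨C, hC, hCcl, hxC⟩ := exists_comp G (W \ {a, b, c, v, w}) hxM
      obtain ⟨⟨ta, hta, hta'⟩, ⟨tb, htb, htb'⟩, ⟨tc, htc, htc'⟩, -⟩ :=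
        corea1_key h hw hwv wa wb wc hC.1 hCcl
      have hdis : Disjoint C M₁ := by
        by_contra hd
        rw [Finset.not_disjoint_iff_nonempty_inter] at hd
        exact hxM₁ (hC.subset_of_closed hCcl.1 hcl hd hxC)
      have hmem : ∀ D : Finset V, Closed G (W \ {a, b, c, v, w}) D →
          ∀ r ∈ D, r ∈ W ∧ r ≠ a ∧ r ≠ b ∧ r ≠ c ∧ r ≠ v ∧ r ≠ w := by
        intro D hD r hr
        have h1 := hD.1 hr
        simp only [Finset.mem_sdiff, Finset.mem_insert, Finset.mem_singleton, not_or] at h1
        exact h1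
      refine K5.mk' (X₁ := insert a C) (X₂ := {b, v}) (X₃ := {c}) (X₄ := {w}) (X₅ := M₁)
        ?_ ?_ ?_ ?_ (fun r hr => (hmem M₁ hcl r hr).1) (hC.insert ⟨ta, hta, hta'⟩)
        (conn_pair h.vb.symm) (conn_singleton G c) (conn_singleton G w) hM₁
        ?_ ?_ ?_ ?_ ?_ ?_ ?_ ?_ ?_ ?_ ?_ ?_ ?_ ?_ ?_ ?_ ?_ ?_ ?_ ?_
      · intro t ht
        rcases Finset.mem_insert.1 ht with rfl | h1
        · exact h.ha
        · exact (hmem C hCcl t h1).1
      · intro t ht
        simp only [Finset.mem_insert, Finset.mem_singleton] at ht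
        rcases ht with rfl | rfl
        · exact h.hb
        · exact h.hv
      · intro t ht
        rw [Finset.mem_singleton.1 ht]
        exact h.hc
      · intro t ht
        rw [Finset.mem_singleton.1 ht]
        exact hw
      · rw [Finset.disjoint_left]
        intro t h1 h2
        simp only [Finset.mem_insert, Finset.mem_singleton] at h1 h2
        rcases h1 with rfl | h1
        · rcases h2 with h2 | h2
          · exact hab h2
          · exact hva h2.symm
        · have h3 := hmem C hCcl t h1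
          rcases h2 with h2 | h2
          · exact h3.2.2.1 h2
          · exact h3.2.2.2.2.1 h2
      · rw [Finset.disjoint_left]
        intro t h1 h2
        simp only [Finset.mem_insert, Finset.mem_singleton] at h1 h2
        rcases h1 with rfl | h1
        · exact hac h2
        · exact (hmem C hCcl t h1).2.2.2.1 h2
      · rw [Finset.disjoint_left]
        intro t h1 h2
        simp only [Finset.mem_insert, Finset.mem_singleton] at h1 h2
        rcases h1 with rfl | h1
        · exact hwa h2.symm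
        · exact (hmem C hCcl t h1).2.2.2.2.2 h2
      · rw [Finset.disjoint_left]
        intro t h1 h2
        simp only [Finset.mem_insert] at h1
        rcases h1 with rfl | h1
        · exact (hmem M₁ hcl t h2).2.1 rfl
        · exact (Finset.disjoint_left.1 hdis) h1 h2
      · rw [Finset.disjoint_left]
        intro t h1 h2
        simp only [Finset.mem_insert, Finset.mem_singleton] at h1 h2
        subst h2
        rcases h1 with h1 | h1
        · exact hbc h1.symm
        · exact hvc h1.symm
      · rw [Finset.disjoint_left]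
        intro t h1 h2
        simp only [Finset.mem_insert, Finset.mem_singleton] at h1 h2
        subst h2
        rcases h1 with h1 | h1
        · exact hwb h1
        · exact hwv h1
      · rw [Finset.disjoint_left]
        intro t h1 h2
        simp only [Finset.mem_insert, Finset.mem_singleton] at h1
        have h3 := hmem M₁ hcl t h2
        rcases h1 with h1 | h1
        · exact h3.2.2.1 h1
        · exact h3.2.2.2.2.1 h1
      · rw [Finset.disjoint_left]
        intro t h1 h2
        simp only [Finset.mem_singleton] at h1 h2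
        exact hwc (h2.symm.trans h1)
      · rw [Finset.disjoint_left]
        intro t h1 h2
        exact (hmem M₁ hcl t h2).2.2.2.1 (Finset.mem_singleton.1 h1)
      · rw [Finset.disjoint_left]
        intro t h1 h2
        exact (hmem M₁ hcl t h2).2.2.2.2.2 (Finset.mem_singleton.1 h1)
      · exact touch_of_adj (u := a) (w := v) (by simp) (by simp) h.va.symm
      · exact touch_of_adj (Finset.mem_insert_of_mem htc) (Finset.mem_singleton_self c) htc'
      · exact touch_of_adj (Finset.mem_insert_self a C) (Finset.mem_singleton_self w) wa.symm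
      · exact touch_of_adj (Finset.mem_insert_self a C) hua hua'.symm
      · exact touch_of_adj (u := v) (by simp) (Finset.mem_singleton_self c) h.vc
      · exact touch_of_adj (u := b) (by simp) (Finset.mem_singleton_self w) wb.symm
      · exact touch_of_adj (u := b) (by simp) hub hub'.symm
      · exact touch_of_adj (Finset.mem_singleton_self c) (Finset.mem_singleton_self w) wc.symm
      · exact touch_of_adj (Finset.mem_singleton_self c) huc huc'.symm
      · exact touch_of_adj (Finset.mem_singleton_self w) hu huw.symm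
  · right; left
    intro x hx y hy hxy
    by_contra hno
    simp only [Finset.mem_insert, Finset.mem_singleton, not_or] at hno
    obtain ⟨⟨x1, x2, x3⟩, y1, y2, y3⟩ := hno
    by_cases hxv : x = v
    · subst hxv
      rcases h.only y hy hxy with h6 | h6 | h6
      · exact y1 h6
      · exact y2 h6
      · exact y3 h6
    by_cases hyv : y = v
    · subst hyv
      rcases h.only x hx hxy.symm with h6 | h6 | h6
      · exact x1 h6
      · exact x2 h6
      · exact x3 h6
    by_cases hxw : x = w
    · subst hxw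
      have hyM : y ∈ W \ {a, b, c, v, x} := by
        simp only [Finset.mem_sdiff, Finset.mem_insert, Finset.mem_singleton, not_or]
        exact ⟨hy, y1, y2, y3, hyv, hxy.ne.symm⟩
      obtain ⟨C, hC, hCcl, hyC⟩ := exists_comp G _ hyM
      exact hex ⟨C, hC, hCcl, y, hyC, hxy.symm⟩
    by_cases hyw : y = w
    · subst hyw
      have hxM : x ∈ W \ {a, b, c, v, y} := by
        simp only [Finset.mem_sdiff, Finset.mem_insert, Finset.mem_singleton, not_or]
        exact ⟨hx, x1, x2, x3, hxv, hxy.ne⟩
      obtain ⟨C, hC, hCcl, hxC⟩ := exists_comp G _ hxM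
      exact hex ⟨C, hC, hCcl, x, hxC, hxy⟩
    have hxM : x ∈ W \ {a, b, c, v, w} := by
      simp only [Finset.mem_sdiff, Finset.mem_insert, Finset.mem_singleton, not_or]
      exact ⟨hx, x1, x2, x3, hxv, hxw⟩
    have hyM : y ∈ W \ {a, b, c, v, w} := by
      simp only [Finset.mem_sdiff, Finset.mem_insert, Finset.mem_singleton, not_or]
      exact ⟨hy, y1, y2, y3, hyv, hyw⟩
    obtain ⟨C, hC, hCcl, hxC⟩ := exists_comp G _ hxM
    have hyC : y ∈ C := hCcl.2 x hxC y hyM hxy
    rcases (corea1_key h hw hwv wa wb wc hC.1 hCcl).2.2.2 with h6 | ⟨k, hk⟩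
    · exact hex ⟨C, hC, hCcl, h6⟩
    · rw [hk, Finset.mem_singleton] at hxC hyC
      exact hxy.ne (hxC.trans hyC.symm)

end Pool.Agent.Lib.MP_a2d8aa_co.Rg
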