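import Pool.Agent.Lib.MP_a2d8aa_co.Rg.CubDef

/-!
Core, case A, second part (MP_a2d8aa_co).
-/

set_option autoImplicit false

namespace Pool.Agent.Lib.MP_a2d8aa_co.Rg

variable {V : Type*} [DecidableEq V] {G : SimpleGraph V}

private theorem corea2_model {W M' M'' : Finset V} {v w x y z : V}
    (hv : v ∈ W) (hw : w ∈ W) (hx : x ∈ W) (hy : y ∈ W) (hz : z ∈ W)
    (hM'W : M' ⊆ W) (hM''W : M'' ⊆ W)
    (hdis : Disjoint M' M'')
    (hM'n : v ∉ M' ∧ w ∉ M' ∧ x ∉ M' ∧ y ∉ M' ∧ z ∉ M')
    (hM''n : v ∉ M'' ∧ w ∉ M'' ∧ x ∉ M'' ∧ y ∉ M'' ∧ z ∉ M'')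
    (hwv : w ≠ v) (hxy : x ≠ y) (hxz : x ≠ z) (hyz : y ≠ z)
    (vx : G.Adj v x) (vy : G.Adj v y) (vz : G.Adj v z)
    (wx : G.Adj w x) (wy : G.Adj w y) (wz : G.Adj w z)
    (cM' : Conn G M') (cM'' : Conn G M'') (ht : Touch G M' M'')
    (h1 : ∃ m ∈ M', G.Adj m x) (h2 : ∃ m ∈ M', G.Adj m y)
    (h3 : ∃ m ∈ M'', G.Adj m z) (h4 : ∃ m ∈ M'', G.Adj m y) (h5 : ∃ m ∈ M'', G.Adj m w) :
    K5 G W := by
  obtain ⟨n1, n2, n3, n4, n5⟩ := hM'n
  obtain ⟨k1, k2, k3, k4, k5⟩ := hM''n
  have hvx := vx.ne
  have hvy := vy.ne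
  have hvz := vz.ne
  have hwx := wx.ne
  have hwy := wy.ne
  have hwz := wz.ne
  refine K5.mk' (X₁ := {z, v}) (X₂ := insert x M') (X₃ := {y}) (X₄ := {w}) (X₅ := M'')
    ?_ ?_ ?_ ?_ hM''W (conn_pair vz.symm) (cM'.insert h1) (conn_singleton G y)
    (conn_singleton G w) cM'' ?_ ?_ ?_ ?_ ?_ ?_ ?_ ?_ ?_ ?_ ?_ ?_ ?_ ?_ ?_ ?_ ?_ ?_ ?_ ?_
  · intro t ht'
    simp only [Finset.mem_insert, Finset.mem_singleton] at ht'
    rcases ht' with rfl | rfl
    · exact hz
    · exact hv
  · intro t ht'
    rcases Finset.mem_insert.1 ht' with rfl | h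
    · exact hx
    · exact hM'W h
  · intro t ht'
    rw [Finset.mem_singleton.1 ht']
    exact hy
  · intro t ht'
    rw [Finset.mem_singleton.1 ht']
    exact hw
  · -- {z,v} vs insert x M'
    rw [Finset.disjoint_left]
    intro t h1' h2'
    simp only [Finset.mem_insert, Finset.mem_singleton] at h1' h2'
    rcases h1' with rfl | rfl
    · rcases h2' with h | h
      · exact hxz h.symm
      · exact n5 h
    · rcases h2' with h | h
      · exact hvx h
      · exact n1 h
  · rw [Finset.disjoint_left]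
    intro t h1' h2'
    simp only [Finset.mem_insert, Finset.mem_singleton] at h1' h2'
    rcases h1' with rfl | rfl
    · exact hyz h2'.symm
    · exact hvy h2'
  · rw [Finset.disjoint_left]
    intro t h1' h2'
    simp only [Finset.mem_insert, Finset.mem_singleton] at h1' h2'
    rcases h1' with rfl | rfl
    · exact hwz h2'.symm
    · exact hwv h2'.symm
  · rw [Finset.disjoint_left]
    intro t h1' h2'
    simp only [Finset.mem_insert, Finset.mem_singleton] at h1'
    rcases h1' with rfl | rfl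
    · exact k5 h2'
    · exact k1 h2'
  · rw [Finset.disjoint_left]
    intro t h1' h2'
    simp only [Finset.mem_insert, Finset.mem_singleton] at h1' h2'
    subst h2'
    rcases h1' with h | h
    · exact hxy h.symm
    · exact n4 h
  · rw [Finset.disjoint_left]
    intro t h1' h2'
    simp only [Finset.mem_insert, Finset.mem_singleton] at h1' h2'
    subst h2'
    rcases h1' with h | h
    · exact hwx h
    · exact n2 h
  · rw [Finset.disjoint_left]
    intro t h1' h2'
    rcases Finset.mem_insert.1 h1' with rfl | h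
    · exact k3 h2'
    · exact (Finset.disjoint_left.1 hdis) h h2'
  · rw [Finset.disjoint_left]
    intro t h1' h2'
    simp only [Finset.mem_singleton] at h1' h2'
    exact hwy (h2'.symm.trans h1')
  · rw [Finset.disjoint_left]
    intro t h1' h2'
    rw [Finset.mem_singleton.1 h1'] at h2'
    exact k4 h2'
  · rw [Finset.disjoint_left]
    intro t h1' h2'
    rw [Finset.mem_singleton.1 h1'] at h2'
    exact k2 h2'
  · exact touch_of_adj (by simp) (Finset.mem_insert_self x M') vx
  · exact touch_of_adj (by simp) (Finset.mem_singleton_self y) vy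
  · exact touch_of_adj (u := z) (by simp) (Finset.mem_singleton_self w) wz.symm
  · obtain ⟨m, hm, hmz⟩ := h3
    exact touch_of_adj (u := z) (by simp) hm hmz.symm
  · obtain ⟨m, hm, hmy⟩ := h2
    exact touch_of_adj (Finset.mem_insert_of_mem hm) (Finset.mem_singleton_self y) hmy
  · exact touch_of_adj (Finset.mem_insert_self x M') (Finset.mem_singleton_self w) wx.symm
  · exact ht.mono (Finset.subset_insert x M') (Finset.Subset.refl _)
  · exact touch_of_adj (Finset.mem_singleton_self y) (Finset.mem_singleton_self w) wy.symm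
  · obtain ⟨m, hm, hmy⟩ := h4
    exact touch_of_adj (Finset.mem_singleton_self y) hm hmy.symm
  · obtain ⟨m, hm, hmw⟩ := h5
    exact touch_of_adj (Finset.mem_singleton_self w) hm hmw.symm

private theorem corea2_card {W T : Finset V} {s t : V} (hs : s ∈ W) (ht : t ∈ W) (hst : s ≠ t)
    (hsT : s ∉ T) (htT : t ∉ T) : 2 ≤ (W \ T).card := by
  rw [← Finset.card_pair hst]
  apply Finset.card_le_card
  intro r hr
  simp only [Finset.mem_insert, Finset.mem_singleton] at hr
  rcases hr with rfl | rfl
  · exact Finset.mem_sdiff.2 ⟨hs, hsT⟩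
  · exact Finset.mem_sdiff.2 ⟨ht, htT⟩

/-- a component of `M - p` has an outer neighbour among any two of `a, b, c, w` -/
private theorem corea2_two {W C : Finset V} {v a b c w p x y z : V} (h : Cub G W v a b c)
    (hp : p ∈ W)
    (hC : Closed G ((W \ {a, b, c, v, w}).erase p) C) (hne : C.Nonempty)
    (hx : x ∈ W) (hy : y ∈ W) (hz : z ∈ W)
    (hxC : x ∉ C) (hyC : y ∉ C) (hzC : z ∉ C)
    (hpv : p ≠ v) (hzp : z ≠ p) (hxv : x ≠ v) (hyv : y ≠ v) (hzv : z ≠ v) (hzx : z ≠ x)
    (hzy : z ≠ y)
    (hedge : G.Adj p x ∨ G.Adj p y ∨ G.Adj x y)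
    (hout : ∀ u ∈ C, ∀ r, (r = a ∨ r = b ∨ r = c ∨ r = w) → G.Adj u r → r = x ∨ r = y) :
    False := by
  have hCW : ∀ u ∈ C, u ∈ W ∧ u ≠ a ∧ u ≠ b ∧ u ≠ c ∧ u ≠ v ∧ u ≠ w ∧ u ≠ p := by
    intro u hu
    have h1 := hC.1 hu
    simp only [Finset.mem_erase, Finset.mem_sdiff, Finset.mem_insert, Finset.mem_singleton,
      not_or] at h1
    exact ⟨h1.2.1, h1.2.2.1, h1.2.2.2.1, h1.2.2.2.2.1, h1.2.2.2.2.2.1, h1.2.2.2.2.2.2, h1.1⟩
  have hpC : p ∉ C := fun hh => (hCW p hh).2.2.2.2.2.2 rfl
  have hvC : v ∉ C := fun hh => (hCW v hh).2.2.2.2.1 rfl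
  have hP := h.piece C {x, y, p} (fun u hu => (hCW u hu).1) (by
      intro t ht
      simp only [Finset.mem_insert, Finset.mem_singleton] at ht
      rcases ht with rfl | rfl | rfl
      · exact hx
      · exact hy
      · exact hp) (by
      rw [Finset.disjoint_left]
      intro t h1 h2
      simp only [Finset.mem_insert, Finset.mem_singleton] at h2
      rcases h2 with rfl | rfl | rfl
      · exact hxC h1
      · exact hyC h1
      · exact hpC h1) hne Finset.card_le_three (by
      intro u hu r hr hur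
      by_cases hrC : r ∈ C
      · exact Or.inl hrC
      · right
        simp only [Finset.mem_insert, Finset.mem_singleton]
        by_cases hrp : r = p
        · exact Or.inr (Or.inr hrp)
        · by_cases hr4 : r = a ∨ r = b ∨ r = c ∨ r = w
          · rcases hout u hu r hr4 hur with h1 | h1
            · exact Or.inl h1
            · exact Or.inr (Or.inl h1)
          · exfalso
            rw [not_or, not_or, not_or] at hr4
            by_cases hrv : r = v
            · subst hrv
              obtain ⟨huW, h1, h2, h3, -⟩ := hCW u hu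
              rcases h.only u huW hur.symm with h4 | h4 | h4
              · exact h1 h4
              · exact h2 h4
              · exact h3 h4
            · apply hrC
              apply hC.2 u hu r _ hur
              simp only [Finset.mem_erase, Finset.mem_sdiff, Finset.mem_insert,
                Finset.mem_singleton, not_or]
              exact ⟨hrp, hr, hr4.1, hr4.2.1, hr4.2.2.1, hrv, hr4.2.2.2⟩)
      (corea2_card h.hv hz hzv.symm (by
        simp only [Finset.mem_union, Finset.mem_insert, Finset.mem_singleton, not_or]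
        exact ⟨hvC, hxv.symm, hyv.symm, hpv.symm⟩) (by
        simp only [Finset.mem_union, Finset.mem_insert, Finset.mem_singleton, not_or]
        exact ⟨hzC, hzx, hzy, hzp⟩))
  obtain ⟨-, hind, -⟩ := hP
  rcases hedge with h1 | h1 | h1
  · exact hind p (by simp) x (by simp) h1
  · exact hind p (by simp) y (by simp) h1
  · exact hind x (by simp) y (by simp) h1

theorem coreA2 {W : Finset V} {v a b c w p : V} (h : Cub G W v a b c) (hw : w ∈ W) (hwv : w ≠ v)
    (wa : G.Adj w a) (wb : G.Adj w b) (wc : G.Adj w c)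
    (hp : p ∈ W) (hpv : p ≠ v) (hpw : p ≠ w) (pa : G.Adj p a) (pb : G.Adj p b)
    (hM : Conn G (W \ {a, b, c, v, w})) (hMa : ∃ m ∈ W \ {a, b, c, v, w}, G.Adj m a)
    (hMb : ∃ m ∈ W \ {a, b, c, v, w}, G.Adj m b) (hMc : ∃ m ∈ W \ {a, b, c, v, w}, G.Adj m c)
    (hMw : ∃ m ∈ W \ {a, b, c, v, w}, G.Adj m w) : K5 G W := by
  have hpc : p ≠ c := by
    rintro rfl
    exact h.nac pa.symm
  have hpM : p ∈ W \ {a, b, c, v, w} := by
    simp only [Finset.mem_sdiff, Finset.mem_insert, Finset.mem_singleton, not_or]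
    exact ⟨hp, pa.ne, pb.ne, hpc, hpv, hpw⟩
  have hMn : ∀ u ∈ W \ {a, b, c, v, w}, u ∈ W ∧ u ≠ a ∧ u ≠ b ∧ u ≠ c ∧ u ≠ v ∧ u ≠ w := by
    intro u hu
    simp only [Finset.mem_sdiff, Finset.mem_insert, Finset.mem_singleton, not_or] at hu
    exact hu
  have hva := h.va.ne
  have hvb := h.vb.ne
  have hvc := h.vc.ne
  have hwa := wa.ne
  have hwb := wb.ne
  have hwc := wc.ne
  have hab := h.ab
  have hac := h.ac
  have hbc := h.bc
  by_cases hMp : (((W \ {a, b, c, v, w}).erase p)).Nonempty
  swap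
  · -- `M = {p}`
    exfalso
    rw [Finset.not_nonempty_iff_eq_empty] at hMp
    have hall : ∀ u ∈ W \ {a, b, c, v, w}, u = p := by
      intro u hu
      by_contra hne
      have : u ∈ (W \ {a, b, c, v, w}).erase p := Finset.mem_erase.2 ⟨hne, hu⟩
      rw [hMp] at this
      exact absurd this (Finset.notMem_empty _)
    have hpw' : G.Adj p w := by
      obtain ⟨m, hm, hmw⟩ := hMw
      rw [hall m hm] at hmw
      exact hmw
    have hP := h.piece {a} {v, w, p} (by
        intro t ht
        rw [Finset.mem_singleton.1 ht]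
        exact h.ha) (by
        intro t ht
        simp only [Finset.mem_insert, Finset.mem_singleton] at ht
        rcases ht with rfl | rfl | rfl
        · exact h.hv
        · exact hw
        · exact hp) (by
        rw [Finset.disjoint_left]
        intro t h1 h2
        rw [Finset.mem_singleton.1 h1] at h2
        simp only [Finset.mem_insert, Finset.mem_singleton] at h2
        rcases h2 with h3 | h3 | h3
        · exact hva h3.symm
        · exact hwa h3.symm
        · exact pa.ne h3.symm) (Finset.singleton_nonempty a) Finset.card_le_three (by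
        intro u hu r hr hur
        rw [Finset.mem_singleton.1 hu] at hur
        right
        simp only [Finset.mem_insert, Finset.mem_singleton]
        by_cases h1 : r = v
        · exact Or.inl h1
        by_cases h2 : r = w
        · exact Or.inr (Or.inl h2)
        right; right
        apply hall
        simp only [Finset.mem_sdiff, Finset.mem_insert, Finset.mem_singleton, not_or]
        refine ⟨hr, ?_, ?_, ?_, h1, h2⟩
        · rintro rfl
          exact hur.ne rfl
        · rintro rfl
          exact h.nab hur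
        · rintro rfl
          exact h.nac hur)
        (corea2_card h.hb h.hc hbc (by
          simp only [Finset.mem_union, Finset.mem_insert, Finset.mem_singleton, not_or]
          exact ⟨hab.symm, hvb.symm, hwb.symm, pb.ne.symm⟩) (by
          simp only [Finset.mem_union, Finset.mem_insert, Finset.mem_singleton, not_or]
          exact ⟨hac.symm, hvc.symm, hwc.symm, hpc.symm⟩))
    obtain ⟨-, hind, -⟩ := hP
    exact hind p (by simp) w (by simp) hpw'
  · -- properties of the components of `M - p`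
    have key : ∀ C, Conn G C → Closed G ((W \ {a, b, c, v, w}).erase p) C →
        (C ⊆ W ∧ a ∉ C ∧ b ∉ C ∧ c ∉ C ∧ v ∉ C ∧ w ∉ C ∧ p ∉ C) ∧ (∃ u ∈ C, G.Adj u p) ∧
        ((∃ u ∈ C, G.Adj u a) ∨ (∃ u ∈ C, G.Adj u b)) ∧
        ((∃ u ∈ C, G.Adj u a) ∨ (∃ u ∈ C, G.Adj u c)) ∧
        ((∃ u ∈ C, G.Adj u b) ∨ (∃ u ∈ C, G.Adj u c)) ∧
        ((∃ u ∈ C, G.Adj u a) ∨ (∃ u ∈ C, G.Adj u w)) ∧
        ((∃ u ∈ C, G.Adj u b) ∨ (∃ u ∈ C, G.Adj u w)) ∧
        ((∃ u ∈ C, G.Adj u c) ∨ (∃ u ∈ C, G.Adj u w)) := by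
      intro C hCc hC
      have hCW : ∀ u ∈ C, u ∈ W ∧ u ≠ a ∧ u ≠ b ∧ u ≠ c ∧ u ≠ v ∧ u ≠ w ∧ u ≠ p := by
        intro u hu
        have h1 := hC.1 hu
        simp only [Finset.mem_erase, Finset.mem_sdiff, Finset.mem_insert, Finset.mem_singleton,
          not_or] at h1
        exact ⟨h1.2.1, h1.2.2.1, h1.2.2.2.1, h1.2.2.2.2.1, h1.2.2.2.2.2.1, h1.2.2.2.2.2.2, h1.1⟩
      have haC : a ∉ C := fun hh => (hCW a hh).2.1 rfl
      have hbC : b ∉ C := fun hh => (hCW b hh).2.2.1 rfl
      have hcC : c ∉ C := fun hh => (hCW c hh).2.2.2.1 rfl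
      have hvC : v ∉ C := fun hh => (hCW v hh).2.2.2.2.1 rfl
      have hwC : w ∉ C := fun hh => (hCW w hh).2.2.2.2.2.1 rfl
      have hpC : p ∉ C := fun hh => (hCW p hh).2.2.2.2.2.2 rfl
      refine ⟨⟨fun u hu => (hCW u hu).1, haC, hbC, hcC, hvC, hwC, hpC⟩,
        hM.touch_of_closed_erase hpM hC hCc.1, ?_, ?_, ?_, ?_, ?_, ?_⟩
      · -- complement pair c, w
        by_contra hno
        rw [not_or] at hno
        refine corea2_two (x := c) (y := w) (z := a) h hp hC hCc.1 h.hc hw h.ha hcC hwC haC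
          hpv pa.ne.symm hvc.symm hwv hva.symm hac hwa.symm (Or.inr (Or.inr wc.symm)) ?_
        intro u hu r hr hur
        rcases hr with rfl | rfl | rfl | rfl
        · exact absurd ⟨u, hu, hur⟩ hno.1
        · exact absurd ⟨u, hu, hur⟩ hno.2
        · exact Or.inl rfl
        · exact Or.inr rfl
      · -- complement pair b, w
        by_contra hno
        rw [not_or] at hno
        refine corea2_two (x := b) (y := w) (z := a) h hp hC hCc.1 h.hb hw h.ha hbC hwC haC
          hpv pa.ne.symm hvb.symm hwv hva.symm hab hwa.symm (Or.inl pb) ?_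
        intro u hu r hr hur
        rcases hr with rfl | rfl | rfl | rfl
        · exact absurd ⟨u, hu, hur⟩ hno.1
        · exact Or.inl rfl
        · exact absurd ⟨u, hu, hur⟩ hno.2
        · exact Or.inr rfl
      · -- complement pair a, w
        by_contra hno
        rw [not_or] at hno
        refine corea2_two (x := a) (y := w) (z := b) h hp hC hCc.1 h.ha hw h.hb haC hwC hbC
          hpv pb.ne.symm hva.symm hwv hvb.symm hab.symm hwb.symm (Or.inl pa) ?_
        intro u hu r hr hur
        rcases hr with rfl | rfl | rfl | rfl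
        · exact Or.inl rfl
        · exact absurd ⟨u, hu, hur⟩ hno.1
        · exact absurd ⟨u, hu, hur⟩ hno.2
        · exact Or.inr rfl
      · -- complement pair b, c
        by_contra hno
        rw [not_or] at hno
        refine corea2_two (x := b) (y := c) (z := a) h hp hC hCc.1 h.hb h.hc h.ha hbC hcC haC
          hpv pa.ne.symm hvb.symm hvc.symm hva.symm hab hac (Or.inl pb) ?_
        intro u hu r hr hur
        rcases hr with rfl | rfl | rfl | rfl
        · exact absurd ⟨u, hu, hur⟩ hno.1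
        · exact Or.inl rfl
        · exact Or.inr rfl
        · exact absurd ⟨u, hu, hur⟩ hno.2
      · -- complement pair a, c
        by_contra hno
        rw [not_or] at hno
        refine corea2_two (x := a) (y := c) (z := b) h hp hC hCc.1 h.ha h.hc h.hb haC hcC hbC
          hpv pb.ne.symm hva.symm hvc.symm hvb.symm hab.symm hbc (Or.inl pa) ?_
        intro u hu r hr hur
        rcases hr with rfl | rfl | rfl | rfl
        · exact Or.inl rfl
        · exact absurd ⟨u, hu, hur⟩ hno.1
        · exact Or.inr rfl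
        · exact absurd ⟨u, hu, hur⟩ hno.2
      · -- complement pair a, b
        by_contra hno
        rw [not_or] at hno
        refine corea2_two (x := a) (y := b) (z := c) h hp hC hCc.1 h.ha h.hb h.hc haC hbC hcC
          hpv hpc.symm hva.symm hvb.symm hvc.symm hac.symm hbc.symm (Or.inl pa) ?_
        intro u hu r hr hur
        rcases hr with rfl | rfl | rfl | rfl
        · exact Or.inl rfl
        · exact Or.inr rfl
        · exact absurd ⟨u, hu, hur⟩ hno.1
        · exact absurd ⟨u, hu, hur⟩ hno.2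
    have hpW : ({p} : Finset V) ⊆ W := by
      intro t ht
      rw [Finset.mem_singleton.1 ht]
      exact hp
    by_cases hcase : ∃ C, Conn G C ∧ Closed G ((W \ {a, b, c, v, w}).erase p) C ∧
        ∃ u ∈ C, G.Adj u w
    · obtain ⟨C, hCc, hC, tw⟩ := hcase
      obtain ⟨⟨hCW, haC, hbC, hcC, hvC, hwC, hpC⟩, tp, tab, tac, tbc, taw, tbw, tcw⟩ :=
        key C hCc hC
      have htp : Touch G {p} C := by
        obtain ⟨u, hu, hup⟩ := tp
        exact touch_of_adj (Finset.mem_singleton_self p) hu hup.symm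
      have hdp : Disjoint ({p} : Finset V) C := by
        rw [Finset.disjoint_left]
        intro t h1 h2
        rw [Finset.mem_singleton.1 h1] at h2
        exact hpC h2
      have hn : v ∉ ({p} : Finset V) ∧ w ∉ ({p} : Finset V) ∧ a ∉ ({p} : Finset V) ∧
          b ∉ ({p} : Finset V) ∧ c ∉ ({p} : Finset V) := by
        simp only [Finset.mem_singleton]
        exact ⟨hpv.symm, hpw.symm, pa.ne.symm, pb.ne.symm, hpc.symm⟩
      by_cases tc : ∃ u ∈ C, G.Adj u c
      · rcases tab with ta | tb
        · exact corea2_model (M' := {p}) (M'' := C) (x := b) (y := a) (z := c) h.hv hw h.hb h.ha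
            h.hc hpW hCW hdp ⟨hn.1, hn.2.1, hn.2.2.2.1, hn.2.2.1, hn.2.2.2.2⟩
            ⟨hvC, hwC, hbC, haC, hcC⟩ hwv hab.symm hbc hac h.vb h.va h.vc wb wa wc
            (conn_singleton G p) hCc htp ⟨p, Finset.mem_singleton_self p, pb⟩
            ⟨p, Finset.mem_singleton_self p, pa⟩ tc ta tw
        · exact corea2_model (M' := {p}) (M'' := C) (x := a) (y := b) (z := c) h.hv hw h.ha h.hb
            h.hc hpW hCW hdp ⟨hn.1, hn.2.1, hn.2.2.1, hn.2.2.2.1, hn.2.2.2.2⟩
            ⟨hvC, hwC, haC, hbC, hcC⟩ hwv hab hac hbc h.va h.vb h.vc wa wb wc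
            (conn_singleton G p) hCc htp ⟨p, Finset.mem_singleton_self p, pa⟩
            ⟨p, Finset.mem_singleton_self p, pb⟩ tc tb tw
      · have ta := tac.resolve_right tc
        have tb := tbc.resolve_right tc
        have hpMC : p ∈ (W \ {a, b, c, v, w}) \ C := Finset.mem_sdiff.2 ⟨hpM, hpC⟩
        have hsub : (W \ {a, b, c, v, w}) \ C ⊆ W \ {a, b, c, v, w} := Finset.sdiff_subset
        refine corea2_model (M' := (W \ {a, b, c, v, w}) \ C) (M'' := C) (x := c) (y := b)
            (z := a) h.hv hw h.hc h.hb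
            h.ha (fun u hu => (hMn u (hsub hu)).1) hCW Finset.sdiff_disjoint
            ⟨fun hh => (hMn v (hsub hh)).2.2.2.2.1 rfl, fun hh => (hMn w (hsub hh)).2.2.2.2.2 rfl,
              fun hh => (hMn c (hsub hh)).2.2.2.1 rfl, fun hh => (hMn b (hsub hh)).2.2.1 rfl,
              fun hh => (hMn a (hsub hh)).2.1 rfl⟩
            ⟨hvC, hwC, hcC, hbC, haC⟩ hwv hbc.symm hac.symm hab.symm h.vc h.vb h.va wc wb wa
            (hM.sdiff_of_closed_erase hpM hC) hCc
            (htp.mono (Finset.singleton_subset_iff.2 hpMC) (Finset.Subset.refl _)) ?_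
            ⟨p, hpMC, pb⟩ ta tb tw
        obtain ⟨m, hm, hmc⟩ := hMc
        exact ⟨m, Finset.mem_sdiff.2 ⟨hm, fun hh => tc ⟨m, hh, hmc⟩⟩, hmc⟩
    · have hno : ∀ C, Conn G C → Closed G ((W \ {a, b, c, v, w}).erase p) C →
          ¬ ∃ u ∈ C, G.Adj u w := fun C h1 h2 h3 => hcase ⟨C, h1, h2, h3⟩
      have hpw' : G.Adj p w := by
        obtain ⟨m, hm, hmw⟩ := hMw
        by_cases hmp : m = p
        · rw [hmp] at hmw
          exact hmw
        · exfalso
          obtain ⟨C, h1, h2, h3⟩ := exists_comp G ((W \ {a, b, c, v, w}).erase p)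
            (Finset.mem_erase.2 ⟨hmp, hm⟩)
          exact hno C h1 h2 ⟨m, h3, hmw⟩
      obtain ⟨x0, hx0⟩ := hMp
      obtain ⟨C, hCc, hC, -⟩ := exists_comp G ((W \ {a, b, c, v, w}).erase p) hx0
      obtain ⟨⟨hCW, haC, hbC, hcC, hvC, hwC, hpC⟩, tp, tab, tac, tbc, taw, tbw, tcw⟩ :=
        key C hCc hC
      have tw := hno C hCc hC
      have ta := taw.resolve_right tw
      have tb := tbw.resolve_right tw
      have tc := tcw.resolve_right tw
      have htp : Touch G C {p} := by
        obtain ⟨u, hu, hup⟩ := tp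
        exact touch_of_adj hu (Finset.mem_singleton_self p) hup
      have hdp : Disjoint C ({p} : Finset V) := by
        rw [Finset.disjoint_left]
        intro t h1 h2
        rw [Finset.mem_singleton.1 h2] at h1
        exact hpC h1
      have hn : v ∉ ({p} : Finset V) ∧ w ∉ ({p} : Finset V) ∧ a ∉ ({p} : Finset V) ∧
          b ∉ ({p} : Finset V) ∧ c ∉ ({p} : Finset V) := by
        simp only [Finset.mem_singleton]
        exact ⟨hpv.symm, hpw.symm, pa.ne.symm, pb.ne.symm, hpc.symm⟩
      exact corea2_model (M' := C) (M'' := {p}) (x := c) (y := b) (z := a) h.hv hw h.hc h.hb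
        h.ha hCW hpW hdp ⟨hvC, hwC, hcC, hbC, haC⟩
        ⟨hn.1, hn.2.1, hn.2.2.2.2, hn.2.2.2.1, hn.2.2.1⟩ hwv hbc.symm hac.symm hab.symm h.vc h.vb
        h.va wc wb wa hCc (conn_singleton G p) htp tc tb ⟨p, Finset.mem_singleton_self p, pa⟩
        ⟨p, Finset.mem_singleton_self p, pb⟩ ⟨p, Finset.mem_singleton_self p, hpw'⟩

end Pool.Agent.Lib.MP_a2d8aa_co.Rg
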