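import Pool.Agent.Lib.MP_a2d8aa_co.Rg.CubDef

/-!
Core, case B, first part (MP_a2d8aa_co).
-/

set_option autoImplicit false

namespace Pool.Agent.Lib.MP_a2d8aa_co.Rg

variable {V : Type*} [DecidableEq V] {G : SimpleGraph V}

private theorem coreb1_card {W T : Finset V} {s t : V} (hs : s ∈ W) (ht : t ∈ W) (hst : s ≠ t)
    (hsT : s ∉ T) (htT : t ∉ T) : 2 ≤ (W \ T).card := by
  rw [← Finset.card_pair hst]
  apply Finset.card_le_card
  intro r hr
  simp only [Finset.mem_insert, Finset.mem_singleton] at hr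
  rcases hr with rfl | rfl
  · exact Finset.mem_sdiff.2 ⟨hs, hsT⟩
  · exact Finset.mem_sdiff.2 ⟨ht, htT⟩

/-- the neighbours of a part `C` of `W` outside `C` are among `x, y, z`, and `s`, `t` are two
further vertices -/
private theorem coreb1_piece {W C : Finset V} {s x y z t : V} (hP : Piece G W)
    (hCW : C ⊆ W) (hne : C.Nonempty) (hx : x ∈ W) (hy : y ∈ W) (hz : z ∈ W) (ht : t ∈ W)
    (hs : s ∈ W) (hxC : x ∉ C) (hyC : y ∉ C) (hzC : z ∉ C) (htC : t ∉ C) (hsC : s ∉ C)
    (hst : s ≠ t) (hsx : s ≠ x) (hsy : s ≠ y) (hsz : s ≠ z)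
    (htx : t ≠ x) (hty : t ≠ y) (htz : t ≠ z)
    (hout : ∀ u ∈ C, ∀ r ∈ W, G.Adj u r → r ∈ C ∨ r = x ∨ r = y ∨ r = z) :
    (¬ G.Adj x y ∧ ¬ G.Adj x z ∧ ¬ G.Adj y z) ∧
      ∃ k, C = {k} ∧ G.Adj k x ∧ G.Adj k y ∧ G.Adj k z := by
  obtain ⟨-, h2, k, h3, h4⟩ := hP C {x, y, z} hCW (by
      intro s hs
      simp only [Finset.mem_insert, Finset.mem_singleton] at hs
      rcases hs with rfl | rfl | rfl
      · exact hx
      · exact hy
      · exact hz) (by
      rw [Finset.disjoint_left]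
      intro s h1 h2
      simp only [Finset.mem_insert, Finset.mem_singleton] at h2
      rcases h2 with rfl | rfl | rfl
      · exact hxC h1
      · exact hyC h1
      · exact hzC h1) hne Finset.card_le_three (by
      intro u hu r hr hur
      simp only [Finset.mem_insert, Finset.mem_singleton]
      exact hout u hu r hr hur)
      (coreb1_card hs ht hst (by
        simp only [Finset.mem_union, Finset.mem_insert, Finset.mem_singleton, not_or]
        exact ⟨hsC, hsx, hsy, hsz⟩) (by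
        simp only [Finset.mem_union, Finset.mem_insert, Finset.mem_singleton, not_or]
        exact ⟨htC, htx, hty, htz⟩))
  exact ⟨⟨h2 x (by simp) y (by simp), h2 x (by simp) z (by simp), h2 y (by simp) z (by simp)⟩,
    k, h3, h4 x (by simp), h4 y (by simp), h4 z (by simp)⟩

/-- `C` is adjacent to `x` -/
private def coreb1T (G : SimpleGraph V) (C : Finset V) (x : V) : Prop := ∃ u ∈ C, G.Adj u x

/-- the standing hypotheses -/
private structure Coreb1Ctx (G : SimpleGraph V) (W : Finset V) (v a b c p q : V) : Prop where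
  h : Cub G W v a b c
  hno : ∀ w ∈ W, w ≠ v → G.Adj w a → G.Adj w b → ¬ G.Adj w c
  hp : p ∈ W
  hpv : p ≠ v
  pa : G.Adj p a
  pb : G.Adj p b
  hq : q ∈ W
  hqv : q ≠ v
  qa : G.Adj q a
  qb : G.Adj q b
  hpq : p ≠ q

private theorem coreb1_swap {W : Finset V} {v a b c p q : V} (x : Coreb1Ctx G W v a b c p q) :
    Coreb1Ctx G W v a b c q p :=
  ⟨x.h, x.hno, x.hq, x.hqv, x.qa, x.qb, x.hp, x.hpv, x.pa, x.pb, x.hpq.symm⟩

private theorem coreb1_ne {W : Finset V} {v a b c p q : V} (x : Coreb1Ctx G W v a b c p q) :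
    p ≠ c ∧ q ≠ c ∧ ¬ G.Adj p c ∧ ¬ G.Adj q c ∧ ¬ G.Adj v p ∧ ¬ G.Adj v q := by
  have npc := x.hno p x.hp x.hpv x.pa x.pb
  have nqc := x.hno q x.hq x.hqv x.qa x.qb
  have hpc : p ≠ c := fun e => x.h.nac (by rw [← e]; exact x.pa.symm)
  have hqc : q ≠ c := fun e => x.h.nac (by rw [← e]; exact x.qa.symm)
  refine ⟨hpc, hqc, npc, nqc, fun hh => ?_, fun hh => ?_⟩
  · rcases x.h.only p x.hp hh with e | e | e
    · exact x.pa.ne e
    · exact x.pb.ne e
    · exact hpc e
  · rcases x.h.only q x.hq hh with e | e | e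
    · exact x.qa.ne e
    · exact x.qb.ne e
    · exact hqc e

private theorem coreb1_mem {W C : Finset V} {v a b c p q : V}
    (hC : Closed G (W \ {a, b, c, v, p, q}) C) :
    ∀ u ∈ C, u ∈ W ∧ u ≠ a ∧ u ≠ b ∧ u ≠ c ∧ u ≠ v ∧ u ≠ p ∧ u ≠ q := by
  intro u hu
  have h1 := hC.1 hu
  simp only [Finset.mem_sdiff, Finset.mem_insert, Finset.mem_singleton, not_or] at h1
  exact h1

private theorem coreb1_out {W C : Finset V} {v a b c p q : V} (x : Coreb1Ctx G W v a b c p q)
    (hC : Closed G (W \ {a, b, c, v, p, q}) C) :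
    ∀ u ∈ C, ∀ r ∈ W, G.Adj u r → r ∈ C ∨ r = a ∨ r = b ∨ r = c ∨ r = p ∨ r = q := by
  intro u hu r hr hur
  by_contra hno
  simp only [not_or] at hno
  obtain ⟨h1, h2, h3, h4, h5, h6⟩ := hno
  obtain ⟨k0, k1, k2, k3, k4, k5, k6⟩ := coreb1_mem hC u hu
  by_cases hrv : r = v
  · rw [hrv] at hur
    rcases x.h.only u k0 hur.symm with e | e | e
    · exact k1 e
    · exact k2 e
    · exact k3 e
  · refine h1 (hC.2 u hu r ?_ hur)
    simp only [Finset.mem_sdiff, Finset.mem_insert, Finset.mem_singleton, not_or]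
    exact ⟨hr, h2, h3, h4, hrv, h5, h6⟩

/-- the two kinds of components of `K₀` -/
private theorem coreb1_claim {W C : Finset V} {v a b c p q : V} (x : Coreb1Ctx G W v a b c p q)
    (hC : Closed G (W \ {a, b, c, v, p, q}) C) (hne : C.Nonempty) :
    (coreb1T G C a ∧ coreb1T G C b ∧ coreb1T G C p) ∨
    (coreb1T G C a ∧ coreb1T G C b ∧ coreb1T G C q) ∨
    (coreb1T G C a ∧ coreb1T G C p ∧ coreb1T G C q) ∨
    (coreb1T G C b ∧ coreb1T G C p ∧ coreb1T G C q) ∨
    (¬ coreb1T G C a ∧ ¬ coreb1T G C b ∧ coreb1T G C p ∧ coreb1T G C q) := by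
  have hm := coreb1_mem hC
  have hout := coreb1_out x hC
  obtain ⟨hpc, hqc, npc, nqc, nvp, nvq⟩ := coreb1_ne x
  have hsub : C ⊆ W := fun u hu => (hm u hu).1
  have haC : a ∉ C := fun hh => (hm a hh).2.1 rfl
  have hbC : b ∉ C := fun hh => (hm b hh).2.2.1 rfl
  have hcC : c ∉ C := fun hh => (hm c hh).2.2.2.1 rfl
  have hvC : v ∉ C := fun hh => (hm v hh).2.2.2.2.1 rfl
  have hpC : p ∉ C := fun hh => (hm p hh).2.2.2.2.2.1 rfl
  have hqC : q ∉ C := fun hh => (hm q hh).2.2.2.2.2.2 rfl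
  have hva := x.h.va.ne
  have hvb := x.h.vb.ne
  have hvc := x.h.vc.ne
  have hpa := x.pa.ne
  have hpb := x.pb.ne
  have hqa := x.qa.ne
  have hqb := x.qb.ne
  have hab := x.h.ab
  have hac := x.h.ac
  have hbc := x.h.bc
  by_cases hA : coreb1T G C a
  · by_cases hB : coreb1T G C b
    · by_cases hP : coreb1T G C p
      · exact Or.inl ⟨hA, hB, hP⟩
      · by_cases hQ : coreb1T G C q
        · exact Or.inr (Or.inl ⟨hA, hB, hQ⟩)
        · -- outer neighbours `a, b, c`
          exfalso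
          obtain ⟨-, k, hk, ka, kb, kc⟩ := coreb1_piece (s := v) (x := a) (y := b) (z := c) (t := p)
            x.h.piece hsub hne x.h.ha x.h.hb x.h.hc x.hp x.h.hv haC hbC hcC hpC hvC x.hpv.symm hva
            hvb hvc hpa hpb hpc (by
              intro u hu r hr hur
              rcases hout u hu r hr hur with e | e | e | e | e | e
              · exact Or.inl e
              · exact Or.inr (Or.inl e)
              · exact Or.inr (Or.inr (Or.inl e))
              · exact Or.inr (Or.inr (Or.inr e))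
              · exact absurd ⟨u, hu, e ▸ hur⟩ hP
              · exact absurd ⟨u, hu, e ▸ hur⟩ hQ)
          have hkC : k ∈ C := by rw [hk]; exact Finset.mem_singleton_self k
          exact x.hno k (hsub hkC) (hm k hkC).2.2.2.2.1 ka kb kc
    · by_cases hP : coreb1T G C p
      · by_cases hQ : coreb1T G C q
        · exact Or.inr (Or.inr (Or.inl ⟨hA, hP, hQ⟩))
        · exfalso
          have h1 := coreb1_piece (s := v) (x := a) (y := c) (z := p) (t := b)
            x.h.piece hsub hne x.h.ha x.h.hc x.hp x.h.hb x.h.hv haC hcC hpC hbC hvC hvb hva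
            hvc x.hpv.symm hab.symm hbc hpb.symm (by
              intro u hu r hr hur
              rcases hout u hu r hr hur with e | e | e | e | e | e
              · exact Or.inl e
              · exact Or.inr (Or.inl e)
              · exact absurd ⟨u, hu, e ▸ hur⟩ hB
              · exact Or.inr (Or.inr (Or.inl e))
              · exact Or.inr (Or.inr (Or.inr e))
              · exact absurd ⟨u, hu, e ▸ hur⟩ hQ)
          exact h1.1.2.1 x.pa.symm
      · exfalso
        have h1 := coreb1_piece (s := v) (x := a) (y := c) (z := q) (t := b)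
            x.h.piece hsub hne x.h.ha x.h.hc x.hq x.h.hb x.h.hv haC hcC hqC hbC hvC hvb hva
            hvc x.hqv.symm hab.symm hbc hqb.symm (by
              intro u hu r hr hur
              rcases hout u hu r hr hur with e | e | e | e | e | e
              · exact Or.inl e
              · exact Or.inr (Or.inl e)
              · exact absurd ⟨u, hu, e ▸ hur⟩ hB
              · exact Or.inr (Or.inr (Or.inl e))
              · exact absurd ⟨u, hu, e ▸ hur⟩ hP
              · exact Or.inr (Or.inr (Or.inr e)))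
        exact h1.1.2.1 x.qa.symm
  · by_cases hB : coreb1T G C b
    · by_cases hP : coreb1T G C p
      · by_cases hQ : coreb1T G C q
        · exact Or.inr (Or.inr (Or.inr (Or.inl ⟨hB, hP, hQ⟩)))
        · exfalso
          have h1 := coreb1_piece (s := v) (x := b) (y := c) (z := p) (t := a)
            x.h.piece hsub hne x.h.hb x.h.hc x.hp x.h.ha x.h.hv hbC hcC hpC haC hvC hva hvb
            hvc x.hpv.symm hab hac hpa.symm (by
              intro u hu r hr hur
              rcases hout u hu r hr hur with e | e | e | e | e | e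
              · exact Or.inl e
              · exact absurd ⟨u, hu, e ▸ hur⟩ hA
              · exact Or.inr (Or.inl e)
              · exact Or.inr (Or.inr (Or.inl e))
              · exact Or.inr (Or.inr (Or.inr e))
              · exact absurd ⟨u, hu, e ▸ hur⟩ hQ)
          exact h1.1.2.1 x.pb.symm
      · exfalso
        have h1 := coreb1_piece (s := v) (x := b) (y := c) (z := q) (t := a)
            x.h.piece hsub hne x.h.hb x.h.hc x.hq x.h.ha x.h.hv hbC hcC hqC haC hvC hva hvb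
            hvc x.hqv.symm hab hac hqa.symm (by
              intro u hu r hr hur
              rcases hout u hu r hr hur with e | e | e | e | e | e
              · exact Or.inl e
              · exact absurd ⟨u, hu, e ▸ hur⟩ hA
              · exact Or.inr (Or.inl e)
              · exact Or.inr (Or.inr (Or.inl e))
              · exact absurd ⟨u, hu, e ▸ hur⟩ hP
              · exact Or.inr (Or.inr (Or.inr e)))
        exact h1.1.2.1 x.qb.symm
    · obtain ⟨-, k, hk, kc, kp, kq⟩ := coreb1_piece (s := v) (x := c) (y := p) (z := q) (t := a)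
            x.h.piece hsub hne x.h.hc x.hp x.hq x.h.ha x.h.hv hcC hpC hqC haC hvC hva hvc
            x.hpv.symm x.hqv.symm hac hpa.symm hqa.symm (by
              intro u hu r hr hur
              rcases hout u hu r hr hur with e | e | e | e | e | e
              · exact Or.inl e
              · exact absurd ⟨u, hu, e ▸ hur⟩ hA
              · exact absurd ⟨u, hu, e ▸ hur⟩ hB
              · exact Or.inr (Or.inl e)
              · exact Or.inr (Or.inr (Or.inl e))
              · exact Or.inr (Or.inr (Or.inr e)))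
      have hkC : k ∈ C := by rw [hk]; exact Finset.mem_singleton_self k
      exact Or.inr (Or.inr (Or.inr (Or.inr ⟨hA, hB, ⟨k, hkC, kp⟩, ⟨k, hkC, kq⟩⟩)))

/-- two components without neighbours among `a, b` -/
private theorem coreb1_single {W C C' : Finset V} {v a b c p q : V}
    (x : Coreb1Ctx G W v a b c p q)
    (hC : Closed G (W \ {a, b, c, v, p, q}) C) (hne : C.Nonempty)
    (hC' : Closed G (W \ {a, b, c, v, p, q}) C') (hne' : C'.Nonempty) (hd : Disjoint C C')
    (hA : ¬ coreb1T G C a) (hB : ¬ coreb1T G C b) (hA' : ¬ coreb1T G C' a)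
    (hB' : ¬ coreb1T G C' b) : False := by
  obtain ⟨hpc, hqc, npc, nqc, nvp, nvq⟩ := coreb1_ne x
  have hU : Closed G (W \ {a, b, c, v, p, q}) (C ∪ C') := by
    refine ⟨Finset.union_subset hC.1 hC'.1, fun u hu w hw huw => ?_⟩
    rcases Finset.mem_union.1 hu with h1 | h1
    · exact Finset.mem_union_left _ (hC.2 u h1 w hw huw)
    · exact Finset.mem_union_right _ (hC'.2 u h1 w hw huw)
  have hm := coreb1_mem hU
  have hout := coreb1_out x hU
  have hAU : ¬ coreb1T G (C ∪ C') a := by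
    rintro ⟨u, hu, hua⟩
    rcases Finset.mem_union.1 hu with h1 | h1
    · exact hA ⟨u, h1, hua⟩
    · exact hA' ⟨u, h1, hua⟩
  have hBU : ¬ coreb1T G (C ∪ C') b := by
    rintro ⟨u, hu, hua⟩
    rcases Finset.mem_union.1 hu with h1 | h1
    · exact hB ⟨u, h1, hua⟩
    · exact hB' ⟨u, h1, hua⟩
  obtain ⟨-, k, hk, -⟩ := coreb1_piece (s := v) (x := c) (y := p) (z := q) (t := a)
    x.h.piece (fun u hu => (hm u hu).1) (hne.mono Finset.subset_union_left) x.h.hc x.hp x.hq
    x.h.ha x.h.hv (fun hh => (hm c hh).2.2.2.1 rfl) (fun hh => (hm p hh).2.2.2.2.2.1 rfl)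
    (fun hh => (hm q hh).2.2.2.2.2.2 rfl) (fun hh => (hm a hh).2.1 rfl)
    (fun hh => (hm v hh).2.2.2.2.1 rfl) x.h.va.ne x.h.vc.ne x.hpv.symm x.hqv.symm x.h.ac
    x.pa.ne.symm x.qa.ne.symm (by
      intro u hu r hr hur
      rcases hout u hu r hr hur with e | e | e | e | e | e
      · exact Or.inl e
      · exact absurd ⟨u, hu, e ▸ hur⟩ hAU
      · exact absurd ⟨u, hu, e ▸ hur⟩ hBU
      · exact Or.inr (Or.inl e)
      · exact Or.inr (Or.inr (Or.inl e))
      · exact Or.inr (Or.inr (Or.inr e)))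
  obtain ⟨y, hy⟩ := hne
  obtain ⟨y', hy'⟩ := hne'
  have e1 : y = k := by
    have : y ∈ C ∪ C' := Finset.mem_union_left _ hy
    rwa [hk, Finset.mem_singleton] at this
  have e2 : y' = k := by
    have : y' ∈ C ∪ C' := Finset.mem_union_right _ hy'
    rwa [hk, Finset.mem_singleton] at this
  rw [e1] at hy
  rw [e2] at hy'
  exact (Finset.disjoint_left.1 hd) hy hy'

/-- model B -/
private theorem coreb1_model {W C C' : Finset V} {v a b c z z' : V}
    (hv : v ∈ W) (ha : a ∈ W) (hb : b ∈ W) (hc : c ∈ W) (hz : z ∈ W) (hz' : z' ∈ W)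
    (va : G.Adj v a) (vb : G.Adj v b) (vc : G.Adj v c) (za : G.Adj z a) (zb : G.Adj z b)
    (za' : G.Adj z' a) (zb' : G.Adj z' b)
    (hab : a ≠ b) (hac : a ≠ c) (hbc : b ≠ c) (hzc : z ≠ c) (hzc' : z' ≠ c) (hzv : z ≠ v)
    (hzv' : z' ≠ v) (hzz : z ≠ z')
    (hC : ∀ u ∈ C, u ∈ W ∧ u ≠ a ∧ u ≠ b ∧ u ≠ c ∧ u ≠ v ∧ u ≠ z ∧ u ≠ z')
    (hC' : ∀ u ∈ C', u ∈ W ∧ u ≠ a ∧ u ≠ b ∧ u ≠ c ∧ u ≠ v ∧ u ≠ z ∧ u ≠ z')
    (cC : Conn G C) (cC' : Conn G C') (hd : Disjoint C C')
    (tz : coreb1T G C z) (tc : coreb1T G C c) (tb : coreb1T G C b)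
    (ta : coreb1T G C a ∨ coreb1T G C z') (tz' : coreb1T G C' z) (tc' : coreb1T G C' c) :
    K5 G W := by
  have n1 := va.ne
  have n2 := vb.ne
  have n3 := vc.ne
  have n4 := za.ne
  have n5 := zb.ne
  have n6 := za'.ne
  have n7 := zb'.ne
  have m1 : a ∉ C := fun hh => (hC a hh).2.1 rfl
  have m2 : b ∉ C := fun hh => (hC b hh).2.2.1 rfl
  have m3 : c ∉ C := fun hh => (hC c hh).2.2.2.1 rfl
  have m4 : v ∉ C := fun hh => (hC v hh).2.2.2.2.1 rfl
  have m5 : z ∉ C := fun hh => (hC z hh).2.2.2.2.2.1 rfl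
  have m6 : z' ∉ C := fun hh => (hC z' hh).2.2.2.2.2.2 rfl
  have l1 : a ∉ C' := fun hh => (hC' a hh).2.1 rfl
  have l2 : b ∉ C' := fun hh => (hC' b hh).2.2.1 rfl
  have l3 : c ∉ C' := fun hh => (hC' c hh).2.2.2.1 rfl
  have l4 : v ∉ C' := fun hh => (hC' v hh).2.2.2.2.1 rfl
  have l5 : z ∉ C' := fun hh => (hC' z hh).2.2.2.2.2.1 rfl
  have l6 : z' ∉ C' := fun hh => (hC' z' hh).2.2.2.2.2.2 rfl
  have hd' := hd.symm
  refine K5.mk' (X₁ := {a, z'}) (X₂ := {b}) (X₃ := insert v (insert c C')) (X₄ := {z}) (X₅ := C)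
    ?_ ?_ ?_ ?_ (fun u hu => (hC u hu).1) (conn_pair za'.symm) (conn_singleton G b)
    ((cC'.insert tc').insert ⟨c, Finset.mem_insert_self c C', vc.symm⟩) (conn_singleton G z) cC
    ?_ ?_ ?_ ?_ ?_ ?_ ?_ ?_ ?_ ?_ ?_ ?_ ?_ ?_ ?_ ?_ ?_ ?_ ?_ ?_
  · intro t ht
    simp only [Finset.mem_insert, Finset.mem_singleton] at ht
    rcases ht with rfl | rfl
    · exact ha
    · exact hz'
  · intro t ht
    rw [Finset.mem_singleton.1 ht]
    exact hb
  · intro t ht
    simp only [Finset.mem_insert] at ht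
    rcases ht with rfl | rfl | ht
    · exact hv
    · exact hc
    · exact (hC' t ht).1
  · intro t ht
    rw [Finset.mem_singleton.1 ht]
    exact hz
  · simp [hab, hab.symm, n7, n7.symm]
  · simp [n1, n1.symm, hac, hac.symm, l1, hzv', hzv'.symm, hzc', hzc'.symm, l6]
  · simp [n4, n4.symm, hzz, hzz.symm]
  · simp [m1, m6]
  · simp [n2, n2.symm, hbc, hbc.symm, l2]
  · simp [n5, n5.symm]
  · simp [m2]
  · simp [hzv, hzv.symm, hzc, hzc.symm, l5]
  · simp [m4, m3, hd']
  · simp [m5]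
  · exact touch_of_adj (u := z') (by simp) (Finset.mem_singleton_self b) zb'
  · exact touch_of_adj (u := a) (w := v) (by simp) (by simp) va.symm
  · exact touch_of_adj (u := a) (by simp) (Finset.mem_singleton_self z) za.symm
  · rcases ta with ⟨m, hm, hma⟩ | ⟨m, hm, hma⟩
    · exact touch_of_adj (u := a) (by simp) hm hma.symm
    · exact touch_of_adj (u := z') (by simp) hm hma.symm
  · exact touch_of_adj (w := v) (Finset.mem_singleton_self b) (by simp) vb.symm
  · exact touch_of_adj (Finset.mem_singleton_self b) (Finset.mem_singleton_self z) zb.symm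
  · obtain ⟨m, hm, hmb⟩ := tb
    exact touch_of_adj (Finset.mem_singleton_self b) hm hmb.symm
  · obtain ⟨m, hm, hmz⟩ := tz'
    exact touch_of_adj (Finset.mem_insert_of_mem (Finset.mem_insert_of_mem hm))
      (Finset.mem_singleton_self z) hmz
  · obtain ⟨m, hm, hmc⟩ := tc
    exact touch_of_adj (u := c) (by simp) hm hmc.symm
  · obtain ⟨m, hm, hmz⟩ := tz
    exact touch_of_adj (Finset.mem_singleton_self z) hm hmz.symm

/-- model B for two components -/
private theorem coreb1_modelB {W C C' : Finset V} {v a b c z z' : V}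
    (x : Coreb1Ctx G W v a b c z z')
    (hC : Closed G (W \ {a, b, c, v, z, z'}) C) (cC : Conn G C)
    (hC' : Closed G (W \ {a, b, c, v, z, z'}) C') (cC' : Conn G C') (hd : Disjoint C C')
    (tc : coreb1T G C c) (tc' : coreb1T G C' c) (tz' : coreb1T G C' z) (tz : coreb1T G C z)
    (h3 : (coreb1T G C a ∧ coreb1T G C b) ∨ (coreb1T G C a ∧ coreb1T G C z') ∨
      (coreb1T G C b ∧ coreb1T G C z')) : K5 G W := by
  obtain ⟨hpc, hqc, npc, nqc, nvp, nvq⟩ := coreb1_ne x
  have key1 : coreb1T G C b → (coreb1T G C a ∨ coreb1T G C z') → K5 G W := fun tb ta =>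
    coreb1_model x.h.hv x.h.ha x.h.hb x.h.hc x.hp x.hq x.h.va x.h.vb x.h.vc x.pa x.pb x.qa x.qb
      x.h.ab x.h.ac x.h.bc hpc hqc x.hpv x.hqv x.hpq (coreb1_mem hC) (coreb1_mem hC') cC cC' hd
      tz tc tb ta tz' tc'
  have key2 : coreb1T G C a → coreb1T G C z' → K5 G W := fun ta tt => by
    refine coreb1_model x.h.hv x.h.hb x.h.ha x.h.hc x.hp x.hq x.h.vb x.h.va x.h.vc x.pb x.pa x.qb
      x.qa x.h.ab.symm x.h.bc x.h.ac hpc hqc x.hpv x.hqv x.hpq ?_ ?_ cC cC' hd
      tz tc ta (Or.inr tt) tz' tc'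
    · intro u hu
      obtain ⟨k0, k1, k2, k3⟩ := coreb1_mem hC u hu
      exact ⟨k0, k2, k1, k3⟩
    · intro u hu
      obtain ⟨k0, k1, k2, k3⟩ := coreb1_mem hC' u hu
      exact ⟨k0, k2, k1, k3⟩
  rcases h3 with ⟨ta, tb⟩ | ⟨ta, tt⟩ | ⟨tb, tt⟩
  · exact key1 tb (Or.inl ta)
  · exact key2 ta tt
  · exact key1 tb (Or.inr tt)

/-- symmetry of the removed set -/
private theorem coreb1_set {W : Finset V} {v a b c p q : V} :
    W \ {a, b, c, v, p, q} = W \ {a, b, c, v, q, p} := by
  rw [Finset.pair_comm p q]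

private theorem coreb1_last {W C C' : Finset V} {v a b c p q : V}
    (x : Coreb1Ctx G W v a b c p q) (npq : ¬ G.Adj p q)
    (hKc : ∀ E, Closed G (W \ {a, b, c, v, p, q}) E → E.Nonempty → coreb1T G E c)
    (hC : Closed G (W \ {a, b, c, v, p, q}) C) (cC : Conn G C)
    (hC' : Closed G (W \ {a, b, c, v, p, q}) C') (cC' : Conn G C')
    (A1 : coreb1T G C a) (B1 : coreb1T G C b) (P1 : coreb1T G C p) (Q1 : ¬ coreb1T G C q)
    (A2 : coreb1T G C' a) (B2 : coreb1T G C' b) (Q2 : coreb1T G C' q) (P2 : ¬ coreb1T G C' p) :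
    K5 G W := by
  obtain ⟨hpc, hqc, npc, nqc, nvp, nvq⟩ := coreb1_ne x
  have hm := coreb1_mem hC
  have hout := coreb1_out x hC
  by_cases hall : ∀ y ∈ W \ {a, b, c, v, p, q}, y ∈ C ∨ y ∈ C'
  · exfalso
    have hpC : p ∉ C := fun hh => (hm p hh).2.2.2.2.2.1 rfl
    obtain ⟨-, k, hk, -⟩ := coreb1_piece (C := insert p C) (s := v) (x := a) (y := b) (z := c)
      (t := q) x.h.piece (by
        intro u hu
        rcases Finset.mem_insert.1 hu with h1 | h1
        · rw [h1]; exact x.hp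
        · exact (hm u h1).1) ⟨p, Finset.mem_insert_self p C⟩ x.h.ha x.h.hb x.h.hc x.hq x.h.hv
      (by
        rw [Finset.mem_insert, not_or]
        exact ⟨x.pa.ne.symm, fun hh => (hm a hh).2.1 rfl⟩)
      (by
        rw [Finset.mem_insert, not_or]
        exact ⟨x.pb.ne.symm, fun hh => (hm b hh).2.2.1 rfl⟩)
      (by
        rw [Finset.mem_insert, not_or]
        exact ⟨hpc.symm, fun hh => (hm c hh).2.2.2.1 rfl⟩)
      (by
        rw [Finset.mem_insert, not_or]
        exact ⟨x.hpq.symm, fun hh => (hm q hh).2.2.2.2.2.2 rfl⟩)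
      (by
        rw [Finset.mem_insert, not_or]
        exact ⟨x.hpv.symm, fun hh => (hm v hh).2.2.2.2.1 rfl⟩)
      x.hqv.symm x.h.va.ne x.h.vb.ne x.h.vc.ne x.qa.ne x.qb.ne hqc (by
        intro u hu r hr hur
        rcases Finset.mem_insert.1 hu with h1 | h1
        · rw [h1] at hur
          by_cases hra : r = a
          · exact Or.inr (Or.inl hra)
          by_cases hrb : r = b
          · exact Or.inr (Or.inr (Or.inl hrb))
          by_cases hrc : r = c
          · exact Or.inr (Or.inr (Or.inr hrc))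
          left
          by_cases hrv : r = v
          · rw [hrv] at hur
            exact absurd hur.symm nvp
          by_cases hrq : r = q
          · rw [hrq] at hur
            exact absurd hur npq
          have hrp : r ≠ p := hur.ne.symm
          rcases hall r (by
            simp only [Finset.mem_sdiff, Finset.mem_insert, Finset.mem_singleton, not_or]
            exact ⟨hr, hra, hrb, hrc, hrv, hrp, hrq⟩) with h2 | h2
          · exact Finset.mem_insert_of_mem h2
          · exact absurd ⟨r, h2, hur.symm⟩ P2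
        · rcases hout u h1 r hr hur with e | e | e | e | e | e
          · exact Or.inl (Finset.mem_insert_of_mem e)
          · exact Or.inr (Or.inl e)
          · exact Or.inr (Or.inr (Or.inl e))
          · exact Or.inr (Or.inr (Or.inr e))
          · exact Or.inl (by rw [e]; exact Finset.mem_insert_self p C)
          · exact absurd ⟨u, h1, e ▸ hur⟩ Q1)
    obtain ⟨y, hy⟩ := cC.1
    have e1 : p = k := by
      have : p ∈ insert p C := Finset.mem_insert_self p C
      rwa [hk, Finset.mem_singleton] at this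
    have e2 : y = k := by
      have : y ∈ insert p C := Finset.mem_insert_of_mem hy
      rwa [hk, Finset.mem_singleton] at this
    rw [e2, ← e1] at hy
    exact hpC hy
  · push Not at hall
    obtain ⟨y, hyK, hyC, hyC'⟩ := hall
    obtain ⟨E, cE, hE, hyE⟩ := exists_comp G _ hyK
    have d1 : Disjoint C E := by
      by_contra hd
      rw [Finset.not_disjoint_iff_nonempty_inter, Finset.inter_comm] at hd
      exact hyC (cE.subset_of_closed hE.1 hC hd hyE)
    have d2 : Disjoint C' E := by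
      by_contra hd
      rw [Finset.not_disjoint_iff_nonempty_inter, Finset.inter_comm] at hd
      exact hyC' (cE.subset_of_closed hE.1 hC' hd hyE)
    have hPQ : coreb1T G E p ∨ coreb1T G E q := by
      rcases coreb1_claim x hE cE.1 with k | k | k | k | k
      · exact Or.inl k.2.2
      · exact Or.inr k.2.2
      · exact Or.inl k.2.1
      · exact Or.inl k.2.1
      · exact Or.inl k.2.2.1
    rcases hPQ with P3 | Q3
    · exact coreb1_modelB x hC cC hE cE d1 (hKc C hC cC.1) (hKc E hE cE.1) P3 P1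
        (Or.inl ⟨A1, B1⟩)
    · exact coreb1_modelB (coreb1_swap x) (coreb1_set (W := W) ▸ hC') cC'
        (coreb1_set (W := W) ▸ hE) cE d2 (hKc C' hC' cC'.1) (hKc E hE cE.1) Q3 Q2
        (Or.inl ⟨A2, B2⟩)

/-- (1a) -/
private theorem coreb1_touchD {W D : Finset V} {v a b c p q : V}
    (x : Coreb1Ctx G W v a b c p q) (hcD : c ∈ D)
    (hm : ∀ u ∈ D, u ∈ W ∧ u ≠ a ∧ u ≠ b ∧ u ≠ v ∧ u ≠ p ∧ u ≠ q)
    (hout : ∀ u ∈ D, ∀ r ∈ W, G.Adj u r → r ∈ D ∨ r = a ∨ r = b ∨ r = v ∨ r = p ∨ r = q) :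
    coreb1T G D p := by
  obtain ⟨hpc, hqc, npc, nqc, nvp, nvq⟩ := coreb1_ne x
  by_contra hP
  have haD : a ∉ D := fun hh => (hm a hh).2.1 rfl
  have hbD : b ∉ D := fun hh => (hm b hh).2.2.1 rfl
  have hvD : v ∉ D := fun hh => (hm v hh).2.2.2.1 rfl
  have hpD : p ∉ D := fun hh => (hm p hh).2.2.2.2.1 rfl
  have hqD : q ∉ D := fun hh => (hm q hh).2.2.2.2.2 rfl
  by_cases hbig : ∃ t ∈ W, t ≠ p ∧ t ∉ insert v D ∧ t ≠ a ∧ t ≠ b ∧ t ≠ q
  · obtain ⟨t, htW, htp, htZ, hta, htb, htq⟩ := hbig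
    obtain ⟨-, k, hk, -⟩ := coreb1_piece (C := insert v D) (s := p) (x := a) (y := b) (z := q)
      (t := t) x.h.piece (by
        intro u hu
        rcases Finset.mem_insert.1 hu with h1 | h1
        · rw [h1]; exact x.h.hv
        · exact (hm u h1).1) ⟨v, Finset.mem_insert_self v D⟩ x.h.ha x.h.hb x.hq htW x.hp
      (by
        rw [Finset.mem_insert, not_or]
        exact ⟨x.h.va.ne.symm, haD⟩)
      (by
        rw [Finset.mem_insert, not_or]
        exact ⟨x.h.vb.ne.symm, hbD⟩)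
      (by
        rw [Finset.mem_insert, not_or]
        exact ⟨x.hqv, hqD⟩) htZ
      (by
        rw [Finset.mem_insert, not_or]
        exact ⟨x.hpv, hpD⟩)
      htp.symm x.pa.ne x.pb.ne x.hpq hta htb htq (by
        intro u hu r hr hur
        rcases Finset.mem_insert.1 hu with h1 | h1
        · rw [h1] at hur
          rcases x.h.only r hr hur with e | e | e
          · exact Or.inr (Or.inl e)
          · exact Or.inr (Or.inr (Or.inl e))
          · exact Or.inl (by rw [e]; exact Finset.mem_insert_of_mem hcD)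
        · rcases hout u h1 r hr hur with e | e | e | e | e | e
          · exact Or.inl (Finset.mem_insert_of_mem e)
          · exact Or.inr (Or.inl e)
          · exact Or.inr (Or.inr (Or.inl e))
          · exact Or.inl (by rw [e]; exact Finset.mem_insert_self v D)
          · exact absurd ⟨u, h1, e ▸ hur⟩ hP
          · exact Or.inr (Or.inr (Or.inr e)))
    have e1 : v = k := by
      have : v ∈ insert v D := Finset.mem_insert_self v D
      rwa [hk, Finset.mem_singleton] at this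
    have e2 : c = k := by
      have : c ∈ insert v D := Finset.mem_insert_of_mem hcD
      rwa [hk, Finset.mem_singleton] at this
    exact x.h.vc.ne (e1.trans e2.symm)
  · have h1 := coreb1_piece (C := {p}) (s := v) (x := a) (y := b) (z := q)
      (t := c) x.h.piece (Finset.singleton_subset_iff.2 x.hp) (Finset.singleton_nonempty p) x.h.ha
      x.h.hb x.hq x.h.hc x.h.hv
      (by rw [Finset.mem_singleton]; exact x.pa.ne.symm)
      (by rw [Finset.mem_singleton]; exact x.pb.ne.symm)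
      (by rw [Finset.mem_singleton]; exact x.hpq.symm)
      (by rw [Finset.mem_singleton]; exact hpc.symm)
      (by rw [Finset.mem_singleton]; exact x.hpv.symm)
      x.h.vc.ne x.h.va.ne x.h.vb.ne x.hqv.symm x.h.ac.symm x.h.bc.symm hqc.symm (by
        intro u hu r hr hur
        rw [Finset.mem_singleton.1 hu] at hur
        by_contra hcon
        simp only [not_or] at hcon
        obtain ⟨-, c1, c2, c3⟩ := hcon
        apply hbig
        refine ⟨r, hr, hur.ne.symm, ?_, c1, c2, c3⟩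
        intro hrZ
        rcases Finset.mem_insert.1 hrZ with h1 | h1
        · rw [h1] at hur
          exact nvp hur.symm
        · exact hP ⟨r, h1, hur.symm⟩)
    exact h1.1.2.1 x.qa.symm

/-- (1b): a further component of `D₀` -/
private theorem coreb1_four {W E : Finset V} {v a b c p q : V}
    (x : Coreb1Ctx G W v a b c p q) (hne : E.Nonempty)
    (hm : ∀ u ∈ E, u ∈ W ∧ u ≠ a ∧ u ≠ b ∧ u ≠ c ∧ u ≠ v ∧ u ≠ p ∧ u ≠ q)
    (hout : ∀ u ∈ E, ∀ r ∈ W, G.Adj u r → r ∈ E ∨ r = a ∨ r = b ∨ r = p ∨ r = q) :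
    coreb1T G E a ∧ coreb1T G E b ∧ coreb1T G E p ∧ coreb1T G E q := by
  obtain ⟨hpc, hqc, npc, nqc, nvp, nvq⟩ := coreb1_ne x
  have hsub : E ⊆ W := fun u hu => (hm u hu).1
  have haE : a ∉ E := fun hh => (hm a hh).2.1 rfl
  have hbE : b ∉ E := fun hh => (hm b hh).2.2.1 rfl
  have hcE : c ∉ E := fun hh => (hm c hh).2.2.2.1 rfl
  have hvE : v ∉ E := fun hh => (hm v hh).2.2.2.2.1 rfl
  have hpE : p ∉ E := fun hh => (hm p hh).2.2.2.2.2.1 rfl
  have hqE : q ∉ E := fun hh => (hm q hh).2.2.2.2.2.2 rfl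
  refine ⟨?_, ?_, ?_, ?_⟩
  · by_contra hA
    have h1 := coreb1_piece (s := v) (x := b) (y := p) (z := q) (t := c) x.h.piece hsub hne x.h.hb
      x.hp x.hq x.h.hc x.h.hv hbE hpE hqE hcE hvE x.h.vc.ne x.h.vb.ne x.hpv.symm x.hqv.symm
      x.h.bc.symm hpc.symm hqc.symm (by
        intro u hu r hr hur
        rcases hout u hu r hr hur with e | e | e | e | e
        · exact Or.inl e
        · exact absurd ⟨u, hu, e ▸ hur⟩ hA
        · exact Or.inr (Or.inl e)
        · exact Or.inr (Or.inr (Or.inl e))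
        · exact Or.inr (Or.inr (Or.inr e)))
    exact h1.1.1 x.pb.symm
  · by_contra hA
    have h1 := coreb1_piece (s := v) (x := a) (y := p) (z := q) (t := c) x.h.piece hsub hne x.h.ha
      x.hp x.hq x.h.hc x.h.hv haE hpE hqE hcE hvE x.h.vc.ne x.h.va.ne x.hpv.symm x.hqv.symm
      x.h.ac.symm hpc.symm hqc.symm (by
        intro u hu r hr hur
        rcases hout u hu r hr hur with e | e | e | e | e
        · exact Or.inl e
        · exact Or.inr (Or.inl e)
        · exact absurd ⟨u, hu, e ▸ hur⟩ hA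
        · exact Or.inr (Or.inr (Or.inl e))
        · exact Or.inr (Or.inr (Or.inr e)))
    exact h1.1.1 x.pa.symm
  · by_contra hA
    have h1 := coreb1_piece (s := v) (x := a) (y := b) (z := q) (t := c) x.h.piece hsub hne x.h.ha
      x.h.hb x.hq x.h.hc x.h.hv haE hbE hqE hcE hvE x.h.vc.ne x.h.va.ne x.h.vb.ne x.hqv.symm
      x.h.ac.symm x.h.bc.symm hqc.symm (by
        intro u hu r hr hur
        rcases hout u hu r hr hur with e | e | e | e | e
        · exact Or.inl e
        · exact Or.inr (Or.inl e)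
        · exact Or.inr (Or.inr (Or.inl e))
        · exact absurd ⟨u, hu, e ▸ hur⟩ hA
        · exact Or.inr (Or.inr (Or.inr e)))
    exact h1.1.2.1 x.qa.symm
  · by_contra hA
    have h1 := coreb1_piece (s := v) (x := a) (y := b) (z := p) (t := c) x.h.piece hsub hne x.h.ha
      x.h.hb x.hp x.h.hc x.h.hv haE hbE hpE hcE hvE x.h.vc.ne x.h.va.ne x.h.vb.ne x.hpv.symm
      x.h.ac.symm x.h.bc.symm hpc.symm (by
        intro u hu r hr hur
        rcases hout u hu r hr hur with e | e | e | e | e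
        · exact Or.inl e
        · exact Or.inr (Or.inl e)
        · exact Or.inr (Or.inr (Or.inl e))
        · exact Or.inr (Or.inr (Or.inr e))
        · exact absurd ⟨u, hu, e ▸ hur⟩ hA)
    exact h1.1.2.1 x.pa.symm

private theorem coreb1_model1b {W D E : Finset V} {v a b c p q : V}
    (x : Coreb1Ctx G W v a b c p q) (cD : Conn G D) (cE : Conn G E) (hd : Disjoint D E)
    (hmD : ∀ u ∈ D, u ∈ W ∧ u ≠ a ∧ u ≠ b ∧ u ≠ v ∧ u ≠ p ∧ u ≠ q)
    (hmE : ∀ u ∈ E, u ∈ W ∧ u ≠ a ∧ u ≠ b ∧ u ≠ c ∧ u ≠ v ∧ u ≠ p ∧ u ≠ q)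
    (tp : coreb1T G D p) (tq : coreb1T G D q)
    (ta : coreb1T G E a) (tb : coreb1T G E b) (tp' : coreb1T G E p) (tq' : coreb1T G E q) :
    K5 G W := by
  have n1 := x.h.va.ne
  have n2 := x.h.vb.ne
  have n3 := x.h.ab
  have n4 := x.pa.ne
  have n5 := x.pb.ne
  have n6 := x.qa.ne
  have n7 := x.qb.ne
  have n8 := x.hpq
  have n9 := x.hpv
  have n10 := x.hqv
  have haD : a ∉ D := fun hh => (hmD a hh).2.1 rfl
  have hbD : b ∉ D := fun hh => (hmD b hh).2.2.1 rfl
  have hvD : v ∉ D := fun hh => (hmD v hh).2.2.2.1 rfl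
  have hpD : p ∉ D := fun hh => (hmD p hh).2.2.2.2.1 rfl
  have haE : a ∉ E := fun hh => (hmE a hh).2.1 rfl
  have hbE : b ∉ E := fun hh => (hmE b hh).2.2.1 rfl
  have hvE : v ∉ E := fun hh => (hmE v hh).2.2.2.2.1 rfl
  have hpE : p ∉ E := fun hh => (hmE p hh).2.2.2.2.2.1 rfl
  have hqE : q ∉ E := fun hh => (hmE q hh).2.2.2.2.2.2 rfl
  refine K5.mk' (X₁ := {a, v}) (X₂ := {b}) (X₃ := {p}) (X₄ := insert q D) (X₅ := E)
    ?_ ?_ ?_ ?_ (fun u hu => (hmE u hu).1) (conn_pair x.h.va.symm) (conn_singleton G b)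
    (conn_singleton G p) (cD.insert tq) cE
    ?_ ?_ ?_ ?_ ?_ ?_ ?_ ?_ ?_ ?_ ?_ ?_ ?_ ?_ ?_ ?_ ?_ ?_ ?_ ?_
  · intro t ht
    simp only [Finset.mem_insert, Finset.mem_singleton] at ht
    rcases ht with rfl | rfl
    · exact x.h.ha
    · exact x.h.hv
  · intro t ht
    rw [Finset.mem_singleton.1 ht]
    exact x.h.hb
  · intro t ht
    rw [Finset.mem_singleton.1 ht]
    exact x.hp
  · intro t ht
    rcases Finset.mem_insert.1 ht with h1 | h1
    · rw [h1]; exact x.hq
    · exact (hmD t h1).1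
  · simp [n3, n3.symm, n2, n2.symm]
  · simp [n4, n4.symm, n9, n9.symm]
  · simp [n6, n6.symm, haD, n10, n10.symm, hvD]
  · simp [haE, hvE]
  · simp [n5, n5.symm]
  · simp [n7, n7.symm, hbD]
  · simp [hbE]
  · simp [n8, n8.symm, hpD]
  · simp [hpE]
  · simp [hqE, hd]
  · exact touch_of_adj (u := v) (by simp) (Finset.mem_singleton_self b) x.h.vb
  · exact touch_of_adj (u := a) (by simp) (Finset.mem_singleton_self p) x.pa.symm
  · exact touch_of_adj (u := a) (by simp) (Finset.mem_insert_self q D) x.qa.symm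
  · obtain ⟨m, hm, hma⟩ := ta
    exact touch_of_adj (u := a) (by simp) hm hma.symm
  · exact touch_of_adj (Finset.mem_singleton_self b) (Finset.mem_singleton_self p) x.pb.symm
  · exact touch_of_adj (Finset.mem_singleton_self b) (Finset.mem_insert_self q D) x.qb.symm
  · obtain ⟨m, hm, hmb⟩ := tb
    exact touch_of_adj (Finset.mem_singleton_self b) hm hmb.symm
  · obtain ⟨m, hm, hmp⟩ := tp
    exact touch_of_adj (Finset.mem_singleton_self p) (Finset.mem_insert_of_mem hm) hmp.symm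
  · obtain ⟨m, hm, hmp⟩ := tp'
    exact touch_of_adj (Finset.mem_singleton_self p) hm hmp.symm
  · obtain ⟨m, hm, hmq⟩ := tq'
    exact touch_of_adj (Finset.mem_insert_self q D) hm hmq.symm

private theorem coreb1_model1c {W D : Finset V} {v a b c p q : V}
    (hv : v ∈ W) (ha : a ∈ W) (hb : b ∈ W) (hp : p ∈ W) (hq : q ∈ W)
    (va : G.Adj v a) (vb : G.Adj v b) (vc : G.Adj v c) (pa : G.Adj p a) (pb : G.Adj p b)
    (qa : G.Adj q a) (qb : G.Adj q b) (hab : a ≠ b) (hpv : p ≠ v) (hqv : q ≠ v) (hpq : p ≠ q)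
    (cD : Conn G D) (hcD : c ∈ D)
    (hmD : ∀ u ∈ D, u ∈ W ∧ u ≠ a ∧ u ≠ b ∧ u ≠ v ∧ u ≠ p ∧ u ≠ q)
    (tp : coreb1T G D p) (tq : coreb1T G D q) (tb : coreb1T G D b) (pq : G.Adj p q) :
    K5 G W := by
  have n1 := va.ne
  have n2 := vb.ne
  have n4 := pa.ne
  have n5 := pb.ne
  have n6 := qa.ne
  have n7 := qb.ne
  have haD : a ∉ D := fun hh => (hmD a hh).2.1 rfl
  have hbD : b ∉ D := fun hh => (hmD b hh).2.2.1 rfl
  have hvD : v ∉ D := fun hh => (hmD v hh).2.2.2.1 rfl
  have hpD : p ∉ D := fun hh => (hmD p hh).2.2.2.2.1 rfl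
  have hqD : q ∉ D := fun hh => (hmD q hh).2.2.2.2.2 rfl
  refine K5.mk' (X₁ := {a, v}) (X₂ := {b}) (X₃ := {p}) (X₄ := {q}) (X₅ := D)
    ?_ ?_ ?_ ?_ (fun u hu => (hmD u hu).1) (conn_pair va.symm) (conn_singleton G b)
    (conn_singleton G p) (conn_singleton G q) cD
    ?_ ?_ ?_ ?_ ?_ ?_ ?_ ?_ ?_ ?_ ?_ ?_ ?_ ?_ ?_ ?_ ?_ ?_ ?_ ?_
  · intro t ht
    simp only [Finset.mem_insert, Finset.mem_singleton] at ht
    rcases ht with rfl | rfl
    · exact ha
    · exact hv
  · intro t ht
    rw [Finset.mem_singleton.1 ht]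
    exact hb
  · intro t ht
    rw [Finset.mem_singleton.1 ht]
    exact hp
  · intro t ht
    rw [Finset.mem_singleton.1 ht]
    exact hq
  · simp [hab, hab.symm, n2, n2.symm]
  · simp [n4, n4.symm, hpv, hpv.symm]
  · simp [n6, n6.symm, hqv, hqv.symm]
  · simp [haD, hvD]
  · simp [n5, n5.symm]
  · simp [n7, n7.symm]
  · simp [hbD]
  · simp [hpq, hpq.symm]
  · simp [hpD]
  · simp [hqD]
  · exact touch_of_adj (u := v) (by simp) (Finset.mem_singleton_self b) vb
  · exact touch_of_adj (u := a) (by simp) (Finset.mem_singleton_self p) pa.symm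
  · exact touch_of_adj (u := a) (by simp) (Finset.mem_singleton_self q) qa.symm
  · exact touch_of_adj (u := v) (by simp) hcD vc
  · exact touch_of_adj (Finset.mem_singleton_self b) (Finset.mem_singleton_self p) pb.symm
  · exact touch_of_adj (Finset.mem_singleton_self b) (Finset.mem_singleton_self q) qb.symm
  · obtain ⟨m, hm, hmb⟩ := tb
    exact touch_of_adj (Finset.mem_singleton_self b) hm hmb.symm
  · exact touch_of_adj (Finset.mem_singleton_self p) (Finset.mem_singleton_self q) pq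
  · obtain ⟨m, hm, hmp⟩ := tp
    exact touch_of_adj (Finset.mem_singleton_self p) hm hmp.symm
  · obtain ⟨m, hm, hmq⟩ := tq
    exact touch_of_adj (Finset.mem_singleton_self q) hm hmq.symm

theorem coreB1 {W : Finset V} {v a b c p q : V} (h : Cub G W v a b c)
    (hno : ∀ w ∈ W, w ≠ v → G.Adj w a → G.Adj w b → ¬ G.Adj w c)
    (hp : p ∈ W) (hpv : p ≠ v) (pa : G.Adj p a) (pb : G.Adj p b)
    (hq : q ∈ W) (hqv : q ≠ v) (qa : G.Adj q a) (qb : G.Adj q b) (hpq : p ≠ q) :
    K5 G W ∨ Conn G (W \ {a, b, c, v, p, q}) := by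
  have x : Coreb1Ctx G W v a b c p q := ⟨h, hno, hp, hpv, pa, pb, hq, hqv, qa, qb, hpq⟩
  obtain ⟨hpc, hqc, npc, nqc, nvp, nvq⟩ := coreb1_ne x
  have hcD0 : c ∈ W \ {a, b, v, p, q} := by
    simp only [Finset.mem_sdiff, Finset.mem_insert, Finset.mem_singleton, not_or]
    exact ⟨h.hc, h.ac.symm, h.bc.symm, h.vc.ne.symm, hpc.symm, hqc.symm⟩
  have hD0m : ∀ E, Closed G (W \ {a, b, v, p, q}) E →
      ∀ u ∈ E, u ∈ W ∧ u ≠ a ∧ u ≠ b ∧ u ≠ v ∧ u ≠ p ∧ u ≠ q := by
    intro E hE u hu
    have h1 := hE.1 hu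
    simp only [Finset.mem_sdiff, Finset.mem_insert, Finset.mem_singleton, not_or] at h1
    exact h1
  have hD0out : ∀ E, Closed G (W \ {a, b, v, p, q}) E → ∀ u ∈ E, ∀ r ∈ W, G.Adj u r →
      r ∈ E ∨ r = a ∨ r = b ∨ r = v ∨ r = p ∨ r = q := by
    intro E hE u hu r hr hur
    by_contra hcon
    simp only [not_or] at hcon
    obtain ⟨k0, k1, k2, k3, k4, k5⟩ := hcon
    refine k0 (hE.2 u hu r ?_ hur)
    simp only [Finset.mem_sdiff, Finset.mem_insert, Finset.mem_singleton, not_or]
    exact ⟨hr, k1, k2, k3, k4, k5⟩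
  obtain ⟨D, cD, hD, hcD⟩ := exists_comp G _ hcD0
  have hmD := hD0m D hD
  have houtD := hD0out D hD
  have tp : coreb1T G D p := coreb1_touchD x hcD hmD houtD
  have tq : coreb1T G D q := coreb1_touchD (coreb1_swap x) hcD
    (fun u hu => by
      obtain ⟨k0, k1, k2, k3, k4, k5⟩ := hmD u hu
      exact ⟨k0, k1, k2, k3, k5, k4⟩)
    (fun u hu r hr hur => by
      rcases houtD u hu r hr hur with e | e | e | e | e | e
      · exact Or.inl e
      · exact Or.inr (Or.inl e)
      · exact Or.inr (Or.inr (Or.inl e))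
      · exact Or.inr (Or.inr (Or.inr (Or.inl e)))
      · exact Or.inr (Or.inr (Or.inr (Or.inr (Or.inr e))))
      · exact Or.inr (Or.inr (Or.inr (Or.inr (Or.inl e)))))
  by_cases hDD : D = W \ {a, b, v, p, q}
  swap
  · -- (1b)
    left
    obtain ⟨y, hy0, hyD⟩ : ∃ y ∈ W \ {a, b, v, p, q}, y ∉ D := by
      by_contra hcon
      push Not at hcon
      exact hDD (Finset.Subset.antisymm hD.1 hcon)
    obtain ⟨E, cE, hE, hyE⟩ := exists_comp G _ hy0
    have hd : Disjoint D E := by
      by_contra hd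
      rw [Finset.not_disjoint_iff_nonempty_inter, Finset.inter_comm] at hd
      exact hyD (cE.subset_of_closed hE.1 hD hd hyE)
    have hmE : ∀ u ∈ E, u ∈ W ∧ u ≠ a ∧ u ≠ b ∧ u ≠ c ∧ u ≠ v ∧ u ≠ p ∧ u ≠ q := by
      intro u hu
      obtain ⟨k0, k1, k2, k3, k4, k5⟩ := hD0m E hE u hu
      refine ⟨k0, k1, k2, fun e => ?_, k3, k4, k5⟩
      rw [e] at hu
      exact (Finset.disjoint_left.1 hd) hcD hu
    obtain ⟨ta, tb, tp', tq'⟩ := coreb1_four x cE.1 hmE (by
      intro u hu r hr hur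
      rcases hD0out E hE u hu r hr hur with e | e | e | e | e | e
      · exact Or.inl e
      · exact Or.inr (Or.inl e)
      · exact Or.inr (Or.inr (Or.inl e))
      · rw [e] at hur
        obtain ⟨k0, k1, k2, k3, -⟩ := hmE u hu
        rcases h.only u k0 hur.symm with e | e | e
        · exact absurd e k1
        · exact absurd e k2
        · exact absurd e k3
      · exact Or.inr (Or.inr (Or.inr (Or.inl e)))
      · exact Or.inr (Or.inr (Or.inr (Or.inr e))))
    exact coreb1_model1b x cD cE hd hmD hmE tp tq ta tb tp' tq'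
  by_cases hadj : G.Adj p q
  · -- (1c)
    left
    by_cases tb : coreb1T G D b
    · exact coreb1_model1c h.hv h.ha h.hb hp hq h.va h.vb h.vc pa pb qa qb h.ab hpv hqv hpq cD hcD
        hmD tp tq tb hadj
    by_cases ta : coreb1T G D a
    · refine coreb1_model1c h.hv h.hb h.ha hp hq h.vb h.va h.vc pb pa qb qa h.ab.symm hpv hqv hpq
        cD hcD ?_ tp tq ta hadj
      intro u hu
      obtain ⟨k0, k1, k2, k3⟩ := hmD u hu
      exact ⟨k0, k2, k1, k3⟩
    exfalso
    have h1 := coreb1_piece (C := D) (s := a) (x := v) (y := p) (z := q) (t := b) h.piece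
      (fun u hu => (hmD u hu).1) cD.1 h.hv hp hq h.hb h.ha
      (fun hh => (hmD v hh).2.2.2.1 rfl) (fun hh => (hmD p hh).2.2.2.2.1 rfl)
      (fun hh => (hmD q hh).2.2.2.2.2 rfl) (fun hh => (hmD b hh).2.2.1 rfl)
      (fun hh => (hmD a hh).2.1 rfl) h.ab h.va.ne.symm pa.ne.symm qa.ne.symm h.vb.ne.symm
      pb.ne.symm qb.ne.symm (by
        intro u hu r hr hur
        rcases houtD u hu r hr hur with e | e | e | e | e | e
        · exact Or.inl e
        · exact absurd ⟨u, hu, e ▸ hur⟩ ta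
        · exact absurd ⟨u, hu, e ▸ hur⟩ tb
        · exact Or.inr (Or.inl e)
        · exact Or.inr (Or.inr (Or.inl e))
        · exact Or.inr (Or.inr (Or.inr e)))
    exact h1.1.2.2 hadj
  -- (2)
  have hKD : D.erase c = W \ {a, b, c, v, p, q} := by
    rw [hDD]
    ext u
    simp only [Finset.mem_erase, Finset.mem_sdiff, Finset.mem_insert, Finset.mem_singleton, not_or]
    tauto
  have hKne : (W \ {a, b, c, v, p, q}).Nonempty := by
    obtain ⟨u, hu, hup⟩ := tp
    rw [← hKD]
    refine ⟨u, Finset.mem_erase.2 ⟨?_, hu⟩⟩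
    rintro rfl
    exact npc hup.symm
  have hKc : ∀ E, Closed G (W \ {a, b, c, v, p, q}) E → E.Nonempty → coreb1T G E c := by
    intro E hE hne
    rw [← hKD] at hE
    exact cD.touch_of_closed_erase hcD hE hne
  rcases conn_or_split G hKne with hconn | ⟨C, C', cC, cC', hC, hC', hd⟩
  · exact Or.inr hconn
  left
  have k1 := coreb1_claim x hC cC.1
  have k2 := coreb1_claim x hC' cC'.1
  have eC : Closed G (W \ {a, b, c, v, q, p}) C := coreb1_set (W := W) ▸ hC
  have eC' : Closed G (W \ {a, b, c, v, q, p}) C' := coreb1_set (W := W) ▸ hC'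
  have mp12 := coreb1_modelB x hC cC hC' cC' hd (hKc C hC cC.1) (hKc C' hC' cC'.1)
  have mp21 := coreb1_modelB x hC' cC' hC cC hd.symm (hKc C' hC' cC'.1) (hKc C hC cC.1)
  have mq12 := coreb1_modelB (coreb1_swap x) eC cC eC' cC' hd (hKc C hC cC.1) (hKc C' hC' cC'.1)
  have mq21 := coreb1_modelB (coreb1_swap x) eC' cC' eC cC hd.symm (hKc C' hC' cC'.1)
    (hKc C hC cC.1)
  have ms := coreb1_single x hC cC.1 hC' cC'.1 hd
  have ml12 := coreb1_last x hadj hKc hC cC hC' cC'
  have ml21 := coreb1_last x hadj hKc hC' cC' hC cC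
  by_contra hK
  generalize coreb1T G C a = A1 at *
  generalize coreb1T G C b = B1 at *
  generalize coreb1T G C p = P1 at *
  generalize coreb1T G C q = Q1 at *
  generalize coreb1T G C' a = A2 at *
  generalize coreb1T G C' b = B2 at *
  generalize coreb1T G C' p = P2 at *
  generalize coreb1T G C' q = Q2 at *
  generalize K5 G W = KK at *
  clear hKc
  grind

end Pool.Agent.Lib.MP_a2d8aa_co.Rg
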