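import Pool.Agent.Lib.MP_a2d8aa_co.Rg.Conn

/-!
Menger's theorem for two disjoint connections, with connected sets in place of paths
(MP_a2d8aa_co).
-/

set_option autoImplicit false

namespace Pool.Agent.Lib.MP_a2d8aa_co.Rg

variable {V : Type*} [DecidableEq V] {G : SimpleGraph V}

theorem menger2 {K A B : Finset V} (hK : Conn G K) (hA : A ⊆ K) (hB : B ⊆ K)
    (hno : ∀ u ∈ K, ∃ C, Conn G C ∧ C ⊆ K.erase u ∧ (C ∩ A).Nonempty ∧ (C ∩ B).Nonempty) :
    ∃ C D, Conn G C ∧ Conn G D ∧ C ⊆ K ∧ D ⊆ K ∧ Disjoint C D ∧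
      (C ∩ A).Nonempty ∧ (C ∩ B).Nonempty ∧ (D ∩ A).Nonempty ∧ (D ∩ B).Nonempty := by
  classical
  by_contra hcon
  let P : Finset (Finset V × Finset V) := (K.powerset ×ˢ K.powerset).filter (fun p =>
    Conn G p.1 ∧ Conn G p.2 ∧ Disjoint p.1 p.2 ∧ (p.1 ∩ A).Nonempty ∧ (p.1 ∩ B).Nonempty ∧
      (p.2 ∩ A).Nonempty)
  have hPmem : ∀ p : Finset V × Finset V, p ∈ P ↔ (p.1 ⊆ K ∧ p.2 ⊆ K) ∧ Conn G p.1 ∧
      Conn G p.2 ∧ Disjoint p.1 p.2 ∧ (p.1 ∩ A).Nonempty ∧ (p.1 ∩ B).Nonempty ∧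
      (p.2 ∩ A).Nonempty := by
    intro p
    simp only [P, Finset.mem_filter, Finset.mem_product, Finset.mem_powerset]
  have hPne : P.Nonempty := by
    obtain ⟨u0, hu0⟩ := hK.1
    obtain ⟨C0, -, -, ⟨a0, ha0⟩, -⟩ := hno u0 hu0
    rw [Finset.mem_inter] at ha0
    obtain ⟨Y, hY, hYs, hYA, hYB⟩ := hno a0 (hA ha0.2)
    refine ⟨(Y, {a0}), (hPmem _).2 ⟨⟨hYs.trans (Finset.erase_subset _ _),
      Finset.singleton_subset_iff.2 (hA ha0.2)⟩, hY, conn_singleton G a0, ?_, hYA, hYB,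
      ⟨a0, Finset.mem_inter.2 ⟨Finset.mem_singleton_self _, ha0.2⟩⟩⟩⟩
    rw [Finset.disjoint_singleton_right]
    exact fun h => (Finset.mem_erase.1 (hYs h)).1 rfl
  obtain ⟨⟨Y1, Y2⟩, hp, hmax⟩ := Finset.exists_max_image P (fun p => p.2.card) hPne
  rw [hPmem] at hp
  obtain ⟨⟨hY1K, hY2K⟩, hY1, hY2, hdis, hY1A, hY1B, hY2A⟩ := hp
  simp only at hY1K hY2K hY1 hY2 hdis hY1A hY1B hY2A hmax
  have hY2B : ∀ y ∈ Y2, y ∉ B := by
    intro y hy hyB
    exact hcon ⟨Y1, Y2, hY1, hY2, hY1K, hY2K, hdis, hY1A, hY1B, hY2A,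
      ⟨y, Finset.mem_inter.2 ⟨hy, hyB⟩⟩⟩
  -- enlarging `Y2` is impossible
  have hbig : ∀ (C : Finset V) (z : V), Conn G C → C ⊆ K → (C ∩ A).Nonempty →
      (C ∩ B).Nonempty → z ∈ K → z ∉ Y2 → (∃ u ∈ Y2, G.Adj u z) → z ∉ C → Disjoint C Y2 →
      False := by
    intro C z hC hCK hCA hCB hzK hzY hzu hzC hCY
    have h1 := hmax (C, Insert.insert z Y2) ((hPmem _).2 ⟨⟨hCK, Finset.insert_subset hzK hY2K⟩, hC,
      hY2.insert hzu, Finset.disjoint_insert_right.2 ⟨hzC, hCY⟩, hCA, hCB,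
      hY2A.mono (Finset.inter_subset_inter (Finset.subset_insert _ _) subset_rfl)⟩)
    simp only at h1
    rw [Finset.card_insert_of_notMem hzY] at h1
    omega
  set K' := K \ Y2 with hK'
  have hY1K' : Y1 ⊆ K' := by
    intro y hy
    exact Finset.mem_sdiff.2 ⟨hY1K hy, (Finset.disjoint_left.1 hdis) hy⟩
  have hK'K : K' ⊆ K := Finset.sdiff_subset
  have hK'Y : Disjoint K' Y2 := Finset.sdiff_disjoint
  have hNY1 : ∀ z ∈ K', (∃ u ∈ Y2, G.Adj u z) → z ∈ Y1 := by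
    intro z hz hzu
    by_contra hzY
    exact hbig Y1 z hY1 hY1K hY1A hY1B (hK'K hz) (Finset.mem_sdiff.1 hz).2 hzu hzY hdis
  let L : V → Finset V := fun z => (K'.erase z).filter (fun x =>
    ∃ C, Conn G C ∧ C ⊆ K'.erase z ∧ x ∈ C ∧ (C ∩ A).Nonempty)
  have hLmem : ∀ z x, x ∈ L z ↔ x ∈ K'.erase z ∧
      ∃ C, Conn G C ∧ C ⊆ K'.erase z ∧ x ∈ C ∧ (C ∩ A).Nonempty := by
    intro z x
    simp only [L, Finset.mem_filter]
  have hLsub : ∀ z, ∀ C, Conn G C → C ⊆ K'.erase z → (C ∩ A).Nonempty → C ⊆ L z := by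
    intro z C hC hCs hCA x hx
    exact (hLmem z x).2 ⟨hCs hx, C, hC, hCs, hx, hCA⟩
  have hLcl : ∀ z, Closed G (K'.erase z) (L z) := by
    intro z
    refine ⟨Finset.filter_subset _ _, fun u hu w hw huw => ?_⟩
    obtain ⟨-, C, hC, hCs, huC, hCA⟩ := (hLmem z u).1 hu
    exact (hLmem z w).2 ⟨hw, Insert.insert w C, hC.insert ⟨u, huC, huw⟩,
      Finset.insert_subset hw hCs, Finset.mem_insert_self _ _,
      hCA.mono (Finset.inter_subset_inter (Finset.subset_insert _ _) subset_rfl)⟩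
  have hLB : ∀ z ∈ K', (∃ u ∈ Y2, G.Adj u z) → ∀ x ∈ L z, x ∉ B := by
    intro z hz hzu x hx hxB
    obtain ⟨-, C, hC, hCs, hxC, hCA⟩ := (hLmem z x).1 hx
    refine hbig C z hC (hCs.trans ((Finset.erase_subset _ _).trans hK'K)) hCA
      ⟨x, Finset.mem_inter.2 ⟨hxC, hxB⟩⟩ (hK'K hz) (Finset.mem_sdiff.1 hz).2 hzu
      (fun h => (Finset.mem_erase.1 (hCs h)).1 rfl)
      (hK'Y.mono_left (hCs.trans (Finset.erase_subset _ _)))
  let N : Finset V := K'.filter (fun z => ∃ u ∈ Y2, G.Adj u z)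
  have hNmem : ∀ z, z ∈ N ↔ z ∈ K' ∧ ∃ u ∈ Y2, G.Adj u z := by
    intro z; simp only [N, Finset.mem_filter]
  have hNne : N.Nonempty := by
    have hne : Y2 ≠ K := by
      intro h
      obtain ⟨y, hy⟩ := hY1.1
      exact (Finset.disjoint_left.1 hdis) hy (h ▸ hY1K hy)
    obtain ⟨u, hu, w, hw, huw⟩ := hK.2 Y2 hY2K hY2.1 hne
    exact ⟨w, (hNmem w).2 ⟨hw, u, hu, huw⟩⟩
  obtain ⟨z, hzN, hzmax⟩ := Finset.exists_max_image N (fun z => (L z).card) hNne
  obtain ⟨hzK', hzu⟩ := (hNmem z).1 hzN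
  have hzY1 : z ∈ Y1 := hNY1 z hzK' hzu
  have hkey : ∀ z' ∈ N, z' ≠ z → z' ∈ L z := by
    intro z' hz'N hne
    by_contra hz'L
    obtain ⟨hz'K', hz'u⟩ := (hNmem z').1 hz'N
    -- `L z ⊆ L z'`
    have hsub : L z ⊆ L z' := by
      intro x hx
      obtain ⟨-, C, hC, hCs, hxC, hCA⟩ := (hLmem z x).1 hx
      have hCL : C ⊆ L z := hLsub z C hC hCs hCA
      have hCs' : C ⊆ K'.erase z' := by
        intro y hy
        refine Finset.mem_erase.2 ⟨?_, (Finset.mem_erase.1 (hCs hy)).2⟩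
        rintro rfl
        exact hz'L (hCL hy)
      exact (hLsub z' C hC hCs' hCA) hxC
    have hzz' : z ∈ K'.erase z' := Finset.mem_erase.2 ⟨hne.symm, hzK'⟩
    have hzL' : z ∈ L z' := by
      by_cases hzA : z ∈ A
      · exact (hLmem z' z).2 ⟨hzz', {z}, conn_singleton G z, Finset.singleton_subset_iff.2 hzz',
          Finset.mem_singleton_self z, ⟨z, Finset.mem_inter.2 ⟨Finset.mem_singleton_self z, hzA⟩⟩⟩
      · obtain ⟨a1, ha1⟩ := hY1A
        rw [Finset.mem_inter] at ha1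
        have ha1z : a1 ≠ z := fun h => hzA (h ▸ ha1.2)
        have ha1s : ({a1} : Finset V) ⊆ K'.erase z := Finset.singleton_subset_iff.2
          (Finset.mem_erase.2 ⟨ha1z, hY1K' ha1.1⟩)
        have ha1L : a1 ∈ L z := (hLsub z {a1} (conn_singleton G a1) ha1s
          ⟨a1, Finset.mem_inter.2 ⟨Finset.mem_singleton_self _, ha1.2⟩⟩)
          (Finset.mem_singleton_self _)
        have hzL : z ∉ L z := fun h => (Finset.mem_erase.1 ((hLmem z z).1 h).1).1 rfl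
        obtain ⟨u, hu, w, hw, huw⟩ := hY1.2 (Y1 ∩ L z) Finset.inter_subset_left
          ⟨a1, Finset.mem_inter.2 ⟨ha1.1, ha1L⟩⟩ (fun h => hzL (by
            have : z ∈ Y1 ∩ L z := by rw [h]; exact hzY1
            exact (Finset.mem_inter.1 this).2))
        rw [Finset.mem_inter] at hu
        rw [Finset.mem_sdiff, Finset.mem_inter, not_and] at hw
        have hwz : w = z := by
          by_contra hwz
          exact hw.2 hw.1 ((hLcl z).2 u hu.2 w (Finset.mem_erase.2 ⟨hwz, hY1K' hw.1⟩) huw)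
        rw [hwz] at huw
        exact (hLcl z').2 u (hsub hu.2) z hzz' huw
    have hlt : (L z).card < (L z').card := by
      refine Finset.card_lt_card ⟨hsub, fun h => ?_⟩
      exact (Finset.mem_erase.1 ((hLmem z z).1 (h hzL')).1).1 rfl
    have := hzmax z' hz'N
    omega
  -- the set `U = L z ∪ Y2` is closed in `K - z`
  obtain ⟨C, hC, hCs, ⟨a, ha⟩, ⟨b, hb⟩⟩ := hno z (hK'K hzK')
  rw [Finset.mem_inter] at ha hb
  have hzY2 : z ∉ Y2 := (Finset.mem_sdiff.1 hzK').2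
  have hUcl : Closed G (K.erase z) (L z ∪ Y2) := by
    constructor
    · intro x hx
      rcases Finset.mem_union.1 hx with h | h
      · have h1 := ((hLmem z x).1 h).1
        rw [Finset.mem_erase] at h1
        exact Finset.mem_erase.2 ⟨h1.1, hK'K h1.2⟩
      · exact Finset.mem_erase.2 ⟨fun hh => hzY2 (hh ▸ h), hY2K h⟩
    · intro x hx w hw hxw
      rw [Finset.mem_erase] at hw
      by_cases hwY : w ∈ Y2
      · exact Finset.mem_union_right _ hwY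
      have hwK' : w ∈ K' := Finset.mem_sdiff.2 ⟨hw.2, hwY⟩
      rcases Finset.mem_union.1 hx with h | h
      · exact Finset.mem_union_left _ ((hLcl z).2 x h w (Finset.mem_erase.2 ⟨hw.1, hwK'⟩) hxw)
      · exact Finset.mem_union_left _ (hkey w ((hNmem w).2 ⟨hwK', x, h, hxw⟩) hw.1)
  have hmeet : (C ∩ (L z ∪ Y2)).Nonempty := by
    refine ⟨a, Finset.mem_inter.2 ⟨ha.1, ?_⟩⟩
    by_cases haY : a ∈ Y2
    · exact Finset.mem_union_right _ haY
    · have haz : a ≠ z := (Finset.mem_erase.1 (hCs ha.1)).1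
      have haK' : a ∈ K' := Finset.mem_sdiff.2 ⟨hA ha.2, haY⟩
      exact Finset.mem_union_left _ ((hLsub z {a} (conn_singleton G a)
        (Finset.singleton_subset_iff.2 (Finset.mem_erase.2 ⟨haz, haK'⟩))
        ⟨a, Finset.mem_inter.2 ⟨Finset.mem_singleton_self _, ha.2⟩⟩)
        (Finset.mem_singleton_self _))
  have hCU := hC.subset_of_closed hCs hUcl hmeet
  rcases Finset.mem_union.1 (hCU hb.1) with h | h
  · exact hLB z hzK' hzu b h hb.2
  · exact hY2B b h hb.2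

end Pool.Agent.Lib.MP_a2d8aa_co.Rg
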