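import Pool.Agent.Lib.MP_a2d8aa_co.Rg.CubDef
import Pool.Agent.Lib.MP_a2d8aa_co.Rg.Menger

/-!
Core, case B, second part (MP_a2d8aa_co).
-/

set_option autoImplicit false

namespace Pool.Agent.Lib.MP_a2d8aa_co.Rg

variable {V : Type*} [DecidableEq V] {G : SimpleGraph V}

private theorem coreb2_model {W K1 K2 : Finset V} {v c x y p q : V}
    (hv : v ∈ W) (hc : c ∈ W) (hx : x ∈ W) (hy : y ∈ W) (hp : p ∈ W) (hq : q ∈ W)
    (n1 : ∀ u ∈ K1, u ∈ W ∧ u ≠ x ∧ u ≠ y ∧ u ≠ c ∧ u ≠ v ∧ u ≠ p ∧ u ≠ q)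
    (n2 : ∀ u ∈ K2, u ∈ W ∧ u ≠ x ∧ u ≠ y ∧ u ≠ c ∧ u ≠ v ∧ u ≠ p ∧ u ≠ q)
    (hdis : Disjoint K1 K2) (hxy : x ≠ y) (hxc : x ≠ c) (hyc : y ≠ c)
    (hpc : p ≠ c) (hqc : q ≠ c) (hpv : p ≠ v) (hqv : q ≠ v) (hpq : p ≠ q)
    (vx : G.Adj v x) (vy : G.Adj v y) (vc : G.Adj v c)
    (px : G.Adj p x) (py : G.Adj p y) (qx : G.Adj q x) (qy : G.Adj q y)
    (c1 : Conn G K1) (c2 : Conn G K2) (ht : Touch G K1 K2)
    (h1 : ∃ m ∈ K1, G.Adj m q) (h2 : ∃ m ∈ K1, G.Adj m c)
    (h3 : ∃ m ∈ K2, G.Adj m p) (h4 : ∃ m ∈ K2, G.Adj m c) (h5 : ∃ m ∈ K2, G.Adj m x) :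
    K5 G W := by
  have hvx := vx.ne
  have hvy := vy.ne
  have hvc := vc.ne
  have hpx := px.ne
  have hpy := py.ne
  have hqx := qx.ne
  have hqy := qy.ne
  refine K5.mk' (X₁ := {c, v}) (X₂ := {y, p}) (X₃ := {x}) (X₄ := insert q K1) (X₅ := K2)
    ?_ ?_ ?_ ?_ ?_ (conn_pair vc.symm) (conn_pair py.symm) (conn_singleton G x)
    (c1.insert h1) c2 ?_ ?_ ?_ ?_ ?_ ?_ ?_ ?_ ?_ ?_ ?_ ?_ ?_ ?_ ?_ ?_ ?_ ?_ ?_ ?_
  · intro t ht'
    simp only [Finset.mem_insert, Finset.mem_singleton] at ht'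
    rcases ht' with rfl | rfl
    · exact hc
    · exact hv
  · intro t ht'
    simp only [Finset.mem_insert, Finset.mem_singleton] at ht'
    rcases ht' with rfl | rfl
    · exact hy
    · exact hp
  · intro t ht'
    rw [Finset.mem_singleton.1 ht']
    exact hx
  · intro t ht'
    rcases Finset.mem_insert.1 ht' with rfl | h
    · exact hq
    · exact (n1 t h).1
  · exact fun t ht' => (n2 t ht').1
  · -- {c,v} vs {y,p}
    rw [Finset.disjoint_left]
    intro t h1' h2'
    simp only [Finset.mem_insert, Finset.mem_singleton] at h1' h2'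
    rcases h1' with rfl | rfl
    · rcases h2' with h | h
      · exact hyc h.symm
      · exact hpc h.symm
    · rcases h2' with h | h
      · exact hvy h
      · exact hpv h.symm
  · -- {c,v} vs {x}
    rw [Finset.disjoint_left]
    intro t h1' h2'
    simp only [Finset.mem_insert, Finset.mem_singleton] at h1' h2'
    rcases h1' with rfl | rfl
    · exact hxc h2'.symm
    · exact hvx h2'
  · -- {c,v} vs insert q K1
    rw [Finset.disjoint_left]
    intro t h1' h2'
    simp only [Finset.mem_insert, Finset.mem_singleton] at h1' h2'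
    rcases h1' with rfl | rfl
    · rcases h2' with h | h
      · exact hqc h.symm
      · exact (n1 t h).2.2.2.1 rfl
    · rcases h2' with h | h
      · exact hqv h.symm
      · exact (n1 t h).2.2.2.2.1 rfl
  · -- {c,v} vs K2
    rw [Finset.disjoint_left]
    intro t h1' h2'
    simp only [Finset.mem_insert, Finset.mem_singleton] at h1'
    rcases h1' with rfl | rfl
    · exact (n2 t h2').2.2.2.1 rfl
    · exact (n2 t h2').2.2.2.2.1 rfl
  · -- {y,p} vs {x}
    rw [Finset.disjoint_left]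
    intro t h1' h2'
    simp only [Finset.mem_insert, Finset.mem_singleton] at h1' h2'
    rcases h1' with rfl | rfl
    · exact hxy h2'.symm
    · exact hpx h2'
  · -- {y,p} vs insert q K1
    rw [Finset.disjoint_left]
    intro t h1' h2'
    simp only [Finset.mem_insert, Finset.mem_singleton] at h1' h2'
    rcases h1' with rfl | rfl
    · rcases h2' with h | h
      · exact hqy h.symm
      · exact (n1 t h).2.2.1 rfl
    · rcases h2' with h | h
      · exact hpq h
      · exact (n1 t h).2.2.2.2.2.1 rfl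
  · -- {y,p} vs K2
    rw [Finset.disjoint_left]
    intro t h1' h2'
    simp only [Finset.mem_insert, Finset.mem_singleton] at h1'
    rcases h1' with rfl | rfl
    · exact (n2 t h2').2.2.1 rfl
    · exact (n2 t h2').2.2.2.2.2.1 rfl
  · -- {x} vs insert q K1
    rw [Finset.disjoint_left]
    intro t h1' h2'
    simp only [Finset.mem_insert, Finset.mem_singleton] at h1' h2'
    subst h1'
    rcases h2' with h | h
    · exact hqx h.symm
    · exact (n1 t h).2.1 rfl
  · -- {x} vs K2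
    rw [Finset.disjoint_left]
    intro t h1' h2'
    rw [Finset.mem_singleton.1 h1'] at h2'
    exact (n2 x h2').2.1 rfl
  · -- insert q K1 vs K2
    rw [Finset.disjoint_left]
    intro t h1' h2'
    rcases Finset.mem_insert.1 h1' with rfl | h
    · exact (n2 t h2').2.2.2.2.2.2 rfl
    · exact (Finset.disjoint_left.1 hdis) h h2'
  · exact touch_of_adj (u := v) (w := y) (by simp) (by simp) vy
  · exact touch_of_adj (u := v) (w := x) (by simp) (by simp) vx
  · obtain ⟨m, hm, hmc⟩ := h2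
    exact touch_of_adj (u := c) (w := m) (by simp) (Finset.mem_insert_of_mem hm) hmc.symm
  · obtain ⟨m, hm, hmc⟩ := h4
    exact touch_of_adj (u := c) (w := m) (by simp) hm hmc.symm
  · exact touch_of_adj (u := p) (w := x) (by simp) (by simp) px
  · exact touch_of_adj (u := y) (w := q) (by simp) (by simp) qy.symm
  · obtain ⟨m, hm, hmp⟩ := h3
    exact touch_of_adj (u := p) (w := m) (by simp) hm hmp.symm
  · exact touch_of_adj (u := x) (w := q) (by simp) (by simp) qx.symm
  · obtain ⟨m, hm, hmx⟩ := h5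
    exact touch_of_adj (u := x) (w := m) (by simp) hm hmx.symm
  · exact ht.mono (Finset.subset_insert q K1) (Finset.Subset.refl _)

private theorem coreb2_card {W T : Finset V} {s t : V} (hs : s ∈ W) (ht : t ∈ W) (hst : s ≠ t)
    (hsT : s ∉ T) (htT : t ∉ T) : 2 ≤ (W \ T).card := by
  rw [← Finset.card_pair hst]
  apply Finset.card_le_card
  intro r hr
  simp only [Finset.mem_insert, Finset.mem_singleton] at hr
  rcases hr with rfl | rfl
  · exact Finset.mem_sdiff.2 ⟨hs, hsT⟩
  · exact Finset.mem_sdiff.2 ⟨ht, htT⟩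

private theorem coreb2_touch {W : Finset V} {v a b c p q : V} (h : Cub G W v a b c)
    (hno : ∀ w ∈ W, w ≠ v → G.Adj w a → G.Adj w b → ¬ G.Adj w c)
    (hp : p ∈ W) (hpv : p ≠ v) (pa : G.Adj p a) (pb : G.Adj p b)
    (hq : q ∈ W) (hqv : q ≠ v) (qa : G.Adj q a) (hpq : p ≠ q) (hpc : p ≠ c) (hqc : q ≠ c)
    (hbq : b ≠ q) :
    ∃ m ∈ W, m ≠ a ∧ m ≠ b ∧ m ≠ c ∧ m ≠ v ∧ m ≠ p ∧ m ≠ q ∧ G.Adj m p := by
  by_contra hcon
  have hvp : ¬ G.Adj p v := by
    intro hh
    rcases h.only p hp hh.symm with h1 | h1 | h1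
    · exact pa.ne h1
    · exact pb.ne h1
    · exact hpc h1
  have hP := h.piece {p} {a, b, q} (by
      intro t ht
      rw [Finset.mem_singleton.1 ht]
      exact hp) (by
      intro t ht
      simp only [Finset.mem_insert, Finset.mem_singleton] at ht
      rcases ht with rfl | rfl | rfl
      · exact h.ha
      · exact h.hb
      · exact hq) (by
      rw [Finset.disjoint_left]
      intro t h1 h2
      rw [Finset.mem_singleton.1 h1] at h2
      simp only [Finset.mem_insert, Finset.mem_singleton] at h2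
      rcases h2 with h2 | h2 | h2
      · exact pa.ne h2
      · exact pb.ne h2
      · exact hpq h2) (Finset.singleton_nonempty p) Finset.card_le_three (by
      intro z hz w hw hzw
      rw [Finset.mem_singleton.1 hz] at hzw
      right
      simp only [Finset.mem_insert, Finset.mem_singleton]
      by_contra hnot
      rw [not_or, not_or] at hnot
      refine hcon ⟨w, hw, hnot.1, hnot.2.1, ?_, ?_, hzw.ne.symm, hnot.2.2, hzw.symm⟩
      · intro hwc
        rw [hwc] at hzw
        exact hno p hp hpv pa pb hzw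
      · intro hwv
        rw [hwv] at hzw
        exact hvp hzw)
      (coreb2_card h.hv h.hc h.vc.ne (by
        simp only [Finset.mem_union, Finset.mem_insert, Finset.mem_singleton, not_or]
        exact ⟨hpv.symm, h.va.ne, h.vb.ne, hqv.symm⟩) (by
        simp only [Finset.mem_union, Finset.mem_insert, Finset.mem_singleton, not_or]
        exact ⟨hpc.symm, h.ac.symm, h.bc.symm, hqc.symm⟩))
  exact hP.2.1 q (by simp) a (by simp) qa

theorem coreB2 {W : Finset V} {v a b c p q : V} (h : Cub G W v a b c)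
    (hno : ∀ w ∈ W, w ≠ v → G.Adj w a → G.Adj w b → ¬ G.Adj w c)
    (hp : p ∈ W) (hpv : p ≠ v) (pa : G.Adj p a) (pb : G.Adj p b)
    (hq : q ∈ W) (hqv : q ≠ v) (qa : G.Adj q a) (qb : G.Adj q b) (hpq : p ≠ q)
    (hK : Conn G (W \ {a, b, c, v, p, q})) : K5 G W := by
  classical
  have hpc : p ≠ c := by
    rintro rfl
    exact h.nac pa.symm
  have hqc : q ≠ c := by
    rintro rfl
    exact h.nac qa.symm
  have hva := h.va.ne
  have hvb := h.vb.ne
  have hvc := h.vc.ne
  have hab := h.ab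
  have hac := h.ac
  have hbc := h.bc
  have hKn : ∀ u ∈ W \ {a, b, c, v, p, q},
      u ∈ W ∧ u ≠ a ∧ u ≠ b ∧ u ≠ c ∧ u ≠ v ∧ u ≠ p ∧ u ≠ q := by
    intro u hu
    simp only [Finset.mem_sdiff, Finset.mem_insert, Finset.mem_singleton, not_or] at hu
    exact hu
  have hKm : ∀ u ∈ W, u ≠ a → u ≠ b → u ≠ c → u ≠ v → u ≠ p → u ≠ q →
      u ∈ W \ {a, b, c, v, p, q} := by
    intro u h0 h1 h2 h3 h4 h5 h6
    simp only [Finset.mem_sdiff, Finset.mem_insert, Finset.mem_singleton, not_or]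
    exact ⟨h0, h1, h2, h3, h4, h5, h6⟩
  generalize hKdef : W \ {a, b, c, v, p, q} = K at hK hKn hKm
  -- (0) `K` touches `p` and `q`
  have hKp : ∃ m ∈ K, G.Adj m p := by
    obtain ⟨m, h0, h1, h2, h3, h4, h5, h6, h7⟩ :=
      coreb2_touch h hno hp hpv pa pb hq hqv qa hpq hpc hqc qb.ne.symm
    exact ⟨m, hKm m h0 h1 h2 h3 h4 h5 h6, h7⟩
  have hKq : ∃ m ∈ K, G.Adj m q := by
    obtain ⟨m, h0, h1, h2, h3, h4, h5, h6, h7⟩ :=
      coreb2_touch h hno hq hqv qa qb hp hpv pa hpq.symm hqc hpc pb.ne.symm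
    exact ⟨m, hKm m h0 h1 h2 h3 h4 h6 h5, h7⟩
  have hnv : ∀ u, u ∈ W → u ≠ a → u ≠ b → u ≠ c → ¬ G.Adj u v := by
    intro u hu h1 h2 h3 hh
    rcases h.only u hu hh.symm with h4 | h4 | h4
    · exact h1 h4
    · exact h2 h4
    · exact h3 h4
  -- the two sets for Menger
  set A : Finset V := K.filter (fun u => G.Adj u p ∨ G.Adj u q) with hA
  set B : Finset V := K.filter (fun u => G.Adj u c) with hB
  have hAK : A ⊆ K := Finset.filter_subset _ _
  have hBK : B ⊆ K := Finset.filter_subset _ _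
  have hmenger : ∀ u ∈ K, ∃ C, Conn G C ∧ C ⊆ K.erase u ∧ (C ∩ A).Nonempty ∧
      (C ∩ B).Nonempty := by
    intro u hu
    by_contra hcon
    set L : Finset V := (K.erase u).filter
      (fun x => ∃ D, Conn G D ∧ D ⊆ K.erase u ∧ (D ∩ A).Nonempty ∧ x ∈ D) with hL
    have hLK : ∀ x ∈ L, x ∈ K ∧ x ≠ u := by
      intro x hx
      have h1 := Finset.mem_erase.1 (Finset.mem_filter.1 hx).1
      exact ⟨h1.2, h1.1⟩
    have hLc : ∀ x ∈ L, ¬ G.Adj x c := by
      intro x hx hxc
      obtain ⟨D, hD, hDK, hDA, hxD⟩ := (Finset.mem_filter.1 hx).2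
      exact hcon ⟨D, hD, hDK, hDA, ⟨x, Finset.mem_inter.2
        ⟨hxD, Finset.mem_filter.2 ⟨(hLK x hx).1, hxc⟩⟩⟩⟩
    have hLcl : ∀ x ∈ L, ∀ w ∈ K, w ≠ u → G.Adj x w → w ∈ L := by
      intro x hx w hw hwu hxw
      obtain ⟨D, hD, hDK, hDA, hxD⟩ := (Finset.mem_filter.1 hx).2
      have hwK : w ∈ K.erase u := Finset.mem_erase.2 ⟨hwu, hw⟩
      refine Finset.mem_filter.2 ⟨hwK, insert w D, hD.insert ⟨x, hxD, hxw⟩,
        Finset.insert_subset hwK hDK, ?_, Finset.mem_insert_self w D⟩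
      obtain ⟨t, ht⟩ := hDA
      rw [Finset.mem_inter] at ht
      exact ⟨t, Finset.mem_inter.2 ⟨Finset.mem_insert_of_mem ht.1, ht.2⟩⟩
    have hAL : ∀ w ∈ A, w ≠ u → w ∈ L := by
      intro w hw hwu
      have hwK : w ∈ K.erase u := Finset.mem_erase.2 ⟨hwu, hAK hw⟩
      exact Finset.mem_filter.2 ⟨hwK, {w}, conn_singleton G w,
        Finset.singleton_subset_iff.2 hwK, ⟨w, Finset.mem_inter.2
          ⟨Finset.mem_singleton_self w, hw⟩⟩, Finset.mem_singleton_self w⟩
    obtain ⟨huW, hua, hub, huc, huv, hup, huq⟩ := hKn u hu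
    have hPQ : ∀ z, (z = p ∨ z = q) → ∀ w ∈ W, G.Adj z w →
        w ∈ L ∪ {p, q} ∨ w ∈ ({a, b, u} : Finset V) := by
      intro z hz w hw hzw
      have hzW : z ∈ W ∧ z ≠ v ∧ z ≠ c ∧ G.Adj z a ∧ G.Adj z b := by
        rcases hz with rfl | rfl
        · exact ⟨hp, hpv, hpc, pa, pb⟩
        · exact ⟨hq, hqv, hqc, qa, qb⟩
      simp only [Finset.mem_union, Finset.mem_insert, Finset.mem_singleton]
      by_cases hwa : w = a
      · exact Or.inr (Or.inl hwa)
      by_cases hwb : w = b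
      · exact Or.inr (Or.inr (Or.inl hwb))
      by_cases hwu : w = u
      · exact Or.inr (Or.inr (Or.inr hwu))
      by_cases hwp : w = p
      · exact Or.inl (Or.inr (Or.inl hwp))
      by_cases hwq : w = q
      · exact Or.inl (Or.inr (Or.inr hwq))
      by_cases hwc : w = c
      · rw [hwc] at hzw
        exact absurd hzw (hno z hzW.1 hzW.2.1 hzW.2.2.2.1 hzW.2.2.2.2)
      by_cases hwv : w = v
      · rw [hwv] at hzw
        exact absurd hzw (hnv z hzW.1 hzW.2.2.2.1.ne hzW.2.2.2.2.ne hzW.2.2.1)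
      have hwK := hKm w hw hwa hwb hwc hwv hwp hwq
      refine Or.inl (Or.inl (hAL w ?_ hwu))
      refine Finset.mem_filter.2 ⟨hwK, ?_⟩
      rcases hz with rfl | rfl
      · exact Or.inl hzw.symm
      · exact Or.inr hzw.symm
    have hP := h.piece (L ∪ {p, q}) {a, b, u} (by
        intro t ht
        simp only [Finset.mem_union, Finset.mem_insert, Finset.mem_singleton] at ht
        rcases ht with ht | rfl | rfl
        · exact (hKn t (hLK t ht).1).1
        · exact hp
        · exact hq) (by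
        intro t ht
        simp only [Finset.mem_insert, Finset.mem_singleton] at ht
        rcases ht with rfl | rfl | rfl
        · exact h.ha
        · exact h.hb
        · exact huW) (by
        rw [Finset.disjoint_left]
        intro t h1 h2
        simp only [Finset.mem_union, Finset.mem_insert, Finset.mem_singleton] at h1 h2
        rcases h1 with h1 | h1 | h1
        · have h3 := hLK t h1
          have h4 := hKn t h3.1
          rcases h2 with h2 | h2 | h2
          · exact h4.2.1 h2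
          · exact h4.2.2.1 h2
          · exact h3.2 h2
        · subst h1
          rcases h2 with h2 | h2 | h2
          · exact pa.ne h2
          · exact pb.ne h2
          · exact hup h2.symm
        · subst h1
          rcases h2 with h2 | h2 | h2
          · exact qa.ne h2
          · exact qb.ne h2
          · exact huq h2.symm) ⟨p, by simp⟩ Finset.card_le_three (by
        intro z hz w hw hzw
        have hz' := hz
        simp only [Finset.mem_union, Finset.mem_insert, Finset.mem_singleton] at hz'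
        rcases hz' with hz' | hz'
        · obtain ⟨hzW, hza, hzb, hzc, -, -, -⟩ := hKn z (hLK z hz').1
          simp only [Finset.mem_union, Finset.mem_insert, Finset.mem_singleton]
          by_cases hwa : w = a
          · exact Or.inr (Or.inl hwa)
          by_cases hwb : w = b
          · exact Or.inr (Or.inr (Or.inl hwb))
          by_cases hwu : w = u
          · exact Or.inr (Or.inr (Or.inr hwu))
          by_cases hwp : w = p
          · exact Or.inl (Or.inr (Or.inl hwp))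
          by_cases hwq : w = q
          · exact Or.inl (Or.inr (Or.inr hwq))
          by_cases hwc : w = c
          · rw [hwc] at hzw
            exact absurd hzw (hLc z hz')
          by_cases hwv : w = v
          · rw [hwv] at hzw
            exact absurd hzw (hnv z hzW hza hzb hzc)
          exact Or.inl (Or.inl (hLcl z hz' w (hKm w hw hwa hwb hwc hwv hwp hwq) hwu hzw))
        · exact hPQ z hz' w hw hzw)
        (coreb2_card h.hv h.hc h.vc.ne (by
          simp only [Finset.mem_union, Finset.mem_insert, Finset.mem_singleton, not_or]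
          exact ⟨⟨fun hh => (hKn v (hLK v hh).1).2.2.2.2.1 rfl, hpv.symm, hqv.symm⟩,
            hva, hvb, huv.symm⟩) (by
          simp only [Finset.mem_union, Finset.mem_insert, Finset.mem_singleton, not_or]
          exact ⟨⟨fun hh => (hKn c (hLK c hh).1).2.2.2.1 rfl, hpc.symm, hqc.symm⟩,
            hac.symm, hbc.symm, huc.symm⟩))
    obtain ⟨-, -, k, hk, -⟩ := hP
    have h1 : p ∈ L ∪ {p, q} := by simp
    have h2 : q ∈ L ∪ {p, q} := by simp
    rw [hk, Finset.mem_singleton] at h1 h2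
    exact hpq (h1.trans h2.symm)
  obtain ⟨C, D, hC, hD, hCK, hDK, hCD, hCA, hCB, hDA, hDB⟩ := menger2 hK hAK hBK hmenger
  obtain ⟨K1, K2, hCK1, hDK2, hU, hdis, c1, c2, ht⟩ := hK.grow hC hD hCK hDK hCD
  have hK1 : K1 ⊆ K := hU ▸ Finset.subset_union_left
  have hK2 : K2 ⊆ K := hU ▸ Finset.subset_union_right
  have hB1 : ∃ m ∈ K1, G.Adj m c := by
    obtain ⟨t, ht⟩ := hCB
    rw [Finset.mem_inter] at ht
    exact ⟨t, hCK1 ht.1, (Finset.mem_filter.1 ht.2).2⟩
  have hB2 : ∃ m ∈ K2, G.Adj m c := by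
    obtain ⟨t, ht⟩ := hDB
    rw [Finset.mem_inter] at ht
    exact ⟨t, hDK2 ht.1, (Finset.mem_filter.1 ht.2).2⟩
  have hA1 : (∃ m ∈ K1, G.Adj m p) ∨ (∃ m ∈ K1, G.Adj m q) := by
    obtain ⟨t, ht⟩ := hCA
    rw [Finset.mem_inter] at ht
    rcases (Finset.mem_filter.1 ht.2).2 with h1 | h1
    · exact Or.inl ⟨t, hCK1 ht.1, h1⟩
    · exact Or.inr ⟨t, hCK1 ht.1, h1⟩
  have hA2 : (∃ m ∈ K2, G.Adj m p) ∨ (∃ m ∈ K2, G.Adj m q) := by
    obtain ⟨t, ht⟩ := hDA
    rw [Finset.mem_inter] at ht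
    rcases (Finset.mem_filter.1 ht.2).2 with h1 | h1
    · exact Or.inl ⟨t, hDK2 ht.1, h1⟩
    · exact Or.inr ⟨t, hDK2 ht.1, h1⟩
  have hsplit : ∀ r, (∃ m ∈ K, G.Adj m r) → (∃ m ∈ K1, G.Adj m r) ∨ (∃ m ∈ K2, G.Adj m r) := by
    rintro r ⟨m, hm, hmr⟩
    rw [← hU, Finset.mem_union] at hm
    rcases hm with h1 | h1
    · exact Or.inl ⟨m, h1, hmr⟩
    · exact Or.inr ⟨m, h1, hmr⟩
  -- (5) `K` touches `a` or `b`
  have hKab : (∃ m ∈ K, G.Adj m a) ∨ (∃ m ∈ K, G.Adj m b) := by
    by_contra hcon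
    rw [not_or] at hcon
    obtain ⟨hca, hcb⟩ := hcon
    have hP := h.piece K {c, p, q} (fun t ht => (hKn t ht).1) (by
        intro t ht
        simp only [Finset.mem_insert, Finset.mem_singleton] at ht
        rcases ht with rfl | rfl | rfl
        · exact h.hc
        · exact hp
        · exact hq) (by
        rw [Finset.disjoint_left]
        intro t h1 h2
        simp only [Finset.mem_insert, Finset.mem_singleton] at h2
        obtain ⟨-, -, -, h3, -, h4, h5⟩ := hKn t h1
        rcases h2 with h2 | h2 | h2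
        · exact h3 h2
        · exact h4 h2
        · exact h5 h2) hK.1 Finset.card_le_three (by
        intro z hz w hw hzw
        simp only [Finset.mem_insert, Finset.mem_singleton]
        by_cases hwc : w = c
        · exact Or.inr (Or.inl hwc)
        by_cases hwp : w = p
        · exact Or.inr (Or.inr (Or.inl hwp))
        by_cases hwq : w = q
        · exact Or.inr (Or.inr (Or.inr hwq))
        by_cases hwa : w = a
        · rw [hwa] at hzw
          exact absurd ⟨z, hz, hzw⟩ hca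
        by_cases hwb : w = b
        · rw [hwb] at hzw
          exact absurd ⟨z, hz, hzw⟩ hcb
        by_cases hwv : w = v
        · rw [hwv] at hzw
          obtain ⟨hzW, hza, hzb, hzc, -, -, -⟩ := hKn z hz
          exact absurd hzw (hnv z hzW hza hzb hzc)
        exact Or.inl (hKm w hw hwa hwb hwc hwv hwp hwq))
        (coreb2_card h.ha h.hb h.ab (by
          simp only [Finset.mem_union, Finset.mem_insert, Finset.mem_singleton, not_or]
          exact ⟨fun hh => (hKn a hh).2.1 rfl, hac, pa.ne.symm, qa.ne.symm⟩) (by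
          simp only [Finset.mem_union, Finset.mem_insert, Finset.mem_singleton, not_or]
          exact ⟨fun hh => (hKn b hh).2.2.1 rfl, hbc, pb.ne.symm, qb.ne.symm⟩))
    obtain ⟨-, -, k, hk, -⟩ := hP
    obtain ⟨s, hs⟩ := c1.1
    obtain ⟨t, ht'⟩ := c2.1
    have h1 := hK1 hs
    have h2 := hK2 ht'
    rw [hk, Finset.mem_singleton] at h1 h2
    exact (Finset.disjoint_left.1 hdis) hs ((h1.trans h2.symm) ▸ ht')
  -- the final models
  have hfin : ∀ (L1 L2 : Finset V), L1 ⊆ K → L2 ⊆ K → L1 ∪ L2 = K → Disjoint L1 L2 →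
      Conn G L1 → Conn G L2 → Touch G L1 L2 → (∃ m ∈ L1, G.Adj m q) → (∃ m ∈ L1, G.Adj m c) →
      (∃ m ∈ L2, G.Adj m p) → (∃ m ∈ L2, G.Adj m c) → K5 G W := by
    intro L1 L2 s1 s2 hu12 hd g1 g2 hT t1 t2 t3 t4
    have m1 : ∀ u ∈ L1, u ∈ W ∧ u ≠ a ∧ u ≠ b ∧ u ≠ c ∧ u ≠ v ∧ u ≠ p ∧ u ≠ q :=
      fun u hu => hKn u (s1 hu)
    have m2 : ∀ u ∈ L2, u ∈ W ∧ u ≠ a ∧ u ≠ b ∧ u ≠ c ∧ u ≠ v ∧ u ≠ p ∧ u ≠ q :=
      fun u hu => hKn u (s2 hu)
    rcases hKab with ⟨m, hm, hma⟩ | ⟨m, hm, hmb⟩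
    · rw [← hu12, Finset.mem_union] at hm
      rcases hm with hm | hm
      · exact coreb2_model (K1 := L2) (K2 := L1) (x := a) (y := b) (p := q) (q := p)
          h.hv h.hc h.ha h.hb hq hp
          (fun u hu => by
            obtain ⟨e0, e1, e2, e3, e4, e5, e6⟩ := m2 u hu
            exact ⟨e0, e1, e2, e3, e4, e6, e5⟩)
          (fun u hu => by
            obtain ⟨e0, e1, e2, e3, e4, e5, e6⟩ := m1 u hu
            exact ⟨e0, e1, e2, e3, e4, e6, e5⟩)
          hd.symm hab hac hbc hqc hpc hqv hpv hpq.symm h.va h.vb h.vc qa qb pa pb g2 g1 hT.symm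
          t3 t4 t1 t2 ⟨m, hm, hma⟩
      · exact coreb2_model (K1 := L1) (K2 := L2) (x := a) (y := b) (p := p) (q := q)
          h.hv h.hc h.ha h.hb hp hq m1 m2
          hd hab hac hbc hpc hqc hpv hqv hpq h.va h.vb h.vc pa pb qa qb g1 g2 hT
          t1 t2 t3 t4 ⟨m, hm, hma⟩
    · rw [← hu12, Finset.mem_union] at hm
      rcases hm with hm | hm
      · exact coreb2_model (K1 := L2) (K2 := L1) (x := b) (y := a) (p := q) (q := p)
          h.hv h.hc h.hb h.ha hq hp
          (fun u hu => by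
            obtain ⟨e0, e1, e2, e3, e4, e5, e6⟩ := m2 u hu
            exact ⟨e0, e2, e1, e3, e4, e6, e5⟩)
          (fun u hu => by
            obtain ⟨e0, e1, e2, e3, e4, e5, e6⟩ := m1 u hu
            exact ⟨e0, e2, e1, e3, e4, e6, e5⟩)
          hd.symm hab.symm hbc hac hqc hpc hqv hpv hpq.symm h.vb h.va h.vc qb qa pb pa g2 g1
          hT.symm t3 t4 t1 t2 ⟨m, hm, hmb⟩
      · exact coreb2_model (K1 := L1) (K2 := L2) (x := b) (y := a) (p := p) (q := q)
          h.hv h.hc h.hb h.ha hp hq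
          (fun u hu => by
            obtain ⟨e0, e1, e2, e3, e4, e5, e6⟩ := m1 u hu
            exact ⟨e0, e2, e1, e3, e4, e5, e6⟩)
          (fun u hu => by
            obtain ⟨e0, e1, e2, e3, e4, e5, e6⟩ := m2 u hu
            exact ⟨e0, e2, e1, e3, e4, e5, e6⟩)
          hd hab.symm hbc hac hpc hqc hpv hqv hpq h.vb h.va h.vc pb pa qb qa g1 g2 hT
          t1 t2 t3 t4 ⟨m, hm, hmb⟩
  have hU' : K2 ∪ K1 = K := by rw [Finset.union_comm]; exact hU
  rcases hA1 with h1 | h1
  · -- `K1` touches `p`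
    by_cases h2 : ∃ m ∈ K2, G.Adj m q
    · exact hfin K2 K1 hK2 hK1 hU' hdis.symm c2 c1 ht.symm h2 hB2 h1 hB1
    · have h3 := (hsplit q hKq).resolve_right h2
      have h4 := hA2.resolve_right h2
      exact hfin K1 K2 hK1 hK2 hU hdis c1 c2 ht h3 hB1 h4 hB2
  · -- `K1` touches `q`
    by_cases h2 : ∃ m ∈ K2, G.Adj m p
    · exact hfin K1 K2 hK1 hK2 hU hdis c1 c2 ht h1 hB1 h2 hB2
    · have h3 := (hsplit p hKp).resolve_right h2
      have h4 := hA2.resolve_left h2
      exact hfin K2 K1 hK2 hK1 hU' hdis.symm c2 c1 ht.symm h4 hB2 h3 hB1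

end Pool.Agent.Lib.MP_a2d8aa_co.Rg
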