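import Pool.Agent.Lib.MP_a2d8aa_co.Rg.Conn

/-!
The standing hypotheses of the combinatorial core: a cubic vertex `v` with neighbours `a, b, c`
in a graph on `W` without small separations (MP_a2d8aa_co).
-/

set_option autoImplicit false

namespace Pool.Agent.Lib.MP_a2d8aa_co.Rg

variable {V : Type*} [DecidableEq V] {G : SimpleGraph V}

/-- `v` is a vertex of degree three of `G[W]` with neighbours `a, b, c`, pairwise different and
pairwise non-adjacent, and `G[W]` has no small separations -/
structure Cub (G : SimpleGraph V) (W : Finset V) (v a b c : V) : Prop where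
  piece : Piece G W
  hv : v ∈ W
  ha : a ∈ W
  hb : b ∈ W
  hc : c ∈ W
  va : G.Adj v a
  vb : G.Adj v b
  vc : G.Adj v c
  only : ∀ w ∈ W, G.Adj v w → w = a ∨ w = b ∨ w = c
  ab : a ≠ b
  ac : a ≠ c
  bc : b ≠ c
  nab : ¬ G.Adj a b
  nac : ¬ G.Adj a c
  nbc : ¬ G.Adj b c

theorem Cub.swap {W : Finset V} {v a b c : V} (h : Cub G W v a b c) : Cub G W v b a c where
  piece := h.piece
  hv := h.hv
  ha := h.hb
  hb := h.ha
  hc := h.hc
  va := h.vb
  vb := h.va
  vc := h.vc
  only := fun w hw hvw => by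
    rcases h.only w hw hvw with h1 | h1 | h1
    · exact Or.inr (Or.inl h1)
    · exact Or.inl h1
    · exact Or.inr (Or.inr h1)
  ab := h.ab.symm
  ac := h.bc
  bc := h.ac
  nab := fun hh => h.nab hh.symm
  nac := h.nbc
  nbc := h.nac

end Pool.Agent.Lib.MP_a2d8aa_co.Rg
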