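import Pool.Agent.Lib.MP_a2d8aa_co.Rk.Sub

/-! Faithful orthogonal representations for complements of `D`-degenerate graphs without a
complete bipartite subgraph `K_{D,D+1}`: dimension `2 D` (MP_a2d8aa_co). -/

set_option autoImplicit false

open Matrix Module

namespace Pool.Agent.Lib.MP_a2d8aa_co.Rg

open Pool.Agent.Lib.MP_a2d8aa_co.Rk

variable {V : Type*} (G : SimpleGraph V) {d : ℕ}

/-- no `D` and `D + 1` different members of the list, pairwise non-adjacent across -/
def NoBi (D : ℕ) (l : List V) : Prop :=
  ∀ P Q : Finset V, (∀ p ∈ P, p ∈ l) → (∀ q ∈ Q, q ∈ l) → P.card = D → Q.card = D + 1 →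
    (∀ p ∈ P, ∀ q ∈ Q, p ≠ q ∧ ¬ G.Adj p q) → False

/-- the representation is faithful on the list -/
def Faith (c : V → Fin d → ℝ) (l : List V) : Prop :=
  ∀ u ∈ l, ∀ v ∈ l, u ≠ v → (c u ⬝ᵥ c v ≠ 0 ↔ G.Adj u v)

variable {G}

theorem NoBi.tail {D : ℕ} {x : V} {l : List V} (h : NoBi G D (x :: l)) : NoBi G D l :=
  fun P Q hP hQ => h P Q (fun p hp => List.mem_cons_of_mem _ (hP p hp))
    (fun q hq => List.mem_cons_of_mem _ (hQ q hq))

theorem Faith.tail {c : V → Fin d → ℝ} {x : V} {l : List V} (h : Faith G c (x :: l)) :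
    Faith G c l :=
  fun u hu v hv => h u (List.mem_cons_of_mem _ hu) v (List.mem_cons_of_mem _ hv)

/-- the vectors are nonzero -/
theorem ne_zero_of_degen {K0 : Subfield ℝ} {c : V → Fin d → ℝ} {D : ℕ} (hd : D + 1 ≤ d) :
    ∀ {l : List V}, Rep G K0 c l → Degen G D l → ∀ {u : V}, u ∈ l → c u ≠ 0 := by
  classical
  intro l
  induction l with
  | nil => intro _ _ u hu; simp at hu
  | cons x l ih =>
    intro hr hdg u hu h0
    rcases List.mem_cons.1 hu with rfl | hul
    · have hmem : c u ∈ Submodule.span ℝ (c '' ((∅ : Finset V) : Set V)) := by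
        rw [h0]; exact Submodule.zero_mem _
      have h1 := hr.2.le_of_mem (rat_span_image (K0 := K0) (l := l) ∅ (by simp)) hmem
      have h2 := Submodule.finrank_mono h1
      have h3 := finrank_sp_ge c l (G.neighborSet u)
      have h4 := finrank_span_image_le c (∅ : Finset V)
      have h5 := hdg.2.2
      rw [Finset.card_empty] at h4
      omega
    · exact ih hr.1 hdg.1 hul h0

/-- no vector lies in the span of at most `D` earlier ones -/
theorem not_mem_span_earlier' {K0 : Subfield ℝ} {c : V → Fin d → ℝ} {D : ℕ} (hD : 1 ≤ D)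
    (hd : 2 * D ≤ d) {x : V} {l : List V} (hr : Rep G K0 c (x :: l)) (hdg : Degen G D (x :: l))
    (hf : Faith G c l) (hK : NoBi G D (x :: l))
    (Y : Finset V) (hY : ∀ y ∈ Y, y ∈ l) (hcard : Y.card ≤ D) :
    c x ∉ Submodule.span ℝ (c '' (Y : Set V)) := by
  classical
  intro hmem
  have hx := hdg.2.2
  have h1 := hr.2.le_of_mem (rat_span_image Y hY) hmem
  have h2 := Submodule.finrank_mono h1
  have h3 := finrank_sp_ge c l (G.neighborSet x)
  have h4 := finrank_span_image_le c Y
  have h5 := finrank_perp (sp c l (G.neighborSet x))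
  have h6 := Submodule.finrank_mono (perp_sp_le c l (G.neighborSet x))
  have h7 := finrank_span_image_le c (nset (G.neighborSet x) l)
  have h8 := card_nset_le (G.neighborSet x) l
  have hYc : Y.card = D := by omega
  have hNc : (nset (G.neighborSet x) l).card = D := by omega
  have heq : sp c l (G.neighborSet x) = Submodule.span ℝ (c '' (Y : Set V)) :=
    Submodule.eq_of_le_of_finrank_le h1 (by omega)
  have hxY : x ∉ Y := fun h => hdg.2.1 (hY x h)
  refine hK (nset (G.neighborSet x) l) (insert x Y) ?_ ?_ hNc ?_ ?_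
  · intro p hp
    exact List.mem_cons_of_mem _ (mem_nset.1 hp).1
  · intro q hq
    rcases Finset.mem_insert.1 hq with rfl | hq
    · exact List.mem_cons_self
    · exact List.mem_cons_of_mem _ (hY q hq)
  · rw [Finset.card_insert_of_notMem hxY, hYc]
  · intro p hp q hq
    rw [mem_nset] at hp
    rcases Finset.mem_insert.1 hq with rfl | hq
    · refine ⟨fun h => hdg.2.1 (h ▸ hp.1), fun h => hp.2 h.symm⟩
    · have hqs : c q ∈ sp c l (G.neighborSet x) := by
        rw [heq]; exact Submodule.subset_span ⟨q, hq, rfl⟩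
      have h9 : c p ⬝ᵥ c q = 0 := (mem_sp_iff c).1 hqs p hp.1 hp.2
      have hpq : p ≠ q := by
        rintro rfl
        exact ne_zero_of_degen (by omega) hr.1 hdg.1 hp.1 (dotProduct_self_eq_zero.1 h9)
      exact ⟨hpq, fun h => (hf p hp.1 q (hY q hq) hpq).2 h h9⟩

/-- no vector lies in the span of at most `D` other ones -/
theorem not_mem_span' {K0 : Subfield ℝ} {c : V → Fin d → ℝ} {D : ℕ} (hD : 1 ≤ D)
    (hd : 2 * D ≤ d) :
    ∀ {l : List V}, Rep G K0 c l → Degen G D l → Faith G c l → NoBi G D l → ∀ {u : V}, u ∈ l →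
    ∀ Y : Finset V, (∀ y ∈ Y, y ∈ l) → u ∉ Y → Y.card ≤ D →
      c u ∉ Submodule.span ℝ (c '' (Y : Set V)) := by
  classical
  intro l
  induction l with
  | nil => intro _ _ _ _ u hu; simp at hu
  | cons x l ih =>
    intro hr hdg hf hK u hu Y hY huY hcard hmem
    by_cases hxY : x ∈ Y
    · have hux : u ≠ x := fun h => huY (h ▸ hxY)
      have hul : u ∈ l := by
        rcases List.mem_cons.1 hu with h | h
        · exact absurd h hux
        · exact h
      set Y' := Y.erase x with hY'
      have hYeq : (Y : Set V) = insert x (Y' : Set V) := by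
        rw [← Finset.coe_insert, hY', Finset.insert_erase hxY]
      have hY'l : ∀ y ∈ Y', y ∈ l := by
        intro y hy
        rw [hY', Finset.mem_erase] at hy
        rcases List.mem_cons.1 (hY y hy.2) with h | h
        · exact absurd h hy.1
        · exact h
      have hcard' : Y'.card + 1 = Y.card := Finset.card_erase_add_one hxY
      rw [hYeq, Set.image_insert_eq, Submodule.mem_span_insert] at hmem
      obtain ⟨a, z, hz, hcu⟩ := hmem
      by_cases ha : a = 0
      · rw [ha, zero_smul, zero_add] at hcu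
        refine ih hr.1 hdg.1 hf.tail hK.tail hul Y' hY'l ?_ (by omega) (hcu ▸ hz)
        intro h
        exact huY (Finset.mem_of_mem_erase h)
      · have hx : c x ∈ Submodule.span ℝ (c '' ((insert u Y' : Finset V) : Set V)) := by
          rw [Finset.coe_insert, Set.image_insert_eq, Submodule.mem_span_insert]
          refine ⟨a⁻¹, -(a⁻¹ • z), Submodule.neg_mem _ (Submodule.smul_mem _ _ hz), ?_⟩
          rw [hcu, smul_add, smul_smul, inv_mul_cancel₀ ha, one_smul]
          abel
        refine not_mem_span_earlier' hD hd hr hdg hf.tail hK (insert u Y') ?_ ?_ hx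
        · intro y hy
          rcases Finset.mem_insert.1 hy with rfl | hy
          · exact hul
          · exact hY'l y hy
        · refine (Finset.card_insert_le _ _).trans ?_
          omega
    · have hYl : ∀ y ∈ Y, y ∈ l := by
        intro y hy
        rcases List.mem_cons.1 (hY y hy) with h | h
        · exact absurd (h ▸ hy) hxY
        · exact h
      rcases List.mem_cons.1 hu with rfl | hul
      · exact not_mem_span_earlier' hD hd hr hdg hf.tail hK Y hYl hcard hmem
      · exact ih hr.1 hdg.1 hf.tail hK.tail hul Y hYl huY hcard hmem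

/-- the faithful representation in dimension `2 D` -/
theorem exists_faithful_of_degenK (hL : Cardinal.aleph0 < Cardinal.mk ℝ) {D : ℕ} (hD : 1 ≤ D)
    (hd : 2 * D ≤ d) (l : List V) (hl : Degen G D l) (hK : NoBi G D l) :
    ∃ c : V → Fin d → ℝ, ∀ u ∈ l, ∀ v ∈ l, u ≠ v →
      (c u ⬝ᵥ c v ≠ 0 ↔ G.Adj u v) := by
  classical
  have hK0 : Pool.Agent.Lib.MP_a2d8aa_co.Rk.Small (⊥ : Subfield ℝ) := small_bot hL
  obtain ⟨c, hc⟩ := exists_rep (d := d) G hL hK0 l (nodup_of_degen G hl)
  refine ⟨c, ?_⟩
  induction l with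
  | nil => intro u hu; simp at hu
  | cons x l ih =>
    have ih' := ih hl.1 hK.tail hc.1
    have key : ∀ v ∈ l, (c x ⬝ᵥ c v ≠ 0 ↔ G.Adj x v) := by
      intro v hv
      constructor
      · intro h1
        by_contra h2
        have h3 := (mem_sp_iff c).1 hc.2.1 v hv h2
        rw [dotProduct_comm] at h3
        exact h1 h3
      · intro h1 h2
        have h4 : c x ∈ cp (c v) := by
          rw [mem_cp, dotProduct_comm]; exact h2
        have h5 := hc.2.le_of_mem (Rat.cp (fun i => coord_mem_fld hv i)) h4
        have h6 : c v ∈ perp (sp c l (G.neighborSet x)) := by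
          intro a ha
          have h7 := h5 ha
          rw [mem_cp, dotProduct_comm] at h7
          exact h7
        refine not_mem_span' hD hd hc.1 hl.1 ih' hK.tail hv (nset (G.neighborSet x) l) ?_ ?_ ?_
          (perp_sp_le c l _ h6)
        · intro y hy
          exact (mem_nset.1 hy).1
        · intro hv'
          exact (mem_nset.1 hv').2 h1
        · exact (card_nset_le _ _).trans hl.2.2
    intro u hu v hv huv
    rcases List.mem_cons.1 hu with rfl | hu <;> rcases List.mem_cons.1 hv with rfl | hv
    · exact absurd rfl huv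
    · exact key v hv
    · rw [dotProduct_comm, G.adj_comm]
      exact key u ‹_›
    · exact ih' u hu v hv huv

end Pool.Agent.Lib.MP_a2d8aa_co.Rg
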