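import Pool.Agent.Lib.MP_a2d8aa_co.Rg.Basic

/-!
A regular orthogonal representation in dimension `k` gives a faithful orthogonal representation
in dimension `k + 1` (MP_a2d8aa_co).
-/

set_option autoImplicit false

open Matrix Filter Topology

namespace Pool.Agent.Lib.MP_a2d8aa_co.Rg

/-- duality criterion for surjectivity -/
theorem surj_of_dual {ι E : Type*} [Fintype ι] [AddCommGroup E] [Module ℝ E]
    (D : E →ₗ[ℝ] (ι → ℝ)) (h : ∀ y : ι → ℝ, (∀ x, ∑ i, y i * D x i = 0) → y = 0) :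
    Function.Surjective D := by
  classical
  rw [← LinearMap.range_eq_top]
  by_contra hne
  obtain ⟨f, hf0, hf⟩ := Submodule.exists_le_ker_of_lt_top _ (lt_top_iff_ne_top.2 hne)
  apply hf0
  have h1 := h (fun i => f (fun j => if i = j then 1 else 0)) (fun x => by
    have h2 : f (D x) = 0 := LinearMap.mem_ker.1 (hf (LinearMap.mem_range_self D x))
    rw [LinearMap.pi_apply_eq_sum_univ f (D x)] at h2
    refine Eq.trans ?_ h2
    exact Finset.sum_congr rfl (fun i _ => by rw [smul_eq_mul, mul_comm]))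
  ext x
  rw [LinearMap.comp_apply, LinearMap.pi_apply_eq_sum_univ f]
  simp only [LinearMap.zero_comp, LinearMap.zero_apply]
  exact Finset.sum_eq_zero (fun i _ => by rw [congrFun h1 i]; simp)

section

variable {n : ℕ} (F : SimpleGraph (Fin n))

/-- the edges of `F` -/
def Edg : Type := {p : Fin n × Fin n // p.1 < p.2 ∧ F.Adj p.1 p.2}

open Classical in
noncomputable instance : Fintype (Edg F) :=
  inferInstanceAs (Fintype {p : Fin n × Fin n // p.1 < p.2 ∧ F.Adj p.1 p.2})

open Classical in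
/-- extension by zero of a function on the edges -/
noncomputable def extz (y : Edg F → ℝ) (i j : Fin n) : ℝ :=
  if h : i < j ∧ F.Adj i j then y ⟨(i, j), h⟩ else 0

theorem extz_edge (y : Edg F → ℝ) (p : Edg F) : extz F y p.1.1 p.1.2 = y p := by
  unfold extz
  rw [dif_pos p.2]
  rfl

theorem sum_edge (y : Edg F → ℝ) (g : Fin n → Fin n → ℝ) :
    ∑ p : Edg F, y p * g p.1.1 p.1.2 = ∑ i, ∑ j, extz F y i j * g i j := by
  classical
  rw [← Fintype.sum_prod_type (fun p : Fin n × Fin n => extz F y p.1 p.2 * g p.1 p.2)]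
  rw [← Finset.sum_subset (Finset.subset_univ
    (Finset.univ.filter (fun p : Fin n × Fin n => p.1 < p.2 ∧ F.Adj p.1 p.2)))]
  · rw [Finset.sum_subtype (p := fun p : Fin n × Fin n => p.1 < p.2 ∧ F.Adj p.1 p.2)]
    · exact Finset.sum_congr rfl (fun p _ => by rw [← extz_edge F y p])
    · intro p
      simp
  · intro p _ hp
    simp only [Finset.mem_filter, Finset.mem_univ, true_and] at hp
    unfold extz
    rw [dif_neg hp, zero_mul]

variable {F} {k : ℕ} {c : Fin n → Fin k → ℝ}

theorem exists_right_inverse (hc : RegRep F c) : ∃ R : Edg F → Fin n → Fin k → ℝ,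
    ∀ q : Edg F, ∀ y : Edg F → ℝ,
      c q.1.1 ⬝ᵥ (∑ p, y p • R p) q.1.2 + c q.1.2 ⬝ᵥ (∑ p, y p • R p) q.1.1 = y q := by
  classical
  let D : (Fin n → Fin k → ℝ) →ₗ[ℝ] (Edg F → ℝ) :=
    { toFun := fun x q => c q.1.1 ⬝ᵥ x q.1.2 + c q.1.2 ⬝ᵥ x q.1.1
      map_add' := fun x y => by
        funext q
        simp only [Pi.add_apply, dotProduct_add]
        ring
      map_smul' := fun r x => by
        funext q
        simp only [Pi.smul_apply, dotProduct_smul, smul_eq_mul, RingHom.id_apply]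
        ring }
  have hD : ∀ x q, D x q = c q.1.1 ⬝ᵥ x q.1.2 + c q.1.2 ⬝ᵥ x q.1.1 := fun x q => rfl
  have hsurj : Function.Surjective D := by
    refine surj_of_dual D (fun y hy => ?_)
    let X : Fin n → Fin n → ℝ := fun i j => extz F y i j + extz F y j i
    let r : Fin n → Fin k → ℝ := fun b => ∑ a, X b a • c a
    have h1 := hy r
    have h2 : ∑ q : Edg F, y q * D r q =
        ∑ a, ∑ b, extz F y a b * (c a ⬝ᵥ r b + c b ⬝ᵥ r a) := by
      rw [← sum_edge F y (fun a b => c a ⬝ᵥ r b + c b ⬝ᵥ r a)]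
      rfl
    have h3 : ∑ a, ∑ b, extz F y a b * (c a ⬝ᵥ r b + c b ⬝ᵥ r a) = ∑ b, r b ⬝ᵥ r b := by
      have e1 : ∑ a, ∑ b, extz F y a b * (c a ⬝ᵥ r b + c b ⬝ᵥ r a) =
          ∑ b, ∑ a, extz F y a b * (c a ⬝ᵥ r b) + ∑ b, ∑ a, extz F y b a * (c a ⬝ᵥ r b) := by
        rw [Finset.sum_comm (f := fun b a => extz F y a b * (c a ⬝ᵥ r b)),
          ← Finset.sum_add_distrib]
        refine Finset.sum_congr rfl (fun a _ => ?_)
        rw [← Finset.sum_add_distrib]
        exact Finset.sum_congr rfl (fun b _ => by ring)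
      rw [e1, ← Finset.sum_add_distrib]
      refine Finset.sum_congr rfl (fun b _ => ?_)
      rw [← Finset.sum_add_distrib]
      have e2 : r b ⬝ᵥ r b = ∑ a, X b a * (c a ⬝ᵥ r b) := by
        change (∑ a, X b a • c a) ⬝ᵥ r b = _
        rw [sum_dotProduct]
        exact Finset.sum_congr rfl (fun a _ => by rw [smul_dotProduct, smul_eq_mul])
      rw [e2]
      refine Finset.sum_congr rfl (fun a _ => ?_)
      change _ = (extz F y b a + extz F y a b) * _
      ring
    rw [h2, h3] at h1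
    have h4 : ∀ b, r b = 0 := by
      intro b
      have h5 := (Finset.sum_eq_zero_iff_of_nonneg (fun b _ => by
        have := dotProduct_self_star_nonneg (r b)
        simpa using this)).1 h1 b (Finset.mem_univ b)
      exact dotProduct_self_eq_zero.1 h5
    have h5 := hc.reg X (fun i j => add_comm _ _) (fun i j hij => by
      by_contra hadj
      apply hij
      change extz F y i j + extz F y j i = 0
      unfold extz
      rw [dif_neg (fun h => hadj h.2), dif_neg (fun h => hadj h.2.symm), add_zero]) h4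
    funext q
    have h6 := h5 q.1.1 q.1.2
    change extz F y q.1.1 q.1.2 + extz F y q.1.2 q.1.1 = 0 at h6
    rw [extz_edge] at h6
    unfold extz at h6
    rw [dif_neg (fun h => absurd q.2.1 (not_lt.2 h.1.le)), add_zero] at h6
    exact h6
  choose R hR using fun p : Edg F => hsurj (Pi.single p 1)
  refine ⟨R, fun q y => ?_⟩
  rw [← hD, map_sum, Finset.sum_apply]
  simp only [map_smul, hR, Pi.smul_apply, smul_eq_mul]
  rw [Finset.sum_eq_single q]
  · simp
  · intro p _ hp
    rw [Pi.single_eq_of_ne hp.symm, mul_zero]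
  · intro h
    exact absurd (Finset.mem_univ q) h

/-- a regular representation gives a faithful one in one more dimension -/
theorem exists_faithful_of_reg (hc : RegRep F c) :
    ∃ c' : Fin n → Fin (k + 1) → ℝ, ∀ u v, u ≠ v → (c' u ⬝ᵥ c' v ≠ 0 ↔ ¬ F.Adj u v) := by
  classical
  obtain ⟨R, hR⟩ := exists_right_inverse hc
  -- the linear map `y ↦ ∑ y_p R_p`
  let Lm : (Edg F → ℝ) →ₗ[ℝ] (Fin n → Fin k → ℝ) :=
    { toFun := fun y => ∑ p, y p • R p
      map_add' := fun x y => by simp only [Pi.add_apply, add_smul, Finset.sum_add_distrib]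
      map_smul' := fun r x => by
        simp only [Pi.smul_apply, smul_eq_mul, mul_smul, Finset.smul_sum, RingHom.id_apply] }
  let L : (Edg F → ℝ) →L[ℝ] (Fin n → Fin k → ℝ) := LinearMap.toContinuousLinearMap Lm
  have hL : ∀ y, L y = ∑ p, y p • R p := fun y => rfl
  let ell : Fin n → Fin k → ((Edg F → ℝ) →L[ℝ] ℝ) := fun i t =>
    (ContinuousLinearMap.proj (R := ℝ) (φ := fun _ : Fin k => ℝ) t).comp
      ((ContinuousLinearMap.proj (R := ℝ) (φ := fun _ : Fin n => (Fin k → ℝ)) i).comp L)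
  have hell : ∀ i t y, ell i t y = L y i t := fun i t y => rfl
  let S : (Edg F → ℝ) → Fin n → Fin k → ℝ := fun y i => c i + L y i
  let Φ : (Edg F → ℝ) → (Edg F → ℝ) := fun y q => S y q.1.1 ⬝ᵥ S y q.1.2
  have hΦ : ∀ y q, Φ y q = y q + ∑ t, ell q.1.1 t y * ell q.1.2 t y := by
    intro y q
    change (c q.1.1 + L y q.1.1) ⬝ᵥ (c q.1.2 + L y q.1.2) = _
    rw [add_dotProduct, dotProduct_add, dotProduct_add, hc.orth _ _ q.2.2]
    have h1 := hR q y
    rw [← hL] at h1
    rw [← h1, dotProduct_comm (L y q.1.1) (c q.1.2)]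
    simp only [dotProduct, hell]
    ring
  have hΦ0 : Φ 0 = 0 := by
    funext q
    rw [hΦ]
    simp
  have hstrict : HasStrictFDerivAt Φ
      ((ContinuousLinearEquiv.refl ℝ (Edg F → ℝ) : (Edg F → ℝ) →L[ℝ] (Edg F → ℝ))) 0 := by
    rw [hasStrictFDerivAt_pi']
    intro q
    have h1 : (fun y => Φ y q) = fun y => y q + ∑ t, ell q.1.1 t y * ell q.1.2 t y := by
      funext y
      exact hΦ y q
    rw [h1]
    have h2 : HasStrictFDerivAt (fun y : Edg F → ℝ => y q)
        (ContinuousLinearMap.proj (R := ℝ) (φ := fun _ : Edg F => ℝ) q) 0 :=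
      (ContinuousLinearMap.proj (R := ℝ) (φ := fun _ : Edg F => ℝ) q).hasStrictFDerivAt
    have h3 : HasStrictFDerivAt (fun y : Edg F → ℝ => ∑ t, ell q.1.1 t y * ell q.1.2 t y)
        (∑ t : Fin k, (ell q.1.1 t 0 • ell q.1.2 t + ell q.1.2 t 0 • ell q.1.1 t)) 0 := by
      apply HasStrictFDerivAt.fun_sum
      intro t _
      exact (ell q.1.1 t).hasStrictFDerivAt.mul (ell q.1.2 t).hasStrictFDerivAt
    have h4 := h2.add h3
    have h5 : (ContinuousLinearMap.proj (R := ℝ) (φ := fun _ : Edg F => ℝ) q).comp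
        ((ContinuousLinearEquiv.refl ℝ (Edg F → ℝ) : (Edg F → ℝ) →L[ℝ] (Edg F → ℝ))) =
        ContinuousLinearMap.proj (R := ℝ) (φ := fun _ : Edg F => ℝ) q +
        ∑ t : Fin k, (ell q.1.1 t 0 • ell q.1.2 t + ell q.1.2 t 0 • ell q.1.1 t) := by
      ext y
      simp
    rw [h5]
    exact h4
  set g := hstrict.localInverse with hg
  have hg0 : g 0 = 0 := by
    have := hstrict.localInverse_apply_image
    rwa [hΦ0] at this
  have hgd : HasStrictFDerivAt g
      ((ContinuousLinearEquiv.refl ℝ (Edg F → ℝ)).symm : (Edg F → ℝ) →L[ℝ] (Edg F → ℝ)) 0 := by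
    have := hstrict.to_localInverse
    rwa [hΦ0] at this
  have hgr : ∀ᶠ y in 𝓝 (0 : Edg F → ℝ), Φ (g y) = y := by
    have := hstrict.eventually_right_inverse
    rwa [hΦ0] at this
  -- choice of `q`
  obtain ⟨q, hq⟩ : ∃ q : Fin n → ℝ, ∀ i j, i ≠ j → ¬ F.Adj i j →
      q i * q j - ∑ p : Edg F, q p.1.1 * q p.1.2 * (c i ⬝ᵥ R p j + c j ⬝ᵥ R p i) ≠ 0 := by
    let P : Fin n × Fin n → MvPolynomial (Fin n) ℝ := fun ij =>
      MvPolynomial.X ij.1 * MvPolynomial.X ij.2 - ∑ p : Edg F,
        MvPolynomial.X p.1.1 * MvPolynomial.X p.1.2 *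
          MvPolynomial.C (c ij.1 ⬝ᵥ R p ij.2 + c ij.2 ⬝ᵥ R p ij.1)
    have hP : ∀ ij q, MvPolynomial.eval q (P ij) = q ij.1 * q ij.2 -
        ∑ p : Edg F, q p.1.1 * q p.1.2 * (c ij.1 ⬝ᵥ R p ij.2 + c ij.2 ⬝ᵥ R p ij.1) := by
      intro ij q
      simp only [P, map_sub, map_mul, MvPolynomial.eval_X, map_sum, MvPolynomial.eval_C]
    let T : Finset (Fin n × Fin n) := Finset.univ.filter
      (fun ij => ij.1 ≠ ij.2 ∧ ¬ F.Adj ij.1 ij.2)
    have hne : ∏ ij ∈ T, P ij ≠ 0 := by
      rw [Finset.prod_ne_zero_iff]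
      intro ij hij h0
      simp only [T, Finset.mem_filter, Finset.mem_univ, true_and] at hij
      have h1 := hP ij (fun v => if v = ij.1 ∨ v = ij.2 then 1 else 0)
      rw [h0, map_zero] at h1
      rw [Finset.sum_eq_zero] at h1
      · simp at h1
      · intro p _
        have hp := p.2
        by_cases h2 : p.1.1 = ij.1 ∨ p.1.1 = ij.2
        · by_cases h3 : p.1.2 = ij.1 ∨ p.1.2 = ij.2
          · exfalso
            rcases h2 with h2 | h2 <;> rcases h3 with h3 | h3
            · rw [h2, h3] at hp; exact lt_irrefl _ hp.1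
            · rw [h2, h3] at hp; exact hij.2 hp.2
            · rw [h2, h3] at hp; exact hij.2 hp.2.symm
            · rw [h2, h3] at hp; exact lt_irrefl _ hp.1
          · simp only [h3, if_false, mul_zero, zero_mul]
        · simp only [h2, if_false, zero_mul]
    obtain ⟨q, hq⟩ : ∃ q, MvPolynomial.eval q (∏ ij ∈ T, P ij) ≠ 0 := by
      by_contra hcon
      push Not at hcon
      exact hne (MvPolynomial.funext (fun q => by rw [hcon q, map_zero]))
    rw [map_prod, Finset.prod_ne_zero_iff] at hq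
    refine ⟨q, fun i j hij hadj => ?_⟩
    have := hq (i, j) (by simp [T, hij, hadj])
    rwa [hP] at this
  let m : Edg F → ℝ := fun p => q p.1.1 * q p.1.2
  let γ : ℝ → (Edg F → ℝ) := fun s => g (-(s • m))
  have hγ0 : γ 0 = 0 := by
    change g (-((0 : ℝ) • m)) = 0
    rw [zero_smul, neg_zero, hg0]
  have hlin : HasDerivAt (fun s : ℝ => -(s • m)) (-m) 0 := by
    have h1 : HasDerivAt (fun s : ℝ => s • m) ((1 : ℝ) • m) 0 :=
      (hasDerivAt_id (0 : ℝ)).smul_const m
    rw [one_smul] at h1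
    exact h1.neg
  have hγ : HasDerivAt γ (-m) 0 := by
    have h1 : HasFDerivAt g
        ((ContinuousLinearEquiv.refl ℝ (Edg F → ℝ)).symm : (Edg F → ℝ) →L[ℝ] (Edg F → ℝ))
        (-((0 : ℝ) • m)) := by
      rw [zero_smul, neg_zero]
      exact hgd.hasFDerivAt
    have h2 := h1.comp_hasDerivAt (0 : ℝ) hlin
    exact h2
  let θ : Fin n → Fin n → ℝ → ℝ := fun i j s => q i * q j * s + S (γ s) i ⬝ᵥ S (γ s) j
  have hSd : ∀ i t, HasDerivAt (fun s => S (γ s) i t) (ell i t (-m)) 0 := by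
    intro i t
    have h1 : HasDerivAt (fun s => ell i t (γ s)) (ell i t (-m)) 0 :=
      (ell i t).hasFDerivAt.comp_hasDerivAt (0 : ℝ) hγ
    have h2 := h1.const_add (c i t)
    exact h2
  have hS0 : ∀ i, S (γ 0) i = c i := by
    intro i
    change c i + L (γ 0) i = c i
    rw [hγ0, map_zero]
    simp
  have hθd : ∀ i j, HasDerivAt (θ i j)
      (q i * q j + ∑ t, (ell i t (-m) * c j t + c i t * ell j t (-m))) 0 := by
    intro i j
    have h1 : HasDerivAt (fun s : ℝ => q i * q j * s) (q i * q j) 0 := by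
      simpa using (hasDerivAt_id (0 : ℝ)).const_mul (q i * q j)
    have h2 : HasDerivAt (fun s => ∑ t, S (γ s) i t * S (γ s) j t)
        (∑ t, (ell i t (-m) * S (γ 0) j t + S (γ 0) i t * ell j t (-m))) 0 := by
      apply HasDerivAt.fun_sum
      intro t _
      exact (hSd i t).mul (hSd j t)
    simp only [hS0] at h2
    exact h1.add h2
  have hθ0 : ∀ i j, θ i j 0 = c i ⬝ᵥ c j := by
    intro i j
    change q i * q j * 0 + S (γ 0) i ⬝ᵥ S (γ 0) j = _
    rw [hS0, hS0]; ring
  have hder : ∀ i j, i ≠ j → ¬ F.Adj i j →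
      q i * q j + ∑ t, (ell i t (-m) * c j t + c i t * ell j t (-m)) ≠ 0 := by
    intro i j hij hadj
    have h1 := hq i j hij hadj
    have h2 : ∑ p : Edg F, q p.1.1 * q p.1.2 * (c i ⬝ᵥ R p j + c j ⬝ᵥ R p i) =
        c i ⬝ᵥ L m j + c j ⬝ᵥ L m i := by
      rw [hL]
      rw [Finset.sum_apply, Finset.sum_apply, dotProduct_sum, dotProduct_sum,
        ← Finset.sum_add_distrib]
      refine Finset.sum_congr rfl (fun p _ => ?_)
      simp only [Pi.smul_apply, dotProduct_smul, smul_eq_mul, m]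
      ring
    rw [h2] at h1
    intro h3
    apply h1
    rw [← h3]
    simp only [hell, map_neg, Pi.neg_apply, dotProduct]
    rw [Finset.sum_add_distrib, sub_eq_add_neg, neg_add, ← Finset.sum_neg_distrib,
      ← Finset.sum_neg_distrib, add_comm (∑ x, -(c i x * L m j x))]
    refine congrArg _ (congrArg₂ _ ?_ ?_)
    · exact Finset.sum_congr rfl (fun t _ => by ring)
    · exact Finset.sum_congr rfl (fun t _ => by ring)
  -- the good parameters
  have hev1 : ∀ᶠ s in 𝓝[>] (0 : ℝ), Φ (γ s) = -(s • m) := by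
    have h1 : Tendsto (fun s : ℝ => -(s • m)) (𝓝 0) (𝓝 0) := by
      have := hlin.continuousAt.tendsto
      simpa using this
    exact (h1.eventually hgr).filter_mono nhdsWithin_le_nhds
  have hev2 : ∀ᶠ s in 𝓝[>] (0 : ℝ), ∀ i j, i ≠ j → ¬ F.Adj i j → θ i j s ≠ 0 := by
    rw [Filter.eventually_all]
    intro i
    rw [Filter.eventually_all]
    intro j
    by_cases hij : i = j
    · exact Eventually.of_forall (fun s h => absurd hij h)
    by_cases hadj : F.Adj i j
    · exact Eventually.of_forall (fun s _ h => absurd hadj h)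
    have h1 : ∀ᶠ s in 𝓝[>] (0 : ℝ), θ i j s ≠ 0 := by
      by_cases h0 : θ i j 0 = 0
      · have h2 := (hθd i j).eventually_ne (c := 0) (hder i j hij hadj)
        refine h2.filter_mono (nhdsWithin_mono _ ?_)
        intro s hs
        exact ne_of_gt hs
      · have h2 := (hθd i j).continuousAt.eventually_ne h0
        exact h2.filter_mono nhdsWithin_le_nhds
    exact h1.mono (fun s hs _ _ => hs)
  have hev3 : ∀ᶠ s in 𝓝[>] (0 : ℝ), 0 < s := eventually_mem_nhdsWithin
  obtain ⟨s, ⟨hs1, hs2⟩, hs3⟩ := ((hev1.and hev2).and hev3).exists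
  refine ⟨fun i => cn (Real.sqrt s * q i) (S (γ s) i), fun i j hij => ?_⟩
  have hdot : cn (Real.sqrt s * q i) (S (γ s) i) ⬝ᵥ cn (Real.sqrt s * q j) (S (γ s) j) =
      θ i j s := by
    rw [cn_dot]
    change _ = q i * q j * s + S (γ s) i ⬝ᵥ S (γ s) j
    have : Real.sqrt s * q i * (Real.sqrt s * q j) = q i * q j * s := by
      have h1 := Real.mul_self_sqrt hs3.le
      calc Real.sqrt s * q i * (Real.sqrt s * q j) = (Real.sqrt s * Real.sqrt s) * (q i * q j) := by
            ring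
        _ = q i * q j * s := by rw [h1]; ring
    rw [this]
  have hsymm : θ i j s = θ j i s := by
    change q i * q j * s + S (γ s) i ⬝ᵥ S (γ s) j = q j * q i * s + S (γ s) j ⬝ᵥ S (γ s) i
    rw [dotProduct_comm, mul_comm (q i)]
  have hlt : ∀ a b, a < b → F.Adj a b → θ a b s = 0 := by
    intro a b hab hadj
    have h1 := congrFun hs1 ⟨(a, b), hab, hadj⟩
    change S (γ s) a ⬝ᵥ S (γ s) b = -(s * (q a * q b)) at h1
    change q a * q b * s + S (γ s) a ⬝ᵥ S (γ s) b = 0
    rw [h1]; ring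
  rw [hdot]
  constructor
  · intro h1 h2
    apply h1
    rcases lt_or_gt_of_ne hij with h3 | h3
    · exact hlt i j h3 h2
    · rw [hsymm]; exact hlt j i h3 h2.symm
  · intro h1
    exact hs2 i j hij h1

end

end Pool.Agent.Lib.MP_a2d8aa_co.Rg
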