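import Pool.Agent.Lib.MP_a2d8aa_co.Rg.Conn

/-!
Splitting a 2-connected set `Y` between `s` and `t` at the first vertex of `A` (MP_a2d8aa_co).
-/

set_option autoImplicit false

namespace Pool.Agent.Lib.MP_a2d8aa_co.Rg

variable {V : Type*} [DecidableEq V] {G : SimpleGraph V}

/-- a vertex of `Y \ Y1` adjacent to `Y1` which can be moved -/
private theorem first_claim {Y A : Finset V} {s t : V} (hY : Conn G Y)
    (h2 : ∀ y ∈ Y, Conn G (Y.erase y)) (hs : s ∈ Y) (ht : t ∈ Y) (hA : A ⊆ Y)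
    (htA : t ∉ A) (hne : A.Nonempty) {Y1 : Finset V} (hY1Y : Y1 ⊆ Y) (hY1c : Conn G Y1)
    (hsY1 : s ∈ Y1) (htY1 : t ∉ Y1) (hY2c : Conn G (Y \ Y1)) (hdis : Disjoint Y1 A) :
    ∃ z ∈ Y \ Y1, (∃ u ∈ Y1, G.Adj u z) ∧ z ≠ t ∧ Conn G ((Y \ Y1).erase z) := by
  classical
  by_contra hcon
  push Not at hcon
  have htY2 : t ∈ Y \ Y1 := Finset.mem_sdiff.2 ⟨ht, htY1⟩
  -- a neighbour of `Y1` other than `t`
  obtain ⟨z0, hz0, hz0u, hz0t⟩ : ∃ z ∈ Y \ Y1, (∃ u ∈ Y1, G.Adj u z) ∧ z ≠ t := by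
    by_contra hno
    push Not at hno
    have hcl : Closed G (Y.erase t) Y1 := by
      refine ⟨fun x hx => Finset.mem_erase.2 ⟨fun h => htY1 (h ▸ hx), hY1Y hx⟩, ?_⟩
      intro u hu w hw huw
      rw [Finset.mem_erase] at hw
      by_contra hwY1
      exact hw.1 (hno w (Finset.mem_sdiff.2 ⟨hw.2, hwY1⟩) ⟨u, hu, huw⟩)
    have hsub := (h2 t ht).subset_of_closed (Finset.Subset.refl _) hcl
      ⟨s, Finset.mem_inter.2 ⟨hcl.1 hsY1, hsY1⟩⟩
    obtain ⟨a, ha⟩ := hne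
    have ha1 : a ∈ Y1 := hsub (Finset.mem_erase.2 ⟨fun h => htA (h ▸ ha), hA ha⟩)
    exact Finset.disjoint_left.1 hdis ha1 ha
  -- for a bad vertex there is a component without `t`
  have hsplit : ∀ z, z ≠ t → ¬ Conn G ((Y \ Y1).erase z) →
      ∃ C', Conn G C' ∧ Closed G ((Y \ Y1).erase z) C' ∧ t ∉ C' := by
    intro z hzt hnc
    have hne2 : ((Y \ Y1).erase z).Nonempty :=
      ⟨t, Finset.mem_erase.2 ⟨fun h => hzt h.symm, htY2⟩⟩
    rcases conn_or_split G hne2 with h | ⟨C, D, hC, hD, hCl, hDl, hCD⟩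
    · exact absurd h hnc
    · by_cases htC : t ∈ C
      · exact ⟨D, hD, hDl, Finset.disjoint_left.1 hCD htC⟩
      · exact ⟨C, hC, hCl, htC⟩
  obtain ⟨Q, hQ⟩ : ∃ Q : Finset (Finset V), Q = (Y \ Y1).powerset.filter (fun C' =>
    ∃ z ∈ Y \ Y1, (∃ u ∈ Y1, G.Adj u z) ∧ z ≠ t ∧ Conn G C' ∧
      Closed G ((Y \ Y1).erase z) C' ∧ t ∉ C') := ⟨_, rfl⟩
  have hmem : ∀ C', C' ∈ Q ↔ C' ⊆ Y \ Y1 ∧ ∃ z ∈ Y \ Y1, (∃ u ∈ Y1, G.Adj u z) ∧ z ≠ t ∧
      Conn G C' ∧ Closed G ((Y \ Y1).erase z) C' ∧ t ∉ C' := by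
    intro C'
    rw [hQ, Finset.mem_filter, Finset.mem_powerset]
  have hQne : Q.Nonempty := by
    obtain ⟨C', h3, h4, h5⟩ := hsplit z0 hz0t (hcon z0 hz0 hz0u hz0t)
    exact ⟨C', (hmem _).2 ⟨h4.1.trans (Finset.erase_subset _ _), z0, hz0, hz0u, hz0t, h3, h4,
      h5⟩⟩
  obtain ⟨C', hC', hmin⟩ := Finset.exists_min_image Q Finset.card hQne
  obtain ⟨hC'Y, z, hz, hzu, hzt, hC'c, hC'l, htC'⟩ := (hmem _).1 hC'
  have hz2 := Finset.mem_sdiff.1 hz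
  -- `C'` is adjacent to `Y1`
  obtain ⟨z', hz', hz'u⟩ : ∃ z' ∈ C', ∃ u ∈ Y1, G.Adj u z' := by
    by_contra hno
    push Not at hno
    have hcl : Closed G (Y.erase z) C' := by
      refine ⟨fun x hx => ?_, ?_⟩
      · have h3 := Finset.mem_erase.1 (hC'l.1 hx)
        exact Finset.mem_erase.2 ⟨h3.1, (Finset.mem_sdiff.1 h3.2).1⟩
      · intro u hu w hw huw
        rw [Finset.mem_erase] at hw
        by_cases hwY1 : w ∈ Y1
        · exact absurd huw.symm (hno u hu w hwY1)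
        · exact hC'l.2 u hu w (Finset.mem_erase.2 ⟨hw.1, Finset.mem_sdiff.2 ⟨hw.2, hwY1⟩⟩) huw
    obtain ⟨c, hc⟩ := hC'c.1
    have hsub := (h2 z hz2.1).subset_of_closed (Finset.Subset.refl _) hcl
      ⟨c, Finset.mem_inter.2 ⟨hcl.1 hc, hc⟩⟩
    have hsC : s ∈ C' := hsub (Finset.mem_erase.2 ⟨fun h => hz2.2 (h ▸ hsY1), hs⟩)
    exact (Finset.mem_sdiff.1 (hC'Y hsC)).2 hsY1
  have hz't : z' ≠ t := fun h => htC' (h ▸ hz')
  have hz'Y2 := hC'Y hz'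
  have hnc := hcon z' hz'Y2 hz'u hz't
  obtain ⟨E, hE, hEl, htE⟩ := hsplit z' hz't hnc
  have hconn := hY2c.sdiff_of_closed_erase hz hC'l
  have hEC : E ⊆ C' := by
    intro x hx
    by_contra hxC
    have h3 : x ∈ (Y \ Y1) \ C' :=
      Finset.mem_sdiff.2 ⟨(Finset.mem_erase.1 (hEl.1 hx)).2, hxC⟩
    have h4 : (Y \ Y1) \ C' ⊆ (Y \ Y1).erase z' := by
      intro y hy
      have h5 := Finset.mem_sdiff.1 hy
      exact Finset.mem_erase.2 ⟨fun h => h5.2 (h ▸ hz'), h5.1⟩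
    have h5 := hconn.subset_of_closed h4 hEl ⟨x, Finset.mem_inter.2 ⟨h3, hx⟩⟩
    exact htE (h5 (Finset.mem_sdiff.2 ⟨htY2, htC'⟩))
  have hlt : E.card < C'.card := by
    apply Finset.card_lt_card
    refine ⟨hEC, fun h => ?_⟩
    exact (Finset.mem_erase.1 (hEl.1 (h hz'))).1 rfl
  have h6 := hmin E ((hmem _).2 ⟨hEC.trans hC'Y, z', hz'Y2, hz'u, hz't, hE, hEl, htE⟩)
  omega

theorem exists_first {Y A : Finset V} {s t : V} (hY : Conn G Y)
    (h2 : ∀ y ∈ Y, Conn G (Y.erase y)) (hs : s ∈ Y) (ht : t ∈ Y) (hst : s ≠ t) (hA : A ⊆ Y)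
    (hsA : s ∉ A) (htA : t ∉ A) (hne : A.Nonempty) :
    ∃ C D, C ∪ D = Y ∧ Disjoint C D ∧ Conn G C ∧ Conn G D ∧ Touch G C D ∧ s ∈ C ∧ t ∈ D ∧
      (C ∩ A).card = 1 := by
  classical
  obtain ⟨P, hP⟩ : ∃ P : Finset (Finset V), P = Y.powerset.filter (fun C =>
    Conn G C ∧ s ∈ C ∧ t ∉ C ∧ Conn G (Y \ C) ∧ Disjoint C A) := ⟨_, rfl⟩
  have hmem : ∀ C, C ∈ P ↔ C ⊆ Y ∧ Conn G C ∧ s ∈ C ∧ t ∉ C ∧ Conn G (Y \ C) ∧ Disjoint C A := by
    intro C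
    rw [hP, Finset.mem_filter, Finset.mem_powerset]
  have hne0 : P.Nonempty := by
    refine ⟨{s}, (hmem _).2 ⟨Finset.singleton_subset_iff.2 hs, conn_singleton G s,
      Finset.mem_singleton_self s, fun h => hst (Finset.mem_singleton.1 h).symm, ?_,
      Finset.disjoint_singleton_left.2 hsA⟩⟩
    rw [Finset.sdiff_singleton_eq_erase]
    exact h2 s hs
  obtain ⟨Y1, hY1, hmax⟩ := Finset.exists_max_image P Finset.card hne0
  obtain ⟨hY1Y, hY1c, hsY1, htY1, hY2c, hdis⟩ := (hmem _).1 hY1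
  have hclaim := first_claim hY h2 hs ht hA htA hne hY1Y hY1c hsY1 htY1 hY2c hdis
  obtain ⟨z, hz, ⟨u, hu, huz⟩, hzt, hzc⟩ := hclaim
  have hz2 := Finset.mem_sdiff.1 hz
  have hD : Y \ insert z Y1 = (Y \ Y1).erase z := by
    ext x
    simp only [Finset.mem_sdiff, Finset.mem_insert, Finset.mem_erase, not_or]
    tauto
  have hCY : insert z Y1 ⊆ Y := Finset.insert_subset hz2.1 hY1Y
  have hCc : Conn G (insert z Y1) := hY1c.insert ⟨u, hu, huz⟩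
  have htC : t ∉ insert z Y1 := by
    rw [Finset.mem_insert, not_or]
    exact ⟨fun h => hzt h.symm, htY1⟩
  refine ⟨insert z Y1, (Y \ Y1).erase z, ?_, ?_, hCc, hzc, ?_, Finset.mem_insert_of_mem hsY1,
    Finset.mem_erase.2 ⟨fun h => hzt h.symm, Finset.mem_sdiff.2 ⟨ht, htY1⟩⟩, ?_⟩
  · rw [← hD]
    exact Finset.union_sdiff_of_subset hCY
  · rw [← hD]
    exact Finset.disjoint_sdiff
  · rw [← hD]
    exact hY.2 _ hCY ⟨s, Finset.mem_insert_of_mem hsY1⟩ (fun h => htC (h ▸ ht))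
  · have h1 : ¬ Disjoint (insert z Y1) A := by
      intro h
      have h3 := hmax _ ((hmem _).2 ⟨hCY, hCc, Finset.mem_insert_of_mem hsY1, htC,
        by rw [hD]; exact hzc, h⟩)
      rw [Finset.card_insert_of_notMem hz2.2] at h3
      omega
    have h3 : insert z Y1 ∩ A = {z} := by
      ext x
      rw [Finset.mem_inter, Finset.mem_insert, Finset.mem_singleton]
      constructor
      · rintro ⟨h4 | h4, h5⟩
        · exact h4
        · exact absurd h5 (Finset.disjoint_left.1 hdis h4)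
      · rintro rfl
        refine ⟨Or.inl rfl, ?_⟩
        by_contra h5
        exact h1 (Finset.disjoint_insert_left.2 ⟨h5, hdis⟩)
    rw [h3, Finset.card_singleton]

end Pool.Agent.Lib.MP_a2d8aa_co.Rg
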