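import Pool.Agent.Lib.MP_a2d8aa_co.Rg.MinDeg

/-!
Gluing regular representations by non-zero vectors along a clique (MP_a2d8aa_co).
-/

set_option autoImplicit false

open Matrix

namespace Pool.Agent.Lib.MP_a2d8aa_co.Rg

variable {V : Type*} [Fintype V] [DecidableEq V]

omit [DecidableEq V] in
theorem glue_scale {F : SimpleGraph V} {k : ℕ} {c : V → Fin k → ℝ} (hc : RegRep F c) {t : V → ℝ}
    (ht : ∀ v, t v ≠ 0) : RegRep F (fun v => t v • c v) := by
  refine ⟨fun i j hij => ?_, fun X hX hF hk i j => ?_⟩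
  · rw [smul_dotProduct, dotProduct_smul, hc.orth i j hij]
    simp
  · have h1 := hc.reg (fun i j => t i * (X i j * t j)) (fun i j => by rw [hX i j]; ring)
      (fun i j hij => hF i j (fun h0 => hij (by rw [h0]; ring)))
      (fun i => by
        have h2 := congrArg (fun w => t i • w) (hk i)
        simp only [smul_zero, Finset.smul_sum, smul_smul] at h2
        exact h2) i j
    have h3 : t i * (X i j * t j) = 0 := h1
    rcases mul_eq_zero.1 h3 with h4 | h4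
    · exact absurd h4 (ht i)
    · rcases mul_eq_zero.1 h4 with h5 | h5
      · exact h5
      · exact absurd h5 (ht j)

omit [DecidableEq V] in
theorem glue_unit {F : SimpleGraph V} {k : ℕ} (h : RegX F k) :
    ∃ c : V → Fin k → ℝ, RegRep F c ∧ ∀ v, c v ⬝ᵥ c v = 1 := by
  obtain ⟨c, hc, h0⟩ := h
  have hp : ∀ v, 0 < c v ⬝ᵥ c v := by
    intro v
    have h1 : 0 ≤ c v ⬝ᵥ c v := Finset.sum_nonneg (fun i _ => mul_self_nonneg _)
    rcases h1.lt_or_eq with h2 | h2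
    · exact h2
    · exact absurd (dotProduct_self_eq_zero.1 h2.symm) (h0 v)
  have hs : ∀ v, 0 < √(c v ⬝ᵥ c v) := fun v => Real.sqrt_pos.2 (hp v)
  refine ⟨fun v => (√(c v ⬝ᵥ c v))⁻¹ • c v, glue_scale hc (fun v => (inv_pos.2 (hs v)).ne'),
    fun v => ?_⟩
  rw [smul_dotProduct, dotProduct_smul, smul_eq_mul, smul_eq_mul]
  have h1 := Real.mul_self_sqrt (hp v).le
  have h2 := (hs v).ne'
  field_simp
  rw [pow_two, h1]

omit [Fintype V] in
theorem glue_iso {k : ℕ} (S : Finset V) (u w : V → Fin k → ℝ)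
    (hu1 : ∀ s ∈ S, u s ⬝ᵥ u s = 1) (hw1 : ∀ s ∈ S, w s ⬝ᵥ w s = 1)
    (hu : ∀ s ∈ S, ∀ t ∈ S, s ≠ t → u s ⬝ᵥ u t = 0)
    (hw : ∀ s ∈ S, ∀ t ∈ S, s ≠ t → w s ⬝ᵥ w t = 0) :
    ∃ O : (Fin k → ℝ) →ₗ[ℝ] (Fin k → ℝ), (∀ x y, O x ⬝ᵥ O y = x ⬝ᵥ y) ∧
      ∀ s ∈ S, O (w s) = u s := by
  classical
  have hon : ∀ z : V → Fin k → ℝ, (∀ s ∈ S, z s ⬝ᵥ z s = 1) →
      (∀ s ∈ S, ∀ t ∈ S, s ≠ t → z s ⬝ᵥ z t = 0) →
      Orthonormal ℝ (fun s : S => (WithLp.toLp 2 (z s) : EuclideanSpace ℝ (Fin k))) := by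
    intro z h1 h2
    rw [orthonormal_iff_ite]
    intro s t
    rw [EuclideanSpace.inner_toLp_toLp, star_trivial]
    split_ifs with h
    · rw [h]
      exact h1 t t.2
    · exact h2 t t.2 s s.2 (fun h3 => h (Subtype.ext h3.symm))
  have hU := hon u hu1 hu
  have hcard : Fintype.card S ≤ Fintype.card (Fin k) := by
    have h1 := hU.linearIndependent.fintype_card_le_finrank
    rw [finrank_euclideanSpace] at h1
    exact h1
  obtain ⟨e⟩ := Function.Embedding.nonempty_of_card_le hcard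
  have hbas : ∀ z : V → Fin k → ℝ,
      Orthonormal ℝ (fun s : S => (WithLp.toLp 2 (z s) : EuclideanSpace ℝ (Fin k))) →
      ∃ b : OrthonormalBasis (Fin k) ℝ (EuclideanSpace ℝ (Fin k)),
        ∀ s : S, b (e s) = WithLp.toLp 2 (z s) := by
    intro z hz
    let v : Fin k → EuclideanSpace ℝ (Fin k) :=
      Function.extend e (fun s : S => (WithLp.toLp 2 (z s) : EuclideanSpace ℝ (Fin k))) (fun _ => 0)
    have hv : ∀ s : S, v (e s) = WithLp.toLp 2 (z s) := fun s => e.injective.extend_apply _ _ s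
    have hvo : Orthonormal ℝ ((Set.range e).domRestrict v) := by
      rw [orthonormal_iff_ite]
      rintro ⟨_, s, rfl⟩ ⟨_, t, rfl⟩
      have h1 := (orthonormal_iff_ite.1 hz) s t
      simp only [Set.domRestrict_apply, hv]
      rw [h1]
      by_cases h : s = t
      · simp [h]
      · rw [if_neg h, if_neg]
        intro h3
        exact h (e.injective (congrArg Subtype.val h3))
    obtain ⟨b, hb⟩ := hvo.exists_orthonormalBasis_extension_of_card_eq (by simp)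
    exact ⟨b, fun s => (hb (e s) ⟨s, rfl⟩).trans (hv s)⟩
  obtain ⟨b1, hb1⟩ := hbas u hU
  obtain ⟨b2, hb2⟩ := hbas w (hon w hw1 hw)
  let I := b2.equiv b1 (Equiv.refl (Fin k))
  refine ⟨(WithLp.linearEquiv 2 ℝ (Fin k → ℝ)).toLinearMap ∘ₗ I.toLinearEquiv.toLinearMap ∘ₗ
    (WithLp.linearEquiv 2 ℝ (Fin k → ℝ)).symm.toLinearMap, fun x y => ?_, fun s hs => ?_⟩
  · have h1 := I.inner_map_map (WithLp.toLp 2 y) (WithLp.toLp 2 x)
    rw [EuclideanSpace.inner_toLp_toLp, EuclideanSpace.inner_eq_star_dotProduct, star_trivial,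
      star_trivial] at h1
    exact h1
  · have h1 : I (b2 (e ⟨s, hs⟩)) = b1 (e ⟨s, hs⟩) := by
      simp only [I, OrthonormalBasis.equiv_apply_basis, Equiv.refl_apply]
    rw [hb1, hb2] at h1
    have h2 := congrArg (WithLp.linearEquiv 2 ℝ (Fin k → ℝ)) h1
    exact h2

omit [DecidableEq V] in
theorem glue_map {F : SimpleGraph V} {k : ℕ} {c : V → Fin k → ℝ} (hc : RegRep F c)
    (O : (Fin k → ℝ) →ₗ[ℝ] (Fin k → ℝ)) (hO : ∀ x y, O x ⬝ᵥ O y = x ⬝ᵥ y) :
    RegRep F (fun v => O (c v)) := by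
  refine ⟨fun i j hij => by rw [hO]; exact hc.orth i j hij, fun X hX hF hk => ?_⟩
  refine hc.reg X hX hF (fun i => ?_)
  have h1 := hk i
  have h2 : O (∑ j, X i j • c j) = 0 := by
    rw [map_sum, ← h1]
    exact Finset.sum_congr rfl (fun j _ => by rw [map_smul])
  rw [← dotProduct_self_eq_zero, ← hO, h2, zero_dotProduct]

theorem RegX.glue {F : SimpleGraph V} {k : ℕ} (X S Y : Finset V) (hXS : Disjoint X S)
    (hXY : Disjoint X Y) (hSY : Disjoint S Y)
    (hcl : ∀ s ∈ S, ∀ t ∈ S, s ≠ t → F.Adj s t) (hno : ∀ x ∈ X, ∀ y ∈ Y, ¬ F.Adj x y)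
    (h1 : RegX (resOn (X ∪ S) F) k) (h2 : RegX (resOn (Y ∪ S) F) k) :
    RegX (resOn (X ∪ S ∪ Y) F) k := by
  obtain ⟨c1, hc1, hu1⟩ := glue_unit h1
  obtain ⟨c2, hc2, hu2⟩ := glue_unit h2
  obtain ⟨O, hO, hOS⟩ := glue_iso S c1 c2 (fun s _ => hu1 s) (fun s _ => hu2 s)
    (fun s hs t ht hst => hc1.orth s t ⟨Finset.mem_union_right _ hs, Finset.mem_union_right _ ht,
      hcl s hs t ht hst⟩)
    (fun s hs t ht hst => hc2.orth s t ⟨Finset.mem_union_right _ hs, Finset.mem_union_right _ ht,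
      hcl s hs t ht hst⟩)
  have hc3 := glue_map hc2 O hO
  obtain ⟨c3, hc3def⟩ : ∃ c3 : V → Fin k → ℝ, c3 = fun v => O (c2 v) := ⟨_, rfl⟩
  rw [← hc3def] at hc3
  have h3S : ∀ s ∈ S, c3 s = c1 s := fun s hs => by rw [hc3def]; exact hOS s hs
  have h3u : ∀ v, c3 v ⬝ᵥ c3 v = 1 := fun v => by rw [hc3def]; show O (c2 v) ⬝ᵥ O (c2 v) = 1; rw [hO, hu2]
  obtain ⟨c, hcdef⟩ : ∃ c : V → Fin k → ℝ, c = fun v => if v ∈ Y then c3 v else c1 v := ⟨_, rfl⟩
  have hcY : ∀ v ∈ Y, c v = c3 v := fun v hv => by rw [hcdef]; simp [hv]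
  have hcn : ∀ v, v ∉ Y → c v = c1 v := fun v hv => by rw [hcdef]; simp [hv]
  have hSnY : ∀ v ∈ S, v ∉ Y := fun v hv hv' => Finset.disjoint_left.1 hSY hv hv'
  have hXnY : ∀ v ∈ X, v ∉ Y := fun v hv hv' => Finset.disjoint_left.1 hXY hv hv'
  have hXnS : ∀ v ∈ X, v ∉ S := fun v hv hv' => Finset.disjoint_left.1 hXS hv hv'
  have hcS : ∀ v ∈ S, c v = c1 v := fun v hv => hcn v (hSnY v hv)
  have hcX : ∀ v ∈ X, c v = c1 v := fun v hv => hcn v (hXnY v hv)
  have hc31 : ∀ v ∈ X ∪ S, c v = c1 v := fun v hv => by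
    rcases Finset.mem_union.1 hv with h | h
    · exact hcX v h
    · exact hcS v h
  have hc33 : ∀ v ∈ Y ∪ S, c v = c3 v := fun v hv => by
    rcases Finset.mem_union.1 hv with h | h
    · exact hcY v h
    · rw [hcS v h, h3S v h]
  have hu : ∀ v, c v ⬝ᵥ c v = 1 := by
    intro v
    by_cases hv : v ∈ Y
    · rw [hcY v hv]; exact h3u v
    · rw [hcn v hv]; exact hu1 v
  -- edges
  have hedge : ∀ i j, (resOn (X ∪ S ∪ Y) F).Adj i j →
      (i ∈ X ∪ S ∧ j ∈ X ∪ S) ∨ (i ∈ Y ∪ S ∧ j ∈ Y ∪ S) := by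
    rintro i j ⟨hi, hj, hij⟩
    have hn1 := hno i
    have hn2 := hno j
    simp only [Finset.mem_union] at hi hj ⊢
    by_cases hiX : i ∈ X
    · have hjY : j ∉ Y := fun hjY => hn1 hiX j hjY hij
      tauto
    · by_cases hjX : j ∈ X
      · have hiY : i ∉ Y := fun hiY => hn2 hjX i hiY hij.symm
        tauto
      · tauto
  have horth : ∀ i j, (resOn (X ∪ S ∪ Y) F).Adj i j → c i ⬝ᵥ c j = 0 := by
    intro i j hij
    rcases hedge i j hij with ⟨hi, hj⟩ | ⟨hi, hj⟩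
    · rw [hc31 i hi, hc31 j hj]
      exact hc1.orth i j ⟨hi, hj, hij.2.2⟩
    · rw [hc33 i hi, hc33 j hj]
      exact hc3.orth i j ⟨hi, hj, hij.2.2⟩
  have hSorth : ∀ s ∈ S, ∀ t ∈ S, s ≠ t → c s ⬝ᵥ c t = 0 := fun s hs t ht hst =>
    horth s t ⟨Finset.mem_union_left _ (Finset.mem_union_right _ hs),
      Finset.mem_union_left _ (Finset.mem_union_right _ ht), hcl s hs t ht hst⟩
  refine ⟨c, ⟨horth, fun Z hZ hF hk => ?_⟩, fun v hv => ?_⟩
  swap
  · have := hu v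
    rw [hv, zero_dotProduct] at this
    exact zero_ne_one this
  -- the stress on the side of `Y`
  have hZY : ∀ i ∈ Y, ∀ j, j ∉ Y ∪ S → Z i j = 0 := by
    intro i hi j hj
    by_contra hne
    rcases hedge i j (hF i j hne) with ⟨h3, h4⟩ | ⟨h3, h4⟩
    · rcases Finset.mem_union.1 h3 with h5 | h5
      · exact hXnY i h5 hi
      · exact hSnY i h5 hi
    · exact hj h4
  obtain ⟨f, hf⟩ : ∃ f : V → Fin k → ℝ, ∀ l, f l = ∑ j ∈ Y, Z l j • c j := ⟨_, fun l => rfl⟩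
  -- the equation at a vertex of `Y`
  have hYS : Disjoint Y S := hSY.symm
  have hYeq : ∀ i ∈ Y, ∑ j ∈ Y, Z i j • c j + ∑ l ∈ S, Z i l • c l = 0 := by
    intro i hi
    rw [← Finset.sum_union hYS, ← hk i]
    refine Finset.sum_subset (Finset.subset_univ _) (fun j _ hj => ?_)
    rw [hZY i hi j hj, zero_smul]
  -- the symmetric form
  have hM : ∀ x y : Fin k → ℝ, ∑ l ∈ S, (c l ⬝ᵥ x) * (f l ⬝ᵥ y) =
      - ∑ i ∈ Y, ∑ j ∈ Y, Z i j * ((c j ⬝ᵥ x) * (c i ⬝ᵥ y)) := by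
    intro x y
    have h3 : ∀ l, f l ⬝ᵥ y = ∑ i ∈ Y, Z l i * (c i ⬝ᵥ y) := by
      intro l
      rw [hf l, sum_dotProduct]
      exact Finset.sum_congr rfl (fun i _ => by rw [smul_dotProduct, smul_eq_mul])
    calc ∑ l ∈ S, (c l ⬝ᵥ x) * (f l ⬝ᵥ y)
        = ∑ l ∈ S, ∑ i ∈ Y, (c l ⬝ᵥ x) * (Z l i * (c i ⬝ᵥ y)) := by
          refine Finset.sum_congr rfl (fun l _ => ?_)
          rw [h3, Finset.mul_sum]
      _ = ∑ i ∈ Y, ∑ l ∈ S, (c l ⬝ᵥ x) * (Z l i * (c i ⬝ᵥ y)) := Finset.sum_comm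
      _ = ∑ i ∈ Y, - ∑ j ∈ Y, Z i j * ((c j ⬝ᵥ x) * (c i ⬝ᵥ y)) := by
          refine Finset.sum_congr rfl (fun i hi => ?_)
          have h4 := congrArg (fun w => w ⬝ᵥ x) (hYeq i hi)
          simp only [add_dotProduct, sum_dotProduct, smul_dotProduct, smul_eq_mul,
            zero_dotProduct] at h4
          have h5 : ∑ l ∈ S, (c l ⬝ᵥ x) * (Z l i * (c i ⬝ᵥ y)) =
              (∑ l ∈ S, Z i l * (c l ⬝ᵥ x)) * (c i ⬝ᵥ y) := by
            rw [Finset.sum_mul]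
            refine Finset.sum_congr rfl (fun l _ => ?_)
            rw [hZ l i]
            ring
          have h6 : ∑ j ∈ Y, Z i j * ((c j ⬝ᵥ x) * (c i ⬝ᵥ y)) =
              (∑ j ∈ Y, Z i j * (c j ⬝ᵥ x)) * (c i ⬝ᵥ y) := by
            rw [Finset.sum_mul]
            refine Finset.sum_congr rfl (fun j _ => ?_)
            ring
          rw [h5, h6]
          have h7 : ∑ l ∈ S, Z i l * (c l ⬝ᵥ x) = - ∑ j ∈ Y, Z i j * (c j ⬝ᵥ x) := by linarith
          rw [h7, neg_mul]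
      _ = _ := by rw [Finset.sum_neg_distrib]
  have hMs : ∀ x y : Fin k → ℝ, ∑ l ∈ S, (c l ⬝ᵥ x) * (f l ⬝ᵥ y) =
      ∑ l ∈ S, (c l ⬝ᵥ y) * (f l ⬝ᵥ x) := by
    intro x y
    rw [hM, hM, neg_inj, Finset.sum_comm]
    refine Finset.sum_congr rfl (fun i _ => Finset.sum_congr rfl (fun j _ => ?_))
    rw [hZ j i]
    ring
  have hfm : ∀ m ∈ S, ∀ y : Fin k → ℝ, f m ⬝ᵥ y = ∑ l ∈ S, (c l ⬝ᵥ y) * (f l ⬝ᵥ c m) := by
    intro m hm y
    rw [← hMs (c m) y, Finset.sum_eq_single m]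
    · rw [hu, one_mul]
    · intro l hl hlm
      rw [hSorth l hl m hm hlm, zero_mul]
    · intro h3
      exact absurd hm h3
  have hfs : ∀ m ∈ S, ∀ l ∈ S, f m ⬝ᵥ c l = f l ⬝ᵥ c m := by
    intro m hm l hl
    rw [hfm m hm (c l), Finset.sum_eq_single l]
    · rw [hu, one_mul]
    · intro l' hl' hne
      rw [hSorth l' hl' l hl hne, zero_mul]
    · intro h3
      exact absurd hl h3
  have hfm2 : ∀ m ∈ S, f m = ∑ l ∈ S, (f m ⬝ᵥ c l) • c l := by
    intro m hm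
    have h3 : ∀ y : Fin k → ℝ, (f m - ∑ l ∈ S, (f m ⬝ᵥ c l) • c l) ⬝ᵥ y = 0 := by
      intro y
      rw [sub_dotProduct, hfm m hm y, sum_dotProduct, sub_eq_zero]
      refine Finset.sum_congr rfl (fun l hl => ?_)
      rw [smul_dotProduct, smul_eq_mul, hfs m hm l hl]
      ring
    have h4 := dotProduct_self_eq_zero.1 (h3 (f m - ∑ l ∈ S, (f m ⬝ᵥ c l) • c l))
    exact sub_eq_zero.1 h4
  have hff : ∀ m ∈ S, f m ⬝ᵥ c m = 0 := by
    intro m hm
    rw [hf m, sum_dotProduct]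
    refine Finset.sum_eq_zero (fun j hj => ?_)
    rw [smul_dotProduct, smul_eq_mul]
    by_cases h3 : Z m j = 0
    · rw [h3, zero_mul]
    · have h4 := horth m j (hF m j h3)
      rw [dotProduct_comm, h4, mul_zero]
  obtain ⟨Z', hZ'⟩ : ∃ Z' : V → V → ℝ, ∀ i j, Z' i j = if i ∈ S ∧ j ∈ S then -(f i ⬝ᵥ c j) else
      if (i ∈ Y ∧ j ∈ Y ∪ S) ∨ (i ∈ S ∧ j ∈ Y) then Z i j else 0 := ⟨_, fun i j => rfl⟩
  have hZSS : ∀ i ∈ S, ∀ j ∈ S, Z' i j = -(f i ⬝ᵥ c j) := by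
    intro i hi j hj
    rw [hZ', if_pos ⟨hi, hj⟩]
  have hZSY : ∀ i ∈ S, ∀ j ∈ Y, Z' i j = Z i j := by
    intro i hi j hj
    rw [hZ', if_neg (fun h => hSnY j h.2 hj), if_pos (Or.inr ⟨hi, hj⟩)]
  have hZYY : ∀ i ∈ Y, ∀ j ∈ Y ∪ S, Z' i j = Z i j := by
    intro i hi j hj
    rw [hZ', if_neg (fun h => hSnY i h.1 hi), if_pos (Or.inl ⟨hi, hj⟩)]
  have hZ0 : ∀ i j, ¬ (i ∈ Y ∪ S ∧ j ∈ Y ∪ S) → Z' i j = 0 := by
    intro i j hij
    simp only [Finset.mem_union] at hij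
    rw [hZ', if_neg (fun h => hij ⟨Or.inr h.1, Or.inr h.2⟩), if_neg]
    rintro (h | h)
    · exact hij ⟨Or.inl h.1, Finset.mem_union.1 h.2⟩
    · exact hij ⟨Or.inr h.1, Or.inl h.2⟩
  have hZ'0 := hc3.reg Z'
    (by
      intro i j
      by_cases hij : i ∈ Y ∪ S ∧ j ∈ Y ∪ S
      · obtain ⟨hi, hj⟩ := hij
        rcases Finset.mem_union.1 hi with hi' | hi'
        · rw [hZYY i hi' j hj]
          rcases Finset.mem_union.1 hj with hj' | hj'
          · rw [hZYY j hj' i hi, hZ]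
          · rw [hZSY j hj' i hi', hZ]
        · rcases Finset.mem_union.1 hj with hj' | hj'
          · rw [hZSY i hi' j hj', hZYY j hj' i hi, hZ]
          · rw [hZSS i hi' j hj', hZSS j hj' i hi', hfs i hi' j hj']
      · rw [hZ0 i j hij, hZ0 j i (fun h => hij ⟨h.2, h.1⟩)])
    (by
      intro i j hne
      by_cases hij : i ∈ Y ∪ S ∧ j ∈ Y ∪ S
      · refine ⟨hij.1, hij.2, ?_⟩
        obtain ⟨hi, hj⟩ := hij
        rcases Finset.mem_union.1 hi with hi' | hi'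
        · rw [hZYY i hi' j hj] at hne
          exact (hF i j hne).2.2
        · rcases Finset.mem_union.1 hj with hj' | hj'
          · rw [hZSY i hi' j hj'] at hne
            exact (hF i j hne).2.2
          · refine hcl i hi' j hj' (fun h => hne ?_)
            rw [hZSS i hi' j hj', ← h, hff i hi', neg_zero]
      · exact absurd (hZ0 i j hij) hne)
    (by
      intro i
      by_cases hi : i ∈ Y ∪ S
      · have h3 : ∑ j, Z' i j • c3 j = ∑ j ∈ Y ∪ S, Z' i j • c j := by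
          rw [← Finset.sum_subset (Finset.subset_univ (Y ∪ S))]
          · exact Finset.sum_congr rfl (fun j hj => by rw [hc33 j hj])
          · intro j _ hj
            rw [hZ0 i j (fun h => hj h.2), zero_smul]
        rw [h3, Finset.sum_union hYS]
        rcases Finset.mem_union.1 hi with hi' | hi'
        · rw [← hYeq i hi']
          refine congrArg₂ (· + ·) ?_ ?_
          · exact Finset.sum_congr rfl (fun j hj => by
              rw [hZYY i hi' j (Finset.mem_union_left _ hj)])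
          · exact Finset.sum_congr rfl (fun j hj => by
              rw [hZYY i hi' j (Finset.mem_union_right _ hj)])
        · have h4 : ∑ j ∈ Y, Z' i j • c j = f i := by
            rw [hf i]
            exact Finset.sum_congr rfl (fun j hj => by rw [hZSY i hi' j hj])
          have h5 : ∑ j ∈ S, Z' i j • c j = - ∑ l ∈ S, (f i ⬝ᵥ c l) • c l := by
            rw [← Finset.sum_neg_distrib]
            exact Finset.sum_congr rfl (fun j hj => by rw [hZSS i hi' j hj, neg_smul])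
          rw [h4, h5, ← hfm2 i hi', add_neg_cancel]
      · refine Finset.sum_eq_zero (fun j _ => ?_)
        rw [hZ0 i j (fun h => hi h.1), zero_smul])
  have hZl : ∀ i ∈ Y, ∀ j, Z i j = 0 := by
    intro i hi j
    by_cases hj : j ∈ Y ∪ S
    · rw [← hZYY i hi j hj]
      exact hZ'0 i j
    · exact hZY i hi j hj
  refine hc1.reg Z hZ (fun i j hij => ?_) (fun i => ?_)
  · have hi : i ∉ Y := fun h => hij (hZl i h j)
    have hj : j ∉ Y := fun h => hij (by rw [hZ, hZl j h i])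
    have h3 := hF i j hij
    refine ⟨?_, ?_, h3.2.2⟩
    · rcases Finset.mem_union.1 h3.1 with h4 | h4
      · exact h4
      · exact absurd h4 hi
    · rcases Finset.mem_union.1 h3.2.1 with h4 | h4
      · exact h4
      · exact absurd h4 hj
  · rw [← hk i]
    refine Finset.sum_congr rfl (fun j _ => ?_)
    by_cases hj : j ∈ Y
    · rw [hZ, hZl j hj i, zero_smul, zero_smul]
    · rw [hcn j hj]

end Pool.Agent.Lib.MP_a2d8aa_co.Rg
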