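import Pool.Agent.Lib.MP_a2d8aa_co.Rg.Basic

/-!
Identifying two neighbours of a cubic vertex that have at most two common neighbours
(MP_a2d8aa_co).
-/

set_option autoImplicit false

open Matrix

namespace Pool.Agent.Lib.MP_a2d8aa_co.Rg

variable {V : Type*} [Fintype V] [DecidableEq V]

/-- a vector orthogonal to two given ones and not parallel to a third one -/
theorem ident_exists_vec (x y q : Fin 4 → ℝ) (hq : q ≠ 0) :
    ∃ z : Fin 4 → ℝ, z ⬝ᵥ x = 0 ∧ z ⬝ᵥ y = 0 ∧
      ∀ s t : ℝ, s • z + t • q = 0 → s = 0 ∧ t = 0 := by
  let f : (Fin 4 → ℝ) →ₗ[ℝ] (Fin 2 → ℝ) :=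
    LinearMap.pi (fun w => dotProductBilin ℝ ℝ (if w = 0 then x else y))
  have h1 := LinearMap.finrank_range_add_finrank_ker f
  have h2 : Module.finrank ℝ (LinearMap.range f) ≤ 2 := by
    refine (Submodule.finrank_le _).trans ?_
    simp
  have h3 : Module.finrank ℝ (Fin 4 → ℝ) = 4 := by simp
  have h4 : ¬ LinearMap.ker f ≤ Submodule.span ℝ {q} := by
    intro hle
    have h5 := Submodule.finrank_mono hle
    rw [finrank_span_singleton hq] at h5
    omega
  obtain ⟨z, hz, hzq⟩ := SetLike.not_le_iff_exists.1 h4
  have hz' := LinearMap.mem_ker.1 hz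
  refine ⟨z, ?_, ?_, fun s t hst => ?_⟩
  · have := congrFun hz' 0
    rw [dotProduct_comm]
    simpa [f] using this
  · have := congrFun hz' 1
    rw [dotProduct_comm]
    simpa [f] using this
  · have hs : s = 0 := by
      by_contra hs
      apply hzq
      rw [Submodule.mem_span_singleton]
      refine ⟨-(s⁻¹ * t), ?_⟩
      have h6 : s⁻¹ • (s • z + t • q) = 0 := by rw [hst, smul_zero]
      rw [smul_add, smul_smul, smul_smul, inv_mul_cancel₀ hs, one_smul] at h6
      rw [neg_smul]
      exact (eq_neg_of_add_eq_zero_left h6).symm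
    refine ⟨hs, ?_⟩
    rw [hs, zero_smul, zero_add] at hst
    exact (smul_eq_zero.1 hst).resolve_right hq

/-- a sum over all vertices, three of them split off -/
theorem ident_sum_split {v a b : V} (hva : v ≠ a) (hvb : v ≠ b) (hab : a ≠ b)
    (g : V → Fin 4 → ℝ) :
    ∑ j, g j = g v + g a + g b + ∑ j ∈ Finset.univ \ {v, a, b}, g j := by
  rw [← Finset.sum_sdiff (Finset.subset_univ ({v, a, b} : Finset V)), add_comm]
  congr 1
  rw [Finset.sum_insert, Finset.sum_insert, Finset.sum_singleton, add_assoc]
  · simp [hab]
  · simp [hva, hvb]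

/-- `v` has the neighbours `a, b, c` at most; `a` and `b` are not adjacent and have no common
neighbours besides `v` and `p`; `F'` arises by contracting `va` and `vb` into `a`. -/
theorem RegX.ident {F F' : SimpleGraph V} {v a b c p : V} (hva : v ≠ a) (hvb : v ≠ b)
    (hvc : v ≠ c) (hab : a ≠ b) (hac : a ≠ c) (hbc : b ≠ c) (hpv : p ≠ v)
    (hv : ∀ w, F.Adj v w → w = a ∨ w = b ∨ w = c) (hnab : ¬ F.Adj a b)
    (hcn : ∀ w, F.Adj a w → F.Adj b w → w = v ∨ w = p)
    (h : ∀ i j, i ≠ v → j ≠ v → i ≠ a → j ≠ a → i ≠ b → j ≠ b → F.Adj i j → F'.Adj i j)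
    (ha : ∀ j, j ≠ v → j ≠ a → j ≠ b → (F.Adj a j ∨ F.Adj b j) → F'.Adj a j)
    (hc : F'.Adj a c) (hr : RegX F' 4) : RegX F 4 := by
  obtain ⟨e, he, he0⟩ := hr
  obtain ⟨z, hza, hzc, hzi⟩ := ident_exists_vec (e a) (e c) (e (if p = b then a else p)) (he0 _)
  have hz0 : z ≠ 0 := by
    intro hz
    have := hzi 1 0 (by rw [hz]; simp)
    exact one_ne_zero this.1
  set d : V → Fin 4 → ℝ := fun w => if w = v then z else e (if w = b then a else w) with hd
  have hdv : d v = z := by simp [hd]
  have hdw : ∀ w, w ≠ v → d w = e (if w = b then a else w) := by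
    intro w hw; simp [hd, hw]
  have hda : d a = e a := by rw [hdw a hva.symm, if_neg hab]
  have hdb : d b = e a := by rw [hdw b hvb.symm, if_pos rfl]
  have hdc : d c = e c := by rw [hdw c hvc.symm, if_neg hbc.symm]
  have hdo : ∀ w, w ≠ v → w ≠ b → d w = e w := by
    intro w hw hwb; rw [hdw w hw, if_neg hwb]
  have hadj : ∀ i j, i ≠ v → j ≠ v → F.Adj i j →
      F'.Adj (if i = b then a else i) (if j = b then a else j) := by
    intro i j hi hj hij
    by_cases hib : i = b
    · have hjb : j ≠ b := fun hh => hij.ne (hib.trans hh.symm)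
      have hja : j ≠ a := by
        rintro rfl
        rw [hib] at hij
        exact hnab hij.symm
      rw [if_pos hib, if_neg hjb]
      exact ha j hj hja hjb (Or.inr (hib ▸ hij))
    · by_cases hjb : j = b
      · have hia : i ≠ a := by
          rintro rfl
          rw [hjb] at hij
          exact hnab hij
        rw [if_neg hib, if_pos hjb]
        exact (ha i hi hia hib (Or.inr (hjb ▸ hij.symm))).symm
      · rw [if_neg hib, if_neg hjb]
        by_cases hia : i = a
        · have hja : j ≠ a := fun hh => hij.ne (hia.trans hh.symm)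
          rw [hia]
          exact ha j hj hja hjb (Or.inl (hia ▸ hij))
        · by_cases hja : j = a
          · rw [hja]
            exact (ha i hi hia hib (Or.inl (hja ▸ hij.symm))).symm
          · exact h i j hi hj hia hja hib hjb hij
  have horv : ∀ j, F.Adj v j → d v ⬝ᵥ d j = 0 := by
    intro j hj
    rcases hv j hj with rfl | rfl | rfl
    · rw [hdv, hda]; exact hza
    · rw [hdv, hdb]; exact hza
    · rw [hdv, hdc]; exact hzc
  refine ⟨d, ⟨fun i j hij => ?_, fun X hX hF hk => ?_⟩, fun w => ?_⟩
  · by_cases hi : i = v
    · rw [hi] at hij ⊢; exact horv j hij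
    · by_cases hj : j = v
      · rw [hj] at hij ⊢
        rw [dotProduct_comm]
        exact horv i hij.symm
      · rw [hdw i hi, hdw j hj]
        exact he.orth _ _ (hadj i j hi hj hij)
  · have hX0 : ∀ i j, ¬ F.Adj i j → X i j = 0 := by
      intro i j hij
      by_contra hh
      exact hij (hF i j hh)
    have hXl : ∀ i, X i i = 0 := fun i => hX0 i i (F.loopless.irrefl i)
    have hXab : X a b = 0 := hX0 a b hnab
    have hXba : X b a = 0 := by rw [hX]; exact hXab
    have hXv : ∀ j, j ≠ a → j ≠ b → j ≠ c → X v j = 0 := by
      intro j h1 h2 h3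
      refine hX0 v j (fun hh => ?_)
      rcases hv j hh with h4 | h4 | h4
      · exact h1 h4
      · exact h2 h4
      · exact h3 h4
    -- the equation at `v`
    have hev : (X v a + X v b) • e a + X v c • e c = 0 := by
      have h1 := hk v
      rw [ident_sum_split hva hvb hab] at h1
      rw [hXl v, hda, hdb, zero_smul, zero_add, ← add_smul] at h1
      rw [← h1]
      congr 1
      rw [Finset.sum_eq_single c]
      · rw [hdc]
      · intro j hj hjc
        simp only [Finset.mem_sdiff, Finset.mem_univ, true_and, Finset.mem_insert,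
          Finset.mem_singleton, not_or] at hj
        rw [hXv j hj.2.1 hj.2.2 hjc, zero_smul]
      · intro hh
        exfalso
        apply hh
        simp [hvc.symm, hac.symm, hbc.symm]
    have hoac : e a ⬝ᵥ e c = 0 := he.orth a c hc
    have hXvc : X v c = 0 := by
      have h1 := congrArg (fun w => w ⬝ᵥ e c) hev
      simp only [add_dotProduct, smul_dotProduct, smul_eq_mul, zero_dotProduct, hoac,
        mul_zero, zero_add, mul_eq_zero, dotProduct_self_eq_zero] at h1
      exact h1.resolve_right (he0 c)
    have hXvab : X v a + X v b = 0 := by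
      rw [hXvc, zero_smul, add_zero] at hev
      exact (smul_eq_zero.1 hev).resolve_right (he0 a)
    have hXcv : ∀ i, i ≠ a → i ≠ b → X i v = 0 := by
      intro i h1 h2
      rw [hX]
      by_cases h3 : i = c
      · rw [h3]; exact hXvc
      · exact hXv i h1 h2 h3
    -- the equations at the other vertices
    have hei : ∀ i, i ≠ a → i ≠ b →
        (X i a + X i b) • e a + ∑ j ∈ Finset.univ \ {v, a, b}, X i j • e j = 0 := by
      intro i hia hib
      have h1 := hk i
      rw [ident_sum_split hva hvb hab] at h1
      rw [hXcv i hia hib, hda, hdb, zero_smul, zero_add, ← add_smul] at h1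
      rw [← h1]
      congr 1
      refine Finset.sum_congr rfl (fun j hj => ?_)
      simp only [Finset.mem_sdiff, Finset.mem_univ, true_and, Finset.mem_insert,
        Finset.mem_singleton, not_or] at hj
      rw [hdo j hj.1 hj.2.2]
    have hea : ∑ j ∈ Finset.univ \ {v, a, b}, (X a j + X b j) • e j = 0 := by
      have h1 := hk a
      have h2 := hk b
      rw [ident_sum_split hva hvb hab, hXl a, hXab, zero_smul, zero_smul, add_zero,
        add_zero] at h1
      rw [ident_sum_split hva hvb hab, hXl b, hXba, zero_smul, zero_smul, add_zero,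
        add_zero] at h2
      have h3 : (X a v + X b v) • d v + ∑ j ∈ Finset.univ \ {v, a, b}, (X a j + X b j) • d j
          = 0 := by
        have h4 := congrArg₂ (fun s t => s + t) h1 h2
        simp only [add_zero] at h4
        rw [← h4]
        simp only [add_smul, Finset.sum_add_distrib]
        abel
      rw [hX a v, hX b v, hXvab, zero_smul, zero_add] at h3
      rw [← h3]
      refine Finset.sum_congr rfl (fun j hj => ?_)
      simp only [Finset.mem_sdiff, Finset.mem_univ, true_and, Finset.mem_insert,
        Finset.mem_singleton, not_or] at hj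
      rw [hdo j hj.1 hj.2.2]
    -- the stress of `e`
    let Y : V → V → ℝ := fun i j =>
      if i = v ∨ i = b ∨ j = v ∨ j = b then 0
      else if i = a then (if j = a then 0 else X a j + X b j)
      else (if j = a then X i a + X i b else X i j)
    have hY1 : ∀ i j, i ≠ v → i ≠ b → i ≠ a → j ≠ v → j ≠ b → j ≠ a → Y i j = X i j := by
      intro i j h1 h2 h3 h4 h5 h6
      simp only [Y, h1, h2, h3, h4, h5, h6, or_self, if_false]
    have hY2 : ∀ i, i ≠ v → i ≠ b → i ≠ a → Y i a = X i a + X i b := by
      intro i h1 h2 h3
      simp only [Y, h1, h2, h3, hva.symm, hab, or_self, if_false, if_true]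
    have hY3 : ∀ j, j ≠ v → j ≠ b → j ≠ a → Y a j = X a j + X b j := by
      intro j h1 h2 h3
      simp only [Y, h1, h2, h3, hva.symm, hab, or_self, if_false, if_true]
    have hY4 : Y a a = 0 := by
      simp only [Y, if_true, ite_self]
    have hY5 : ∀ i j, (i = v ∨ i = b ∨ j = v ∨ j = b) → Y i j = 0 := by
      intro i j hh
      simp only [Y, hh, if_true]
    have key : ∀ i j, Y i j = 0 := by
      refine he.reg Y (fun i j => ?_) (fun i j hij => ?_) (fun i => ?_)
      · by_cases h1 : i = v ∨ i = b ∨ j = v ∨ j = b
        · rw [hY5 i j h1, hY5 j i (by tauto)]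
        · simp only [not_or] at h1
          obtain ⟨h2, h3, h4, h5⟩ := h1
          by_cases hia : i = a
          · by_cases hja : j = a
            · rw [hia, hja]
            · rw [hia, hY3 j h4 h5 hja, hY2 j h4 h5 hja, hX j a, hX j b]
          · by_cases hja : j = a
            · rw [hja, hY2 i h2 h3 hia, hY3 i h2 h3 hia, hX i a, hX i b]
            · rw [hY1 i j h2 h3 hia h4 h5 hja, hY1 j i h4 h5 hja h2 h3 hia, hX]
      · by_cases h1 : i = v ∨ i = b ∨ j = v ∨ j = b
        · exact absurd (hY5 i j h1) hij
        · simp only [not_or] at h1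
          obtain ⟨h2, h3, h4, h5⟩ := h1
          by_cases hia : i = a
          · by_cases hja : j = a
            · rw [hia, hja] at hij; exact absurd hY4 hij
            · rw [hia, hY3 j h4 h5 hja] at hij
              rw [hia]
              refine ha j h4 hja h5 ?_
              by_contra hh
              simp only [not_or] at hh
              exact hij (by rw [hX0 a j hh.1, hX0 b j hh.2, add_zero])
          · by_cases hja : j = a
            · rw [hja, hY2 i h2 h3 hia] at hij
              rw [hja]
              refine (ha i h2 hia h3 ?_).symm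
              by_contra hh
              simp only [not_or] at hh
              exact hij (by rw [hX i a, hX i b, hX0 a i hh.1, hX0 b i hh.2, add_zero])
            · rw [hY1 i j h2 h3 hia h4 h5 hja] at hij
              exact h i j h2 h4 hia hja h3 h5 (hF i j hij)
      · by_cases h1 : i = v ∨ i = b
        · refine Finset.sum_eq_zero (fun j _ => ?_)
          rw [hY5 i j (by tauto), zero_smul]
        · simp only [not_or] at h1
          rw [ident_sum_split hva hvb hab, hY5 i v (by tauto), hY5 i b (by tauto), zero_smul,
            zero_smul, zero_add, add_zero]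
          by_cases hia : i = a
          · rw [hia, hY4, zero_smul, zero_add, ← hea]
            refine Finset.sum_congr rfl (fun j hj => ?_)
            simp only [Finset.mem_sdiff, Finset.mem_univ, true_and, Finset.mem_insert,
              Finset.mem_singleton, not_or] at hj
            rw [hY3 j hj.1 hj.2.2 hj.2.1]
          · rw [hY2 i h1.1 h1.2 hia, ← hei i hia h1.2]
            congr 1
            refine Finset.sum_congr rfl (fun j hj => ?_)
            simp only [Finset.mem_sdiff, Finset.mem_univ, true_and, Finset.mem_insert,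
              Finset.mem_singleton, not_or] at hj
            rw [hY1 i j h1.1 h1.2 hia hj.1 hj.2.2 hj.2.1]
    have hZ1 : ∀ i j, i ≠ v → i ≠ b → i ≠ a → j ≠ v → j ≠ b → j ≠ a → X i j = 0 := by
      intro i j h1 h2 h3 h4 h5 h6
      rw [← hY1 i j h1 h2 h3 h4 h5 h6]
      exact key i j
    have hZ2 : ∀ i, i ≠ v → i ≠ b → i ≠ a → X a i + X b i = 0 := by
      intro i h1 h2 h3
      rw [← hY3 i h1 h2 h3]
      exact key a i
    have hZ3 : ∀ i, i ≠ v → i ≠ b → i ≠ a → i ≠ p → X a i = 0 := by
      intro i h1 h2 h3 h4
      by_contra hh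
      have h5 := hZ2 i h1 h2 h3
      have h6 : X b i ≠ 0 := by
        intro h7
        rw [h7, add_zero] at h5
        exact hh h5
      rcases hcn i (hF a i hh) (hF b i h6) with h7 | h7
      · exact h1 h7
      · exact h4 h7
    have hfa : X a v • z + X a p • e (if p = b then a else p) = 0 := by
      have h1 := hk a
      rw [← Finset.sum_subset (Finset.subset_univ ({v, p} : Finset V))] at h1
      · rw [Finset.sum_insert (by simp [hpv.symm]), Finset.sum_singleton, hdv, hdw p hpv] at h1
        exact h1
      · intro j _ hj
        simp only [Finset.mem_insert, Finset.mem_singleton, not_or] at hj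
        by_cases hja : j = a
        · rw [hja, hXl, zero_smul]
        · by_cases hjb : j = b
          · rw [hjb, hXab, zero_smul]
          · rw [hZ3 j hj.1 hjb hja hj.2, zero_smul]
    obtain ⟨hXav, hXap⟩ := hzi _ _ hfa
    have hXa : ∀ j, X a j = 0 := by
      intro j
      by_cases h1 : j = v
      · rw [h1, hXav]
      · by_cases h2 : j = a
        · rw [h2, hXl]
        · by_cases h3 : j = b
          · rw [h3, hXab]
          · by_cases h4 : j = p
            · rw [h4, hXap]
            · exact hZ3 j h1 h3 h2 h4
    have hXb : ∀ j, X b j = 0 := by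
      intro j
      by_cases h1 : j = v
      · have h2 := hXvab
        rw [hX v a, hXa v, zero_add] at h2
        rw [h1, hX, h2]
      · by_cases h2 : j = a
        · rw [h2, hXba]
        · by_cases h3 : j = b
          · rw [h3, hXl]
          · have h4 := hZ2 j h1 h3 h2
            rwa [hXa j, zero_add] at h4
    have hXv' : ∀ j, X v j = 0 := by
      intro j
      by_cases h2 : j = a
      · rw [h2, hX, hXa]
      · by_cases h3 : j = b
        · rw [h3, hX, hXb]
        · by_cases h4 : j = c
          · rw [h4, hXvc]
          · exact hXv j h2 h3 h4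
    intro i j
    by_cases h1 : i = v
    · rw [h1, hXv']
    · by_cases h2 : i = a
      · rw [h2, hXa]
      · by_cases h3 : i = b
        · rw [h3, hXb]
        · by_cases h4 : j = v
          · rw [h4, hX, hXv']
          · by_cases h5 : j = a
            · rw [h5, hX, hXa]
            · by_cases h6 : j = b
              · rw [h6, hX, hXb]
              · exact hZ1 i j h1 h3 h2 h4 h6 h5
  · by_cases hw : w = v
    · rw [hw, hdv]; exact hz0
    · rw [hdw w hw]; exact he0 _

end Pool.Agent.Lib.MP_a2d8aa_co.Rg
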