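import Pool.Agent.Lib.MP_a2d8aa_co.Rg.First

/-!
Rooted triangles (MP_a2d8aa_co).
-/

set_option autoImplicit false

namespace Pool.Agent.Lib.MP_a2d8aa_co.Rg

variable {V : Type*} [DecidableEq V] {G : SimpleGraph V}

/-- the conclusion of `rooted_triangle` -/
def roottri_T (G : SimpleGraph V) (Y : Finset V) (x₁ x₂ x₃ : V) : Prop :=
  ∃ B₁ B₂ B₃ : Finset V, Conn G B₁ ∧ Conn G B₂ ∧ Conn G B₃ ∧ x₁ ∈ B₁ ∧ x₂ ∈ B₂ ∧ x₃ ∈ B₃ ∧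
    B₁ ⊆ insert x₁ Y ∧ B₂ ⊆ insert x₂ Y ∧ B₃ ⊆ insert x₃ Y ∧
    Disjoint B₁ B₂ ∧ Disjoint B₁ B₃ ∧ Disjoint B₂ B₃ ∧
    Touch G B₁ B₂ ∧ Touch G B₁ B₃ ∧ Touch G B₂ B₃

theorem roottri_swap₁₂ {Y : Finset V} {x₁ x₂ x₃ : V} (h : roottri_T G Y x₁ x₂ x₃) :
    roottri_T G Y x₂ x₁ x₃ := by
  obtain ⟨B₁, B₂, B₃, c₁, c₂, c₃, m₁, m₂, m₃, s₁, s₂, s₃, d₁₂, d₁₃, d₂₃, t₁₂, t₁₃, t₂₃⟩ := h
  exact ⟨B₂, B₁, B₃, c₂, c₁, c₃, m₂, m₁, m₃, s₂, s₁, s₃, d₁₂.symm, d₂₃, d₁₃, t₁₂.symm, t₂₃, t₁₃⟩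

theorem roottri_swap₂₃ {Y : Finset V} {x₁ x₂ x₃ : V} (h : roottri_T G Y x₁ x₂ x₃) :
    roottri_T G Y x₁ x₃ x₂ := by
  obtain ⟨B₁, B₂, B₃, c₁, c₂, c₃, m₁, m₂, m₃, s₁, s₂, s₃, d₁₂, d₁₃, d₂₃, t₁₂, t₁₃, t₂₃⟩ := h
  exact ⟨B₁, B₃, B₂, c₁, c₃, c₂, m₁, m₃, m₂, s₁, s₃, s₂, d₁₃, d₁₂, d₂₃.symm, t₁₃, t₁₂, t₂₃.symm⟩

theorem roottri_base {Y Y₁ Y₂ : Finset V} {x₁ x₂ x₃ : V} (h₁₂ : x₁ ≠ x₂) (h₁₃ : x₁ ≠ x₃)
    (h₂₃ : x₂ ≠ x₃) (hx₁ : x₁ ∉ Y) (hx₂ : x₂ ∉ Y) (hx₃ : x₃ ∉ Y) (c₁ : Conn G Y₁)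
    (c₂ : Conn G Y₂) (s₁ : Y₁ ⊆ Y) (s₂ : Y₂ ⊆ Y) (hd : Disjoint Y₁ Y₂)
    (ht : Touch G (insert x₁ Y₁) (insert x₂ Y₂))
    (t₁₁ : ∃ u ∈ Y₁, G.Adj u x₁) (t₁₃ : ∃ u ∈ Y₁, G.Adj u x₃)
    (t₂₂ : ∃ u ∈ Y₂, G.Adj u x₂) (t₂₃ : ∃ u ∈ Y₂, G.Adj u x₃) : roottri_T G Y x₁ x₂ x₃ := by
  refine ⟨insert x₁ Y₁, insert x₂ Y₂, {x₃}, c₁.insert t₁₁, c₂.insert t₂₂, conn_singleton G x₃,
    Finset.mem_insert_self _ _, Finset.mem_insert_self _ _, Finset.mem_singleton_self _,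
    Finset.insert_subset_insert _ s₁, Finset.insert_subset_insert _ s₂, by simp, ?_, ?_, ?_,
    ht, ?_, ?_⟩
  · rw [Finset.disjoint_left]
    intro a ha hb
    rw [Finset.mem_insert] at ha hb
    rcases ha with rfl | ha
    · rcases hb with hb | hb
      · exact h₁₂ hb
      · exact hx₁ (s₂ hb)
    · rcases hb with rfl | hb
      · exact hx₂ (s₁ ha)
      · exact Finset.disjoint_left.1 hd ha hb
  · rw [Finset.disjoint_singleton_right, Finset.mem_insert]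
    rintro (h | h)
    · exact h₁₃ h.symm
    · exact hx₃ (s₁ h)
  · rw [Finset.disjoint_singleton_right, Finset.mem_insert]
    rintro (h | h)
    · exact h₂₃ h.symm
    · exact hx₃ (s₂ h)
  · obtain ⟨u, hu, hux⟩ := t₁₃
    exact ⟨u, Finset.mem_insert_of_mem hu, x₃, Finset.mem_singleton_self _, hux⟩
  · obtain ⟨u, hu, hux⟩ := t₂₃
    exact ⟨u, Finset.mem_insert_of_mem hu, x₃, Finset.mem_singleton_self _, hux⟩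

theorem roottri_of_two {Y Y₁ Y₂ : Finset V} {x₁ x₂ x₃ : V} (h₁₂ : x₁ ≠ x₂) (h₁₃ : x₁ ≠ x₃)
    (h₂₃ : x₂ ≠ x₃) (hx₁ : x₁ ∉ Y) (hx₂ : x₂ ∉ Y) (hx₃ : x₃ ∉ Y) (c₁ : Conn G Y₁)
    (c₂ : Conn G Y₂) (s₁ : Y₁ ⊆ Y) (s₂ : Y₂ ⊆ Y) (hd : Disjoint Y₁ Y₂) (ht : Touch G Y₁ Y₂)
    (t₁ : ((∃ u ∈ Y₁, G.Adj u x₁) ∧ ∃ u ∈ Y₁, G.Adj u x₂) ∨
      ((∃ u ∈ Y₁, G.Adj u x₁) ∧ ∃ u ∈ Y₁, G.Adj u x₃) ∨
      ((∃ u ∈ Y₁, G.Adj u x₂) ∧ ∃ u ∈ Y₁, G.Adj u x₃))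
    (t₂ : ((∃ u ∈ Y₂, G.Adj u x₁) ∧ ∃ u ∈ Y₂, G.Adj u x₂) ∨
      ((∃ u ∈ Y₂, G.Adj u x₁) ∧ ∃ u ∈ Y₂, G.Adj u x₃) ∨
      ((∃ u ∈ Y₂, G.Adj u x₂) ∧ ∃ u ∈ Y₂, G.Adj u x₃))
    (a₁ : (∃ u ∈ Y₁, G.Adj u x₁) ∨ ∃ u ∈ Y₂, G.Adj u x₁)
    (a₂ : (∃ u ∈ Y₁, G.Adj u x₂) ∨ ∃ u ∈ Y₂, G.Adj u x₂)
    (a₃ : (∃ u ∈ Y₁, G.Adj u x₃) ∨ ∃ u ∈ Y₂, G.Adj u x₃) : roottri_T G Y x₁ x₂ x₃ := by
  have ht' : ∀ x y : V, Touch G (insert x Y₁) (insert y Y₂) := fun x y =>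
    ht.mono (Finset.subset_insert _ _) (Finset.subset_insert _ _)
  have e₁ : (∃ u ∈ Y₁, G.Adj u x₁) → (∃ u ∈ Y₁, G.Adj u x₃) → (∃ u ∈ Y₂, G.Adj u x₂) →
      (∃ u ∈ Y₂, G.Adj u x₃) → roottri_T G Y x₁ x₂ x₃ := fun p q r s =>
    roottri_base h₁₂ h₁₃ h₂₃ hx₁ hx₂ hx₃ c₁ c₂ s₁ s₂ hd (ht' _ _) p q r s
  have e₂ : (∃ u ∈ Y₁, G.Adj u x₂) → (∃ u ∈ Y₁, G.Adj u x₃) → (∃ u ∈ Y₂, G.Adj u x₁) →
      (∃ u ∈ Y₂, G.Adj u x₃) → roottri_T G Y x₁ x₂ x₃ := fun p q r s =>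
    roottri_swap₁₂ (roottri_base h₁₂.symm h₂₃ h₁₃ hx₂ hx₁ hx₃ c₁ c₂ s₁ s₂ hd (ht' _ _) p q r s)
  have e₃ : (∃ u ∈ Y₁, G.Adj u x₁) → (∃ u ∈ Y₁, G.Adj u x₂) → (∃ u ∈ Y₂, G.Adj u x₃) →
      (∃ u ∈ Y₂, G.Adj u x₂) → roottri_T G Y x₁ x₂ x₃ := fun p q r s =>
    roottri_swap₂₃ (roottri_base h₁₃ h₁₂ h₂₃.symm hx₁ hx₃ hx₂ c₁ c₂ s₁ s₂ hd (ht' _ _) p q r s)
  have e₄ : (∃ u ∈ Y₁, G.Adj u x₃) → (∃ u ∈ Y₁, G.Adj u x₂) → (∃ u ∈ Y₂, G.Adj u x₁) →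
      (∃ u ∈ Y₂, G.Adj u x₂) → roottri_T G Y x₁ x₂ x₃ := fun p q r s =>
    roottri_swap₂₃ (roottri_swap₁₂
      (roottri_base h₁₃.symm h₂₃.symm h₁₂ hx₃ hx₁ hx₂ c₁ c₂ s₁ s₂ hd (ht' _ _) p q r s))
  have e₅ : (∃ u ∈ Y₁, G.Adj u x₂) → (∃ u ∈ Y₁, G.Adj u x₁) → (∃ u ∈ Y₂, G.Adj u x₃) →
      (∃ u ∈ Y₂, G.Adj u x₁) → roottri_T G Y x₁ x₂ x₃ := fun p q r s =>
    roottri_swap₁₂ (roottri_swap₂₃
      (roottri_base h₂₃ h₁₂.symm h₁₃.symm hx₂ hx₃ hx₁ c₁ c₂ s₁ s₂ hd (ht' _ _) p q r s))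
  have e₆ : (∃ u ∈ Y₁, G.Adj u x₃) → (∃ u ∈ Y₁, G.Adj u x₁) → (∃ u ∈ Y₂, G.Adj u x₂) →
      (∃ u ∈ Y₂, G.Adj u x₁) → roottri_T G Y x₁ x₂ x₃ := fun p q r s =>
    roottri_swap₁₂ (roottri_swap₂₃ (roottri_swap₁₂
      (roottri_base h₂₃.symm h₁₃.symm h₁₂.symm hx₃ hx₂ hx₁ c₁ c₂ s₁ s₂ hd (ht' _ _) p q r s)))
  rcases t₁ with ⟨p, q⟩ | ⟨p, q⟩ | ⟨p, q⟩ <;> rcases t₂ with ⟨r, s⟩ | ⟨r, s⟩ | ⟨r, s⟩ <;>
    rcases a₁ with a | a <;> rcases a₂ with b | b <;> rcases a₃ with c | c <;>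
    first
      | exact e₁ (by assumption) (by assumption) (by assumption) (by assumption)
      | exact e₂ (by assumption) (by assumption) (by assumption) (by assumption)
      | exact e₃ (by assumption) (by assumption) (by assumption) (by assumption)
      | exact e₄ (by assumption) (by assumption) (by assumption) (by assumption)
      | exact e₅ (by assumption) (by assumption) (by assumption) (by assumption)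
      | exact e₆ (by assumption) (by assumption) (by assumption) (by assumption)

/-- the hypothesis on the neighbours -/
def roottri_N (G : SimpleGraph V) (Y : Finset V) (x₁ x₂ x₃ : V) : Prop :=
  ∀ Z ⊆ Y, Z.Nonempty → ∀ S : Finset V,
    (∀ z ∈ Z, ∀ w ∈ Y ∪ {x₁, x₂, x₃}, G.Adj z w → w ∈ Z ∨ w ∈ S) → 3 ≤ S.card

theorem roottri_S {Y Z S : Finset V} {x₁ x₂ x₃ : V} (hN : roottri_N G Y x₁ x₂ x₃) (hZ : Z ⊆ Y)
    (hne : Z.Nonempty) (h₀ : ∀ z ∈ Z, ∀ w ∈ Y, G.Adj z w → w ∈ Z ∨ w ∈ S)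
    (h₁ : (∃ u ∈ Z, G.Adj u x₁) → x₁ ∈ S) (h₂ : (∃ u ∈ Z, G.Adj u x₂) → x₂ ∈ S)
    (h₃ : (∃ u ∈ Z, G.Adj u x₃) → x₃ ∈ S) : 3 ≤ S.card := by
  refine hN Z hZ hne S fun z hz w hw hzw => ?_
  rw [Finset.mem_union] at hw
  rcases hw with hw | hw
  · exact h₀ z hz w hw hzw
  · rw [Finset.mem_insert, Finset.mem_insert, Finset.mem_singleton] at hw
    rcases hw with rfl | rfl | rfl
    · exact Or.inr (h₁ ⟨z, hz, hzw⟩)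
    · exact Or.inr (h₂ ⟨z, hz, hzw⟩)
    · exact Or.inr (h₃ ⟨z, hz, hzw⟩)

theorem roottri_touch3 {Y Z : Finset V} {x₁ x₂ x₃ : V} (hN : roottri_N G Y x₁ x₂ x₃)
    (hZ : Closed G Y Z) (hne : Z.Nonempty) :
    (∃ u ∈ Z, G.Adj u x₁) ∧ (∃ u ∈ Z, G.Adj u x₂) ∧ ∃ u ∈ Z, G.Adj u x₃ := by
  have h₀ : ∀ S : Finset V, ∀ z ∈ Z, ∀ w ∈ Y, G.Adj z w → w ∈ Z ∨ w ∈ S :=
    fun S z hz w hw hzw => Or.inl (hZ.2 z hz w hw hzw)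
  refine ⟨?_, ?_, ?_⟩
  · by_contra hc
    have h := roottri_S hN hZ.1 hne (h₀ {x₂, x₃}) (fun h => absurd h hc) (fun _ => by simp)
      (fun _ => by simp)
    have h' := Finset.card_le_two (a := x₂) (b := x₃)
    omega
  · by_contra hc
    have h := roottri_S hN hZ.1 hne (h₀ {x₁, x₃}) (fun _ => by simp) (fun h => absurd h hc)
      (fun _ => by simp)
    have h' := Finset.card_le_two (a := x₁) (b := x₃)
    omega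
  · by_contra hc
    have h := roottri_S hN hZ.1 hne (h₀ {x₁, x₂}) (fun _ => by simp) (fun _ => by simp)
      (fun h => absurd h hc)
    have h' := Finset.card_le_two (a := x₁) (b := x₂)
    omega

theorem roottri_touch2 {Y Z : Finset V} {x₁ x₂ x₃ y : V} (hN : roottri_N G Y x₁ x₂ x₃)
    (hZ : Closed G (Y.erase y) Z) (hne : Z.Nonempty) :
    ((∃ u ∈ Z, G.Adj u x₁) ∧ ∃ u ∈ Z, G.Adj u x₂) ∨
      ((∃ u ∈ Z, G.Adj u x₁) ∧ ∃ u ∈ Z, G.Adj u x₃) ∨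
      ((∃ u ∈ Z, G.Adj u x₂) ∧ ∃ u ∈ Z, G.Adj u x₃) := by
  have h₀ : ∀ x : V, ∀ z ∈ Z, ∀ w ∈ Y, G.Adj z w → w ∈ Z ∨ w ∈ ({y, x} : Finset V) := by
    intro x z hz w hw hzw
    by_cases hwy : w = y
    · exact Or.inr (by simp [hwy])
    · exact Or.inl (hZ.2 z hz w (Finset.mem_erase.2 ⟨hwy, hw⟩) hzw)
  have hsub : Z ⊆ Y := hZ.1.trans (Finset.erase_subset _ _)
  have key : ∀ x : V, ((∃ u ∈ Z, G.Adj u x₁) → x₁ = x) → ((∃ u ∈ Z, G.Adj u x₂) → x₂ = x) →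
      ((∃ u ∈ Z, G.Adj u x₃) → x₃ = x) → False := by
    intro x g₁ g₂ g₃
    have h := roottri_S hN hsub hne (h₀ x) (fun h => by simp [g₁ h]) (fun h => by simp [g₂ h])
      (fun h => by simp [g₃ h])
    have h' := Finset.card_le_two (a := y) (b := x)
    omega
  by_contra hc
  have k₁ := key x₁
  have k₂ := key x₂
  have k₃ := key x₃
  revert k₁ k₂ k₃ hc
  generalize (∃ u ∈ Z, G.Adj u x₁) = p₁
  generalize (∃ u ∈ Z, G.Adj u x₂) = p₂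
  generalize (∃ u ∈ Z, G.Adj u x₃) = p₃
  tauto

theorem roottri_main : ∀ (n : ℕ) (Y : Finset V) (x₁ x₂ x₃ : V), Y.card = n → x₁ ≠ x₂ → x₁ ≠ x₃ →
    x₂ ≠ x₃ → x₁ ∉ Y → x₂ ∉ Y → x₃ ∉ Y → 2 ≤ Y.card → roottri_N G Y x₁ x₂ x₃ →
    roottri_T G Y x₁ x₂ x₃ := by
  intro n
  induction n using Nat.strong_induction_on with
  | _ n ih =>
  intro Y x₁ x₂ x₃ hn h₁₂ h₁₃ h₂₃ hx₁ hx₂ hx₃ hY hN
  have hYne : Y.Nonempty := Finset.card_pos.1 (by omega)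
  obtain ⟨T₁, T₂, T₃⟩ := roottri_touch3 hN (Z := Y) ⟨subset_rfl, fun _ _ w hw _ => hw⟩ hYne
  rcases conn_or_split G hYne with hc | ⟨C, D, cC, cD, hC, hD, hCD⟩
  swap
  · -- `Y` is not connected
    obtain ⟨C₁, C₂, C₃⟩ := roottri_touch3 hN hC cC.1
    obtain ⟨D₁, D₂, D₃⟩ := roottri_touch3 hN hD cD.1
    refine roottri_base h₁₂ h₁₃ h₂₃ hx₁ hx₂ hx₃ cC cD hC.1 hD.1 hCD ?_ C₁ C₃ D₂ D₃
    obtain ⟨u, hu, hux⟩ := C₂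
    exact ⟨u, Finset.mem_insert_of_mem hu, x₂, Finset.mem_insert_self _ _, hux⟩
  -- the sets which touch each other and cover `Y`
  have cover : ∀ C D : Finset V, C ∪ D = Y → Disjoint C D → Conn G C → Conn G D → Touch G C D →
      (((∃ u ∈ C, G.Adj u x₁) ∧ ∃ u ∈ C, G.Adj u x₂) ∨
        ((∃ u ∈ C, G.Adj u x₁) ∧ ∃ u ∈ C, G.Adj u x₃) ∨
        ((∃ u ∈ C, G.Adj u x₂) ∧ ∃ u ∈ C, G.Adj u x₃)) →
      (((∃ u ∈ D, G.Adj u x₁) ∧ ∃ u ∈ D, G.Adj u x₂) ∨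
        ((∃ u ∈ D, G.Adj u x₁) ∧ ∃ u ∈ D, G.Adj u x₃) ∨
        ((∃ u ∈ D, G.Adj u x₂) ∧ ∃ u ∈ D, G.Adj u x₃)) → roottri_T G Y x₁ x₂ x₃ := by
    intro C D hCD hdis cC cD ht p q
    have hs : ∀ x : V, (∃ u ∈ Y, G.Adj u x) → (∃ u ∈ C, G.Adj u x) ∨ ∃ u ∈ D, G.Adj u x := by
      rintro x ⟨u, hu, hux⟩
      rw [← hCD, Finset.mem_union] at hu
      rcases hu with hu | hu
      · exact Or.inl ⟨u, hu, hux⟩
      · exact Or.inr ⟨u, hu, hux⟩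
    exact roottri_of_two h₁₂ h₁₃ h₂₃ hx₁ hx₂ hx₃ cC cD (hCD ▸ Finset.subset_union_left)
      (hCD ▸ Finset.subset_union_right) hdis ht p q (hs _ T₁) (hs _ T₂) (hs _ T₃)
  by_cases h2 : ∀ y ∈ Y, Conn G (Y.erase y)
  swap
  · -- some `Y - y` is not connected
    push Not at h2
    obtain ⟨y, hy, hny⟩ := h2
    have hne : (Y.erase y).Nonempty := by
      rw [← Finset.card_pos, Finset.card_erase_of_mem hy]
      omega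
    rcases conn_or_split G hne with hc' | ⟨C, D, cC, cD, hC, hD, hCD⟩
    · exact absurd hc' hny
    have hCY : C ⊆ Y := hC.1.trans (Finset.erase_subset _ _)
    have hDY : D ⊆ Y := hD.1.trans (Finset.erase_subset _ _)
    have cE : Conn G (Y \ C) := hc.sdiff_of_closed_erase hy hC
    have hDE : D ⊆ Y \ C := fun u hu =>
      Finset.mem_sdiff.2 ⟨hDY hu, fun h => Finset.disjoint_left.1 hCD h hu⟩
    refine cover C (Y \ C) (Finset.union_sdiff_of_subset hCY) Finset.disjoint_sdiff cC cE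
      (hc.2 C hCY cC.1 ?_) (roottri_touch2 hN hC cC.1) ?_
    · intro h
      have := hC.1 (h ▸ hy : y ∈ C)
      exact (Finset.mem_erase.1 this).1 rfl
    · have hup : ∀ x : V, (∃ u ∈ D, G.Adj u x) → ∃ u ∈ Y \ C, G.Adj u x :=
        fun x ⟨u, hu, hux⟩ => ⟨u, hDE hu, hux⟩
      rcases roottri_touch2 hN hD cD.1 with ⟨p, q⟩ | ⟨p, q⟩ | ⟨p, q⟩
      · exact Or.inl ⟨hup _ p, hup _ q⟩
      · exact Or.inr (Or.inl ⟨hup _ p, hup _ q⟩)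
      · exact Or.inr (Or.inr ⟨hup _ p, hup _ q⟩)
  -- every vertex of `Y` is adjacent to at most one of the three vertices
  by_cases hone : ∀ y ∈ Y, ¬ ((G.Adj y x₁ ∧ G.Adj y x₂) ∨ (G.Adj y x₁ ∧ G.Adj y x₃) ∨
      (G.Adj y x₂ ∧ G.Adj y x₃))
  swap
  · push Not at hone
    obtain ⟨y, hy, hyy⟩ := hone
    have hsub : ({y} : Finset V) ⊆ Y := Finset.singleton_subset_iff.2 hy
    have hE : Y \ {y} = Y.erase y := Finset.sdiff_singleton_eq_erase y Y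
    have hne : (Y.erase y).Nonempty := (h2 y hy).1
    refine cover {y} (Y.erase y) ?_ ?_ (conn_singleton G y) (h2 y hy) ?_ ?_
      (roottri_touch2 hN (y := y) ⟨subset_rfl, fun _ _ w hw _ => hw⟩ hne)
    · rw [← hE]
      exact Finset.union_sdiff_of_subset hsub
    · rw [← hE]
      exact Finset.disjoint_sdiff
    · rw [← hE]
      refine hc.2 {y} hsub (Finset.singleton_nonempty y) fun h => ?_
      rw [← h, Finset.card_singleton] at hY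
      omega
    · have hup : ∀ x : V, G.Adj y x → ∃ u ∈ ({y} : Finset V), G.Adj u x :=
        fun x h => ⟨y, Finset.mem_singleton_self y, h⟩
      rcases hyy with ⟨p, q⟩ | ⟨p, q⟩ | ⟨p, q⟩
      · exact Or.inl ⟨hup _ p, hup _ q⟩
      · exact Or.inr (Or.inl ⟨hup _ p, hup _ q⟩)
      · exact Or.inr (Or.inr ⟨hup _ p, hup _ q⟩)
  obtain ⟨s, hs, hsx⟩ := T₃
  by_cases htwo : ∃ t ∈ Y, t ≠ s ∧ G.Adj t x₃
  · -- `x₃` has two neighbours in `Y`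
    classical
    obtain ⟨t, ht, hts, htx⟩ := htwo
    obtain ⟨A, hA⟩ : ∃ A, A = Y.filter (fun y => G.Adj y x₁ ∨ G.Adj y x₂) := ⟨_, rfl⟩
    have hAm : ∀ y, y ∈ A ↔ y ∈ Y ∧ (G.Adj y x₁ ∨ G.Adj y x₂) := by
      intro y
      rw [hA, Finset.mem_filter]
    have hnA : ∀ y ∈ Y, G.Adj y x₃ → y ∉ A := by
      intro y hy hyx hyA
      rcases ((hAm y).1 hyA).2 with h | h
      · exact hone y hy (Or.inr (Or.inl ⟨h, hyx⟩))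
      · exact hone y hy (Or.inr (Or.inr ⟨h, hyx⟩))
    have hAne : A.Nonempty := by
      obtain ⟨u, hu, hux⟩ := T₁
      exact ⟨u, (hAm u).2 ⟨hu, Or.inl hux⟩⟩
    obtain ⟨C, D, hCD, hdis, cC, cD, hT, hsC, htD, hcard⟩ := exists_first hc h2 hs ht hts.symm
      (fun y hy => ((hAm y).1 hy).1) (hnA s hs hsx) (hnA t ht htx) hAne
    obtain ⟨a, ha⟩ := Finset.card_eq_one.1 hcard
    have haC : a ∈ C ∩ A := by rw [ha]; exact Finset.mem_singleton_self a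
    rw [Finset.mem_inter] at haC
    have huniq : ∀ y ∈ C, y ∈ A → y = a := by
      intro y hy hyA
      have : y ∈ C ∩ A := Finset.mem_inter.2 ⟨hy, hyA⟩
      rw [ha] at this
      exact Finset.mem_singleton.1 this
    have hside : ∀ x, (∃ u ∈ Y, G.Adj u x) → (∀ u ∈ Y, G.Adj u x → u ∈ A) → ¬ G.Adj a x →
        ∃ u ∈ D, G.Adj u x := by
      rintro x ⟨u, hu, hux⟩ hxA hax
      have hu' := hu
      rw [← hCD, Finset.mem_union] at hu'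
      rcases hu' with h | h
      · exact absurd (huniq u h (hxA u hu hux) ▸ hux) hax
      · exact ⟨u, h, hux⟩
    have haY : a ∈ Y := ((hAm a).1 haC.2).1
    rcases ((hAm a).1 haC.2).2 with h | h
    · have h' : ¬ G.Adj a x₂ := fun h2' => hone a haY (Or.inl ⟨h, h2'⟩)
      exact cover C D hCD hdis cC cD hT (Or.inr (Or.inl ⟨⟨a, haC.1, h⟩, ⟨s, hsC, hsx⟩⟩))
        (Or.inr (Or.inr ⟨hside x₂ T₂ (fun u hu hux => (hAm u).2 ⟨hu, Or.inr hux⟩) h',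
          ⟨t, htD, htx⟩⟩))
    · have h' : ¬ G.Adj a x₁ := fun h2' => hone a haY (Or.inl ⟨h2', h⟩)
      exact cover C D hCD hdis cC cD hT (Or.inr (Or.inr ⟨⟨a, haC.1, h⟩, ⟨s, hsC, hsx⟩⟩))
        (Or.inr (Or.inl ⟨hside x₁ T₁ (fun u hu hux => (hAm u).2 ⟨hu, Or.inl hux⟩) h',
          ⟨t, htD, htx⟩⟩))
  · -- `s` is the only neighbour of `x₃` in `Y`
    push Not at htwo
    have hcard3 : 3 ≤ Y.card := by
      have h₁ : ¬ G.Adj s x₁ := fun h => hone s hs (Or.inr (Or.inl ⟨h, hsx⟩))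
      have h₂ : ¬ G.Adj s x₂ := fun h => hone s hs (Or.inr (Or.inr ⟨h, hsx⟩))
      have h := roottri_S (S := insert x₃ (Y.erase s)) hN (Finset.singleton_subset_iff.2 hs)
        (Finset.singleton_nonempty s) ?_ ?_ ?_ ?_
      · have h' := Finset.card_insert_le x₃ (Y.erase s)
        rw [Finset.card_erase_of_mem hs] at h'
        omega
      · intro z _ w hw _
        by_cases hws : w = s
        · exact Or.inl (by simp [hws])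
        · exact Or.inr (Finset.mem_insert_of_mem (Finset.mem_erase.2 ⟨hws, hw⟩))
      · rintro ⟨u, hu, hux⟩
        rw [Finset.mem_singleton] at hu
        exact absurd (hu ▸ hux) h₁
      · rintro ⟨u, hu, hux⟩
        rw [Finset.mem_singleton] at hu
        exact absurd (hu ▸ hux) h₂
      · intro _
        exact Finset.mem_insert_self _ _
    have hce : (Y.erase s).card = Y.card - 1 := Finset.card_erase_of_mem hs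
    have hns : ∀ u ∈ Y.erase s, ¬ G.Adj u x₃ := fun u hu =>
      htwo u (Finset.mem_of_mem_erase hu) (Finset.ne_of_mem_erase hu)
    have hN' : roottri_N G (Y.erase s) x₁ x₂ s := by
      intro Z hZ hne S hS
      refine hN Z (hZ.trans (Finset.erase_subset _ _)) hne S fun z hz w hw hzw => ?_
      refine hS z hz w ?_ hzw
      rw [Finset.mem_union, Finset.mem_insert, Finset.mem_insert, Finset.mem_singleton] at hw ⊢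
      rcases hw with hw | hw | hw | hw
      · by_cases hws : w = s
        · exact Or.inr (Or.inr (Or.inr hws))
        · exact Or.inl (Finset.mem_erase.2 ⟨hws, hw⟩)
      · exact Or.inr (Or.inl hw)
      · exact Or.inr (Or.inr (Or.inl hw))
      · exact absurd (hw ▸ hzw) (hns z (hZ hz))
    obtain ⟨B₁, B₂, B₃, c₁, c₂, c₃, m₁, m₂, m₃, s₁, s₂, s₃, d₁₂, d₁₃, d₂₃, t₁₂, t₁₃, t₂₃⟩ :=
      ih (Y.erase s).card (by omega) (Y.erase s) x₁ x₂ s rfl h₁₂ (fun h => hx₁ (h ▸ hs))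
        (fun h => hx₂ (h ▸ hs)) (fun h => hx₁ (Finset.mem_of_mem_erase h))
        (fun h => hx₂ (Finset.mem_of_mem_erase h)) (Finset.notMem_erase s Y) (by omega) hN'
    have hi : ∀ x, insert x (Y.erase s) ⊆ insert x Y := fun x =>
      Finset.insert_subset_insert _ (Finset.erase_subset _ _)
    have n₁ : x₃ ∉ B₁ := fun h => by
      have h' := hi _ (s₁ h)
      rw [Finset.mem_insert] at h'
      rcases h' with h' | h'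
      · exact h₁₃ h'.symm
      · exact hx₃ h'
    have n₂ : x₃ ∉ B₂ := fun h => by
      have h' := hi _ (s₂ h)
      rw [Finset.mem_insert] at h'
      rcases h' with h' | h'
      · exact h₂₃ h'.symm
      · exact hx₃ h'
    refine ⟨B₁, B₂, insert x₃ B₃, c₁, c₂, c₃.insert ⟨s, m₃, hsx⟩, m₁, m₂,
      Finset.mem_insert_self _ _, s₁.trans (hi _), s₂.trans (hi _), ?_, d₁₂,
      Finset.disjoint_insert_right.2 ⟨n₁, d₁₃⟩, Finset.disjoint_insert_right.2 ⟨n₂, d₂₃⟩, t₁₂,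
      t₁₃.mono subset_rfl (Finset.subset_insert _ _),
      t₂₃.mono subset_rfl (Finset.subset_insert _ _)⟩
    refine Finset.insert_subset_insert _ (s₃.trans ?_)
    rw [Finset.insert_erase hs]

/-- If every nonempty `Z ⊆ Y` has at least three neighbours in `(Y \ Z) ∪ {x₁, x₂, x₃}` and
`|Y| ≥ 2`, then there is a triangle minor in `Y ∪ {x₁, x₂, x₃}` rooted at `x₁, x₂, x₃`. -/
theorem rooted_triangle {Y : Finset V} {x₁ x₂ x₃ : V} (h₁₂ : x₁ ≠ x₂) (h₁₃ : x₁ ≠ x₃)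
    (h₂₃ : x₂ ≠ x₃) (hx₁ : x₁ ∉ Y) (hx₂ : x₂ ∉ Y) (hx₃ : x₃ ∉ Y) (hY : 2 ≤ Y.card)
    (hN : ∀ Z ⊆ Y, Z.Nonempty → ∀ S : Finset V,
      (∀ z ∈ Z, ∀ w ∈ Y ∪ {x₁, x₂, x₃}, G.Adj z w → w ∈ Z ∨ w ∈ S) → 3 ≤ S.card) :
    ∃ B₁ B₂ B₃ : Finset V, Conn G B₁ ∧ Conn G B₂ ∧ Conn G B₃ ∧ x₁ ∈ B₁ ∧ x₂ ∈ B₂ ∧ x₃ ∈ B₃ ∧
      B₁ ⊆ insert x₁ Y ∧ B₂ ⊆ insert x₂ Y ∧ B₃ ⊆ insert x₃ Y ∧
      Disjoint B₁ B₂ ∧ Disjoint B₁ B₃ ∧ Disjoint B₂ B₃ ∧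
      Touch G B₁ B₂ ∧ Touch G B₁ B₃ ∧ Touch G B₂ B₃ :=
  roottri_main _ Y x₁ x₂ x₃ rfl h₁₂ h₁₃ h₂₃ hx₁ hx₂ hx₃ hY hN

end Pool.Agent.Lib.MP_a2d8aa_co.Rg
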