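import Pool.Agent.Lib.MP_a2d8aa_co.Rg.MinDeg

/-!
Every graph `G` on `n` vertices has a regular orthogonal representation in dimension three by
non-zero vectors, or its complement has a regular one in dimension `n - 4` (MP_a2d8aa_co).
-/

set_option autoImplicit false

open Matrix

namespace Pool.Agent.Lib.MP_a2d8aa_co.Rg

variable {V : Type*} [Fintype V] [DecidableEq V]

/-- `G` with the edge `ab` added -/
def addE (G : SimpleGraph V) (a b : V) (hab : a ≠ b) : SimpleGraph V where
  Adj i j := G.Adj i j ∨ (i = a ∧ j = b) ∨ (i = b ∧ j = a)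
  symm := ⟨fun _ _ h => by
    rcases h with h | h | h
    · exact Or.inl h.symm
    · exact Or.inr (Or.inr ⟨h.2, h.1⟩)
    · exact Or.inr (Or.inl ⟨h.2, h.1⟩)⟩
  loopless := ⟨fun i h => by
    rcases h with h | h | h
    · exact G.loopless.irrefl i h
    · exact hab (h.1.symm.trans h.2)
    · exact hab (h.2.symm.trans h.1)⟩

theorem regX_of_no_edge {F : SimpleGraph V} (k : ℕ) (h : ∀ i j, ¬ F.Adj i j) :
    RegX F (k + 1) := by
  refine ⟨fun _ => cn 1 0, ⟨fun i j hij => absurd hij (h i j), fun X _ hF _ i j => ?_⟩,
    fun v hv => ?_⟩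
  · by_contra hh
    exact h i j (hF i j hh)
  · exact one_ne_zero (cn_eq_zero hv).1

/-- every graph on `n` vertices has a regular representation in dimension three by non-zero
vectors, or its complement has a regular representation in dimension `n - 4` -/
theorem three : ∀ (n : ℕ) (W : Finset V) (G : SimpleGraph V), W.card = n →
    RegX (resOn W G) 3 ∨ (4 ≤ n ∧ Reg (coOn W G) (n - 4)) := by
  classical
  intro n
  induction n with
  | zero =>
    intro W G hW
    left
    refine regX_of_no_edge 2 (fun i j h => ?_)
    rw [Finset.card_eq_zero] at hW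
    have := h.1
    rw [hW] at this
    simp at this
  | succ n ih =>
    intro W G hW
    by_cases hdeg : ∀ u ∈ W, 3 ≤ (W.filter (fun v => G.Adj u v)).card
    · right
      have hne : W.Nonempty := Finset.card_pos.1 (by omega)
      obtain ⟨u, hu⟩ := hne
      have h4 : 4 ≤ n + 1 := by
        have h2 : W.filter (fun v => G.Adj u v) ⊆ W.erase u := by
          intro v hv
          rw [Finset.mem_filter] at hv
          rw [Finset.mem_erase]
          refine ⟨?_, hv.1⟩
          rintro rfl
          exact G.loopless.irrefl _ hv.2
        have h3 := Finset.card_le_card h2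
        have h4 := Finset.card_erase_add_one hu
        have h5 := hdeg u hu
        omega
      refine ⟨h4, reg_coOn G W (n + 1 - 4) (fun w hw => ?_)⟩
      have h5 := Finset.card_filter_add_card_filter_not (s := W) (fun v => G.Adj w v)
      have h6 := hdeg w hw
      omega
    · push Not at hdeg
      obtain ⟨v, hvW, hv⟩ := hdeg
      have hcard : (W.erase v).card = n := by
        rw [Finset.card_erase_of_mem hvW]; omega
      have hN : ∀ w, (resOn W G).Adj v w → w ∈ W.filter (fun w => G.Adj v w) := by
        intro w hw
        rw [Finset.mem_filter]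
        exact ⟨hw.2.1, hw.2.2⟩
      by_cases hcl : ∀ i j, i ∈ W → j ∈ W → G.Adj v i → G.Adj v j → i ≠ j → G.Adj i j
      · rcases ih (W.erase v) G hcard with h1 | ⟨h1, h2⟩
        · left
          refine RegX.extend v (W.filter (fun w => G.Adj v w)) (by omega) hN ?_ ?_ h1
          · intro i j hi hj hij
            refine ⟨?_, ?_, hcl i j hi.2.1 hj.2.1 hi.2.2 hj.2.2 hij⟩
            · exact Finset.mem_erase.2 ⟨hi.2.2.ne', hi.2.1⟩
            · exact Finset.mem_erase.2 ⟨hj.2.2.ne', hj.2.1⟩
          · intro i j hi hj hij
            exact ⟨Finset.mem_erase.2 ⟨hi, hij.1⟩, Finset.mem_erase.2 ⟨hj, hij.2.1⟩, hij.2.2⟩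
        · right
          refine ⟨by omega, ?_⟩
          have h3 : n + 1 - 4 = (n - 4) + 1 := by omega
          rw [h3]
          refine Reg.delete v (fun i j hi hj hij => ?_) h2
          exact ⟨Finset.mem_erase.2 ⟨hi, hij.1⟩, Finset.mem_erase.2 ⟨hj, hij.2.1⟩, hij.2.2⟩
      · push Not at hcl
        obtain ⟨a, b, haW, hbW, hva, hvb, hab, hnab⟩ := hcl
        have hNab : ∀ w, w ∈ W → G.Adj v w → w = a ∨ w = b := by
          intro w hwW hvw
          by_contra hh
          push Not at hh
          have h1 : ({w, a, b} : Finset V) ⊆ W.filter (fun w => G.Adj v w) := by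
            intro z hz
            simp only [Finset.mem_insert, Finset.mem_singleton] at hz
            rw [Finset.mem_filter]
            rcases hz with rfl | rfl | rfl
            · exact ⟨hwW, hvw⟩
            · exact ⟨haW, hva⟩
            · exact ⟨hbW, hvb⟩
          have h2 := Finset.card_le_card h1
          have h3 : ({w, a, b} : Finset V).card = 3 := by
            rw [Finset.card_insert_of_notMem, Finset.card_insert_of_notMem,
              Finset.card_singleton]
            · simp [hab]
            · simp [hh.1, hh.2]
          omega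
        rcases ih (W.erase v) (addE G a b hab) hcard with h1 | ⟨h1, h2⟩
        · left
          refine RegX.extend v (W.filter (fun w => G.Adj v w)) (by omega) hN ?_ ?_ h1
          · intro i j hi hj hij
            refine ⟨?_, ?_, ?_⟩
            · exact Finset.mem_erase.2 ⟨hi.2.2.ne', hi.2.1⟩
            · exact Finset.mem_erase.2 ⟨hj.2.2.ne', hj.2.1⟩
            · rcases hNab i hi.2.1 hi.2.2 with hi' | hi' <;>
                rcases hNab j hj.2.1 hj.2.2 with hj' | hj'
              · exact absurd (hi'.trans hj'.symm) hij
              · exact Or.inr (Or.inl ⟨hi', hj'⟩)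
              · exact Or.inr (Or.inr ⟨hi', hj'⟩)
              · exact absurd (hi'.trans hj'.symm) hij
          · intro i j hi hj hij
            exact ⟨Finset.mem_erase.2 ⟨hi, hij.1⟩, Finset.mem_erase.2 ⟨hj, hij.2.1⟩,
              Or.inl hij.2.2⟩
        · right
          refine ⟨by omega, ?_⟩
          have h3 : n + 1 - 4 = (n - 4) + 1 := by omega
          rw [h3]
          refine Reg.suppress (v := v) (a := a) (b := b) hva.ne' hvb.ne' hab
            (fun hh => hh.2.2.2 hva) (fun hh => hh.2.2.2 hvb) (fun i j hi hj h1 h2 hij => ?_) h2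
          refine ⟨Finset.mem_erase.2 ⟨hi, hij.1⟩, Finset.mem_erase.2 ⟨hj, hij.2.1⟩, hij.2.2.1, ?_⟩
          rintro (h | h | h)
          · exact hij.2.2.2 h
          · exact h1 h
          · exact h2 h

end Pool.Agent.Lib.MP_a2d8aa_co.Rg
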