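import Pool.Agent.Lib.MP_a2d8aa_co.Rg.Transfer
import Pool.Agent.Lib.MP_a2d8aa_co.Rg.Three
import Pool.Agent.Lib.MP_a2d8aa_co.Rg.RootTri
import Pool.Agent.Lib.MP_a2d8aa_co.Rg.CoreA1
import Pool.Agent.Lib.MP_a2d8aa_co.Rg.CoreA2
import Pool.Agent.Lib.MP_a2d8aa_co.Rg.CoreB1
import Pool.Agent.Lib.MP_a2d8aa_co.Rg.CoreB2
import Pool.Agent.Lib.MP_a2d8aa_co.Rg.Glue
import Pool.Agent.Lib.MP_a2d8aa_co.Rg.Ident

/-!
Every graph `G` on `n` vertices has a regular orthogonal representation in dimension four by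
non-zero vectors, or its complement has a regular one in dimension `n - 5` (MP_a2d8aa_co).
-/

set_option autoImplicit false

namespace Pool.Agent.Lib.MP_a2d8aa_co.Rg

variable {n : ℕ}

/-- `G` with the set `S` made complete -/
def clq (G : SimpleGraph (Fin n)) (S : Finset (Fin n)) : SimpleGraph (Fin n) where
  Adj i j := i ≠ j ∧ (G.Adj i j ∨ (i ∈ S ∧ j ∈ S))
  symm := ⟨fun _ _ h => ⟨h.1.symm, by
    rcases h.2 with h1 | h1
    · exact Or.inl h1.symm
    · exact Or.inr ⟨h1.2, h1.1⟩⟩⟩
  loopless := ⟨fun _ h => h.1 rfl⟩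

/-- the vertices of `{a, b, v}` contracted into `a` -/
def ctr3 (G : SimpleGraph (Fin n)) (a b v : Fin n) : SimpleGraph (Fin n) where
  Adj i j := i ≠ j ∧ (G.Adj i j ∨ (i = a ∧ (G.Adj b j ∨ G.Adj v j)) ∨
    (j = a ∧ (G.Adj b i ∨ G.Adj v i)))
  symm := ⟨fun _ _ h => ⟨h.1.symm, by
    rcases h.2 with h1 | h1 | h1
    · exact Or.inl h1.symm
    · exact Or.inr (Or.inr h1)
    · exact Or.inr (Or.inl h1)⟩⟩
  loopless := ⟨fun _ h => h.1 rfl⟩

theorem regX_top : ∀ (W : Finset (Fin n)), W.card ≤ 4 →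
    RegX (resOn W (⊤ : SimpleGraph (Fin n))) 4 := by
  intro W
  induction W using Finset.induction_on with
  | empty =>
    intro _
    exact regX_of_no_edge 3 (fun i j h => by simpa using h.1)
  | insert v W hv ih =>
    intro hc
    rw [Finset.card_insert_of_notMem hv] at hc
    refine RegX.extend (F' := resOn W ⊤) v W (by omega) (fun w hw => ?_) (fun i j hi hj hij => ?_)
      (fun i j hi hj hij => ?_) (ih (by omega))
    · exact (Finset.mem_insert.1 hw.2.1).resolve_left hw.2.2.ne'
    · exact ⟨(Finset.mem_insert.1 hi.2.1).resolve_left hi.2.2.ne',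
        (Finset.mem_insert.1 hj.2.1).resolve_left hj.2.2.ne', hij⟩
    · exact ⟨(Finset.mem_insert.1 hij.1).resolve_left hi,
        (Finset.mem_insert.1 hij.2.1).resolve_left hj, hij.2.2⟩

theorem regX_small {W : Finset (Fin n)} {G : SimpleGraph (Fin n)} (hc : W.card ≤ 4) :
    RegX (resOn W G) 4 :=
  RegX.mono (F' := resOn W ⊤) (fun _ _ h => ⟨h.1, h.2.1, h.2.2.ne⟩) (regX_top W hc)

theorem regX_five {W : Finset (Fin n)} {G : SimpleGraph (Fin n)} [DecidableRel G.Adj]
    (hc : W.card ≤ 5) {v : Fin n} (hv : v ∈ W) (hdeg : (W.filter (fun w => G.Adj v w)).card ≤ 3) :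
    RegX (resOn W G) 4 := by
  refine RegX.extend (F' := resOn (W.erase v) ⊤) v (W.filter (fun w => G.Adj v w)) (by omega)
    (fun w hw => Finset.mem_filter.2 ⟨hw.2.1, hw.2.2⟩) (fun i j hi hj hij => ?_)
    (fun i j hi hj hij => ?_) (regX_top _ ?_)
  · exact ⟨Finset.mem_erase.2 ⟨hi.2.2.ne', hi.2.1⟩, Finset.mem_erase.2 ⟨hj.2.2.ne', hj.2.1⟩, hij⟩
  · exact ⟨Finset.mem_erase.2 ⟨hi, hij.1⟩, Finset.mem_erase.2 ⟨hj, hij.2.1⟩, hij.2.2.ne⟩
  · rw [Finset.card_erase_of_mem hv]; omega

/-- all edges covered by at most three vertices -/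
theorem regX_cover {W T : Finset (Fin n)} {G : SimpleGraph (Fin n)} (hT : T.card ≤ 3)
    (h : ∀ x ∈ W, ∀ y ∈ W, G.Adj x y → x ∈ T ∨ y ∈ T) : RegX (resOn W G) 4 := by
  classical
  let H : SimpleGraph (Fin n) :=
    { Adj := fun i j => i ≠ j ∧ (i ∈ T ∨ j ∈ T)
      symm := ⟨fun _ _ h => ⟨h.1.symm, h.2.symm⟩⟩
      loopless := ⟨fun _ h => h.1 rfl⟩ }
  have key : ∀ U : Finset (Fin n), RegX (resOn (T ∪ U) H) 4 := by
    intro U
    induction U using Finset.induction_on with
    | empty => rw [Finset.union_empty]; exact regX_small (by omega)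
    | insert v U hv ih =>
      by_cases hvT : v ∈ T
      · have : T ∪ insert v U = T ∪ U := by
          rw [Finset.union_insert, Finset.insert_eq_of_mem (Finset.mem_union_left _ hvT)]
        rw [this]; exact ih
      · have hmem : ∀ w, (resOn (T ∪ insert v U) H).Adj v w → w ∈ T :=
          fun w hw => hw.2.2.2.resolve_left hvT
        refine RegX.extend (F' := resOn (T ∪ U) H) v T (by omega) hmem (fun i j hi hj hij => ?_)
          (fun i j hi hj hij => ?_) ih
        · exact ⟨Finset.mem_union_left _ (hmem i hi), Finset.mem_union_left _ (hmem j hj), hij,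
            Or.inl (hmem i hi)⟩
        · refine ⟨?_, ?_, hij.2.2⟩
          · have := hij.1
            rw [Finset.union_insert] at this
            exact (Finset.mem_insert.1 this).resolve_left hi
          · have := hij.2.1
            rw [Finset.union_insert] at this
            exact (Finset.mem_insert.1 this).resolve_left hj
  refine (key W).mono (fun i j hij => ?_)
  exact ⟨Finset.mem_union_right _ hij.1, Finset.mem_union_right _ hij.2.1, hij.2.2.ne,
    h i hij.1 j hij.2.1 hij.2.2⟩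

theorem rmin_two {W W' S C : Finset (Fin n)} {G : SimpleGraph (Fin n)} (hS : S.card ≤ 2)
    (hW : W' ⊆ W) (hC : Conn G C) (hCW : C ⊆ W) (hCW' : Disjoint C W')
    (ht : ∀ s ∈ S, ∃ u ∈ C, G.Adj u s) (hSW : S ⊆ W') : RMin G W (clq G S) W' := by
  classical
  rcases S.eq_empty_or_nonempty with hE | ⟨y, hy⟩
  · refine ⟨fun x => {x}, fun x hx => ⟨Finset.mem_singleton_self x,
      Finset.singleton_subset_iff.2 (hW hx), conn_singleton G x⟩, fun x _ y _ hxy => ?_,
      fun x _ y _ hxy => ?_⟩
    · exact Finset.disjoint_singleton.2 hxy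
    · rcases hxy.2 with h | h
      · exact ⟨x, Finset.mem_singleton_self x, y, Finset.mem_singleton_self y, h⟩
      · rw [hE] at h; exact absurd h.1 (by simp)
  · have hyW' := hSW hy
    have hyC : y ∉ C := fun h => (Finset.disjoint_left.1 hCW') h hyW'
    have hself : ∀ x : Fin n, x ∈ (if x = y then insert y C else {x}) := by
      intro x
      split_ifs with h
      · rw [h]; exact Finset.mem_insert_self _ _
      · exact Finset.mem_singleton_self x
    refine ⟨fun x => if x = y then insert y C else {x}, fun x hx => ⟨hself x, ?_, ?_⟩,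
      fun x hx z hz hxz => ?_, fun x hx z hz hxz => ?_⟩
    · dsimp only
      split_ifs with h
      · exact Finset.insert_subset (hW hyW') hCW
      · exact Finset.singleton_subset_iff.2 (hW hx)
    · dsimp only
      split_ifs with h
      · exact hC.insert (ht y hy)
      · exact conn_singleton G x
    · dsimp only
      split_ifs with h1 h2 h2
      · exact absurd (h1.trans h2.symm) hxz
      · rw [Finset.disjoint_singleton_right, Finset.mem_insert, not_or]
        exact ⟨h2, fun h => (Finset.disjoint_left.1 hCW') h hz⟩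
      · rw [Finset.disjoint_singleton_left, Finset.mem_insert, not_or]
        exact ⟨h1, fun h => (Finset.disjoint_left.1 hCW') h hx⟩
      · exact Finset.disjoint_singleton.2 hxz
    · rcases hxz.2 with h | h
      · exact ⟨x, hself x, z, hself z, h⟩
      · dsimp only
        by_cases hxy : x = y
        · obtain ⟨u, hu, huz⟩ := ht z h.2
          refine ⟨u, ?_, z, hself z, huz⟩
          rw [if_pos hxy]; exact Finset.mem_insert_of_mem hu
        · by_cases hzy : z = y
          · obtain ⟨u, hu, hux⟩ := ht x h.1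
            refine ⟨x, hself x, u, ?_, hux.symm⟩
            rw [if_pos hzy]; exact Finset.mem_insert_of_mem hu
          · have h1 : ({x, z, y} : Finset (Fin n)) ⊆ S := by
              intro t ht
              simp only [Finset.mem_insert, Finset.mem_singleton] at ht
              rcases ht with rfl | rfl | rfl
              · exact h.1
              · exact h.2
              · exact hy
            have h2 := Finset.card_le_card h1
            have h3 : ({x, z, y} : Finset (Fin n)).card = 3 := by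
              rw [Finset.card_insert_of_notMem, Finset.card_insert_of_notMem,
                Finset.card_singleton]
              · simp [hzy]
              · simp [hxz.1, hxy]
            omega

/-- gluing along `S`, in the form used below -/
theorem glue_clq {W Z S : Finset (Fin n)} {G : SimpleGraph (Fin n)} (hZ : Z ⊆ W) (hS : S ⊆ W)
    (hZS : Disjoint Z S) (hno : ∀ z ∈ Z, ∀ w ∈ W, G.Adj z w → w ∈ Z ∨ w ∈ S)
    (h1 : RegX (resOn (Z ∪ S) (clq G S)) 4)
    (h2 : RegX (resOn ((W \ (Z ∪ S)) ∪ S) (clq G S)) 4) : RegX (resOn W G) 4 := by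
  classical
  have h3 := RegX.glue (F := clq G S) Z S (W \ (Z ∪ S)) hZS ?_ ?_ ?_ ?_ h1 h2
  · refine h3.mono (fun i j hij => ?_)
    have hmem : ∀ x ∈ W, x ∈ Z ∪ S ∪ (W \ (Z ∪ S)) := by
      intro x hx
      by_cases h : x ∈ Z ∪ S
      · exact Finset.mem_union_left _ h
      · exact Finset.mem_union_right _ (Finset.mem_sdiff.2 ⟨hx, h⟩)
    exact ⟨hmem i hij.1, hmem j hij.2.1, hij.2.2.ne, Or.inl hij.2.2⟩
  · rw [Finset.disjoint_left]
    intro x hx hx'
    exact (Finset.mem_sdiff.1 hx').2 (Finset.mem_union_left _ hx)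
  · rw [Finset.disjoint_left]
    intro x hx hx'
    exact (Finset.mem_sdiff.1 hx').2 (Finset.mem_union_right _ hx)
  · intro s hs t ht hst
    exact ⟨hst, Or.inr ⟨hs, ht⟩⟩
  · intro x hx y hy hxy
    rw [Finset.mem_sdiff, Finset.mem_union, not_or] at hy
    rcases hxy.2 with h | h
    · rcases hno x hx y hy.1 h with h | h
      · exact hy.2.1 h
      · exact hy.2.2 h
    · exact hy.2.2 h.2

/-- no separations of order at most two in a minimal counterexample -/
theorem no_sep {W : Finset (Fin n)} {G : SimpleGraph (Fin n)} (hQ : ¬ RegX (resOn W G) 4)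
    (hmin : ∀ (G' : SimpleGraph (Fin n)) (W' : Finset (Fin n)), W'.card < W.card →
      RMin G W G' W' → RegX (resOn W' G') 4) :
    ∀ s : ℕ, s ≤ 2 → ∀ Z S : Finset (Fin n), S.card = s → Z ⊆ W → S ⊆ W → Disjoint Z S →
      Z.Nonempty → (W \ (Z ∪ S)).Nonempty →
      (∀ z ∈ Z, ∀ w ∈ W, G.Adj z w → w ∈ Z ∨ w ∈ S) → False := by
  classical
  intro s
  induction s using Nat.strong_induction_on with
  | _ s ih =>
  intro hs2 Z S hSs hZ hS hZS hZne hRne hno
  -- sets with outer neighbours in `S` touch all of `S`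
  have htouch : ∀ C : Finset (Fin n), C ⊆ W → Disjoint C S → C.Nonempty →
      (W \ (C ∪ S)).Nonempty → (∀ z ∈ C, ∀ w ∈ W, G.Adj z w → w ∈ C ∨ w ∈ S) →
      ∀ t ∈ S, ∃ u ∈ C, G.Adj u t := by
    intro C hC hCS hCne hCR hCno t ht
    by_contra hcon
    push Not at hcon
    have hcard : (S.erase t).card = s - 1 := by rw [Finset.card_erase_of_mem ht, hSs]
    have hpos : 0 < s := by rw [← hSs]; exact Finset.card_pos.2 ⟨t, ht⟩
    refine ih (s - 1) (by omega) (by omega) C (S.erase t) hcard hC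
      ((Finset.erase_subset _ _).trans hS) (hCS.mono_right (Finset.erase_subset _ _)) hCne
      (hCR.mono (Finset.sdiff_subset_sdiff subset_rfl
        (Finset.union_subset_union subset_rfl (Finset.erase_subset _ _)))) ?_
    intro z hz w hw hzw
    rcases hCno z hz w hw hzw with h | h
    · exact Or.inl h
    · refine Or.inr (Finset.mem_erase.2 ⟨?_, h⟩)
      rintro rfl
      exact hcon z hz hzw
  set R := W \ (Z ∪ S) with hR
  have hRW : R ⊆ W := Finset.sdiff_subset
  have hRS : Disjoint R S := by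
    rw [Finset.disjoint_left]
    intro x hx hx'
    exact (Finset.mem_sdiff.1 hx).2 (Finset.mem_union_right _ hx')
  have hRZ : Disjoint R Z := by
    rw [Finset.disjoint_left]
    intro x hx hx'
    exact (Finset.mem_sdiff.1 hx).2 (Finset.mem_union_left _ hx')
  have hRno : ∀ z ∈ R, ∀ w ∈ W, G.Adj z w → w ∈ R ∨ w ∈ S := by
    intro z hz w hw hzw
    by_cases hwS : w ∈ S
    · exact Or.inr hwS
    · left
      rw [hR, Finset.mem_sdiff, Finset.mem_union, not_or]
      refine ⟨hw, fun hwZ => ?_, hwS⟩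
      rcases hno w hwZ z (hRW hz) hzw.symm with h | h
      · exact (Finset.disjoint_left.1 hRZ) hz h
      · exact (Finset.disjoint_left.1 hRS) hz h
  -- components
  have hcomp : ∀ A B : Finset (Fin n), A ⊆ W → Disjoint A S → A.Nonempty → B.Nonempty →
      B ⊆ W → Disjoint B S → Disjoint A B →
      (∀ z ∈ A, ∀ w ∈ W, G.Adj z w → w ∈ A ∨ w ∈ S) →
      ∃ C, C ⊆ A ∧ Conn G C ∧ ∀ t ∈ S, ∃ u ∈ C, G.Adj u t := by
    intro A B hA hAS hAne hBne hB hBS hAB hAno
    obtain ⟨x, hx⟩ := hAne
    obtain ⟨C, hC, hCcl, hxC⟩ := exists_comp G A hx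
    refine ⟨C, hCcl.1, hC, htouch C (hCcl.1.trans hA) (hAS.mono_left hCcl.1) hC.1 ?_ ?_⟩
    · obtain ⟨y, hy⟩ := hBne
      refine ⟨y, Finset.mem_sdiff.2 ⟨hB hy, ?_⟩⟩
      rw [Finset.mem_union, not_or]
      exact ⟨fun h => (Finset.disjoint_left.1 hAB) (hCcl.1 h) hy,
        (Finset.disjoint_left.1 hBS) hy⟩
    · intro z hz w hw hzw
      rcases hAno z (hCcl.1 hz) w hw hzw with h | h
      · exact Or.inl (hCcl.2 z hz w h hzw)
      · exact Or.inr h
  obtain ⟨C₁, hC₁Z, hC₁, hC₁t⟩ := hcomp Z R hZ hZS hZne hRne hRW hRS hRZ.symm hno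
  obtain ⟨C₂, hC₂R, hC₂, hC₂t⟩ := hcomp R Z hRW hRS hRne hZne hZ hZS hRZ hRno
  have hlt : ∀ A B : Finset (Fin n), A ⊆ W → B ⊆ W → B.Nonempty → Disjoint A B → Disjoint B S →
      (A ∪ S).card < W.card := by
    intro A B hA hB hBne hAB hBS
    refine Finset.card_lt_card ⟨Finset.union_subset hA hS, fun h => ?_⟩
    obtain ⟨y, hy⟩ := hBne
    rcases Finset.mem_union.1 (h (hB hy)) with h1 | h1
    · exact (Finset.disjoint_left.1 hAB) h1 hy
    · exact (Finset.disjoint_left.1 hBS) hy h1
  refine hQ (glue_clq hZ hS hZS hno ?_ ?_)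
  · refine hmin _ _ (hlt Z R hZ hRW hRne hRZ.symm hRS) (rmin_two (C := C₂) (by omega)
      (Finset.union_subset hZ hS) hC₂ (hC₂R.trans hRW) ?_ hC₂t Finset.subset_union_right)
    rw [Finset.disjoint_union_right]
    exact ⟨hRZ.mono_left hC₂R, hRS.mono_left hC₂R⟩
  · refine hmin _ _ (hlt R Z hRW hZ hZne hRZ hZS) (rmin_two (C := C₁) (by omega)
      (Finset.union_subset hRW hS) hC₁ (hC₁Z.trans hZ) ?_ hC₁t Finset.subset_union_right)
    rw [Finset.disjoint_union_right]
    exact ⟨hRZ.symm.mono_left hC₁Z, hZS.mono_left hC₁Z⟩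

theorem rmin_three {W W' Y : Finset (Fin n)} {x₁ x₂ x₃ : Fin n} {G : SimpleGraph (Fin n)}
    (h₁₂ : x₁ ≠ x₂) (h₁₃ : x₁ ≠ x₃) (h₂₃ : x₂ ≠ x₃) (hW : W' ⊆ W) (hY : Y ⊆ W)
    (hYW' : Disjoint Y W') (hSW : {x₁, x₂, x₃} ⊆ W') (hYc : 2 ≤ Y.card)
    (hN : ∀ Z ⊆ Y, Z.Nonempty → ∀ S : Finset (Fin n),
      (∀ z ∈ Z, ∀ w ∈ Y ∪ {x₁, x₂, x₃}, G.Adj z w → w ∈ Z ∨ w ∈ S) → 3 ≤ S.card) :
    RMin G W (clq G {x₁, x₂, x₃}) W' := by
  classical
  have hx₁W : x₁ ∈ W' := hSW (by simp)
  have hx₂W : x₂ ∈ W' := hSW (by simp)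
  have hx₃W : x₃ ∈ W' := hSW (by simp)
  have hYn : ∀ x ∈ W', x ∉ Y := fun x hx h => (Finset.disjoint_left.1 hYW') h hx
  obtain ⟨B₁, B₂, B₃, hc₁, hc₂, hc₃, hx₁, hx₂, hx₃, hs₁, hs₂, hs₃, hd₁₂, hd₁₃, hd₂₃, ht₁₂, ht₁₃,
    ht₂₃⟩ := rooted_triangle (G := G) h₁₂ h₁₃ h₂₃ (hYn _ hx₁W) (hYn _ hx₂W) (hYn _ hx₃W) hYc hN
  let B : Fin n → Finset (Fin n) := fun x =>
    if x = x₁ then B₁ else if x = x₂ then B₂ else if x = x₃ then B₃ else {x}
  have e₁ : B x₁ = B₁ := if_pos rfl
  have e₂ : B x₂ = B₂ := by simp [B, h₁₂.symm]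
  have e₃ : B x₃ = B₃ := by simp [B, h₁₃.symm, h₂₃.symm]
  have e₀ : ∀ x, x ≠ x₁ → x ≠ x₂ → x ≠ x₃ → B x = {x} := by
    intro x h1 h2 h3; simp [B, h1, h2, h3]
  have hself : ∀ x, x ∈ B x := by
    intro x
    by_cases h1 : x = x₁
    · rw [h1, e₁]; exact hx₁
    by_cases h2 : x = x₂
    · rw [h2, e₂]; exact hx₂
    by_cases h3 : x = x₃
    · rw [h3, e₃]; exact hx₃
    rw [e₀ x h1 h2 h3]; exact Finset.mem_singleton_self x
  have hsub : ∀ x, B x ⊆ insert x Y := by
    intro x
    by_cases h1 : x = x₁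
    · rw [h1, e₁]; exact hs₁
    by_cases h2 : x = x₂
    · rw [h2, e₂]; exact hs₂
    by_cases h3 : x = x₃
    · rw [h3, e₃]; exact hs₃
    rw [e₀ x h1 h2 h3, Finset.singleton_subset_iff]; exact Finset.mem_insert_self _ _
  have hconn : ∀ x, Conn G (B x) := by
    intro x
    by_cases h1 : x = x₁
    · rw [h1, e₁]; exact hc₁
    by_cases h2 : x = x₂
    · rw [h2, e₂]; exact hc₂
    by_cases h3 : x = x₃
    · rw [h3, e₃]; exact hc₃
    rw [e₀ x h1 h2 h3]; exact conn_singleton G x
  have hone : ∀ x ∈ W', ∀ y ∈ W', x ≠ y → x ≠ x₁ → x ≠ x₂ → x ≠ x₃ → Disjoint (B x) (B y) := by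
    intro x hx y hy hxy h1 h2 h3
    rw [e₀ x h1 h2 h3, Finset.disjoint_singleton_left]
    intro h
    rcases Finset.mem_insert.1 (hsub y h) with h4 | h4
    · exact hxy h4
    · exact hYn x hx h4
  have htwo : ∀ x ∈ ({x₁, x₂, x₃} : Finset (Fin n)), ∀ y ∈ ({x₁, x₂, x₃} : Finset (Fin n)),
      x ≠ y → Disjoint (B x) (B y) ∧ Touch G (B x) (B y) := by
    intro x hx y hy hxy
    simp only [Finset.mem_insert, Finset.mem_singleton] at hx hy
    rcases hx with rfl | rfl | rfl <;> rcases hy with rfl | rfl | rfl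
    · exact absurd rfl hxy
    · rw [e₁, e₂]; exact ⟨hd₁₂, ht₁₂⟩
    · rw [e₁, e₃]; exact ⟨hd₁₃, ht₁₃⟩
    · rw [e₁, e₂]; exact ⟨hd₁₂.symm, ht₁₂.symm⟩
    · exact absurd rfl hxy
    · rw [e₂, e₃]; exact ⟨hd₂₃, ht₂₃⟩
    · rw [e₁, e₃]; exact ⟨hd₁₃.symm, ht₁₃.symm⟩
    · rw [e₂, e₃]; exact ⟨hd₂₃.symm, ht₂₃.symm⟩
    · exact absurd rfl hxy
  refine ⟨B, fun x hx => ⟨hself x, (hsub x).trans (Finset.insert_subset (hW hx) hY), hconn x⟩,
    fun x hx y hy hxy => ?_, fun x hx y hy hxy => ?_⟩
  · by_cases hxS : x ∈ ({x₁, x₂, x₃} : Finset (Fin n))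
    · by_cases hyS : y ∈ ({x₁, x₂, x₃} : Finset (Fin n))
      · exact (htwo x hxS y hyS hxy).1
      · simp only [Finset.mem_insert, Finset.mem_singleton, not_or] at hyS
        exact (hone y hy x hx hxy.symm hyS.1 hyS.2.1 hyS.2.2).symm
    · simp only [Finset.mem_insert, Finset.mem_singleton, not_or] at hxS
      exact hone x hx y hy hxy hxS.1 hxS.2.1 hxS.2.2
  · rcases hxy.2 with h | h
    · exact ⟨x, hself x, y, hself y, h⟩
    · exact (htwo x h.1 y h.2 hxy.1).2

/-- a minimal counterexample has no small separations -/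
theorem piece_of_min {W : Finset (Fin n)} {G : SimpleGraph (Fin n)} (hQ : ¬ RegX (resOn W G) 4)
    (hmin : ∀ (G' : SimpleGraph (Fin n)) (W' : Finset (Fin n)), W'.card < W.card →
      RMin G W G' W' → RegX (resOn W' G') 4) : Piece G W := by
  classical
  have hns := no_sep hQ hmin
  intro Z S hZ hS hZS hZne hS3 hno hR2
  set R := W \ (Z ∪ S) with hR
  have hRne : R.Nonempty := Finset.card_pos.1 (by omega)
  have hcard : S.card = 3 := by
    by_contra h
    exact hns S.card (by omega) Z S rfl hZ hS hZS hZne hRne hno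
  have hRW : R ⊆ W := Finset.sdiff_subset
  have hRS : Disjoint R S := by
    rw [Finset.disjoint_left]
    intro x hx hx'
    exact (Finset.mem_sdiff.1 hx).2 (Finset.mem_union_right _ hx')
  have hRZ : Disjoint R Z := by
    rw [Finset.disjoint_left]
    intro x hx hx'
    exact (Finset.mem_sdiff.1 hx).2 (Finset.mem_union_left _ hx')
  have hRno : ∀ z ∈ R, ∀ w ∈ W, G.Adj z w → w ∈ R ∨ w ∈ S := by
    intro z hz w hw hzw
    by_cases hwS : w ∈ S
    · exact Or.inr hwS
    · left
      rw [hR, Finset.mem_sdiff, Finset.mem_union, not_or]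
      refine ⟨hw, fun hwZ => ?_, hwS⟩
      rcases hno w hwZ z (hRW hz) hzw.symm with h | h
      · exact (Finset.disjoint_left.1 hRZ) hz h
      · exact (Finset.disjoint_left.1 hRS) hz h
  have htouch : ∀ t ∈ S, ∃ u ∈ Z, G.Adj u t := by
    intro t ht
    by_contra hcon
    push Not at hcon
    refine hns 2 le_rfl Z (S.erase t) (by rw [Finset.card_erase_of_mem ht, hcard]) hZ
      ((Finset.erase_subset _ _).trans hS) (hZS.mono_right (Finset.erase_subset _ _)) hZne
      (hRne.mono (Finset.sdiff_subset_sdiff subset_rfl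
        (Finset.union_subset_union subset_rfl (Finset.erase_subset _ _)))) ?_
    intro z hz w hw hzw
    rcases hno z hz w hw hzw with h | h
    · exact Or.inl h
    · refine Or.inr (Finset.mem_erase.2 ⟨?_, h⟩)
      rintro rfl
      exact hcon z hz hzw
  have hlt : ∀ A B : Finset (Fin n), A ⊆ W → B ⊆ W → B.Nonempty → Disjoint A B → Disjoint B S →
      (A ∪ S).card < W.card := by
    intro A B hA hB hBne hAB hBS
    refine Finset.card_lt_card ⟨Finset.union_subset hA hS, fun h => ?_⟩
    obtain ⟨y, hy⟩ := hBne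
    rcases Finset.mem_union.1 (h (hB hy)) with h1 | h1
    · exact (Finset.disjoint_left.1 hAB) h1 hy
    · exact (Finset.disjoint_left.1 hBS) hy h1
  obtain ⟨x₁, x₂, x₃, h₁₂, h₁₃, h₂₃, hSe⟩ := Finset.card_eq_three.1 hcard
  -- the key for both sides
  have hside : ∀ Y X : Finset (Fin n), Y ⊆ W → X ⊆ W → Disjoint X Y → Disjoint Y S →
      Disjoint X S → X.Nonempty → 2 ≤ Y.card →
      (∀ z ∈ Y, ∀ w ∈ W, G.Adj z w → w ∈ Y ∨ w ∈ S) → RMin G W (clq G S) (X ∪ S) := by
    intro Y X hY hX hXY hYS hXS hXne hY2 hYno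
    rw [hSe]
    refine rmin_three (Y := Y) h₁₂ h₁₃ h₂₃ (Finset.union_subset hX (hSe ▸ hS)) hY ?_
      Finset.subset_union_right hY2 ?_
    · rw [Finset.disjoint_union_right]
      exact ⟨hXY.symm, hSe ▸ hYS⟩
    · intro Z' hZ' hZ'ne S' hS'
      by_contra hlt'
      let S'' := (S' ∩ (Y ∪ S)) \ Z'
      have hS''c : S''.card ≤ S'.card :=
        Finset.card_le_card (Finset.sdiff_subset.trans Finset.inter_subset_left)
      refine hns S''.card (by omega) Z' S'' rfl (hZ'.trans hY) ?_ ?_ hZ'ne ?_ ?_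
      · exact Finset.sdiff_subset.trans (Finset.inter_subset_right.trans
          (Finset.union_subset hY hS))
      · exact Finset.disjoint_sdiff
      · obtain ⟨x, hx⟩ := hXne
        refine ⟨x, Finset.mem_sdiff.2 ⟨hX hx, ?_⟩⟩
        rw [Finset.mem_union, not_or]
        refine ⟨fun h => (Finset.disjoint_left.1 hXY) hx (hZ' h), fun h => ?_⟩
        have h1 := (Finset.mem_inter.1 (Finset.mem_sdiff.1 h).1).2
        rcases Finset.mem_union.1 h1 with h2 | h2
        · exact (Finset.disjoint_left.1 hXY) hx h2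
        · exact (Finset.disjoint_left.1 hXS) hx h2
      · intro z hz w hw hzw
        have h1 : w ∈ Y ∪ S := Finset.mem_union.2 (hYno z (hZ' hz) w hw hzw)
        by_cases h2 : w ∈ Z'
        · exact Or.inl h2
        · refine Or.inr (Finset.mem_sdiff.2 ⟨Finset.mem_inter.2 ⟨?_, h1⟩, h2⟩)
          exact (hS' z hz w (hSe ▸ h1) hzw).resolve_left h2
  have hZ1 : Z.card = 1 := by
    by_contra h1
    have hZ2 : 2 ≤ Z.card := by have := Finset.card_pos.2 hZne; omega
    refine hQ (glue_clq hZ hS hZS hno ?_ ?_)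
    · exact hmin _ _ (hlt Z R hZ hRW hRne hRZ.symm hRS)
        (hside R Z hRW hZ hRZ.symm hRS hZS hZne hR2 hRno)
    · exact hmin _ _ (hlt R Z hRW hZ hZne hRZ hZS)
        (hside Z R hZ hRW hRZ hZS hRS hRne hZ2 hno)
  obtain ⟨k, rfl⟩ := Finset.card_eq_one.1 hZ1
  have hkS : ∀ s ∈ S, G.Adj k s := by
    intro s hs
    obtain ⟨u, hu, hus⟩ := htouch s hs
    rw [Finset.mem_singleton] at hu
    rwa [hu] at hus
  refine ⟨hcard, ?_, k, rfl, hkS⟩
  intro s hs t ht hst
  -- `s t` adjacent: contract `k` into the third vertex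
  have hkW : k ∈ W := hZ (Finset.mem_singleton_self k)
  have hkS' : k ∉ S := fun h => (Finset.disjoint_left.1 hZS) (Finset.mem_singleton_self k) h
  obtain ⟨u, huS, hu⟩ : ∃ u ∈ S, u ≠ s ∧ u ≠ t := by
    by_contra hcon
    push Not at hcon
    have h1 : S ⊆ {s, t} := by
      intro x hx
      rw [Finset.mem_insert, Finset.mem_singleton]
      by_cases h : x = s
      · exact Or.inl h
      · exact Or.inr (hcon x hx h)
    have h2 := Finset.card_le_card h1
    have h3 := Finset.card_le_two (a := s) (b := t)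
    omega
  have hSeq : S = {u, s, t} := by
    symm
    apply Finset.eq_of_subset_of_card_le
    · intro x hx
      simp only [Finset.mem_insert, Finset.mem_singleton] at hx
      rcases hx with rfl | rfl | rfl
      · exact huS
      · exact hs
      · exact ht
    · rw [hcard, Finset.card_insert_of_notMem, Finset.card_insert_of_notMem,
        Finset.card_singleton]
      · simpa using hst.ne
      · simp [hu.1, hu.2]
  have hRM : RMin G W (clq G S) (W.erase k) := by
    have hself : ∀ x : Fin n, x ∈ (if x = u then ({k, u} : Finset (Fin n)) else {x}) := by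
      intro x
      split_ifs with h
      · rw [h]; simp
      · exact Finset.mem_singleton_self x
    refine ⟨fun x => if x = u then {k, u} else {x}, fun x hx => ⟨hself x, ?_, ?_⟩,
      fun x hx z hz hxz => ?_, fun x hx z hz hxz => ?_⟩
    · dsimp only
      split_ifs with h
      · intro y hy
        rw [Finset.mem_insert, Finset.mem_singleton] at hy
        rcases hy with rfl | rfl
        · exact hkW
        · exact hS huS
      · exact Finset.singleton_subset_iff.2 (Finset.mem_erase.1 hx).2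
    · dsimp only
      split_ifs with h
      · exact conn_pair (hkS u huS)
      · exact conn_singleton G x
    · have hxk := (Finset.mem_erase.1 hx).1
      have hzk := (Finset.mem_erase.1 hz).1
      dsimp only
      split_ifs with h1 h2 h2
      · exact absurd (h1.trans h2.symm) hxz
      · rw [Finset.disjoint_singleton_right]
        simp [hzk, h2]
      · rw [Finset.disjoint_singleton_left]
        simp [hxk, h1]
      · exact Finset.disjoint_singleton.2 hxz
    · rcases hxz.2 with h | h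
      · exact ⟨x, hself x, z, hself z, h⟩
      · dsimp only
        by_cases hxu : x = u
        · refine ⟨k, ?_, z, hself z, hkS z h.2⟩
          rw [if_pos hxu]; simp
        · by_cases hzu : z = u
          · refine ⟨x, hself x, k, ?_, (hkS x h.1).symm⟩
            rw [if_pos hzu]; simp
          · refine ⟨x, hself x, z, hself z, ?_⟩
            have h1 := h.1
            have h2 := h.2
            rw [hSeq] at h1 h2
            simp only [Finset.mem_insert, Finset.mem_singleton] at h1 h2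
            rcases h1.resolve_left hxu with rfl | rfl
            · rcases h2.resolve_left hzu with rfl | rfl
              · exact absurd rfl hxz.1
              · exact hst
            · rcases h2.resolve_left hzu with rfl | rfl
              · exact hst.symm
              · exact absurd rfl hxz.1
  have hX := hmin _ _ (Finset.card_erase_lt_of_mem hkW) hRM
  refine hQ (RegX.extend (F' := resOn (W.erase k) (clq G S)) k S (by omega) (fun w hw => ?_)
    (fun i j hi hj hij => ?_) (fun i j hi hj hij => ?_) hX)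
  · rcases hno k (Finset.mem_singleton_self k) w hw.2.1 hw.2.2 with h | h
    · exact absurd (Finset.mem_singleton.1 h).symm hw.2.2.ne
    · exact h
  · have hiS : i ∈ S := by
      rcases hno k (Finset.mem_singleton_self k) i hi.2.1 hi.2.2 with h | h
      · exact absurd (Finset.mem_singleton.1 h).symm hi.2.2.ne
      · exact h
    have hjS : j ∈ S := by
      rcases hno k (Finset.mem_singleton_self k) j hj.2.1 hj.2.2 with h | h
      · exact absurd (Finset.mem_singleton.1 h).symm hj.2.2.ne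
      · exact h
    exact ⟨Finset.mem_erase.2 ⟨hi.2.2.ne', hi.2.1⟩, Finset.mem_erase.2 ⟨hj.2.2.ne', hj.2.1⟩, hij,
      Or.inr ⟨hiS, hjS⟩⟩
  · exact ⟨Finset.mem_erase.2 ⟨hi, hij.1⟩, Finset.mem_erase.2 ⟨hj, hij.2.1⟩, hij.2.2.ne,
      Or.inl hij.2.2⟩

/-- in a minimal counterexample two neighbours of a cubic vertex have two further common
neighbours -/
theorem two_more {W : Finset (Fin n)} {G : SimpleGraph (Fin n)} (hQ : ¬ RegX (resOn W G) 4)
    (hmin : ∀ (G' : SimpleGraph (Fin n)) (W' : Finset (Fin n)), W'.card < W.card →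
      RMin G W G' W' → RegX (resOn W' G') 4) {v a b c : Fin n} (h : Cub G W v a b c) :
    ∃ p q, p ∈ W ∧ p ≠ v ∧ G.Adj p a ∧ G.Adj p b ∧ q ∈ W ∧ q ≠ v ∧ G.Adj q a ∧ G.Adj q b ∧
      p ≠ q := by
  classical
  by_contra hcon
  have hva : v ≠ a := h.va.ne
  have hvb : v ≠ b := h.vb.ne
  have hvc : v ≠ c := h.vc.ne
  obtain ⟨p, hpv, hp⟩ : ∃ p, p ≠ v ∧ ∀ w ∈ W, G.Adj a w → G.Adj b w → w = v ∨ w = p := by
    by_cases hex : ∃ p ∈ W, p ≠ v ∧ G.Adj a p ∧ G.Adj b p
    · obtain ⟨p, hpW, hpv, hap, hbp⟩ := hex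
      refine ⟨p, hpv, fun w hw haw hbw => ?_⟩
      by_contra hno
      push Not at hno
      exact hcon ⟨p, w, hpW, hpv, hap.symm, hbp.symm, hw, hno.1, haw.symm, hbw.symm,
        hno.2.symm⟩
    · push Not at hex
      refine ⟨c, hvc.symm, fun w hw haw hbw => ?_⟩
      by_contra hno
      push Not at hno
      exact hex w hw hno.1 haw hbw
  have hconn : Conn G ({a, b, v} : Finset (Fin n)) := by
    have h1 : Conn G ({b, v} : Finset (Fin n)) := conn_pair h.vb.symm
    exact h1.insert ⟨v, by simp, h.va⟩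
  have hRM : RMin G W (ctr3 G a b v) ((W.erase v).erase b) := by
    have hself : ∀ x : Fin n, x ∈ (if x = a then ({a, b, v} : Finset (Fin n)) else {x}) := by
      intro x
      split_ifs with h
      · rw [h]; simp
      · exact Finset.mem_singleton_self x
    refine ⟨fun x => if x = a then {a, b, v} else {x}, fun x hx => ⟨hself x, ?_, ?_⟩,
      fun x hx z hz hxz => ?_, fun x hx z hz hxz => ?_⟩
    · dsimp only
      split_ifs with h1
      · intro y hy
        simp only [Finset.mem_insert, Finset.mem_singleton] at hy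
        rcases hy with rfl | rfl | rfl
        · exact h.ha
        · exact h.hb
        · exact h.hv
      · exact Finset.singleton_subset_iff.2 (Finset.mem_erase.1 (Finset.mem_erase.1 hx).2).2
    · dsimp only
      split_ifs with h1
      · exact hconn
      · exact conn_singleton G x
    · have hxb := (Finset.mem_erase.1 hx).1
      have hxv := (Finset.mem_erase.1 (Finset.mem_erase.1 hx).2).1
      have hzb := (Finset.mem_erase.1 hz).1
      have hzv := (Finset.mem_erase.1 (Finset.mem_erase.1 hz).2).1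
      dsimp only
      split_ifs with h1 h2 h2
      · exact absurd (h1.trans h2.symm) hxz
      · rw [Finset.disjoint_singleton_right]
        simp [h2, hzb, hzv]
      · rw [Finset.disjoint_singleton_left]
        simp [h1, hxb, hxv]
      · exact Finset.disjoint_singleton.2 hxz
    · dsimp only
      rcases hxz.2 with h1 | ⟨h1, h2⟩ | ⟨h1, h2⟩
      · exact ⟨x, hself x, z, hself z, h1⟩
      · rw [if_pos h1]
        rcases h2 with h2 | h2
        · exact ⟨b, by simp, z, hself z, h2⟩
        · exact ⟨v, by simp, z, hself z, h2⟩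
      · rw [if_pos h1]
        rcases h2 with h2 | h2
        · exact ⟨x, hself x, b, by simp, h2.symm⟩
        · exact ⟨x, hself x, v, by simp, h2.symm⟩
  have hbW : b ∈ W.erase v := Finset.mem_erase.2 ⟨hvb.symm, h.hb⟩
  have hlt : ((W.erase v).erase b).card < W.card :=
    (Finset.card_erase_lt_of_mem hbW).trans (Finset.card_erase_lt_of_mem h.hv)
  have hmem : ∀ i, i ∈ W → i ≠ v → i ≠ b → i ∈ (W.erase v).erase b := fun i h1 h2 h3 =>
    Finset.mem_erase.2 ⟨h3, Finset.mem_erase.2 ⟨h2, h1⟩⟩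
  refine hQ (RegX.ident (F := resOn W G) (F' := resOn ((W.erase v).erase b) (ctr3 G a b v))
    (v := v) (a := a) (b := b) (c := c) (p := p) hva hvb hvc h.ab h.ac h.bc hpv ?_ ?_ ?_ ?_ ?_ ?_
    (hmin _ _ hlt hRM))
  · exact fun w hw => h.only w hw.2.1 hw.2.2
  · exact fun hh => h.nab hh.2.2
  · exact fun w h1 h2 => hp w h1.2.1 h1.2.2 h2.2.2
  · intro i j hiv hjv hia hja hib hjb hij
    exact ⟨hmem i hij.1 hiv hib, hmem j hij.2.1 hjv hjb, hij.2.2.ne, Or.inl hij.2.2⟩
  · intro j hjv hja hjb hj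
    have hjW : j ∈ W := by
      rcases hj with h1 | h1
      · exact h1.2.1
      · exact h1.2.1
    refine ⟨hmem a h.ha hva.symm h.ab, hmem j hjW hjv hjb, hja.symm, ?_⟩
    rcases hj with h1 | h1
    · exact Or.inl h1.2.2
    · exact Or.inr (Or.inl ⟨rfl, Or.inl h1.2.2⟩)
  · exact ⟨hmem a h.ha hva.symm h.ab, hmem c h.hc hvc.symm h.bc.symm, h.ac,
      Or.inr (Or.inl ⟨rfl, Or.inr h.vc⟩)⟩

/-- Every graph has a regular representation in dimension four by non-zero vectors, or its
complement has a regular representation in dimension `n - 5`. -/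
theorem four : ∀ (m : ℕ) (W : Finset (Fin n)) (G : SimpleGraph (Fin n)), W.card = m →
    RegX (resOn W G) 4 ∨ Pos W G := by
  classical
  intro m
  induction m using Nat.strong_induction_on with
  | _ m ih =>
  intro W G hm
  by_contra hcon
  push Not at hcon
  obtain ⟨hQ, hP⟩ := hcon
  have hmin : ∀ (G' : SimpleGraph (Fin n)) (W' : Finset (Fin n)), W'.card < W.card →
      RMin G W G' W' → RegX (resOn W' G') 4 := by
    intro G' W' hlt hR
    rcases ih W'.card (by omega) W' G' rfl with h | h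
    · exact h
    · exact absurd (Pos.transfer h W.card W G rfl hR) hP
  have hpiece := piece_of_min hQ hmin
  have h5 : 5 ≤ W.card := by
    by_contra h
    exact hQ (regX_small (by omega))
  obtain ⟨v, hvW, hv⟩ : ∃ v ∈ W, (W.filter (fun w => G.Adj v w)).card ≤ 3 := by
    by_contra hno
    push Not at hno
    refine hP ⟨h5, reg_coOn G W (W.card - 5) (fun w hw => ?_)⟩
    have h1 := Finset.card_filter_add_card_filter_not (s := W) (fun v => G.Adj w v)
    have h2 := hno w hw
    omega
  have h6 : 6 ≤ W.card := by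
    by_contra h
    exact hQ (regX_five (by omega) hvW hv)
  set S := W.filter (fun w => G.Adj v w) with hS
  have hSW : S ⊆ W := Finset.filter_subset _ _
  have hvS : v ∉ S := fun h => (Finset.mem_filter.1 h).2.ne rfl
  have hout : 2 ≤ (W \ ({v} ∪ S)).card := by
    have h1 := Finset.le_card_sdiff ({v} ∪ S) W
    have h2 := Finset.card_union_le {v} S
    rw [Finset.card_singleton] at h2
    omega
  obtain ⟨hS3, hSi, -, -, -⟩ := hpiece {v} S (Finset.singleton_subset_iff.2 hvW) hSW
    (Finset.disjoint_singleton_left.2 hvS) (Finset.singleton_nonempty v) hv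
    (fun z hz w hw hzw => Or.inr (Finset.mem_filter.2 ⟨hw, by
      rw [Finset.mem_singleton] at hz; rwa [hz] at hzw⟩)) hout
  obtain ⟨a, b, c, hab, hac, hbc, hSe⟩ := Finset.card_eq_three.1 hS3
  have haS : a ∈ S := by rw [hSe]; simp
  have hbS : b ∈ S := by rw [hSe]; simp
  have hcS : c ∈ S := by rw [hSe]; simp
  have hcub : Cub G W v a b c :=
    { piece := hpiece
      hv := hvW
      ha := hSW haS
      hb := hSW hbS
      hc := hSW hcS
      va := (Finset.mem_filter.1 haS).2
      vb := (Finset.mem_filter.1 hbS).2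
      vc := (Finset.mem_filter.1 hcS).2
      only := fun w hw hvw => by
        have h1 : w ∈ S := Finset.mem_filter.2 ⟨hw, hvw⟩
        rw [hSe] at h1
        simpa using h1
      ab := hab
      ac := hac
      bc := hbc
      nab := hSi a haS b hbS
      nac := hSi a haS c hcS
      nbc := hSi b hbS c hcS }
  obtain ⟨p, q, hp, hpv, pa, pb, hq, hqv, qa, qb, hpq⟩ := two_more hQ hmin hcub
  have hK5 : ¬ K5 G W := fun h => hP (Pos.of_K5 h)
  by_cases hex : ∃ w ∈ W, w ≠ v ∧ G.Adj w a ∧ G.Adj w b ∧ G.Adj w c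
  · obtain ⟨w, hw, hwv, wa, wb, wc⟩ := hex
    rcases coreA1 hcub hw hwv wa wb wc with h | h | ⟨h1, h2, h3, h4, h5⟩
    · exact hK5 h
    · exact hQ (regX_cover (T := {a, b, c}) Finset.card_le_three h)
    · by_cases hpw : p = w
      · exact hK5 (coreA2 hcub hw hwv wa wb wc hq hqv (fun h => hpq (hpw.trans h.symm)) qa qb
          h1 h2 h3 h4 h5)
      · exact hK5 (coreA2 hcub hw hwv wa wb wc hp hpv hpw pa pb h1 h2 h3 h4 h5)
  · have hno : ∀ w ∈ W, w ≠ v → G.Adj w a → G.Adj w b → ¬ G.Adj w c :=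
      fun w hw hwv wa wb wc => hex ⟨w, hw, hwv, wa, wb, wc⟩
    rcases coreB1 hcub hno hp hpv pa pb hq hqv qa qb hpq with h | h
    · exact hK5 h
    · exact hK5 (coreB2 hcub hno hp hpv pa pb hq hqv qa qb hpq h)

end Pool.Agent.Lib.MP_a2d8aa_co.Rg
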