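import Pool.Agent.Lib.MP_a2d8aa_co.Rg.Faithful

/-!
Splitting a vertex (contracting an edge of the complement) costs one dimension (MP_a2d8aa_co).
-/

set_option autoImplicit false

open Matrix

namespace Pool.Agent.Lib.MP_a2d8aa_co.Rg

section merge_aux

open Filter Topology

/-- a curve of solutions of the perturbed system starting at a regular representation -/
theorem merge_curve {n k : ℕ} {F : SimpleGraph (Fin n)} {c : Fin n → Fin k → ℝ}
    (hc : RegRep F c) (w : Edg F → ℝ) (x : Fin n) :
    ∃ S : ℝ → Fin n → Fin k → ℝ, Tendsto S (𝓝 0) (𝓝 c) ∧ ∀ᶠ s in 𝓝 (0 : ℝ), ∀ q : Edg F,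
      S s q.1.1 ⬝ᵥ S s q.1.2 +
        s ^ 2 * (w q * ((S s q.1.1 ⬝ᵥ S s x) * (S s q.1.2 ⬝ᵥ S s x))) = 0 := by
  classical
  obtain ⟨R, hR⟩ := exists_right_inverse hc
  let Lm : (Edg F → ℝ) →ₗ[ℝ] (Fin n → Fin k → ℝ) :=
    { toFun := fun y => ∑ p, y p • R p
      map_add' := fun x y => by simp only [Pi.add_apply, add_smul, Finset.sum_add_distrib]
      map_smul' := fun r x => by
        simp only [Pi.smul_apply, smul_eq_mul, mul_smul, Finset.smul_sum, RingHom.id_apply] }
  let L : (Edg F → ℝ) →L[ℝ] (Fin n → Fin k → ℝ) := LinearMap.toContinuousLinearMap Lm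
  have hL : ∀ y, L y = ∑ p, y p • R p := fun y => rfl
  let ell : Fin n → Fin k → ((Edg F → ℝ) →L[ℝ] ℝ) := fun i t =>
    (ContinuousLinearMap.proj (R := ℝ) (φ := fun _ : Fin k => ℝ) t).comp
      ((ContinuousLinearMap.proj (R := ℝ) (φ := fun _ : Fin n => (Fin k → ℝ)) i).comp L)
  have hell : ∀ i t y, ell i t y = L y i t := fun i t y => rfl
  let S : (Edg F → ℝ) → Fin n → Fin k → ℝ := fun y i => c i + L y i
  have hS : ∀ y i t, S y i t = c i t + ell i t y := fun y i t => rfl
  let G : Edg F → ℝ × (Edg F → ℝ) → ℝ := fun q z =>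
    w q * ((S z.2 q.1.1 ⬝ᵥ S z.2 x) * (S z.2 q.1.2 ⬝ᵥ S z.2 x))
  have hG : ∀ q, ContDiff ℝ 1 (G q) := by
    intro q
    have h1 : ∀ i t, ContDiff ℝ 1 (fun z : ℝ × (Edg F → ℝ) => S z.2 i t) := by
      intro i t
      exact contDiff_const.add ((ell i t).contDiff.comp contDiff_snd)
    have h2 : ∀ i j, ContDiff ℝ 1 (fun z : ℝ × (Edg F → ℝ) => S z.2 i ⬝ᵥ S z.2 j) :=
      fun i j => ContDiff.sum (fun t _ => (h1 i t).mul (h1 j t))
    exact contDiff_const.mul ((h2 _ _).mul (h2 _ _))
  let Θ : ℝ × (Edg F → ℝ) → ℝ × (Edg F → ℝ) := fun z =>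
    (z.1, fun q => S z.2 q.1.1 ⬝ᵥ S z.2 q.1.2 + z.1 ^ 2 * G q z)
  have hΦ : ∀ y (q : Edg F), S y q.1.1 ⬝ᵥ S y q.1.2 =
      y q + ∑ t, ell q.1.1 t y * ell q.1.2 t y := by
    intro y q
    change (c q.1.1 + L y q.1.1) ⬝ᵥ (c q.1.2 + L y q.1.2) = _
    rw [add_dotProduct, dotProduct_add, dotProduct_add, hc.orth _ _ q.2.2]
    have h1 := hR q y
    rw [← hL] at h1
    rw [← h1, dotProduct_comm (L y q.1.1) (c q.1.2)]
    simp only [dotProduct, hell]
    ring
  have hΘ0 : Θ 0 = 0 := by
    refine Prod.ext rfl ?_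
    funext q
    change S 0 q.1.1 ⬝ᵥ S 0 q.1.2 + (0 : ℝ) ^ 2 * G q 0 = 0
    rw [hΦ]
    simp
  have hstrict : HasStrictFDerivAt Θ
      ((ContinuousLinearEquiv.refl ℝ (ℝ × (Edg F → ℝ)) :
        (ℝ × (Edg F → ℝ)) →L[ℝ] (ℝ × (Edg F → ℝ)))) 0 := by
    have h1 : HasStrictFDerivAt (fun z : ℝ × (Edg F → ℝ) => z.1)
        (ContinuousLinearMap.fst ℝ ℝ (Edg F → ℝ)) 0 :=
      (ContinuousLinearMap.fst ℝ ℝ (Edg F → ℝ)).hasStrictFDerivAt
    have h2 : HasStrictFDerivAt (fun z : ℝ × (Edg F → ℝ) => fun q : Edg F =>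
        S z.2 q.1.1 ⬝ᵥ S z.2 q.1.2 + z.1 ^ 2 * G q z)
        (ContinuousLinearMap.snd ℝ ℝ (Edg F → ℝ)) 0 := by
      rw [hasStrictFDerivAt_pi']
      intro q
      have e1 : (fun z : ℝ × (Edg F → ℝ) => S z.2 q.1.1 ⬝ᵥ S z.2 q.1.2 + z.1 ^ 2 * G q z) =
          fun z => (z.2 q + ∑ t, ell q.1.1 t z.2 * ell q.1.2 t z.2) + z.1 ^ 2 * G q z := by
        funext z
        rw [hΦ]
      rw [e1]
      have hsnd : HasStrictFDerivAt (fun z : ℝ × (Edg F → ℝ) => z.2)
          (ContinuousLinearMap.snd ℝ ℝ (Edg F → ℝ)) 0 :=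
        (ContinuousLinearMap.snd ℝ ℝ (Edg F → ℝ)).hasStrictFDerivAt
      have h3 : HasStrictFDerivAt (fun z : ℝ × (Edg F → ℝ) => z.2 q)
          ((ContinuousLinearMap.proj (R := ℝ) (φ := fun _ : Edg F => ℝ) q).comp
            (ContinuousLinearMap.snd ℝ ℝ (Edg F → ℝ))) 0 :=
        ((ContinuousLinearMap.proj (R := ℝ) (φ := fun _ : Edg F => ℝ) q).comp
            (ContinuousLinearMap.snd ℝ ℝ (Edg F → ℝ))).hasStrictFDerivAt
      have h4 : ∀ i t, HasStrictFDerivAt (fun z : ℝ × (Edg F → ℝ) => ell i t z.2)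
          ((ell i t).comp (ContinuousLinearMap.snd ℝ ℝ (Edg F → ℝ))) 0 := fun i t =>
        ((ell i t).comp (ContinuousLinearMap.snd ℝ ℝ (Edg F → ℝ))).hasStrictFDerivAt
      have h5 : HasStrictFDerivAt
          (fun z : ℝ × (Edg F → ℝ) => ∑ t, ell q.1.1 t z.2 * ell q.1.2 t z.2)
          (∑ t : Fin k, (ell q.1.1 t (0 : ℝ × (Edg F → ℝ)).2 •
            ((ell q.1.2 t).comp (ContinuousLinearMap.snd ℝ ℝ (Edg F → ℝ))) +
            ell q.1.2 t (0 : ℝ × (Edg F → ℝ)).2 •
            ((ell q.1.1 t).comp (ContinuousLinearMap.snd ℝ ℝ (Edg F → ℝ))))) 0 := by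
        apply HasStrictFDerivAt.fun_sum
        intro t _
        exact (h4 q.1.1 t).mul (h4 q.1.2 t)
      have h6 : HasStrictFDerivAt (fun z : ℝ × (Edg F → ℝ) => z.1 ^ 2)
          ((2 * (0 : ℝ × (Edg F → ℝ)).1) • ContinuousLinearMap.fst ℝ ℝ (Edg F → ℝ)) 0 := by
        have := h1.mul h1
        have e2 : ((fun z : ℝ × (Edg F → ℝ) => z.1) * fun z => z.1) = fun z => z.1 ^ 2 := by
          funext z
          rw [Pi.mul_apply, pow_two]
        rw [e2, ← add_smul, ← two_mul] at this
        exact this
      have h7 : HasStrictFDerivAt (G q) (fderiv ℝ (G q) 0) 0 :=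
        (hG q).contDiffAt.hasStrictFDerivAt (by norm_num)
      have h8 := (h3.add h5).add (h6.mul h7)
      convert h8 using 1
      ext z
      · simp
      · simp
    exact h1.prodMk h2
  set g := hstrict.localInverse with hg
  have hg0 : g 0 = 0 := by
    have := hstrict.localInverse_apply_image
    rwa [hΘ0] at this
  have hgc : ContinuousAt g 0 := by
    have := hstrict.localInverse_continuousAt
    rwa [hΘ0] at this
  have hgr : ∀ᶠ z in 𝓝 (0 : ℝ × (Edg F → ℝ)), Θ (g z) = z := by
    have := hstrict.eventually_right_inverse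
    rwa [hΘ0] at this
  have hι : Tendsto (fun s : ℝ => ((s, 0) : ℝ × (Edg F → ℝ))) (𝓝 0) (𝓝 0) := by
    have h1 : Continuous (fun s : ℝ => ((s, 0) : ℝ × (Edg F → ℝ))) := by fun_prop
    exact h1.tendsto 0
  refine ⟨fun s => S (g (s, 0)).2, ?_, ?_⟩
  · have h1 : Tendsto (fun s : ℝ => g (s, 0)) (𝓝 0) (𝓝 0) := by
      have h2 : Tendsto g (𝓝 0) (𝓝 0) := by
        have := hgc.tendsto
        rwa [hg0] at this
      exact h2.comp hι
    have h3 : Continuous (fun z : ℝ × (Edg F → ℝ) => S z.2) := by
      refine continuous_pi (fun i => continuous_pi (fun t => ?_))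
      exact continuous_const.add ((ell i t).continuous.comp continuous_snd)
    have h4 : S (0 : ℝ × (Edg F → ℝ)).2 = c := by
      funext i
      change c i + L 0 i = c i
      rw [map_zero]
      simp
    have h5 := (h3.tendsto 0).comp h1
    rw [h4] at h5
    exact h5
  · filter_upwards [hι.eventually hgr] with s hs q
    have h1 : (g (s, 0)).1 = s := congrArg Prod.fst hs
    have h2 : S (g (s, 0)).2 q.1.1 ⬝ᵥ S (g (s, 0)).2 q.1.2 +
        (g (s, 0)).1 ^ 2 * G q (g (s, 0)) = 0 := congrFun (congrArg Prod.snd hs) q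
    rw [h1] at h2
    exact h2

/-- linear maps depending continuously on a parameter stay injective -/
theorem merge_inj {X W Z : Type*} [TopologicalSpace X] [NormedAddCommGroup W] [NormedSpace ℝ W]
    [FiniteDimensional ℝ W] [NormedAddCommGroup Z] [NormedSpace ℝ Z] (T : X → W →ₗ[ℝ] Z)
    (hT : ∀ w, Continuous fun p => T p w) (p0 : X) (h0 : ∀ w, T p0 w = 0 → w = 0) :
    ∀ᶠ p in 𝓝 p0, ∀ w, T p w = 0 → w = 0 := by
  have h1 : Continuous (fun p => LinearMap.toContinuousLinearMap (T p)) :=
    continuous_clm_apply.2 hT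
  have h2 : LinearMap.toContinuousLinearMap (T p0) ∈
      {L : W →L[ℝ] Z | Function.Injective L} :=
    (injective_iff_map_eq_zero _).2 h0
  have h3 := h1.continuousAt.eventually_mem
    ((ContinuousLinearMap.isOpen_injective (𝕜 := ℝ) (E := W) (F := Z)).mem_nhds h2)
  filter_upwards [h3] with p hp w hw
  exact (injective_iff_map_eq_zero _).1 hp w hw

end merge_aux

/-- `F'` arises from the orthogonality graph `F` by merging the non-adjacent vertices `x` and `a`
into `x`, the new neighbours being the common ones. -/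
theorem Reg.merge {n : ℕ} {F F' : SimpleGraph (Fin n)} {k : ℕ} {x a : Fin n} (hxa : x ≠ a)
    (hna : ¬ F.Adj x a)
    (h : ∀ i j, i ≠ a → j ≠ a → i ≠ x → j ≠ x → F.Adj i j → F'.Adj i j)
    (hx : ∀ j, j ≠ a → F.Adj x j → F.Adj a j → F'.Adj x j) (hr : Reg F' k) :
    Reg F (k + 1) := by
  classical
  obtain ⟨c, hc⟩ := hr
  have hax : ¬ F.Adj a x := fun hh => hna hh.symm
  let P : Fin n → Prop := fun v => F.Adj a v ∧ ¬ F.Adj x v
  have hPa : ∀ v, P v → v ≠ a := fun v hv hva => F.loopless.irrefl a (hva ▸ hv.1)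
  have hPx : ∀ v, P v → v ≠ x := fun v hv hvx => hax (hvx ▸ hv.1)
  have hPa' : ¬ P a := fun hh => hPa a hh rfl
  have hPx' : ¬ P x := fun hh => hPx x hh rfl
  obtain ⟨S, hS0, hS⟩ := merge_curve hc (fun q => if P q.1.1 ∧ P q.1.2 then 1 else 0) x
  let A : Fin n → Fin n → Prop := fun i j =>
    (i ≠ a ∧ j ≠ a ∧ i ≠ x ∧ j ≠ x ∧ F.Adj i j) ∨ (i = x ∧ F.Adj a j) ∨ (j = x ∧ F.Adj a i)
  let T : ℝ × (Fin n → Fin k → ℝ) → ((Fin n → Fin n → ℝ) →ₗ[ℝ]
      ((Fin n → Fin n → ℝ) × (Fin n → Fin n → ℝ) × (Fin n → Fin k → ℝ) × (Fin n → ℝ))) := fun p =>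
    { toFun := fun Z => (fun i j => Z i j - Z j i, fun i j => if A i j then 0 else Z i j,
        fun i t => ∑ j, Z i j * p.2 j t,
        fun v => if P v then
          Z v x - p.1 ^ 2 * ∑ w, (if P w then Z v w * (p.2 w ⬝ᵥ p.2 x) else 0) else 0)
      map_add' := fun Z Z' => by
        refine Prod.ext ?_ (Prod.ext ?_ (Prod.ext ?_ ?_))
        · funext i j
          change Z i j + Z' i j - (Z j i + Z' j i) = (Z i j - Z j i) + (Z' i j - Z' j i)
          ring
        · funext i j
          change (if A i j then 0 else Z i j + Z' i j) =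
            (if A i j then 0 else Z i j) + (if A i j then 0 else Z' i j)
          split_ifs <;> ring
        · funext i t
          change ∑ j, (Z i j + Z' i j) * p.2 j t = ∑ j, Z i j * p.2 j t + ∑ j, Z' i j * p.2 j t
          rw [← Finset.sum_add_distrib]
          exact Finset.sum_congr rfl (fun j _ => by ring)
        · funext v
          change (if P v then Z v x + Z' v x -
              p.1 ^ 2 * ∑ w, (if P w then (Z v w + Z' v w) * (p.2 w ⬝ᵥ p.2 x) else 0) else 0) =
            (if P v then Z v x - p.1 ^ 2 * ∑ w, (if P w then Z v w * (p.2 w ⬝ᵥ p.2 x) else 0)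
              else 0) +
            (if P v then Z' v x - p.1 ^ 2 * ∑ w, (if P w then Z' v w * (p.2 w ⬝ᵥ p.2 x) else 0)
              else 0)
          have e : ∑ w, (if P w then (Z v w + Z' v w) * (p.2 w ⬝ᵥ p.2 x) else 0) =
              ∑ w, (if P w then Z v w * (p.2 w ⬝ᵥ p.2 x) else 0) +
              ∑ w, (if P w then Z' v w * (p.2 w ⬝ᵥ p.2 x) else 0) := by
            rw [← Finset.sum_add_distrib]
            exact Finset.sum_congr rfl (fun w _ => by split_ifs <;> ring)
          rw [e]
          split_ifs <;> ring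
      map_smul' := fun r Z => by
        refine Prod.ext ?_ (Prod.ext ?_ (Prod.ext ?_ ?_))
        · funext i j
          change r * Z i j - r * Z j i = r * (Z i j - Z j i)
          ring
        · funext i j
          change (if A i j then 0 else r * Z i j) = r * (if A i j then 0 else Z i j)
          split_ifs <;> ring
        · funext i t
          change ∑ j, r * Z i j * p.2 j t = r * ∑ j, Z i j * p.2 j t
          rw [Finset.mul_sum]
          exact Finset.sum_congr rfl (fun j _ => by ring)
        · funext v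
          change (if P v then r * Z v x -
              p.1 ^ 2 * ∑ w, (if P w then r * Z v w * (p.2 w ⬝ᵥ p.2 x) else 0) else 0) =
            r * (if P v then Z v x - p.1 ^ 2 * ∑ w, (if P w then Z v w * (p.2 w ⬝ᵥ p.2 x) else 0)
              else 0)
          have e : ∑ w, (if P w then r * Z v w * (p.2 w ⬝ᵥ p.2 x) else 0) =
              r * ∑ w, (if P w then Z v w * (p.2 w ⬝ᵥ p.2 x) else 0) := by
            rw [Finset.mul_sum]
            exact Finset.sum_congr rfl (fun w _ => by split_ifs <;> ring)
          rw [e]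
          split_ifs <;> ring }
  have hTc : ∀ Z, Continuous fun p => T p Z := by
    intro Z
    refine continuous_const.prodMk (continuous_const.prodMk (Continuous.prodMk ?_ ?_))
    · refine continuous_pi (fun i => continuous_pi (fun t => ?_))
      fun_prop
    · refine continuous_pi (fun v => ?_)
      by_cases hv : P v
      · simp only [hv, if_true]
        refine continuous_const.sub (Continuous.mul (by fun_prop) ?_)
        refine continuous_finsetSum _ (fun w _ => ?_)
        by_cases hw : P w
        · simp only [hw, if_true]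
          refine continuous_const.mul ?_
          unfold dotProduct
          fun_prop
        · simp only [hw, if_false]
          exact continuous_const
      · simp only [hv, if_false]
        exact continuous_const
  have hT0 : ∀ p Z, T p Z = 0 ↔ ((∀ i j, Z i j = Z j i) ∧ (∀ i j, Z i j ≠ 0 → A i j) ∧
      (∀ i t, ∑ j, Z i j * p.2 j t = 0) ∧
      (∀ v, P v → Z v x = p.1 ^ 2 * ∑ w, (if P w then Z v w * (p.2 w ⬝ᵥ p.2 x) else 0))) := by
    intro p Z
    constructor
    · intro hZ
      have h1 := congrArg Prod.fst hZ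
      have h2 := congrArg Prod.fst (congrArg Prod.snd hZ)
      have h3 := congrArg Prod.fst (congrArg Prod.snd (congrArg Prod.snd hZ))
      have h4 := congrArg Prod.snd (congrArg Prod.snd (congrArg Prod.snd hZ))
      refine ⟨fun i j => ?_, fun i j hij => ?_, fun i t => congrFun (congrFun h3 i) t,
        fun v hv => ?_⟩
      · have := congrFun (congrFun h1 i) j
        change Z i j - Z j i = 0 at this
        linarith
      · by_contra hA
        have := congrFun (congrFun h2 i) j
        change (if A i j then 0 else Z i j) = 0 at this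
        rw [if_neg hA] at this
        exact hij this
      · have := congrFun h4 v
        change (if P v then Z v x -
          p.1 ^ 2 * ∑ w, (if P w then Z v w * (p.2 w ⬝ᵥ p.2 x) else 0) else 0) = 0 at this
        rw [if_pos hv] at this
        linarith
    · rintro ⟨h1, h2, h3, h4⟩
      refine Prod.ext ?_ (Prod.ext ?_ (Prod.ext ?_ ?_))
      · funext i j
        change Z i j - Z j i = 0
        rw [h1 i j, sub_self]
      · funext i j
        change (if A i j then 0 else Z i j) = 0
        by_cases hA : A i j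
        · rw [if_pos hA]
        · rw [if_neg hA]
          by_contra hh
          exact hA (h2 i j hh)
      · funext i t
        exact h3 i t
      · funext v
        change (if P v then Z v x -
          p.1 ^ 2 * ∑ w, (if P w then Z v w * (p.2 w ⬝ᵥ p.2 x) else 0) else 0) = 0
        by_cases hv : P v
        · rw [if_pos hv, h4 v hv, sub_self]
        · rw [if_neg hv]
  have hinj0 : ∀ Z, T (0, c) Z = 0 → Z = 0 := by
    intro Z hZ
    obtain ⟨h1, h2, h3, h4⟩ := (hT0 _ _).1 hZ
    have h5 : ∀ v, P v → Z v x = 0 := by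
      intro v hv
      rw [h4 v hv]
      simp
    have h6 := hc.reg Z h1 (fun i j hij => by
      rcases h2 i j hij with ⟨hia, hja, hix, hjx, hF⟩ | ⟨hix, hF⟩ | ⟨hjx, hF⟩
      · exact h i j hia hja hix hjx hF
      · rw [hix] at hij ⊢
        have hja : j ≠ a := hF.ne'
        have hFx : F.Adj x j := by
          by_contra hh
          exact hij (by rw [h1]; exact h5 j ⟨hF, hh⟩)
        exact hx j hja hFx hF
      · rw [hjx] at hij ⊢
        have hia : i ≠ a := hF.ne'
        have hFx : F.Adj x i := by
          by_contra hh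
          exact hij (h5 i ⟨hF, hh⟩)
        exact (hx i hia hFx hF).symm) (fun i => by
      funext t
      rw [Finset.sum_apply]
      exact h3 i t)
    funext i j
    exact h6 i j
  have hcurve : Filter.Tendsto (fun s : ℝ => (s, S s)) (nhds 0) (nhds (0, c)) :=
    Filter.Tendsto.prodMk_nhds Filter.tendsto_id hS0
  have hev := hcurve.eventually (merge_inj T hTc (0, c) hinj0)
  have hev2 : ∀ᶠ s in nhdsWithin (0 : ℝ) (Set.Ioi 0), 0 < s := eventually_mem_nhdsWithin
  obtain ⟨s, ⟨hs1, hs2⟩, hs⟩ :=
    (((hS.and hev).filter_mono nhdsWithin_le_nhds).and hev2).exists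
  set c' := S s with hc'
  have hs0 : s ≠ 0 := hs.ne'
  have heq : ∀ i j, F'.Adj i j → c' i ⬝ᵥ c' j +
      s ^ 2 * ((if P i ∧ P j then 1 else 0) * ((c' i ⬝ᵥ c' x) * (c' j ⬝ᵥ c' x))) = 0 := by
    intro i j hij
    rcases lt_or_gt_of_ne hij.ne with hlt | hlt
    · exact hs1 ⟨(i, j), hlt, hij⟩
    · have h1 := hs1 ⟨(j, i), hlt, hij.symm⟩
      change c' j ⬝ᵥ c' i +
        s ^ 2 * ((if P j ∧ P i then 1 else 0) * ((c' j ⬝ᵥ c' x) * (c' i ⬝ᵥ c' x))) = 0 at h1
      rw [dotProduct_comm (c' i) (c' j), mul_comm (c' i ⬝ᵥ c' x)]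
      simp only [and_comm (a := P i)]
      exact h1
  have heq1 : ∀ i j, F'.Adj i j → P i → P j →
      c' i ⬝ᵥ c' j + s ^ 2 * ((c' i ⬝ᵥ c' x) * (c' j ⬝ᵥ c' x)) = 0 := by
    intro i j hij hi hj
    have h1 := heq i j hij
    rwa [if_pos ⟨hi, hj⟩, one_mul] at h1
  have heq0 : ∀ i j, F'.Adj i j → ¬ (P i ∧ P j) → c' i ⬝ᵥ c' j = 0 := by
    intro i j hij hi
    have h1 := heq i j hij
    rwa [if_neg hi, zero_mul, mul_zero, add_zero] at h1
  let t : Fin n → ℝ := fun v => if v = x then 1 else if v = a then 1 else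
    if P v then -(s * (c' v ⬝ᵥ c' x)) else 0
  let w : Fin n → Fin k → ℝ := fun v => if v = x then 0 else if v = a then s • c' x else c' v
  have htx : t x = 1 := if_pos rfl
  have hta : t a = 1 := by
    change (if a = x then 1 else if a = a then 1 else
      if P a then -(s * (c' a ⬝ᵥ c' x)) else (0 : ℝ)) = 1
    rw [if_neg hxa.symm, if_pos rfl]
  have htP : ∀ v, P v → t v = -(s * (c' v ⬝ᵥ c' x)) := by
    intro v hv
    change (if v = x then 1 else if v = a then 1 else
      if P v then -(s * (c' v ⬝ᵥ c' x)) else (0 : ℝ)) = _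
    rw [if_neg (hPx v hv), if_neg (hPa v hv), if_pos hv]
  have ht0 : ∀ v, v ≠ x → v ≠ a → ¬ P v → t v = 0 := by
    intro v h1 h2 h3
    change (if v = x then 1 else if v = a then 1 else
      if P v then -(s * (c' v ⬝ᵥ c' x)) else (0 : ℝ)) = _
    rw [if_neg h1, if_neg h2, if_neg h3]
  have hwx : w x = 0 := if_pos rfl
  have hwa : w a = s • c' x := by
    change (if a = x then 0 else if a = a then s • c' x else c' a) = _
    rw [if_neg hxa.symm, if_pos rfl]
  have hw : ∀ v, v ≠ x → v ≠ a → w v = c' v := by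
    intro v h1 h2
    change (if v = x then 0 else if v = a then s • c' x else c' v) = _
    rw [if_neg h1, if_neg h2]
  have ox : ∀ j, F.Adj x j → cn (t x) (w x) ⬝ᵥ cn (t j) (w j) = 0 := by
    intro j hj
    have hjx : j ≠ x := hj.ne'
    have hja : j ≠ a := fun hh => hna (hh ▸ hj)
    rw [cn_dot, htx, hwx, ht0 j hjx hja (fun hh => hh.2 hj)]
    simp
  have oa : ∀ j, F.Adj a j → cn (t a) (w a) ⬝ᵥ cn (t j) (w j) = 0 := by
    intro j hj
    have hja : j ≠ a := hj.ne'
    have hjx : j ≠ x := fun hh => hax (hh ▸ hj)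
    rw [cn_dot, hta, hwa, hw j hjx hja, smul_dotProduct, smul_eq_mul]
    by_cases hP : P j
    · rw [htP j hP, dotProduct_comm (c' x)]
      ring
    · rw [ht0 j hjx hja hP]
      have hxj : F.Adj x j := by
        by_contra hh
        exact hP ⟨hj, hh⟩
      rw [heq0 x j (hx j hja hxj hj) (fun hh => hPx' hh.1)]
      ring
  refine ⟨fun v => cn (t v) (w v), ⟨fun i j hij => ?_, fun X hX hF hk => ?_⟩⟩
  · by_cases hix : i = x
    · rw [hix] at hij ⊢; exact ox j hij
    by_cases hjx : j = x
    · rw [hjx] at hij ⊢; rw [dotProduct_comm]; exact ox i hij.symm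
    by_cases hia : i = a
    · rw [hia] at hij ⊢; exact oa j hij
    by_cases hja : j = a
    · rw [hja] at hij ⊢; rw [dotProduct_comm]; exact oa i hij.symm
    have hF' := h i j hia hja hix hjx hij
    rw [cn_dot, hw i hix hia, hw j hjx hja]
    by_cases hP : P i ∧ P j
    · rw [htP i hP.1, htP j hP.2]
      have := heq1 i j hF' hP.1 hP.2
      linarith
    · rw [heq0 i j hF' hP, add_zero]
      by_cases hPi : P i
      · rw [ht0 j hjx hja (fun hh => hP ⟨hPi, hh⟩), mul_zero]
      · rw [ht0 i hix hia hPi, zero_mul]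
  · have hXF : ∀ i j, ¬ F.Adj i j → X i j = 0 := by
      intro i j hij
      by_contra hh
      exact hij (hF i j hh)
    have hk1 : ∀ i, ∑ j, X i j * t j = 0 := by
      intro i
      have h2 := hk i
      rw [sum_cn] at h2
      exact (cn_eq_zero h2).1
    have hk2 : ∀ i r, ∑ j, X i j * w j r = 0 := by
      intro i r
      have h2 := hk i
      rw [sum_cn] at h2
      have h3 := congrFun (cn_eq_zero h2).2 r
      rw [Finset.sum_apply] at h3
      exact h3
    have hk3 : ∀ v, ∑ j, X v j * t j = X v x + X v a -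
        s * ∑ j, (if P j then X v j * (c' j ⬝ᵥ c' x) else 0) := by
      intro v
      have e1 : ∀ j, X v j * t j = (if j = x then X v x else 0) + (if j = a then X v a else 0) -
          s * (if P j then X v j * (c' j ⬝ᵥ c' x) else 0) := by
        intro j
        by_cases hjx : j = x
        · rw [hjx, htx, if_pos rfl, if_neg hxa, if_neg hPx']; ring
        by_cases hja : j = a
        · rw [hja, hta, if_pos rfl, if_neg hxa.symm, if_neg hPa']; ring
        rw [if_neg hjx, if_neg hja]
        by_cases hP : P j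
        · rw [htP j hP, if_pos hP]; ring
        · rw [ht0 j hjx hja hP, if_neg hP]; ring
      rw [Finset.sum_congr rfl (fun j _ => e1 j), Finset.sum_sub_distrib, Finset.sum_add_distrib,
        Finset.sum_ite_eq' Finset.univ x (fun _ => X v x), if_pos (Finset.mem_univ x),
        Finset.sum_ite_eq' Finset.univ a (fun _ => X v a), if_pos (Finset.mem_univ a),
        ← Finset.mul_sum]
    let Z : Fin n → Fin n → ℝ := fun i j => if i = a ∨ j = a then 0 else
      if i = x then (if j = x then 0 else s * X j a) else if j = x then s * X i a else X i j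
    have hZa : ∀ j, Z a j = 0 := fun j => if_pos (Or.inl rfl)
    have hZa' : ∀ j, Z j a = 0 := fun j => if_pos (Or.inr rfl)
    have hZxx : Z x x = 0 := by
      change (if x = a ∨ x = a then 0 else
        if x = x then (if x = x then 0 else s * X x a) else if x = x then s * X x a else X x x) = 0
      rw [if_neg (by simp [hxa]), if_pos rfl, if_pos rfl]
    have hZx : ∀ j, j ≠ a → j ≠ x → Z x j = s * X j a := by
      intro j h1 h2
      change (if x = a ∨ j = a then 0 else
        if x = x then (if j = x then 0 else s * X j a) else if j = x then s * X x a else X x j) = _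
      rw [if_neg (by simp [hxa, h1]), if_pos rfl, if_neg h2]
    have hZx' : ∀ j, j ≠ a → j ≠ x → Z j x = s * X j a := by
      intro j h1 h2
      change (if j = a ∨ x = a then 0 else
        if j = x then (if x = x then 0 else s * X x a) else if x = x then s * X j a else X j x) = _
      rw [if_neg (by simp [hxa, h1]), if_neg h2, if_pos rfl]
    have hZ : ∀ i j, i ≠ a → j ≠ a → i ≠ x → j ≠ x → Z i j = X i j := by
      intro i j h1 h2 h3 h4
      change (if i = a ∨ j = a then 0 else
        if i = x then (if j = x then 0 else s * X j a) else if j = x then s * X i a else X i j) = _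
      rw [if_neg (by simp [h1, h2]), if_neg h3, if_neg h4]
    have hTZ : T (s, c') Z = 0 := by
      rw [hT0]
      refine ⟨fun i j => ?_, fun i j hij => ?_, fun i r => ?_, fun v hv => ?_⟩
      · by_cases hia : i = a
        · rw [hia, hZa, hZa']
        by_cases hja : j = a
        · rw [hja, hZa, hZa']
        by_cases hix : i = x
        · by_cases hjx : j = x
          · rw [hix, hjx]
          · rw [hix, hZx j hja hjx, hZx' j hja hjx]
        by_cases hjx : j = x
        · rw [hjx, hZx i hia hix, hZx' i hia hix]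
        rw [hZ i j hia hja hix hjx, hZ j i hja hia hjx hix, hX]
      · have hia : i ≠ a := fun hh => hij (by rw [hh, hZa])
        have hja : j ≠ a := fun hh => hij (by rw [hh, hZa'])
        by_cases hix : i = x
        · by_cases hjx : j = x
          · exact absurd (by rw [hix, hjx, hZxx]) hij
          · right; left
            refine ⟨hix, ?_⟩
            rw [hix, hZx j hja hjx] at hij
            by_contra hh
            exact hij (by rw [hXF j a (fun h1 => hh h1.symm), mul_zero])
        by_cases hjx : j = x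
        · right; right
          refine ⟨hjx, ?_⟩
          rw [hjx, hZx' i hia hix] at hij
          by_contra hh
          exact hij (by rw [hXF i a (fun h1 => hh h1.symm), mul_zero])
        left
        rw [hZ i j hia hja hix hjx] at hij
        exact ⟨hia, hja, hix, hjx, hF i j hij⟩
      · change ∑ j, Z i j * c' j r = 0
        by_cases hia : i = a
        · rw [hia]
          exact Finset.sum_eq_zero (fun j _ => by rw [hZa, zero_mul])
        by_cases hix : i = x
        · rw [hix]
          have e1 : ∑ j, Z x j * c' j r = s * ∑ j, X a j * w j r := by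
            rw [Finset.mul_sum]
            refine Finset.sum_congr rfl (fun j _ => ?_)
            by_cases hja : j = a
            · rw [hja, hZa', hXF a a (F.loopless.irrefl a)]; ring
            by_cases hjx : j = x
            · rw [hjx, hZxx, hXF a x hax]; ring
            rw [hZx j hja hjx, hw j hjx hja, hX j a]
            ring
          rw [e1, hk2, mul_zero]
        · rw [← Equiv.sum_comp (Equiv.swap a x) (fun j => Z i j * c' j r), ← hk2 i r]
          refine Finset.sum_congr rfl (fun j _ => ?_)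
          by_cases hja : j = a
          · rw [hja, Equiv.swap_apply_left, hZx' i hia hix, hwa, Pi.smul_apply, smul_eq_mul]
            ring
          by_cases hjx : j = x
          · rw [hjx, Equiv.swap_apply_right, hZa', hwx, Pi.zero_apply]
            ring
          rw [Equiv.swap_apply_of_ne_of_ne hja hjx, hZ i j hia hja hix hjx, hw j hjx hja]
      · change Z v x = s ^ 2 * ∑ w, (if P w then Z v w * (c' w ⬝ᵥ c' x) else 0)
        have hva := hPa v hv
        have hvx := hPx v hv
        have e1 : ∑ w, (if P w then Z v w * (c' w ⬝ᵥ c' x) else 0) =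
            ∑ w, (if P w then X v w * (c' w ⬝ᵥ c' x) else 0) := by
          refine Finset.sum_congr rfl (fun j _ => ?_)
          by_cases hP : P j
          · rw [if_pos hP, if_pos hP, hZ v j hva (hPa j hP) hvx (hPx j hP)]
          · rw [if_neg hP, if_neg hP]
        have e2 := hk1 v
        rw [hk3 v, hXF v x (fun hh => hv.2 hh.symm), zero_add] at e2
        have e3 : X v a = s * ∑ j, (if P j then X v j * (c' j ⬝ᵥ c' x) else 0) := by linarith
        rw [hZx' v hva hvx, e1, e3]
        ring
    have hZ0 := hs2 Z hTZ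
    have hZ0' : ∀ i j, Z i j = 0 := fun i j => by rw [hZ0]; rfl
    have f1 : ∀ i j, i ≠ a → j ≠ a → i ≠ x → j ≠ x → X i j = 0 := by
      intro i j h1 h2 h3 h4
      rw [← hZ i j h1 h2 h3 h4]
      exact hZ0' i j
    have f2 : ∀ i, X i a = 0 := by
      intro i
      by_cases hia : i = a
      · rw [hia]; exact hXF a a (F.loopless.irrefl a)
      by_cases hix : i = x
      · rw [hix]; exact hXF x a hna
      have h1 := hZ0' i x
      rw [hZx' i hia hix] at h1
      exact (mul_eq_zero.1 h1).resolve_left hs0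
    have f3 : ∀ i, X i x = 0 := by
      intro i
      by_cases hia : i = a
      · rw [hia]; exact hXF a x hax
      by_cases hix : i = x
      · rw [hix]; exact hXF x x (F.loopless.irrefl x)
      have h1 := hk1 i
      rw [hk3 i, f2 i, Finset.sum_eq_zero, mul_zero, sub_zero, add_zero] at h1
      · exact h1
      · intro j _
        by_cases hP : P j
        · rw [if_pos hP, f1 i j hia (hPa j hP) hix (hPx j hP), zero_mul]
        · rw [if_neg hP]
    intro i j
    by_cases hja : j = a
    · rw [hja]; exact f2 i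
    by_cases hjx : j = x
    · rw [hjx]; exact f3 i
    by_cases hia : i = a
    · rw [hia, hX]; exact f2 j
    by_cases hix : i = x
    · rw [hix, hX]; exact f3 j
    exact f1 i j hia hja hix hjx

end Pool.Agent.Lib.MP_a2d8aa_co.Rg
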