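import Pool.Agent.Lib.MP_a2d8aa_co.Rk.Sub
import Pool.Agent.Lib.MP_a2d8aa_co.Rg.Basic

/-!
Generic sequential representations in a maximum adjacency order are regular one dimension lower
than needed for faithfulness (MP_a2d8aa_co).
-/

set_option autoImplicit false

open Matrix

namespace Pool.Agent.Lib.MP_a2d8aa_co.Rg

open Pool.Agent.Lib.MP_a2d8aa_co.Rk

section

variable {V : Type*} [Fintype V]

/-- sequential independence of the earlier neighbours (newest vertex first) -/
def SeqInd (F : SimpleGraph V) {k : ℕ} (c : V → Fin k → ℝ) : List V → Prop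
  | [] => True
  | x :: l => SeqInd F c l ∧ ∀ y : V → ℝ, (∀ v, y v ≠ 0 → v ∈ l ∧ F.Adj x v) →
      ∑ v, y v • c v = 0 → ∀ v, y v = 0

theorem reg_of_seqInd {F : SimpleGraph V} {k : ℕ} {c : V → Fin k → ℝ} :
    ∀ {l : List V}, SeqInd F c l → ∀ X : V → V → ℝ, (∀ i j, X i j = X j i) →
      (∀ i j, X i j ≠ 0 → F.Adj i j ∧ i ∈ l ∧ j ∈ l) → (∀ i, ∑ j, X i j • c j = 0) →
      ∀ i j, X i j = 0 := by
  intro l
  induction l with
  | nil =>
    intro _ X _ hF _ i j
    by_contra h
    have := (hF i j h).2.1
    simp at this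
  | cons x l ih =>
    intro h X hX hF hk
    have hx : ∀ j, X x j = 0 := by
      refine h.2 (X x) (fun v hv => ?_) (hk x)
      have h1 := hF x v hv
      refine ⟨?_, h1.1⟩
      rcases List.mem_cons.1 h1.2.2 with h2 | h2
      · exact absurd h2 h1.1.ne'
      · exact h2
    have hx' : ∀ i, X i x = 0 := fun i => by rw [hX, hx]
    refine ih h.1 X hX (fun i j hij => ?_) hk
    have h1 := hF i j hij
    refine ⟨h1.1, ?_, ?_⟩
    · rcases List.mem_cons.1 h1.2.1 with h2 | h2
      · exact absurd (by rw [h2, hx]) hij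
      · exact h2
    · rcases List.mem_cons.1 h1.2.2 with h2 | h2
      · exact absurd (by rw [h2, hx']) hij
      · exact h2

/-- the complement of `G[W]` on the vertex set `W` -/
def coOn (W : Finset V) (G : SimpleGraph V) : SimpleGraph V where
  Adj i j := i ∈ W ∧ j ∈ W ∧ i ≠ j ∧ ¬ G.Adj i j
  symm := ⟨fun _ _ h => ⟨h.2.1, h.1, h.2.2.1.symm, fun hh => h.2.2.2 hh.symm⟩⟩
  loopless := ⟨fun _ h => h.2.2.1 rfl⟩

/-- `G[W]` -/
def resOn (W : Finset V) (G : SimpleGraph V) : SimpleGraph V where
  Adj i j := i ∈ W ∧ j ∈ W ∧ G.Adj i j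
  symm := ⟨fun _ _ h => ⟨h.2.1, h.1, h.2.2.symm⟩⟩
  loopless := ⟨fun i h => G.loopless.irrefl i h.2.2⟩

end

section

variable {V : Type*} (G : SimpleGraph V)

theorem ncnt_cons_mem {S : Set V} {x : V} {l : List V} (h : x ∈ S) :
    ncnt S (x :: l) = ncnt S l := by
  unfold ncnt; rw [List.countP_cons]; simp [h]

theorem ncnt_cons_not_mem {S : Set V} {x : V} {l : List V} (h : x ∉ S) :
    ncnt S (x :: l) = ncnt S l + 1 := by
  unfold ncnt; rw [List.countP_cons]; simp [h]

theorem ncnt_le_cons (S : Set V) (x : V) (l : List V) : ncnt S l ≤ ncnt S (x :: l) := by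
  by_cases h : x ∈ S
  · rw [ncnt_cons_mem h]
  · rw [ncnt_cons_not_mem h]; exact Nat.le_succ _

theorem lev_ge_of_dom {U : Set V} {l : List V} (h : MAU G U l) {S : Set V}
    (hS : Dom G S l) (d : ℤ) : d - ncnt S l ≤ lev G d l S := by
  have h1 := lev_append_of_dom G h [] hS d
  rw [List.append_nil] at h1
  have h2 := length_eq_cnt_add S l
  have h3 : (l.length : ℤ) = cnt S l + ncnt S l := by exact_mod_cast h2
  rw [List.length_nil] at h1
  push_cast at h1
  linarith

theorem indep_of_dom [Fintype V] {L : Type*} [Field L] (hL : Cardinal.aleph0 < Cardinal.mk L)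
    {K0 : Subfield L}
    (hK0 : Rk.Small K0) {d : ℕ} {c : V → Fin d → L} {U S : Set V} :
    ∀ {l : List V}, MAU G U l → Dom G S l → Rep G K0 c l → ncnt S l ≤ d →
      (∀ m ∈ l, m ∉ S → ncnt (G.neighborSet m) l ≤ d) →
      ∀ y : V → L, (∀ v, y v ≠ 0 → v ∈ l ∧ v ∉ S) → ∑ v, y v • c v = 0 → ∀ v, y v = 0 := by
  classical
  intro l
  induction l with
  | nil =>
    intro _ _ _ _ _ y hy _ v
    by_contra h
    have := (hy v h).1
    simp at this
  | cons m l ih =>
    intro hl hS hr hnum hm y hy hsum
    have hih : y m = 0 → ∀ v, y v = 0 := by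
      intro hym
      refine ih hl.1 hS.1 hr.1 ((ncnt_le_cons S m l).trans hnum)
        (fun m' hm' hm'S => (ncnt_le_cons _ m l).trans (hm m' (List.mem_cons_of_mem _ hm') hm'S))
        y (fun v hv => ?_) hsum
      obtain ⟨h1, h2⟩ := hy v hv
      refine ⟨?_, h2⟩
      rcases List.mem_cons.1 h1 with h3 | h3
      · rw [h3] at hv; exact absurd hym hv
      · exact h3
    by_cases hym : y m = 0
    · exact hih hym
    · exfalso
      have hmS : m ∉ S := (hy m hym).2
      rw [ncnt_cons_not_mem hmS] at hnum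
      have h1 := hm m List.mem_cons_self hmS
      rw [ncnt_cons_not_mem (by simp)] at h1
      have h2 := lev_ge_of_dom G hl.1 hS.1 (d : ℤ)
      have h3 := lev_ge_of_dom G hl.1 (dom_of_mau G hl.1 hl.2.2.1 hl.2.1) (d : ℤ)
      have h4 := pr_sp_ge G hL hK0 hr.1 (G.neighborSet m) S
      have h5 : c m ∈ perp (sp c l S) := by
        have h6 : c m = -((y m)⁻¹ • ∑ v ∈ Finset.univ.erase m, y v • c v) := by
          rw [← Finset.add_sum_erase _ _ (Finset.mem_univ m)] at hsum
          have h7 : y m • c m = -∑ v ∈ Finset.univ.erase m, y v • c v := by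
            rw [eq_neg_iff_add_eq_zero]; exact hsum
          rw [← smul_neg, ← h7, smul_smul, inv_mul_cancel₀ hym, one_smul]
        rw [h6]
        refine Submodule.neg_mem _ (Submodule.smul_mem _ _ (Submodule.sum_mem _ (fun v hv => ?_)))
        by_cases hv0 : y v = 0
        · rw [hv0, zero_smul]; exact Submodule.zero_mem _
        · refine Submodule.smul_mem _ _ ?_
          obtain ⟨h8, h9⟩ := hy v hv0
          have hvm : v ≠ m := (Finset.mem_erase.1 hv).1
          have hvl : v ∈ l := by
            rcases List.mem_cons.1 h8 with h10 | h10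
            · exact absurd h10 hvm
            · exact h10
          intro a ha
          rw [dotProduct_comm]
          exact (mem_sp_iff c).1 ha v hvl h9
      have h6 := pr_le_zero_of_le (hr.2.le_of_mem (rat_sp S).perp h5)
      omega

/-- In dimension `d ≥ |U| - 1 - δ(G[U])` the complement of `G[U]` has a regular
representation. -/
theorem reg_coOn [Fintype V] [DecidableEq V] [DecidableRel G.Adj] (U : Finset V) (d : ℕ)
    (hU : ∀ u ∈ U, (U.filter (fun v => ¬ G.Adj u v)).card ≤ d + 1) : Reg (coOn U G) d := by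
  classical
  have hL : Cardinal.aleph0 < Cardinal.mk ℝ := by
    rw [Cardinal.mk_real]; exact Cardinal.aleph0_lt_continuum
  have hK0 : Rk.Small (⊥ : Subfield ℝ) := small_bot hL
  obtain ⟨l, hl, hlen⟩ := exists_mau G U U.card le_rfl
  have hnd := nodup_of_mau G hl
  obtain ⟨c, hc⟩ := exists_rep (d := d) G hL hK0 l hnd
  have hall : ∀ v, v ∈ U → v ∈ l := by
    intro v hv
    have h1 : l.toFinset ⊆ U := by
      intro y hy
      exact mem_of_mau G hl y (List.mem_toFinset.1 hy)
    have h2 : l.toFinset = U := by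
      apply Finset.eq_of_subset_of_card_le h1
      rw [List.toFinset_card_of_nodup hnd, hlen]
    rw [← List.mem_toFinset, h2]
    exact hv
  have horth : ∀ l' : List V, Rep G (⊥ : Subfield ℝ) c l' →
      ∀ i ∈ l', ∀ j ∈ l', i ≠ j → ¬ G.Adj i j → c i ⬝ᵥ c j = 0 := by
    intro l'
    induction l' with
    | nil => intro _ i hi; simp at hi
    | cons x l' ih =>
      intro hr i hi j hj hij hadj
      have key : ∀ v ∈ l', ¬ G.Adj x v → c v ⬝ᵥ c x = 0 :=
        fun v hv hxv => (mem_sp_iff c).1 hr.2.1 v hv hxv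
      rcases List.mem_cons.1 hi with hi | hi <;> rcases List.mem_cons.1 hj with hj | hj
      · exact absurd (hi.trans hj.symm) hij
      · rw [hi, dotProduct_comm]
        exact key j hj (hi ▸ hadj)
      · rw [hj]
        exact key i hi (fun hh => hadj (hj ▸ hh.symm))
      · exact ih hr.1 i hi j hj hij hadj
  have hseq : ∀ l' : List V, MAU G (U : Set V) l' → Rep G (⊥ : Subfield ℝ) c l' →
      SeqInd (coOn U G) c l' := by
    intro l'
    induction l' with
    | nil => intro _ _; trivial
    | cons x l' ih =>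
      intro hl' hr'
      refine ⟨ih hl'.1 hr'.1, fun y hy hsum => ?_⟩
      have hxU : x ∈ U := hl'.2.2.1
      have hsub : ∀ v ∈ l', v ∈ U := fun v hv => mem_of_mau G hl'.1 v hv
      refine indep_of_dom G hL hK0 hl'.1 (dom_of_mau G hl'.1 hl'.2.2.1 hl'.2.1) hr'.1 ?_ ?_ y ?_ hsum
      · have h3 : ncnt (G.neighborSet x) l' ≤
            ((U.filter (fun v => ¬ G.Adj x v)).erase x).card := by
          refine ncnt_le_card _ _ (nodup_of_mau G hl'.1) _ ?_
          intro v hv hvS
          rw [Finset.mem_erase, Finset.mem_filter]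
          refine ⟨?_, hsub v hv, hvS⟩
          rintro rfl
          exact hl'.2.1 hv
        have hxx : x ∈ U.filter (fun v => ¬ G.Adj x v) := by
          rw [Finset.mem_filter]
          exact ⟨hxU, by simp⟩
        have h4 := Finset.card_erase_add_one hxx
        have h5 := hU x hxU
        omega
      · intro m hm hmS
        have h3 : ncnt (G.neighborSet m) l' ≤
            ((U.filter (fun v => ¬ G.Adj m v)).erase x).card := by
          refine ncnt_le_card _ _ (nodup_of_mau G hl'.1) _ ?_
          intro v hv hvS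
          rw [Finset.mem_erase, Finset.mem_filter]
          refine ⟨?_, hsub v hv, hvS⟩
          rintro rfl
          exact hl'.2.1 hv
        have hxx : x ∈ U.filter (fun v => ¬ G.Adj m v) := by
          rw [Finset.mem_filter]
          exact ⟨hxU, fun hh => hmS hh.symm⟩
        have h4 := Finset.card_erase_add_one hxx
        have h5 := hU m (hsub m hm)
        omega
      · intro v hv
        obtain ⟨h1, h2⟩ := hy v hv
        exact ⟨h1, h2.2.2.2⟩
  refine ⟨c, ⟨fun i j hij => ?_, fun X hX hF hk => ?_⟩⟩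
  · exact horth l hc i (hall i hij.1) j (hall j hij.2.1) hij.2.2.1 hij.2.2.2
  · refine reg_of_seqInd (hseq l hl hc) X hX (fun i j hij => ?_) hk
    have h1 := hF i j hij
    exact ⟨h1, hall i h1.1, hall j h1.2.1⟩

end

end Pool.Agent.Lib.MP_a2d8aa_co.Rg
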