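import Pool.Agent.Lib.MP_a2d8aa_co.Rg.Three
import Pool.Agent.Lib.MP_a2d8aa_co.Rg.Faithful
import Pool.Agent.Lib.MP_a2d8aa_co.Rg.AcyclicCol

/-!
The inequality `mr₊(G) + mr₊(Gᶜ) ≤ n + 2` for all graphs with `mr₊(Gᶜ) ≤ 5` (MP_a2d8aa_co).
-/

set_option autoImplicit false

open Matrix

namespace Pool.Agent.Lib.MP_a2d8aa_co.Rg

open Pool.Agent.Lib.MP_a2d8aa_co.Rk

theorem aleph0_lt_real : Cardinal.aleph0 < Cardinal.mk ℝ := by
  rw [Cardinal.mk_real]; exact Cardinal.aleph0_lt_continuum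

/-- `G` has a positive semidefinite matrix of rank at most `r` -/
def PsdRank {n : ℕ} (G : SimpleGraph (Fin n)) (r : ℕ) : Prop :=
  ∃ A : Matrix (Fin n) (Fin n) ℝ, A.PosSemidef ∧
    (∀ i j, i ≠ j → (A i j ≠ 0 ↔ G.Adj i j)) ∧ A.rank ≤ r

theorem PsdRank.of_rep {n d : ℕ} {G : SimpleGraph (Fin n)} (c : Fin n → Fin d → ℝ)
    (hc : ∀ u v, u ≠ v → (c u ⬝ᵥ c v ≠ 0 ↔ G.Adj u v)) : PsdRank G d := by
  refine ⟨(Matrix.of c) * (Matrix.of c)ᴴ, Matrix.posSemidef_self_mul_conjTranspose _, ?_, ?_⟩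
  · intro i j hij
    have h1 : ((Matrix.of c) * (Matrix.of c)ᴴ) i j = c i ⬝ᵥ c j := by
      rw [Matrix.mul_apply]
      simp only [Matrix.of_apply, Matrix.conjTranspose_apply, star_trivial, dotProduct]
    rw [h1]
    exact hc i j hij
  · have h1 := Matrix.rank_mul_le_left (Matrix.of c) (Matrix.of c)ᴴ
    have h2 := Matrix.rank_le_width (Matrix.of c)
    omega

/-- a regular representation of `G` (adjacent means orthogonal) bounds the complement -/
theorem PsdRank.of_reg {n k : ℕ} {G : SimpleGraph (Fin n)} (h : Reg G k) :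
    PsdRank Gᶜ (k + 1) := by
  obtain ⟨c, hc⟩ := h
  obtain ⟨c', hc'⟩ := exists_faithful_of_reg hc
  refine PsdRank.of_rep c' (fun u v huv => ?_)
  rw [hc' u v huv, SimpleGraph.compl_adj]
  exact ⟨fun h => ⟨huv, h⟩, fun h => h.2⟩

/-- a regular representation of the complement bounds the graph -/
theorem PsdRank.of_reg_compl {n k : ℕ} {G : SimpleGraph (Fin n)} (h : Reg Gᶜ k) :
    PsdRank G (k + 1) := by
  have h1 := PsdRank.of_reg h
  rwa [compl_compl] at h1

/-- induced subgraphs of minimum degree `k` -/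
theorem PsdRank.of_sub {n : ℕ} (G : SimpleGraph (Fin n)) [DecidableRel G.Adj]
    {U : Finset (Fin n)} (hne : U.Nonempty) (k : ℕ)
    (hU : ∀ u ∈ U, k ≤ (U.filter (fun v => G.Adj u v)).card) : PsdRank G (n - k) := by
  have hk : k ≤ n := by
    obtain ⟨u, hu⟩ := hne
    have h1 := Finset.card_le_univ (U.filter (fun v => G.Adj u v))
    rw [Fintype.card_fin] at h1
    exact (hU u hu).trans h1
  obtain ⟨c, hc⟩ := exists_faithful_sub G aleph0_lt_real hne k (n - k) hU
    (by rw [Fintype.card_fin]; omega)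
  exact PsdRank.of_rep c hc

/-- degenerate graphs -/
theorem PsdRank.of_degen {n : ℕ} (G : SimpleGraph (Fin n)) [DecidableRel G.Adj] (D : ℕ)
    (hdeg : ∀ W : Finset (Fin n), W.Nonempty →
      ∃ u ∈ W, (W.filter (fun v => G.Adj u v)).card ≤ D) : PsdRank Gᶜ (2 * D + 1) := by
  classical
  obtain ⟨c, hc⟩ := exists_faithful_degen Gᶜ aleph0_lt_real D (fun W hW => by
    obtain ⟨u, hu, h⟩ := hdeg W hW
    refine ⟨u, hu, (Finset.card_le_card ?_).trans h⟩
    intro v hv
    rw [Finset.mem_filter, Finset.mem_erase] at hv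
    rw [Finset.mem_filter]
    refine ⟨hv.1.2, ?_⟩
    by_contra h3
    exact hv.2 ((SimpleGraph.compl_adj G u v).2 ⟨hv.1.1.symm, h3⟩))
  exact PsdRank.of_rep c hc

/-- every nonempty graph has a degeneracy -/
theorem exists_dgn {n : ℕ} (hn : 0 < n) (G : SimpleGraph (Fin n)) [DecidableRel G.Adj] :
    ∃ D : ℕ, (∀ W : Finset (Fin n), W.Nonempty →
        ∃ u ∈ W, (W.filter (fun v => G.Adj u v)).card ≤ D) ∧
      ∃ U : Finset (Fin n), U.Nonempty ∧
        ∀ u ∈ U, D ≤ (U.filter (fun v => G.Adj u v)).card := by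
  classical
  have : Nonempty (Fin n) := ⟨⟨0, hn⟩⟩
  have hex : ∃ D : ℕ, ∀ W : Finset (Fin n), W.Nonempty →
      ∃ u ∈ W, (W.filter (fun v => G.Adj u v)).card ≤ D :=
    ⟨n, fun W ⟨u, hu⟩ => ⟨u, hu, by
      have h1 := Finset.card_le_univ (W.filter (fun v => G.Adj u v))
      rwa [Fintype.card_fin] at h1⟩⟩
  refine ⟨Nat.find hex, Nat.find_spec hex, ?_⟩
  rcases Nat.eq_zero_or_pos (Nat.find hex) with h0 | h0
  · refine ⟨Finset.univ, Finset.univ_nonempty, fun u _ => ?_⟩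
    rw [h0]; exact Nat.zero_le _
  · have h1 := Nat.find_min hex (Nat.sub_one_lt_of_lt h0)
    push Not at h1
    obtain ⟨W, hW, h2⟩ := h1
    refine ⟨W, hW, fun u hu => ?_⟩
    have := h2 u hu
    omega

/-- The inequality for the graphs whose complement has a matrix of rank at most five. -/
theorem rank_five {n : ℕ} (G : SimpleGraph (Fin n)) (h5 : PsdRank Gᶜ 5) :
    ∃ a b : ℕ, a + b ≤ n + 2 ∧ PsdRank G a ∧ PsdRank Gᶜ b := by
  classical
  rcases Nat.eq_zero_or_pos n with hn | hn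
  · subst hn
    refine ⟨0, 0, by omega, ?_, ?_⟩
    · exact PsdRank.of_rep (fun u => u.elim0) (fun u => u.elim0)
    · exact PsdRank.of_rep (fun u => u.elim0) (fun u => u.elim0)
  rcases three n Finset.univ G (by rw [Finset.card_univ, Fintype.card_fin]) with h | ⟨h4, h⟩
  · obtain ⟨D, hD1, U, hU, hD2⟩ := exists_dgn hn G
    by_cases hD : D ≤ 1
    · exact ⟨n - D, 2 * D + 1, by omega, PsdRank.of_sub G hU D hD2, PsdRank.of_degen G D hD1⟩
    · refine ⟨n - 2, 3 + 1, ?_, PsdRank.of_sub G hU 2 (fun u hu => ?_), ?_⟩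
      · obtain ⟨u, hu⟩ := hU
        have h1 := hD2 u hu
        have h2 := Finset.card_le_univ (U.filter (fun v => G.Adj u v))
        rw [Fintype.card_fin] at h2
        omega
      · have := hD2 u hu
        omega
      · exact PsdRank.of_reg (Reg.mono (F' := resOn Finset.univ G) (fun i j hij =>
          ⟨Finset.mem_univ i, Finset.mem_univ j, hij⟩) h.reg)
  · refine ⟨n - 4 + 1, 5, by omega, ?_, h5⟩
    refine PsdRank.of_reg_compl (Reg.mono (F' := coOn Finset.univ G) (fun i j hij => ?_) h)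
    rw [SimpleGraph.compl_adj] at hij
    exact ⟨Finset.mem_univ i, Finset.mem_univ j, hij.1, hij.2⟩

end Pool.Agent.Lib.MP_a2d8aa_co.Rg
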