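import Pool.Agent.Lib.MP_a2d8aa_co.Rg.RankFive
import Pool.Agent.Lib.MP_a2d8aa_co.Rg.Four
import Pool.Agent.Lib.MP_a2d8aa_co.Rg.DegenK

/-!
The inequality `mr₊(G) + mr₊(Gᶜ) ≤ n + 2` for all graphs with `mr₊(Gᶜ) ≤ 6`, and for all graphs
on at most ten vertices (MP_a2d8aa_co).
-/

set_option autoImplicit false

open Matrix

namespace Pool.Agent.Lib.MP_a2d8aa_co.Rg

open Pool.Agent.Lib.MP_a2d8aa_co.Rk

/-- degenerate graphs without `K_{D,D+1}` -/
theorem PsdRank.of_degenK {n : ℕ} (G : SimpleGraph (Fin n)) [DecidableRel G.Adj] {D : ℕ}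
    (hD : 1 ≤ D) (hdeg : ∀ W : Finset (Fin n), W.Nonempty →
      ∃ u ∈ W, (W.filter (fun v => G.Adj u v)).card ≤ D)
    (hK : ∀ P Q : Finset (Fin n), P.card = D → Q.card = D + 1 →
      ¬ ∀ p ∈ P, ∀ q ∈ Q, G.Adj p q) : PsdRank Gᶜ (2 * D) := by
  classical
  obtain ⟨l, hl, hmem⟩ := exists_degen Gᶜ (D := D) _ Finset.univ rfl (fun W _ hW => by
    obtain ⟨u, hu, h⟩ := hdeg W hW
    refine ⟨u, hu, (Finset.card_le_card ?_).trans h⟩
    intro v hv
    rw [Finset.mem_filter, Finset.mem_erase] at hv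
    rw [Finset.mem_filter]
    refine ⟨hv.1.2, ?_⟩
    by_contra h3
    exact hv.2 ((SimpleGraph.compl_adj G u v).2 ⟨hv.1.1.symm, h3⟩))
  obtain ⟨c, hc⟩ := exists_faithful_of_degenK (G := Gᶜ) aleph0_lt_real hD le_rfl l hl (by
    intro P Q _ _ hP hQ hPQ
    refine hK P Q hP hQ (fun p hp q hq => ?_)
    obtain ⟨h1, h2⟩ := hPQ p hp q hq
    by_contra h3
    exact h2 ((SimpleGraph.compl_adj G p q).2 ⟨h1, h3⟩))
  exact PsdRank.of_rep c (fun u v huv => hc u ((hmem u).2 (Finset.mem_univ u)) v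
    ((hmem v).2 (Finset.mem_univ v)) huv)

/-- Either the inequality holds or `mr₊(G) ≤ n - 4`. -/
theorem four_dichotomy {n : ℕ} (G : SimpleGraph (Fin n)) :
    (∃ a b : ℕ, a + b ≤ n + 2 ∧ PsdRank G a ∧ PsdRank Gᶜ b) ∨
      (4 ≤ n ∧ PsdRank G (n - 4)) := by
  classical
  rcases four n Finset.univ G (by rw [Finset.card_univ, Fintype.card_fin]) with h | ⟨h5, h⟩
  · left
    refine rank_five G (PsdRank.of_reg (Reg.mono (F' := resOn Finset.univ G) (fun i j hij =>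
      ⟨Finset.mem_univ i, Finset.mem_univ j, hij⟩) h.reg))
  · right
    rw [Finset.card_univ, Fintype.card_fin] at h5 h
    refine ⟨by omega, ?_⟩
    have h1 : n - 4 = n - 5 + 1 := by omega
    rw [h1]
    refine PsdRank.of_reg_compl (Reg.mono (F' := coOn Finset.univ G) (fun i j hij => ?_) h)
    rw [SimpleGraph.compl_adj] at hij
    exact ⟨Finset.mem_univ i, Finset.mem_univ j, hij.1, hij.2⟩

/-- The inequality for the graphs whose complement has a matrix of rank at most six. -/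
theorem rank_six {n : ℕ} (G : SimpleGraph (Fin n)) (h6 : PsdRank Gᶜ 6) :
    ∃ a b : ℕ, a + b ≤ n + 2 ∧ PsdRank G a ∧ PsdRank Gᶜ b := by
  rcases four_dichotomy G with h | ⟨h4, h⟩
  · exact h
  · exact ⟨n - 4, 6, by omega, h, h6⟩

/-- The inequality for the graphs with at most ten vertices. -/
theorem ten_vertices {n : ℕ} (hn : n ≤ 10) (G : SimpleGraph (Fin n)) :
    ∃ a b : ℕ, a + b ≤ n + 2 ∧ PsdRank G a ∧ PsdRank Gᶜ b := by
  rcases four_dichotomy G with h | ⟨h4, h⟩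
  · exact h
  · rcases four_dichotomy Gᶜ with ⟨a, b, hab, ha, hb⟩ | ⟨-, h'⟩
    · rw [compl_compl] at hb
      exact ⟨b, a, by omega, hb, ha⟩
    · exact ⟨n - 4, n - 4, by omega, h, h'⟩

end Pool.Agent.Lib.MP_a2d8aa_co.Rg
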