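import Pool.Agent.Lib.MP_a2d8aa_co.Rg.Conn
import Pool.Agent.Lib.MP_a2d8aa_co.Rg.MinDeg
import Pool.Agent.Lib.MP_a2d8aa_co.Rg.Merge

/-!
Rooted minors and regular representations of the complement (MP_a2d8aa_co).
-/

set_option autoImplicit false

namespace Pool.Agent.Lib.MP_a2d8aa_co.Rg

variable {n : ℕ}

/-- the complement of `G[W]` has a regular representation in dimension `|W| - 5` -/
def Pos (W : Finset (Fin n)) (G : SimpleGraph (Fin n)) : Prop :=
  5 ≤ W.card ∧ Reg (coOn W G) (W.card - 5)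

/-- `G'[W']` is a minor of `G[W]`, the branch set of `x ∈ W'` contains `x` -/
def RMin (G : SimpleGraph (Fin n)) (W : Finset (Fin n)) (G' : SimpleGraph (Fin n))
    (W' : Finset (Fin n)) : Prop :=
  ∃ B : Fin n → Finset (Fin n), (∀ x ∈ W', x ∈ B x ∧ B x ⊆ W ∧ Conn G (B x)) ∧
    (∀ x ∈ W', ∀ y ∈ W', x ≠ y → Disjoint (B x) (B y)) ∧
    (∀ x ∈ W', ∀ y ∈ W', G'.Adj x y → Touch G (B x) (B y))

/-- the edge `xy` contracted into `x` (`y` keeps its old edges but is no longer used) -/
def ctr (G : SimpleGraph (Fin n)) (x y : Fin n) : SimpleGraph (Fin n) where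
  Adj i j := i ≠ j ∧ (G.Adj i j ∨ (i = x ∧ G.Adj y j) ∨ (j = x ∧ G.Adj y i))
  symm := ⟨fun _ _ h => ⟨h.1.symm, by
    rcases h.2 with h1 | h1 | h1
    · exact Or.inl h1.symm
    · exact Or.inr (Or.inr h1)
    · exact Or.inr (Or.inl h1)⟩⟩
  loopless := ⟨fun _ h => h.1 rfl⟩

theorem Conn.mono_graph {V : Type*} [DecidableEq V] {G G' : SimpleGraph V} {X : Finset V}
    (h : ∀ u ∈ X, ∀ w ∈ X, G.Adj u w → G'.Adj u w) (hX : Conn G X) : Conn G' X := by
  refine ⟨hX.1, fun A hA hne hAne => ?_⟩
  obtain ⟨u, hu, w, hw, huw⟩ := hX.2 A hA hne hAne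
  exact ⟨u, hu, w, hw, h u (hA hu) w (Finset.mem_sdiff.1 hw).1 huw⟩

theorem Pos.of_ctr {W : Finset (Fin n)} {G : SimpleGraph (Fin n)} {x y : Fin n} (hx : x ∈ W)
    (hy : y ∈ W) (hxy : G.Adj x y) (h : Pos (W.erase y) (ctr G x y)) : Pos W G := by
  have hc : (W.erase y).card = W.card - 1 := Finset.card_erase_of_mem hy
  obtain ⟨h5, h⟩ := h
  rw [hc] at h5 h
  refine ⟨by omega, ?_⟩
  have h1 : W.card - 5 = W.card - 1 - 5 + 1 := by omega
  rw [h1]
  refine Reg.merge (F' := coOn (W.erase y) (ctr G x y)) (x := x) (a := y) hxy.ne ?_ ?_ ?_ h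
  · exact fun hh => hh.2.2.2 hxy
  · intro i j hiy hjy hix hjx hij
    refine ⟨Finset.mem_erase.2 ⟨hiy, hij.1⟩, Finset.mem_erase.2 ⟨hjy, hij.2.1⟩, hij.2.2.1, ?_⟩
    rintro ⟨-, h2 | h2 | h2⟩
    · exact hij.2.2.2 h2
    · exact hix h2.1
    · exact hjx h2.1
  · intro j hjy hxj hyj
    refine ⟨Finset.mem_erase.2 ⟨hxy.ne, hx⟩, Finset.mem_erase.2 ⟨hjy, hxj.2.1⟩, hxj.2.2.1, ?_⟩
    rintro ⟨-, h2 | h2 | h2⟩
    · exact hxj.2.2.2 h2
    · exact hyj.2.2.2 h2.2
    · exact hxj.2.2.1 h2.1.symm

theorem Pos.of_delete {W : Finset (Fin n)} {G : SimpleGraph (Fin n)} {y : Fin n}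
    (hy : y ∈ W) (h : Pos (W.erase y) G) : Pos W G := by
  have hc : (W.erase y).card = W.card - 1 := Finset.card_erase_of_mem hy
  obtain ⟨h5, h⟩ := h
  rw [hc] at h5 h
  refine ⟨by omega, ?_⟩
  have h1 : W.card - 5 = W.card - 1 - 5 + 1 := by omega
  rw [h1]
  exact Reg.delete (F' := coOn (W.erase y) G) y (fun i j hi hj hij =>
    ⟨Finset.mem_erase.2 ⟨hi, hij.1⟩, Finset.mem_erase.2 ⟨hj, hij.2.1⟩, hij.2.2⟩) h

theorem Pos.transfer {G' : SimpleGraph (Fin n)} {W' : Finset (Fin n)} (hP : Pos W' G') :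
    ∀ (m : ℕ) (W : Finset (Fin n)) (G : SimpleGraph (Fin n)), W.card = m →
      RMin G W G' W' → Pos W G := by
  classical
  intro m
  induction m with
  | zero =>
    intro W G hW hR
    obtain ⟨B, hB, -, -⟩ := hR
    have h5 : 0 < W'.card := by have := hP.1; omega
    obtain ⟨x, hx⟩ := Finset.card_pos.1 h5
    have h1 := (hB x hx).2.1 (hB x hx).1
    rw [Finset.card_eq_zero.1 hW] at h1
    simp at h1
  | succ m ih =>
    intro W G hW hR
    obtain ⟨B, hB, hdis, htou⟩ := hR
    by_cases h1 : ∃ x ∈ W', B x ≠ {x}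
    · obtain ⟨x, hx, hBx⟩ := h1
      obtain ⟨hxB, hBW, hconn⟩ := hB x hx
      obtain ⟨u, hu, y, hy, hxy⟩ := hconn.2 {x} (Finset.singleton_subset_iff.2 hxB)
        (Finset.singleton_nonempty x) hBx.symm
      rw [Finset.mem_singleton] at hu
      subst hu
      rw [Finset.mem_sdiff, Finset.mem_singleton] at hy
      have hyW : y ∈ W := hBW hy.1
      have hxW : u ∈ W := hBW hxB
      have hother : ∀ z ∈ W', z ≠ u → y ∉ B z := fun z hz hzx hyz =>
        (Finset.disjoint_left.1 (hdis z hz u hx hzx)) hyz hy.1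
      refine Pos.of_ctr hxW hyW hxy (ih (W.erase y) (ctr G u y) ?_ ?_)
      · rw [Finset.card_erase_of_mem hyW]; omega
      · refine ⟨fun z => (B z).erase y, fun z hz => ?_, fun z hz t ht hzt => ?_,
          fun z hz t ht hzt => ?_⟩
        · obtain ⟨hzB, hBzW, hcz⟩ := hB z hz
          refine ⟨Finset.mem_erase.2 ⟨?_, hzB⟩, Finset.erase_subset_erase y hBzW, ?_⟩
          · rintro rfl
            by_cases hzu : z = u
            · exact hy.2 hzu
            · exact hother z hz hzu hzB
          · by_cases hzu : z = u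
            · subst hzu
              refine ⟨⟨z, Finset.mem_erase.2 ⟨fun h => hy.2 h.symm, hzB⟩⟩,
                fun A hA hne hAne => ?_⟩
              by_cases hzA : z ∈ A
              · have hyA : y ∉ A := fun h => (Finset.mem_erase.1 (hA h)).1 rfl
                obtain ⟨p, hp, q, hq, hpq⟩ := hcz.2 (insert y A)
                  (Finset.insert_subset hy.1 (hA.trans (Finset.erase_subset _ _)))
                  (Finset.insert_nonempty _ _) (fun h => hAne (by
                    show A = (B z).erase y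
                    rw [← h, Finset.erase_insert hyA]))
                rw [Finset.mem_sdiff, Finset.mem_insert, not_or] at hq
                rcases Finset.mem_insert.1 hp with rfl | hp
                · exact ⟨z, hzA, q, Finset.mem_sdiff.2 ⟨Finset.mem_erase.2 ⟨hq.2.1, hq.1⟩,
                    hq.2.2⟩, fun h => hq.2.2 (h ▸ hzA), Or.inr (Or.inl ⟨rfl, hpq⟩)⟩
                · exact ⟨p, hp, q, Finset.mem_sdiff.2 ⟨Finset.mem_erase.2 ⟨hq.2.1, hq.1⟩,
                    hq.2.2⟩, hpq.ne, Or.inl hpq⟩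
              · have hyA : y ∉ A := fun h => (Finset.mem_erase.1 (hA h)).1 rfl
                obtain ⟨p, hp, q, hq, hpq⟩ := hcz.2 A (hA.trans (Finset.erase_subset _ _)) hne
                  (fun h => hyA (h ▸ hy.1))
                rw [Finset.mem_sdiff] at hq
                by_cases hqy : q = y
                · subst hqy
                  exact ⟨p, hp, z, Finset.mem_sdiff.2 ⟨Finset.mem_erase.2 ⟨fun h => hy.2 h.symm,
                    hzB⟩, hzA⟩, fun h => hzA (h ▸ hp), Or.inr (Or.inr ⟨rfl, hpq.symm⟩)⟩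
                · exact ⟨p, hp, q, Finset.mem_sdiff.2 ⟨Finset.mem_erase.2 ⟨hqy, hq.1⟩, hq.2⟩,
                    hpq.ne, Or.inl hpq⟩
            · have h2 : (B z).erase y = B z := Finset.erase_eq_of_notMem (hother z hz hzu)
              show Conn (ctr G u y) ((B z).erase y)
              rw [h2]
              exact hcz.mono_graph (fun p _ q _ hpq => ⟨hpq.ne, Or.inl hpq⟩)
        · exact (hdis z hz t ht hzt).mono (Finset.erase_subset _ _) (Finset.erase_subset _ _)
        · have hzt' : z ≠ t := hzt.ne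
          obtain ⟨p, hp, q, hq, hpq⟩ := htou z hz t ht hzt
          have hdzt := hdis z hz t ht hzt'
          by_cases hpy : p = y
          · have hzu : z = u := by
              by_contra h
              exact hother z hz h (hpy ▸ hp)
            have hqy : q ≠ y := fun h => hpq.ne (hpy.trans h.symm)
            refine ⟨u, Finset.mem_erase.2 ⟨fun h => hy.2 h.symm, hzu ▸ (hB z hz).1⟩, q,
              Finset.mem_erase.2 ⟨hqy, hq⟩, ?_, Or.inr (Or.inl ⟨rfl, hpy ▸ hpq⟩)⟩
            rintro rfl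
            exact (Finset.disjoint_left.1 hdzt) (hzu ▸ (hB z hz).1) hq
          · by_cases hqy : q = y
            · have htu : t = u := by
                by_contra h
                exact hother t ht h (hqy ▸ hq)
              refine ⟨p, Finset.mem_erase.2 ⟨hpy, hp⟩, u,
                Finset.mem_erase.2 ⟨fun h => hy.2 h.symm, htu ▸ (hB t ht).1⟩, ?_,
                Or.inr (Or.inr ⟨rfl, (hqy ▸ hpq).symm⟩)⟩
              rintro rfl
              exact (Finset.disjoint_left.1 hdzt) hp (htu ▸ (hB t ht).1)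
            · exact ⟨p, Finset.mem_erase.2 ⟨hpy, hp⟩, q, Finset.mem_erase.2 ⟨hqy, hq⟩,
                hpq.ne, Or.inl hpq⟩
    · push Not at h1
      have hWW : W' ⊆ W := fun x hx => (hB x hx).2.1 (hB x hx).1
      by_cases h2 : W ⊆ W'
      · have h3 : W' = W := Finset.Subset.antisymm hWW h2
        subst h3
        refine ⟨hP.1, Reg.mono (fun i j hij => ?_) hP.2⟩
        refine ⟨hij.1, hij.2.1, hij.2.2.1, fun hh => hij.2.2.2 ?_⟩
        obtain ⟨p, hp, q, hq, hpq⟩ := htou i hij.1 j hij.2.1 hh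
        rw [h1 i hij.1, Finset.mem_singleton] at hp
        rw [h1 j hij.2.1, Finset.mem_singleton] at hq
        rwa [hp, hq] at hpq
      · obtain ⟨y, hyW, hyW'⟩ := Finset.not_subset.1 h2
        refine Pos.of_delete hyW (ih (W.erase y) G ?_ ⟨B, fun z hz => ?_, hdis, htou⟩)
        · rw [Finset.card_erase_of_mem hyW]; omega
        · refine ⟨(hB z hz).1, ?_, (hB z hz).2.2⟩
          rw [h1 z hz, Finset.singleton_subset_iff]
          exact Finset.mem_erase.2 ⟨fun h => hyW' (h ▸ hz), hWW hz⟩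

/-- a `K₅` minor gives the dimension `|W| - 5` -/
theorem Pos.of_K5 {G : SimpleGraph (Fin n)} {W : Finset (Fin n)} (h : K5 G W) : Pos W G := by
  classical
  obtain ⟨X, hX, hXX⟩ := h
  choose r hr using fun i => (hX i).2.1
  have hinj : Function.Injective r := by
    intro i j hij
    by_contra hne
    rcases lt_or_gt_of_ne hne with h | h
    · exact (Finset.disjoint_left.1 (hXX i j h).1) (hr i) (hij ▸ hr j)
    · exact (Finset.disjoint_left.1 (hXX j i h).1) (hr j) (hij ▸ hr i)
  have hB : ∀ i, (Finset.univ.filter (fun j => r j = r i)).biUnion X = X i := by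
    intro i
    have h1 : Finset.univ.filter (fun j => r j = r i) = {i} := by
      ext j
      rw [Finset.mem_filter, Finset.mem_singleton]
      exact ⟨fun h => hinj h.2, fun h => ⟨Finset.mem_univ _, by rw [h]⟩⟩
    rw [h1, Finset.singleton_biUnion]
  have hcard : (Finset.univ.image r).card = 5 := by
    rw [Finset.card_image_of_injective _ hinj, Finset.card_univ, Fintype.card_fin]
  refine Pos.transfer (G' := ⊤) (W' := Finset.univ.image r) ⟨hcard.ge, ?_⟩ W.card W G rfl
    ⟨fun x => (Finset.univ.filter (fun i => r i = x)).biUnion X, ?_, ?_, ?_⟩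
  · refine ⟨fun _ => 0, ⟨fun i j hij => absurd hij.2.2.1 (fun h => hij.2.2.2 h), ?_⟩⟩
    intro Y _ hF _ i j
    by_contra h
    have hij := hF i j h
    exact hij.2.2.2 hij.2.2.1
  · intro x hx
    obtain ⟨i, -, rfl⟩ := Finset.mem_image.1 hx
    show r i ∈ (Finset.univ.filter (fun j => r j = r i)).biUnion X ∧
      (Finset.univ.filter (fun j => r j = r i)).biUnion X ⊆ W ∧
      Conn G ((Finset.univ.filter (fun j => r j = r i)).biUnion X)
    rw [hB i]
    exact ⟨hr i, (hX i).1, (hX i).2⟩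
  · intro x hx y hy hxy
    obtain ⟨i, -, rfl⟩ := Finset.mem_image.1 hx
    obtain ⟨j, -, rfl⟩ := Finset.mem_image.1 hy
    show Disjoint ((Finset.univ.filter (fun l => r l = r i)).biUnion X)
      ((Finset.univ.filter (fun l => r l = r j)).biUnion X)
    rw [hB i, hB j]
    have hij : i ≠ j := fun h => hxy (by rw [h])
    rcases lt_or_gt_of_ne hij with h | h
    · exact (hXX i j h).1
    · exact (hXX j i h).1.symm
  · intro x hx y hy hxy
    obtain ⟨i, -, rfl⟩ := Finset.mem_image.1 hx
    obtain ⟨j, -, rfl⟩ := Finset.mem_image.1 hy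
    show Touch G ((Finset.univ.filter (fun l => r l = r i)).biUnion X)
      ((Finset.univ.filter (fun l => r l = r j)).biUnion X)
    rw [hB i, hB j]
    have hij : i ≠ j := fun h => hxy.ne (by rw [h])
    rcases lt_or_gt_of_ne hij with h | h
    · exact (hXX i j h).2
    · exact (hXX j i h).2.symm

end Pool.Agent.Lib.MP_a2d8aa_co.Rg
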